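import Mathlib

/-!
# Transcendence bases among the coordinates
-/

noncomputable section

namespace Pool.Agent.H92.GT

open scoped IntermediateField.algebraAdjoinAdjoin in
/-- If `K` is algebraic over `ℂ(x)` there is a transcendence basis among the coordinates. -/
theorem exists_index {K : Type} [Field K] [Algebra ℂ K] {k n : ℕ} {x : Fin n → K}
    (halg : Algebra.IsAlgebraic (IntermediateField.adjoin ℂ (Set.range x)) K) {z : Fin k → K}
    (hz : IsTranscendenceBasis ℂ z) :
    ∃ J : Fin k → Fin n, IsTranscendenceBasis ℂ fun i => x (J i) := by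
  have h1 : Algebra.IsAlgebraic (Algebra.adjoin ℂ (Set.range x)) K :=
    (IsFractionRing.comap_isAlgebraic_iff (A := Algebra.adjoin ℂ (Set.range x))
      (K := IntermediateField.adjoin ℂ (Set.range x)) (C := K)).mpr halg
  obtain ⟨u, hu, hub⟩ := exists_isTranscendenceBasis_subset (R := ℂ) (Set.range x)
  have h2 := hub.cardinalMk_eq hz
  rw [Cardinal.mk_fin] at h2
  have h3 : Finite u := by
    rw [← Cardinal.lt_aleph0_iff_finite, h2]
    exact Cardinal.natCast_lt_aleph0
  have h4 : Nat.card u = k := by
    rw [Nat.card, h2]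
    simp
  let eqv : Fin k ≃ u := (finCongr h4.symm).trans (Finite.equivFin u).symm
  choose J hJ using fun i : Fin k => hu (eqv i).2
  refine ⟨J, ?_⟩
  have h5 : (fun i => x (J i)) = (Subtype.val : u → K) ∘ eqv := funext hJ
  rw [h5, isTranscendenceBasis_equiv]
  exact hub

open scoped IntermediateField.algebraAdjoinAdjoin in
/-- A criterion for transcendence bases. -/
theorem isTranscendenceBasis_of {K : Type} [Field K] [Algebra ℂ K] {k : ℕ} {z : Fin k → K}
    (hz : AlgebraicIndependent ℂ z)
    (halg : Algebra.IsAlgebraic (IntermediateField.adjoin ℂ (Set.range z)) K) :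
    IsTranscendenceBasis ℂ z := by
  rw [hz.isTranscendenceBasis_iff_isAlgebraic]
  exact (IsFractionRing.comap_isAlgebraic_iff (A := Algebra.adjoin ℂ (Set.range z))
      (K := IntermediateField.adjoin ℂ (Set.range z)) (C := K)).mpr halg

end Pool.Agent.H92.GT
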