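import Pool.Agent.H17LG.Point
import Pool.Agent.H17GT.Main

/-!
# The generic point of a closed subvariety of projective space
-/

open MvPolynomial
open Pool.Agent.H17GT (coordFun functionField)

noncomputable section

namespace Pool.Agent.H92.GT.Proj

variable {N : ℕ}

lemma aeval_scale {K : Type} [Field K] [Algebra ℂ K] {G : MvPolynomial (Fin (N + 1)) ℂ} {n : ℕ}
    (hG : G.IsHomogeneous n) (c : K) (x : Fin (N + 1) → K) :
    aeval (fun i => c * x i) G = c ^ n * aeval x G := by
  rw [aeval_def, aeval_def, eval₂_eq, eval₂_eq, Finset.mul_sum]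
  refine Finset.sum_congr rfl fun m hm => ?_
  have h5 : ∑ i ∈ m.support, m i = n := by
    have := hG (mem_support_iff.1 hm)
    rw [Finsupp.weight_apply, Finsupp.sum] at this
    simpa using this
  simp only [mul_pow, Finset.prod_mul_distrib]
  rw [Finset.prod_pow_eq_pow_sum, h5]
  ring

lemma aeval_coordFun_eq_zero_iff (P : Ideal (MvPolynomial (Fin (N + 1)) ℂ)) [P.IsPrime]
    (G : MvPolynomial (Fin (N + 1)) ℂ) : aeval (coordFun P) G = 0 ↔ G ∈ P := by
  have h7 : aeval (coordFun P) G =
      algebraMap (MvPolynomial (Fin (N + 1)) ℂ ⧸ P)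
        (FractionRing (MvPolynomial (Fin (N + 1)) ℂ ⧸ P)) (Ideal.Quotient.mk P G) := by
    have h8 : (aeval (coordFun P) : MvPolynomial (Fin (N + 1)) ℂ →ₐ[ℂ] _) =
        (IsScalarTower.toAlgHom ℂ (MvPolynomial (Fin (N + 1)) ℂ ⧸ P)
          (FractionRing (MvPolynomial (Fin (N + 1)) ℂ ⧸ P))).comp (Ideal.Quotient.mkₐ ℂ P) := by
      apply MvPolynomial.algHom_ext
      intro i
      rw [aeval_X]
      rfl
    rw [h8]
    rfl
  rw [h7, ← Ideal.Quotient.eq_zero_iff_mem]
  exact map_eq_zero_iff _ (IsFractionRing.injective (MvPolynomial (Fin (N + 1)) ℂ ⧸ P)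
    (FractionRing (MvPolynomial (Fin (N + 1)) ℂ ⧸ P)))

/-- The generic point, normalised at a coordinate. -/
theorem proj_point (P : Ideal (MvPolynomial (Fin (N + 1)) ℂ)) [P.IsPrime] {j₀ : Fin (N + 1)}
    (hj₀ : coordFun P j₀ ≠ 0) :
    ∃ x : Fin (N + 1) → functionField P, x j₀ = 1 ∧
      IntermediateField.adjoin ℂ (Set.range x) = ⊤ ∧
      ∀ (n : ℕ) (G : MvPolynomial (Fin (N + 1)) ℂ), G.IsHomogeneous n →
        (aeval x G = 0 ↔ G ∈ P) := by
  classical
  have hmem : ∀ i, coordFun P i / coordFun P j₀ ∈ functionField P := fun i =>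
    IntermediateField.subset_adjoin _ _ ⟨i, j₀, rfl⟩
  set x : Fin (N + 1) → functionField P := fun i => ⟨coordFun P i / coordFun P j₀, hmem i⟩ with hx
  have hx1 : x j₀ = 1 := by
    apply Subtype.ext
    rw [hx]
    exact div_self hj₀
  have hratio : ∀ i j, ((x i / x j : functionField P) :
      FractionRing (MvPolynomial (Fin (N + 1)) ℂ ⧸ P)) = coordFun P i / coordFun P j := by
    intro i j
    have h1 : ((x i / x j : functionField P) :
      FractionRing (MvPolynomial (Fin (N + 1)) ℂ ⧸ P)) =
        (coordFun P i / coordFun P j₀) / (coordFun P j / coordFun P j₀) := by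
      rw [hx]
      rfl
    rw [h1, div_div_div_cancel_right₀ hj₀]
  have hgen : IntermediateField.adjoin ℂ {y | ∃ i j, y = x i / x j} = ⊤ := by
    rw [← IntermediateField.lift_inj, IntermediateField.lift_adjoin, IntermediateField.lift_top]
    conv_rhs => rw [functionField]
    congr 1
    ext y
    constructor
    · rintro ⟨y', ⟨i, j, rfl⟩, rfl⟩
      exact ⟨i, j, hratio i j⟩
    · rintro ⟨i, j, rfl⟩
      exact ⟨x i / x j, ⟨i, j, rfl⟩, hratio i j⟩
  refine ⟨x, hx1, ?_, ?_⟩
  · rw [eq_top_iff, ← hgen, IntermediateField.adjoin_le_iff]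
    rintro y ⟨i, j, rfl⟩
    exact div_mem (IntermediateField.subset_adjoin _ _ ⟨i, rfl⟩)
      (IntermediateField.subset_adjoin _ _ ⟨j, rfl⟩)
  · intro n G hG
    have h1 : ((aeval x G : functionField P) : FractionRing (MvPolynomial (Fin (N + 1)) ℂ ⧸ P)) =
        aeval (fun i => (coordFun P j₀)⁻¹ * coordFun P i) G := by
      have h3 : ((functionField P).val (aeval x G)) =
          aeval (fun i => (functionField P).val (x i)) G := by
        rw [← MvPolynomial.comp_aeval]
        rfl
      change (functionField P).val (aeval x G) = _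
      rw [h3]
      congr 2
      funext i
      change coordFun P i / coordFun P j₀ = _
      rw [div_eq_inv_mul]
    rw [aeval_scale hG] at h1
    rw [← aeval_coordFun_eq_zero_iff]
    constructor
    · intro h0
      rw [h0] at h1
      exact (mul_eq_zero.1 h1.symm).resolve_left (pow_ne_zero _ (inv_ne_zero hj₀))
    · intro h0
      apply Subtype.ext
      rw [h1, h0, mul_zero]
      rfl

/-- Some coordinate does not vanish. -/
lemma exists_coordFun_ne_zero (P : Ideal (MvPolynomial (Fin (N + 1)) ℂ)) [P.IsPrime] {k : ℕ}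
    (z : Fin (k + 1) → functionField P) (hz : IsTranscendenceBasis ℂ z) :
    ∃ j, coordFun P j ≠ 0 := by
  by_contra hcon
  push Not at hcon
  have h1 : functionField P = ⊥ := by
    rw [functionField, IntermediateField.adjoin_eq_bot_iff]
    rintro y ⟨i, j, rfl⟩
    rw [hcon i, zero_div]
    exact zero_mem _
  have h2 := hz.1.transcendental 0
  apply h2
  have h3 : ((z 0 : functionField P) : FractionRing (MvPolynomial (Fin (N + 1)) ℂ ⧸ P)) ∈
      (⊥ : IntermediateField ℂ (FractionRing (MvPolynomial (Fin (N + 1)) ℂ ⧸ P))) := by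
    rw [← h1]
    exact (z 0).2
  obtain ⟨a, ha⟩ := IntermediateField.mem_bot.1 h3
  have h4 : z 0 = algebraMap ℂ (functionField P) a := by
    apply Subtype.ext
    rw [← ha]
    rfl
  rw [h4]
  exact isAlgebraic_algebraMap a

end Pool.Agent.H92.GT.Proj
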