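import Mathlib

/-!
# Homogenisation
-/

open MvPolynomial

noncomputable section

namespace Pool.Agent.H92.GT

variable {r : ℕ}

/-- The homogenised polynomial. -/
def hmg {B : Type} [CommRing B] [Algebra ℂ B] (p : MvPolynomial (Fin r) ℂ) (A : Fin (r + 1) → B) :
    B :=
  ∑ m ∈ p.support, algebraMap ℂ B (p.coeff m) *
    (A 0 ^ (p.totalDegree - ∑ i, m i) * ∏ i : Fin r, A (Fin.succ i) ^ m i)

lemma map_hmg {B B' : Type} [CommRing B] [Algebra ℂ B] [CommRing B'] [Algebra ℂ B']
    (f : B →ₐ[ℂ] B') (p : MvPolynomial (Fin r) ℂ) (A : Fin (r + 1) → B) :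
    f (hmg p A) = hmg p fun i => f (A i) := by
  unfold hmg
  rw [map_sum]
  refine Finset.sum_congr rfl fun m _ => ?_
  rw [map_mul, map_mul, map_pow, map_prod, AlgHom.commutes]
  congr 2
  exact Finset.prod_congr rfl fun i _ => map_pow _ _ _

lemma hmg_eq {K : Type} [Field K] [Algebra ℂ K] (p : MvPolynomial (Fin r) ℂ)
    {A : Fin (r + 1) → K} (h : A 0 ≠ 0) :
    hmg p A = A 0 ^ p.totalDegree * aeval (fun i : Fin r => A (Fin.succ i) / A 0) p := by
  unfold hmg
  rw [aeval_def, eval₂_eq', Finset.mul_sum]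
  refine Finset.sum_congr rfl fun m hm => ?_
  have h1 : ∑ i, m i ≤ p.totalDegree := by
    have h2 := le_totalDegree hm
    rwa [Finsupp.sum_fintype _ _ (fun _ => rfl)] at h2
  have h3 : A 0 ^ p.totalDegree = A 0 ^ (p.totalDegree - ∑ i, m i) * A 0 ^ (∑ i, m i) := by
    rw [← pow_add, Nat.sub_add_cancel h1]
  have h4 : ∏ i : Fin r, (A (Fin.succ i) / A 0) ^ m i =
      (∏ i : Fin r, A (Fin.succ i) ^ m i) / A 0 ^ (∑ i, m i) := by
    rw [Finset.prod_congr rfl fun i _ => div_pow (A (Fin.succ i)) (A 0) (m i),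
      Finset.prod_div_distrib, Finset.prod_pow_eq_pow_sum]
  rw [h3, h4]
  field_simp

lemma hmg_isWeightedHomogeneous {σ : Type} {w : σ → ℕ} {d : ℕ} (p : MvPolynomial (Fin r) ℂ)
    {A : Fin (r + 1) → MvPolynomial σ ℂ} (hA : ∀ i, IsWeightedHomogeneous w (A i) d) :
    IsWeightedHomogeneous w (hmg p A) (p.totalDegree * d) := by
  unfold hmg
  refine IsWeightedHomogeneous.sum _ _ _ fun m hm => ?_
  have h1 : ∑ i, m i ≤ p.totalDegree := by
    have h2 := le_totalDegree hm
    rwa [Finsupp.sum_fintype _ _ (fun _ => rfl)] at h2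
  have h2 := (isWeightedHomogeneous_C w (p.coeff m)).mul
    (((hA 0).pow (p.totalDegree - ∑ i, m i)).mul
      (IsWeightedHomogeneous.prod Finset.univ (fun i : Fin r => A (Fin.succ i) ^ m i)
        (fun i => m i * d) fun i _ => by
          have h3 := (hA (Fin.succ i)).pow (m i)
          rwa [smul_eq_mul] at h3))
  have h3 : 0 + ((p.totalDegree - ∑ i, m i) • d + ∑ i : Fin r, m i * d) = p.totalDegree * d := by
    rw [zero_add, smul_eq_mul, ← Finset.sum_mul, ← add_mul, Nat.sub_add_cancel h1]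
  rw [h3] at h2
  exact h2

/-- If the homogenised polynomial vanishes at the variables the polynomial is zero. -/
lemma eq_zero_of_hmg {p : MvPolynomial (Fin r) ℂ}
    (h : hmg p (fun i : Fin (r + 1) => (X i : MvPolynomial (Fin (r + 1)) ℂ)) = 0) : p = 0 := by
  apply MvPolynomial.funext
  intro c
  have h1 := congrArg (aeval (Fin.cons (1 : ℂ) c : Fin (r + 1) → ℂ) :
    MvPolynomial (Fin (r + 1)) ℂ →ₐ[ℂ] ℂ) h
  rw [map_hmg, map_zero] at h1
  simp only [aeval_X] at h1
  rw [hmg_eq p (by simp)] at h1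
  simp only [Fin.cons_zero, Fin.cons_succ, one_pow, one_mul, div_one] at h1
  rw [map_zero]
  rw [aeval_def] at h1
  exact h1

end Pool.Agent.H92.GT
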