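import Pool.Agent.H92.GT.Kummer

/-!
# Relations between radicals specialise to all choices of the roots
-/

noncomputable section

namespace Pool.Agent.H92.GT.Kummer

open MvPolynomial

variable {R : Type} [CommRing R] [IsDomain R] [WfDvdMonoid R] [Algebra ℂ R] {σ : Type} [Fintype σ]
  [DecidableEq σ] {L : Type} [Field L] [Algebra R L] [Algebra (FractionRing R) L]
  [IsScalarTower R (FractionRing R) L] [Algebra ℂ L] [IsScalarTower ℂ R L]
  [IsScalarTower ℂ (FractionRing R) L] [IsGalois (FractionRing R) L]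

/-- The reduction of exponents. -/
def red {n : σ → ℕ} (hn : ∀ i, 0 < n i) (m : σ →₀ ℕ) : ∀ i, Fin (n i) := fun i =>
  ⟨m i % n i, Nat.mod_lt _ (hn i)⟩

/-- The coefficients after the reduction. -/
def rcoeff {n : σ → ℕ} (hn : ∀ i, 0 < n i) (Q : MvPolynomial σ ℂ) {A : Type} [CommRing A]
    [Algebra ℂ A] (u : σ → A) (κ : ∀ i, Fin (n i)) : A :=
  ∑ m ∈ Q.support.filter (fun m => red hn m = κ), algebraMap ℂ A (Q.coeff m) *
    ∏ i, u i ^ (m i / n i)

omit [DecidableEq σ] in
lemma aeval_eq_sum [DecidableEq σ] {n : σ → ℕ} (hn : ∀ i, 0 < n i) (Q : MvPolynomial σ ℂ)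
    {A : Type} [CommRing A] [Algebra ℂ A] {u ρ : σ → A} (hu : ∀ i, ρ i ^ n i = u i) :
    aeval ρ Q = ∑ κ : ∀ i, Fin (n i), rcoeff hn Q u κ * ∏ i, ρ i ^ (κ i : ℕ) := by
  rw [aeval_def, eval₂_eq', ← Finset.sum_fiberwise Q.support (red hn)]
  refine Finset.sum_congr rfl fun κ _ => ?_
  rw [rcoeff, Finset.sum_mul]
  refine Finset.sum_congr rfl fun m hm => ?_
  have hκ : red hn m = κ := (Finset.mem_filter.mp hm).2
  rw [← hκ, mul_assoc, ← Finset.prod_mul_distrib]
  congr 1
  refine Finset.prod_congr rfl fun i _ => ?_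
  rw [← hu i, ← pow_mul, ← pow_add]
  congr 1
  exact (Nat.div_add_mod (m i) (n i)).symm

omit [DecidableEq σ] in
lemma map_rcoeff {n : σ → ℕ} (hn : ∀ i, 0 < n i) (Q : MvPolynomial σ ℂ) {A B : Type}
    [CommRing A] [Algebra ℂ A] [CommRing B] [Algebra ℂ B] (f : A →ₐ[ℂ] B) (u : σ → A)
    (κ : ∀ i, Fin (n i)) : f (rcoeff hn Q u κ) = rcoeff hn Q (fun i => f (u i)) κ := by
  unfold rcoeff
  rw [map_sum]
  refine Finset.sum_congr rfl fun m _ => ?_
  rw [map_mul, map_prod, AlgHom.commutes]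
  congr 1
  exact Finset.prod_congr rfl fun i _ => map_pow _ _ _

/-- **A relation between radicals holds for all choices of the roots at all points.** -/
theorem eval_eq_zero {n : σ → ℕ} (hn : ∀ i, 0 < n i) {ρ : σ → L} {u : σ → R} (hu0 : ∀ i, u i ≠ 0)
    (hu : ∀ i, ρ i ^ n i = algebraMap R L (u i)) {p : σ → R} (hp : ∀ i, Prime (p i))
    (hmul : ∀ i j, emultiplicity (p i) (u j) = if j = i then 1 else 0)
    {Q : MvPolynomial σ ℂ} (hQ : aeval ρ Q = 0) (ev : R →ₐ[ℂ] ℂ) {q : σ → ℂ}
    (hq : ∀ i, q i ^ n i = ev (u i)) : MvPolynomial.eval q Q = 0 := by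
  have hRL : Function.Injective (algebraMap R L) := by
    rw [IsScalarTower.algebraMap_eq R (FractionRing R) L, RingHom.coe_comp]
    exact (algebraMap (FractionRing R) L).injective.comp (IsFractionRing.injective R _)
  have hρ : ∀ i, ρ i ≠ 0 := by
    intro i h0
    have h1 := hu i
    rw [h0, zero_pow (hn i).ne'] at h1
    exact hu0 i (hRL (by rw [← h1, map_zero]))
  have h1 : ∀ κ : ∀ i, Fin (n i), rcoeff hn Q u κ = 0 := by
    intro κ
    have h2 := indep (K := FractionRing R) (L := L) hn hρ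
      (u := fun i => algebraMap R (FractionRing R) (u i))
      (fun i => by rw [hu i, IsScalarTower.algebraMap_apply R (FractionRing R) L])
      (fun κ κ' h => ratio_ne hn hu0 hu hp hmul κ κ' h)
      (g := fun κ => algebraMap R (FractionRing R) (rcoeff hn Q u κ)) (by
        rw [← hQ, aeval_eq_sum hn Q hu]
        refine Finset.sum_congr rfl fun κ _ => ?_
        rw [← IsScalarTower.algebraMap_apply R (FractionRing R) L]
        congr 1
        exact map_rcoeff hn Q (IsScalarTower.toAlgHom ℂ R L) u κ) κ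
    exact IsFractionRing.injective R (FractionRing R) (by rw [map_zero]; exact h2)
  have h3 : MvPolynomial.eval q Q = aeval q Q := by
    rw [aeval_def]
    rfl
  rw [h3, aeval_eq_sum hn Q hq]
  refine Finset.sum_eq_zero fun κ _ => ?_
  rw [← map_rcoeff hn Q ev u κ, h1, map_zero, zero_mul]

end Pool.Agent.H92.GT.Kummer
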