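import Mathlib

/-!
# Algebraicity over the normalised coefficients
-/

noncomputable section

namespace Pool.Agent.H92.GT

/-- The coordinates are algebraic over the normalised coefficients. -/
theorem isAlgebraic_of_coeffs {K : Type} [Field K] [Algebra ℂ K] {N r d : ℕ} (hd : 0 < d)
    {ι : Type} {x : Fin (N + 1) → K} {y : ι → K} {k : ι → ℕ} (hk : ∀ l, 1 ≤ k l)
    (hgen : IntermediateField.adjoin ℂ (Set.range (Sum.elim x y)) = ⊤) {α : Fin (r + 1) → K}
    (hα0 : α 0 ≠ 0) {t : Fin (N + 1) → ℂ}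
    (hval : ∀ j, ∑ k : Fin (r + 1), α k * algebraMap ℂ K (t j) ^ (k : ℕ) = x j ^ d)
    {j₀ : Fin (N + 1)} (hx1 : x j₀ = 1) {B : ι → MvPolynomial (Fin (N + 1)) ℂ}
    (hy : ∀ l, y l ^ k l = MvPolynomial.aeval x (B l)) :
    Algebra.IsAlgebraic
      (IntermediateField.adjoin ℂ (Set.range fun i : Fin r => α (Fin.succ i) / α 0)) K := by
  set z : Fin r → K := fun i => α (Fin.succ i) / α 0 with hz
  set Mz := IntermediateField.adjoin ℂ (Set.range z) with hMz
  have hzM : ∀ i, z i ∈ Mz := fun i => IntermediateField.subset_adjoin _ _ ⟨i, rfl⟩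
  have hval' : ∀ j, x j ^ d =
      α 0 * (1 + ∑ i : Fin r, z i * algebraMap ℂ _ (t j ^ ((i : ℕ) + 1))) := by
    intro j
    rw [← hval j, Fin.sum_univ_succ, Fin.val_zero, pow_zero, mul_one, mul_add, mul_one,
      Finset.mul_sum]
    congr 1
    refine Finset.sum_congr rfl fun i _ => ?_
    rw [hz, Fin.val_succ, map_pow]
    field_simp
  have hvM : ∀ w : ℂ, 1 + ∑ i : Fin r, z i * algebraMap ℂ K (w ^ ((i : ℕ) + 1)) ∈ Mz := fun w =>
    add_mem (one_mem _) (sum_mem fun i _ => mul_mem (hzM i) (Mz.algebraMap_mem _))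
  have hα0M : α 0 ∈ Mz := by
    have h1 := hval' j₀
    rw [hx1, one_pow] at h1
    rw [eq_inv_of_mul_eq_one_left h1.symm]
    exact inv_mem (hvM _)
  have hxM : ∀ j, x j ^ d ∈ Mz := by
    intro j
    rw [hval']
    exact mul_mem hα0M (hvM _)
  have hxalg : ∀ j, IsAlgebraic Mz (x j) := fun j =>
    IsAlgebraic.of_pow hd (isAlgebraic_algebraMap (⟨_, hxM j⟩ : Mz))
  set Az := algebraicClosure Mz K with hAz
  have hyz : ∀ l, y l ^ k l ∈ Az := by
    intro l
    rw [hy, MvPolynomial.aeval_def, MvPolynomial.eval₂_eq]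
    refine sum_mem fun μ _ => mul_mem ?_ (prod_mem fun j _ =>
      pow_mem (mem_algebraicClosure_iff.mpr (hxalg j)) _)
    have h4 : algebraMap ℂ K (MvPolynomial.coeff μ (B l)) =
        algebraMap Mz K (algebraMap ℂ Mz (MvPolynomial.coeff μ (B l))) :=
      IsScalarTower.algebraMap_apply ℂ Mz K _
    rw [h4]
    exact Az.algebraMap_mem _
  have hyalg : ∀ l, IsAlgebraic Mz (y l) := fun l =>
    IsAlgebraic.of_pow (hk l) (mem_algebraicClosure_iff.mp (hyz l))
  refine ⟨fun f => ?_⟩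
  have h1 : f ∈ IntermediateField.adjoin ℂ (Set.range (Sum.elim x y)) := by
    rw [hgen]
    exact IntermediateField.mem_top
  have h2 : IntermediateField.adjoin ℂ (Set.range (Sum.elim x y)) ≤ Az.restrictScalars ℂ := by
    rw [IntermediateField.adjoin_le_iff]
    rintro _ ⟨i, rfl⟩
    rcases i with j | l
    · exact mem_algebraicClosure_iff.mpr (hxalg j)
    · exact mem_algebraicClosure_iff.mpr (hyalg l)
  exact mem_algebraicClosure_iff.mp (h2 h1)

end Pool.Agent.H92.GT
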