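import Pool.Agent.H92.GT.GenericPoint
import Pool.Agent.H92.GT.Homogenize
import Pool.Agent.H92.GT.AlgOver

/-!
# The covers are irreducible and of log general type
-/

open MvPolynomial
open Pool.Agent.H99.Cover (weights Tot Coord mk mk_eq_mk exists_mk VanishesAt coverSet
  mk_mem_coverSet)
open Pool.Agent.H92.GGL

noncomputable section

namespace Pool.Agent.H92.GT.Cover

variable {N r : ℕ} {ι T : Type}

section Forms

variable {t : Fin (N + 1) → ℂ} {b : Fin (N + 1) → Fin (r + 1) → ℂ}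

lemma evMap_eq_eval_lin (a : Fin (r + 1) → ℂ) (j : Fin (N + 1)) :
    evMap r t a j = eval a (lin r (t j)) := by
  rw [evMap_apply, Pool.Agent.H92.GGL.polyOf_eval, eval_lin]

lemma sum_lin (hb : ∀ (a : Fin (r + 1) → ℂ) k, a k = ∑ j, b j k * evMap r t a j)
    (k : Fin (r + 1)) : ∑ j, C (b j k) * lin r (t j) = X k := by
  apply MvPolynomial.funext
  intro a
  rw [map_sum, eval_X, hb a k]
  refine Finset.sum_congr rfl fun j _ => ?_
  rw [map_mul, eval_C, evMap_eq_eval_lin]

lemma rel_lin {M : ℕ} {c : Fin M → Fin (N + 1) → ℂ}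
    (hc : ∀ w : Fin (N + 1) → ℂ, (∀ l, ∑ j, c l j * w j = 0) ↔ ∃ a, evMap r t a = w) (l : Fin M) :
    ∑ j, C (c l j) * lin r (t j) = 0 := by
  apply MvPolynomial.funext
  intro a
  rw [map_sum, map_zero]
  have h1 := (hc (evMap r t a)).mpr ⟨a, rfl⟩ l
  rw [← h1]
  refine Finset.sum_congr rfl fun j _ => ?_
  rw [map_mul, eval_C, evMap_eq_eval_lin]

variable {L : Type} [Field L] [Algebra ℂ L] [Algebra (MvPolynomial (Fin (r + 1)) ℂ) L]
  [IsScalarTower ℂ (MvPolynomial (Fin (r + 1)) ℂ) L]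

lemma coeff_gen (hb : ∀ (a : Fin (r + 1) → ℂ) k, a k = ∑ j, b j k * evMap r t a j) {d : ℕ}
    {x : Fin (N + 1) → L}
    (hx : ∀ j, x j ^ d = algebraMap (MvPolynomial (Fin (r + 1)) ℂ) L (lin r (t j)))
    (k : Fin (r + 1)) : ∑ j, algebraMap ℂ L (b j k) * x j ^ d =
      algebraMap (MvPolynomial (Fin (r + 1)) ℂ) L (X k) := by
  rw [← sum_lin hb k, map_sum]
  refine Finset.sum_congr rfl fun j _ => ?_
  rw [map_mul, hx, IsScalarTower.algebraMap_apply ℂ (MvPolynomial (Fin (r + 1)) ℂ) L]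
  rfl

lemma polyK_gen (hb : ∀ (a : Fin (r + 1) → ℂ) k, a k = ∑ j, b j k * evMap r t a j) {d : ℕ}
    {x : Fin (N + 1) → L}
    (hx : ∀ j, x j ^ d = algebraMap (MvPolynomial (Fin (r + 1)) ℂ) L (lin r (t j))) (w : ℂ) :
    (polyK r d b x).eval (algebraMap ℂ L w) =
      algebraMap (MvPolynomial (Fin (r + 1)) ℂ) L (lin r w) := by
  rw [polyK, Pool.Agent.H92.GGL.polyOf_eval, lin, map_sum]
  refine Finset.sum_congr rfl fun k _ => ?_
  rw [coeff_gen hb hx, map_mul, mul_comm, ← map_pow,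
    IsScalarTower.algebraMap_apply ℂ (MvPolynomial (Fin (r + 1)) ℂ) L]
  rfl

end Forms

variable [Fintype ι] [Fintype T] [DecidableEq ι]

/-- **The covers are irreducible and of log general type.** -/
theorem logGeneralType_cover {d : ℕ} (hr : 1 ≤ r) (hrN : r ≤ N) (hd : 0 < d)
    {t : Fin (N + 1) → ℂ} {τ : T → ℂ} (hinj : Function.Injective (Sum.elim t τ))
    {β : T → Option ι} {k e : ι → ℕ} (hk : ∀ l, 1 ≤ k l)
    (hke : ∀ l, k l * e l = d * (nd β (some l)).card)
    (hne : ∀ l, (nd β (some l)).Nonempty)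
    (hnum : 2 * (r : ℝ) < chi r d N β k)
    {b : Fin (N + 1) → Fin (r + 1) → ℂ}
    (hb : ∀ (a : Fin (r + 1) → ℂ) k, a k = ∑ j, b j k * evMap r t a j)
    {M : ℕ} {c : Fin M → Fin (N + 1) → ℂ}
    (hc : ∀ w : Fin (N + 1) → ℂ, (∀ l, ∑ j, c l j * w j = 0) ↔ ∃ a, evMap r t a = w)
    {A : Fin M → MvPolynomial (Fin (N + 1)) ℂ} (hA : ∀ l, A l = ∑ j, C (c l j) * X j ^ d)
    -- the points of the cover
    (hpts : ∀ (x : Fin (N + 1) → ℂ), (∀ i, eval x (A i) = 0) ↔
        ∃ F : Polynomial ℂ, F.natDegree ≤ r ∧ ∀ j : Fin (N + 1), x j ^ d = F.eval (t j))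
    (hvals : ∀ (x : Fin (N + 1) → ℂ) (F : Polynomial ℂ), F.natDegree ≤ r →
      (∀ j : Fin (N + 1), x j ^ d = F.eval (t j)) → ∀ S : Finset T,
        eval x (prodForm r d b τ S) = ∏ i ∈ S, F.eval (τ i))
    -- a point outside of the exceptional set
    (hpoint : ∃ (q : Coord N ι) (hq : q.1 ≠ 0),
      mk e q hq ∈ coverSet e k A (fun l => prodForm r d b τ (nd β (some l)))
        (prodForm r d b τ (nd β none)) ∧
      ¬ VanishesAt (discN r (genPoly r d b Sum.inl) * ∏ l, X (Sum.inr l)) (mk e q hq)) :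
    LogGeneralType r e k A (fun l => prodForm r d b τ (nd β (some l)))
      (prodForm r d b τ (nd β none)) := by
  classical
  set Bf : ι → MvPolynomial (Fin (N + 1)) ℂ := fun l => prodForm r d b τ (nd β (some l)) with hBf
  set Hf : MvPolynomial (Fin (N + 1)) ℂ := prodForm r d b τ (nd β none) with hHf
  have hAhom : ∀ l, (A l).IsHomogeneous d := by
    intro l
    rw [hA]
    refine MvPolynomial.IsHomogeneous.sum _ _ _ fun j _ => ?_
    exact MvPolynomial.isHomogeneous_C_mul_X_pow _ _ _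
  have hBhom : ∀ l, (Bf l).IsHomogeneous (k l * e l) := by
    intro l
    rw [hke]
    exact prodForm_isHomogeneous _
  have hHhom : Hf.IsHomogeneous (d * (nd β none).card) := prodForm_isHomogeneous _
  have hn : ∀ i, 0 < expo (N := N) d k i := by
    rintro (j | l)
    · exact hd
    · exact hk l
  -- the generic point
  have hρex : ∀ i : Fin (N + 1) ⊕ ι, ∃ ρ : GenField r, ρ ^ expo d k i =
      algebraMap (MvPolynomial (Fin (r + 1)) ℂ) (GenField r) (radi r t τ β i) := fun i =>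
    IsAlgClosed.exists_pow_nat_eq _ (hn i)
  choose ρ hρ using hρex
  have hRL : Function.Injective (algebraMap (MvPolynomial (Fin (r + 1)) ℂ) (GenField r)) := by
    rw [IsScalarTower.algebraMap_eq _ (FractionRing (MvPolynomial (Fin (r + 1)) ℂ)) (GenField r),
      RingHom.coe_comp]
    exact (algebraMap (FractionRing (MvPolynomial (Fin (r + 1)) ℂ)) (GenField r)).injective.comp
      (IsFractionRing.injective _ _)
  have hρx : ∀ j, ρ (Sum.inl j) ^ d =
      algebraMap (MvPolynomial (Fin (r + 1)) ℂ) (GenField r) (lin r (t j)) := by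
    intro j
    rw [← radi_inl (r := r) t τ β j]
    exact hρ (Sum.inl j)
  have hρy : ∀ l, ρ (Sum.inr l) ^ k l =
      algebraMap (MvPolynomial (Fin (r + 1)) ℂ) (GenField r)
        (∏ i ∈ nd β (some l), lin r (τ i)) := by
    intro l
    rw [← radi_inr (r := r) hinj β l]
    exact hρ (Sum.inr l)
  set P := genIdeal e ρ with hP
  have hmem : ∀ {Q : MvPolynomial (Fin (N + 1) ⊕ ι) ℂ} {n : ℕ},
      IsWeightedHomogeneous (weights N e) Q n → (Q ∈ P ↔ aeval ρ Q = 0) := fun hQ =>
    mem_genIdeal_of_homogeneous hQ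
  have hcomp : (ρ ∘ Sum.inl) = fun j => ρ (Sum.inl j) := rfl
  -- the equations
  have hAP : ∀ l, rename Sum.inl (A l) ∈ P := by
    intro l
    rw [hmem (isWeightedHomogeneous_rename (hAhom l)), aeval_rename, hA, map_sum, hcomp]
    have h1 := congrArg (algebraMap (MvPolynomial (Fin (r + 1)) ℂ) (GenField r)) (rel_lin hc l)
    rw [map_sum, map_zero] at h1
    rw [← h1]
    refine Finset.sum_congr rfl fun j _ => ?_
    rw [map_mul, map_mul, map_pow, aeval_C, aeval_X, hρx,
      IsScalarTower.algebraMap_apply ℂ (MvPolynomial (Fin (r + 1)) ℂ) (GenField r)]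
    rfl
  have hBP : ∀ l, X (Sum.inr l) ^ k l - rename Sum.inl (Bf l) ∈ P := by
    intro l
    have h1 : IsWeightedHomogeneous (weights N e)
        (X (Sum.inr l) ^ k l : MvPolynomial (Fin (N + 1) ⊕ ι) ℂ) (k l * e l) := by
      have h2 := (isWeightedHomogeneous_X ℂ (weights N e) (Sum.inr l)).pow (k l)
      rw [smul_eq_mul] at h2
      exact h2
    rw [hmem (h1.sub (isWeightedHomogeneous_rename (hBhom l))), map_sub, map_pow, aeval_X,
      aeval_rename, sub_eq_zero, hρy, hcomp, hBf, aeval_prodForm, map_prod]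
    exact Finset.prod_congr rfl fun i _ => (polyK_gen hb hρx _).symm
  -- the zero set
  have hzero : zeroSet (coverSet e k A Bf Hf) P = coverSet e k A Bf Hf := by
    ext p
    constructor
    · exact fun h => h.1
    · intro hp
      refine ⟨hp, fun Q hQ hQh q hq hpq => ?_⟩
      obtain ⟨n, hQh⟩ := hQh
      rw [hpq, mk_mem_coverSet (d := fun _ => d) hAhom hBhom hHhom] at hp
      obtain ⟨F, hF, hx⟩ := (hpts q.1).mp hp.1
      refine generic_vanish hr hd hinj hk hne hρ ((hmem hQh).mp hQ) hF hx fun l => ?_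
      rw [hp.2.1 l]
      exact hvals q.1 F hF hx _
  obtain ⟨q₀, hq₀, hq₀X, hq₀V⟩ := hpoint
  have hq₀P : ∀ Q ∈ P, (∃ n, IsWeightedHomogeneous (weights N e) Q n) →
      VanishesAt Q (mk e q₀ hq₀) := by
    have h1 := hq₀X
    rw [← hzero] at h1
    exact h1.2
  have hHP : rename Sum.inl Hf ∉ P := by
    intro h
    have h1 := hq₀P _ h ⟨_, isWeightedHomogeneous_rename hHhom⟩ q₀ hq₀ rfl
    rw [eval_rename] at h1
    have h2 := ((mk_mem_coverSet (d := fun _ => d) hAhom hBhom hHhom q₀ hq₀).mp hq₀X).2.2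
    exact h2 h1
  have hDhom : IsWeightedHomogeneous (weights N e)
      (discN r (genPoly r d b (Sum.inl : Fin (N + 1) → Fin (N + 1) ⊕ ι)))
      ((r + (r - 1)) * d) :=
    discN_isWeightedHomogeneous fun k =>
      genPoly_coeff (r := r) (d := d) (b := b) (v := Sum.inl) (w := weights N e) (fun j => rfl) k
  have hDyP : discN r (genPoly r d b Sum.inl) * ∏ l, X (Sum.inr l) ∉ P := by
    intro h
    exact hq₀V (hq₀P _ h ⟨_, hDhom.mul (IsWeightedHomogeneous.prod _ _ _ fun l _ =>
      isWeightedHomogeneous_X ℂ (weights N e) (Sum.inr l))⟩)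
  have hDP : discN r (genPoly r d b Sum.inl) ∉ P := fun h => hDyP (P.mul_mem_right _ h)
  have hyP : ∀ l, (X (Sum.inr l) : MvPolynomial (Fin (N + 1) ⊕ ι) ℂ) ∉ P := by
    intro l h
    apply hDyP
    rw [← Finset.mul_prod_erase Finset.univ _ (Finset.mem_univ l)]
    exact P.mul_mem_left _ (P.mul_mem_right _ h)
  -- the dimension
  have hj₀ : coordFun P (Sum.inl 0) ≠ 0 := by
    intro h0
    have h1 := (aeval_coordFun_eq_zero_iff P (X (Sum.inl 0))).mp (by rw [aeval_X]; exact h0)
    rw [hmem (isWeightedHomogeneous_X ℂ (weights N e) (Sum.inl 0)), aeval_X] at h1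
    have h2 := hρx 0
    rw [h1, zero_pow hd.ne'] at h2
    exact lin_ne_zero r (t 0) (hRL (by rw [← h2, map_zero]))
  obtain ⟨x, y, hx1, -, -, -, hgen, halg, hker⟩ := cover_point P e k hk Bf hBhom hBP hj₀
  set Af : Fin (r + 1) → MvPolynomial (Fin (N + 1) ⊕ ι) ℂ := fun k =>
    ∑ j, C (b j k) * X (Sum.inl j) ^ d with hAf
  have hAfhom : ∀ k, IsWeightedHomogeneous (weights N e) (Af k) d := by
    intro k
    refine IsWeightedHomogeneous.sum _ _ _ fun j _ => ?_
    have h2 := (isWeightedHomogeneous_C (weights N e) (b j k)).mul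
      ((isWeightedHomogeneous_X ℂ (weights N e) (Sum.inl j)).pow d)
    rw [show weights N e (Sum.inl j) = 1 from rfl, zero_add, smul_eq_mul, mul_one] at h2
    exact h2
  have hAfρ : ∀ k, aeval ρ (Af k) =
      algebraMap (MvPolynomial (Fin (r + 1)) ℂ) (GenField r) (X k) := by
    intro k
    rw [← coeff_gen hb hρx k, hAf, map_sum]
    refine Finset.sum_congr rfl fun j _ => ?_
    rw [map_mul, map_pow, aeval_C, aeval_X]
  set α : Fin (r + 1) → functionField P e := fun k => aeval (Sum.elim x y) (Af k) with hα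
  have hα0 : α 0 ≠ 0 := by
    intro h0
    have h1 := (hmem (hAfhom 0)).mp ((hker _ _ (hAfhom 0)).mp h0)
    rw [hAfρ] at h1
    exact X_ne_zero (R := ℂ) (0 : Fin (r + 1)) (hRL (by rw [h1, map_zero]))
  set z : Fin r → functionField P e := fun i => α (Fin.succ i) / α 0 with hz
  have hind : AlgebraicIndependent ℂ z := by
    rw [algebraicIndependent_iff]
    intro p hp
    apply eq_zero_of_hmg
    apply hRL
    have h1 : hmg p Af ∈ P := by
      rw [← hker _ _ (hmg_isWeightedHomogeneous p hAfhom), map_hmg, hmg_eq p hα0, hp, mul_zero]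
    rw [hmem (hmg_isWeightedHomogeneous p hAfhom), map_hmg] at h1
    rw [map_zero, ← h1]
    have h2 := map_hmg (IsScalarTower.toAlgHom ℂ (MvPolynomial (Fin (r + 1)) ℂ) (GenField r)) p
      (fun i => X i)
    refine Eq.trans h2 ?_
    congr 1
    funext i
    exact (hAfρ i).symm
  have hyrel : ∀ l, y l ^ k l = aeval x (Bf l) := by
    intro l
    have h1 : IsWeightedHomogeneous (weights N e)
        (X (Sum.inr l) ^ k l : MvPolynomial (Fin (N + 1) ⊕ ι) ℂ) (k l * e l) := by
      have h2 := (isWeightedHomogeneous_X ℂ (weights N e) (Sum.inr l)).pow (k l)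
      rw [smul_eq_mul] at h2
      exact h2
    have h2 := (hker _ _ (h1.sub (isWeightedHomogeneous_rename (hBhom l)))).mpr (hBP l)
    rw [map_sub, map_pow, aeval_X, aeval_rename, sub_eq_zero] at h2
    exact h2
  have hFx : ∀ j, (polyK r d b x).eval (algebraMap ℂ _ (t j)) = x j ^ d := by
    intro j
    refine polyK_eval hb hc (fun l => ?_) j
    have h1 := (hker _ _ (isWeightedHomogeneous_rename (e := e) (hAhom l))).mpr (hAP l)
    rw [aeval_rename, hA, map_sum] at h1
    rw [← h1]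
    refine Finset.sum_congr rfl fun j _ => ?_
    rw [map_mul, map_pow, aeval_C, aeval_X]
    rfl
  have hαc : ∀ k : Fin (r + 1), ∑ j, algebraMap ℂ (functionField P e) (b j k) * x j ^ d =
      α k := by
    intro k
    rw [hα, hAf]
    simp only [map_sum, map_mul, map_pow, aeval_C, aeval_X]
    rfl
  have hval : ∀ j, ∑ k : Fin (r + 1), α k * algebraMap ℂ _ (t j) ^ (k : ℕ) = x j ^ d := by
    intro j
    rw [← hFx j, polyK, Pool.Agent.H92.GGL.polyOf_eval]
    exact Finset.sum_congr rfl fun k _ => by rw [hαc]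
  have halgz : Algebra.IsAlgebraic (IntermediateField.adjoin ℂ (Set.range z))
      (functionField P e) := isAlgebraic_of_coeffs hd hk hgen hα0 hval hx1 hyrel
  have hbasis : IsTranscendenceBasis ℂ z := isTranscendenceBasis_of hind halgz
  refine ⟨P, inferInstance, genIdeal_homogeneous e ρ, hAP, hBP, hHP, hzero, ⟨z, hbasis⟩, ?_⟩
  exact isLogGeneralType_cover hr hrN hd hinj hk hke hnum
    (fun _ h => absurd h (lt_irrefl _)) hb hc P (fun l => by rw [← hA]; exact hAP l) hBP hHP hDP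
    hyP hr ⟨z, hbasis⟩

end Pool.Agent.H92.GT.Cover
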