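import Pool.Agent.H92.GT.ProjMain
import Pool.Agent.H92.GT.GenericMain

/-!
# The diagonal complete intersections are irreducible
-/

open MvPolynomial
open Pool.Agent.H92.GGL
open Pool.Agent.H17GT (coordFun functionField)
open Pool.Agent.H17LG.Variety (FunField)
open Pool.Agent.H92.GT.Cover (GenField radi expo radi_inl generic_vanish coeff_gen rel_lin)

noncomputable section

namespace Pool.Agent.H92.GT.Proj

variable {N : ℕ}

section Ideal

variable {L : Type} [Field L] [Algebra ℂ L]

/-- The homogeneous coordinate ring of a point. -/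
def phi (ρ : Fin (N + 1) → L) : MvPolynomial (Fin (N + 1)) ℂ →ₐ[ℂ] Polynomial L :=
  aeval fun i => Polynomial.C (ρ i) * Polynomial.X

lemma phi_coeff (ρ : Fin (N + 1) → L) (Q : MvPolynomial (Fin (N + 1)) ℂ) (n : ℕ) :
    (phi ρ Q).coeff n = aeval ρ (homogeneousComponent n Q) := by
  classical
  rw [homogeneousComponent_apply, map_sum, phi, aeval_def, eval₂_eq,
    Polynomial.finsetSum_coeff, Finset.sum_filter]
  refine Finset.sum_congr rfl fun m _ => ?_
  have h1 : ∏ i ∈ m.support, (Polynomial.C (ρ i) * Polynomial.X) ^ m i =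
      Polynomial.C (∏ i ∈ m.support, ρ i ^ m i) * Polynomial.X ^ m.degree := by
    rw [Finset.prod_congr rfl fun i _ => mul_pow (Polynomial.C (ρ i)) Polynomial.X (m i),
      Finset.prod_mul_distrib, map_prod]
    congr 1
    · exact Finset.prod_congr rfl fun i _ => (Polynomial.C_pow).symm
    · rw [Finset.prod_pow_eq_pow_sum]
      rfl
  rw [h1]
  have h2 : algebraMap ℂ (Polynomial L) (Q.coeff m) =
      Polynomial.C (algebraMap ℂ L (Q.coeff m)) := rfl
  rw [h2, ← mul_assoc, ← Polynomial.C_mul, Polynomial.coeff_C_mul_X_pow]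
  split_ifs with h3 h4 h5
  · rw [aeval_monomial]
    rfl
  · exact absurd h3.symm h4
  · exact absurd h5.symm h3
  · rfl

/-- The ideal of a point. -/
def genIdeal (ρ : Fin (N + 1) → L) : Ideal (MvPolynomial (Fin (N + 1)) ℂ) := RingHom.ker (phi ρ)

instance (ρ : Fin (N + 1) → L) : (genIdeal ρ).IsPrime := RingHom.ker_isPrime _

lemma mem_genIdeal (ρ : Fin (N + 1) → L) (Q : MvPolynomial (Fin (N + 1)) ℂ) :
    Q ∈ genIdeal ρ ↔ ∀ n, aeval ρ (homogeneousComponent n Q) = 0 := by
  rw [genIdeal, RingHom.mem_ker, Polynomial.ext_iff]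
  refine forall_congr' fun n => ?_
  rw [← phi_coeff]
  rfl

lemma mem_genIdeal_of_homogeneous {ρ : Fin (N + 1) → L} {Q : MvPolynomial (Fin (N + 1)) ℂ} {n : ℕ}
    (hQ : Q.IsHomogeneous n) : Q ∈ genIdeal ρ ↔ aeval ρ Q = 0 := by
  classical
  rw [mem_genIdeal]
  constructor
  · intro h
    have h1 := h n
    rwa [homogeneousComponent_of_mem (n := n) (m := n) hQ, if_pos rfl] at h1
  · intro h m
    rw [homogeneousComponent_of_mem (n := n) (m := m) hQ]
    split_ifs
    · exact h
    · exact map_zero _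

lemma genIdeal_homogeneous (ρ : Fin (N + 1) → L) :
    ∀ Q ∈ genIdeal ρ, ∀ n, homogeneousComponent n Q ∈ genIdeal ρ := by
  intro Q hQ n
  rw [mem_genIdeal_of_homogeneous (homogeneousComponent_isHomogeneous n Q)]
  exact (mem_genIdeal ρ Q).mp hQ n

end Ideal

/-- **The diagonal complete intersections are irreducible of dimension `r`.** -/
theorem exists_prime {r d : ℕ} (hr : 1 ≤ r) (hd : 0 < d)
    {t : Fin (N + 1) → ℂ} (ht : Function.Injective t)
    {b : Fin (N + 1) → Fin (r + 1) → ℂ}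
    (hb : ∀ (a : Fin (r + 1) → ℂ) k, a k = ∑ j, b j k * evMap r t a j)
    {M : ℕ} {c : Fin M → Fin (N + 1) → ℂ}
    (hc : ∀ w : Fin (N + 1) → ℂ, (∀ l, ∑ j, c l j * w j = 0) ↔ ∃ a, evMap r t a = w) :
    ∃ (P : Ideal (MvPolynomial (Fin (N + 1)) ℂ)) (_ : P.IsPrime),
      (∀ Q ∈ P, ∀ n, homogeneousComponent n Q ∈ P) ∧ (∀ l, ∑ j, C (c l j) * X j ^ d ∈ P) ∧
      (∀ Q ∈ P, ∀ n, Q.IsHomogeneous n → ∀ (x : Fin (N + 1) → ℂ) (F : Polynomial ℂ),
        F.natDegree ≤ r → (∀ j, x j ^ d = F.eval (t j)) → eval x Q = 0) ∧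
      ∃ z : Fin r → FunField P, IsTranscendenceBasis ℂ z := by
  classical
  have hinj : Function.Injective (Sum.elim t (fun i : Empty => (i.elim : ℂ))) := by
    rintro (i | i) (j | j) h
    · exact congrArg Sum.inl (ht (by simpa using h))
    · exact j.elim
    · exact i.elim
    · exact i.elim
  -- the generic point
  have hρex : ∀ i : Fin (N + 1) ⊕ Empty, ∃ ρ : GenField r,
      ρ ^ expo d (fun l : Empty => (l.elim : ℕ)) i =
      algebraMap (MvPolynomial (Fin (r + 1)) ℂ) (GenField r)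
        (radi r t (fun i : Empty => (i.elim : ℂ)) (fun i : Empty => (i.elim : Option Empty)) i) := by
    rintro (j | l)
    · exact IsAlgClosed.exists_pow_nat_eq _ hd
    · exact l.elim
  choose ρ' hρ' using hρex
  have hRL : Function.Injective (algebraMap (MvPolynomial (Fin (r + 1)) ℂ) (GenField r)) := by
    rw [IsScalarTower.algebraMap_eq _ (FractionRing (MvPolynomial (Fin (r + 1)) ℂ)) (GenField r),
      RingHom.coe_comp]
    exact (algebraMap (FractionRing (MvPolynomial (Fin (r + 1)) ℂ)) (GenField r)).injective.comp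
      (IsFractionRing.injective _ _)
  set ρ : Fin (N + 1) → GenField r := fun j => ρ' (Sum.inl j) with hρdef
  have hρx : ∀ j, ρ j ^ d = algebraMap (MvPolynomial (Fin (r + 1)) ℂ) (GenField r)
      (lin r (t j)) := by
    intro j
    rw [← radi_inl (r := r) t (fun i : Empty => (i.elim : ℂ))
      (fun i : Empty => (i.elim : Option Empty)) j]
    exact hρ' (Sum.inl j)
  set P := genIdeal ρ with hP
  have hmem : ∀ {Q : MvPolynomial (Fin (N + 1)) ℂ} {n : ℕ}, Q.IsHomogeneous n →
      (Q ∈ P ↔ aeval ρ Q = 0) := fun hQ => mem_genIdeal_of_homogeneous hQ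
  have hAhom : ∀ l, (∑ j, C (c l j) * X j ^ d : MvPolynomial (Fin (N + 1)) ℂ).IsHomogeneous d := by
    intro l
    refine MvPolynomial.IsHomogeneous.sum _ _ _ fun j _ => ?_
    exact MvPolynomial.isHomogeneous_C_mul_X_pow _ _ _
  have hAP : ∀ l, ∑ j, C (c l j) * X j ^ d ∈ P := by
    intro l
    rw [hmem (hAhom l), map_sum]
    have h1 := congrArg (algebraMap (MvPolynomial (Fin (r + 1)) ℂ) (GenField r)) (rel_lin hc l)
    rw [map_sum, map_zero] at h1
    rw [← h1]
    refine Finset.sum_congr rfl fun j _ => ?_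
    rw [map_mul, map_mul, map_pow, aeval_C, aeval_X, hρx,
      IsScalarTower.algebraMap_apply ℂ (MvPolynomial (Fin (r + 1)) ℂ) (GenField r)]
    rfl
  -- the dimension
  have hj₀ : coordFun P 0 ≠ 0 := by
    intro h0
    have h1 := (aeval_coordFun_eq_zero_iff P (X 0)).mp (by rw [aeval_X]; exact h0)
    rw [hmem (isHomogeneous_X ℂ (0 : Fin (N + 1))), aeval_X] at h1
    have h2 := hρx 0
    rw [h1, zero_pow hd.ne'] at h2
    exact lin_ne_zero r (t 0) (hRL (by rw [← h2, map_zero]))
  obtain ⟨x, hx1, hgen, hker⟩ := proj_point P hj₀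
  set Af : Fin (r + 1) → MvPolynomial (Fin (N + 1)) ℂ := fun k =>
    ∑ j, C (b j k) * X j ^ d with hAf
  have hAfhom : ∀ k, IsWeightedHomogeneous (1 : Fin (N + 1) → ℕ) (Af k) d := by
    intro k
    refine MvPolynomial.IsHomogeneous.sum _ _ _ fun j _ => ?_
    exact MvPolynomial.isHomogeneous_C_mul_X_pow _ _ _
  have hAfρ : ∀ k, aeval ρ (Af k) =
      algebraMap (MvPolynomial (Fin (r + 1)) ℂ) (GenField r) (X k) := by
    intro k
    rw [← coeff_gen hb hρx k, hAf, map_sum]
    refine Finset.sum_congr rfl fun j _ => ?_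
    rw [map_mul, map_pow, aeval_C, aeval_X]
  set α : Fin (r + 1) → functionField P := fun k => aeval x (Af k) with hα
  have hα0 : α 0 ≠ 0 := by
    intro h0
    have h1 := (hmem (hAfhom 0)).mp ((hker _ _ (hAfhom 0)).mp h0)
    rw [hAfρ] at h1
    exact X_ne_zero (R := ℂ) (0 : Fin (r + 1)) (hRL (by rw [h1, map_zero]))
  set z : Fin r → functionField P := fun i => α (Fin.succ i) / α 0 with hz
  have hind : AlgebraicIndependent ℂ z := by
    rw [algebraicIndependent_iff]
    intro p hp
    apply eq_zero_of_hmg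
    apply hRL
    have h1 : hmg p Af ∈ P := by
      rw [← hker _ _ (hmg_isWeightedHomogeneous p hAfhom), map_hmg, hmg_eq p hα0, hp, mul_zero]
    rw [hmem (hmg_isWeightedHomogeneous p hAfhom), map_hmg] at h1
    rw [map_zero, ← h1]
    have h2 := map_hmg (IsScalarTower.toAlgHom ℂ (MvPolynomial (Fin (r + 1)) ℂ) (GenField r)) p
      (fun i => X i)
    refine Eq.trans h2 ?_
    congr 1
    funext i
    exact (hAfρ i).symm
  have hFx : ∀ j, (polyK r d b x).eval (algebraMap ℂ _ (t j)) = x j ^ d := by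
    intro j
    refine polyK_eval hb hc (fun l => ?_) j
    have h1 := (hker _ _ (hAhom l)).mpr (hAP l)
    rw [map_sum] at h1
    rw [← h1]
    refine Finset.sum_congr rfl fun j _ => ?_
    rw [map_mul, map_pow, aeval_C, aeval_X]
  have hαc : ∀ k : Fin (r + 1), ∑ j, algebraMap ℂ (functionField P) (b j k) * x j ^ d = α k := by
    intro k
    rw [hα, hAf]
    simp only [map_sum, map_mul, map_pow, aeval_C, aeval_X]
  have hval : ∀ j, ∑ k : Fin (r + 1), α k * algebraMap ℂ _ (t j) ^ (k : ℕ) = x j ^ d := by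
    intro j
    rw [← hFx j, polyK, Pool.Agent.H92.GGL.polyOf_eval]
    exact Finset.sum_congr rfl fun k _ => by rw [hαc]
  have hgen' : IntermediateField.adjoin ℂ (Set.range (Sum.elim x (fun l : Empty => l.elim))) =
      ⊤ := by
    rw [← hgen]
    congr 1
    ext f
    constructor
    · rintro ⟨i | i, rfl⟩
      · exact ⟨i, rfl⟩
      · exact i.elim
    · rintro ⟨i, rfl⟩
      exact ⟨Sum.inl i, rfl⟩
  have halgz : Algebra.IsAlgebraic (IntermediateField.adjoin ℂ (Set.range z))
      (functionField P) := isAlgebraic_of_coeffs (ι := Empty) (k := fun l => l.elim)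
        (B := fun l => l.elim) hd (fun l => l.elim) hgen' hα0 hval hx1 (fun l => l.elim)
  have hbasis : IsTranscendenceBasis ℂ z := isTranscendenceBasis_of hind halgz
  refine ⟨P, inferInstance, genIdeal_homogeneous ρ, hAP, ?_, ⟨z, hbasis⟩⟩
  intro Q hQ n hQh v F hF hx
  have h1 : aeval ρ' (rename Sum.inl Q : MvPolynomial (Fin (N + 1) ⊕ Empty) ℂ) = 0 := by
    rw [aeval_rename]
    exact (hmem hQh).mp hQ
  have h2 := generic_vanish (ι := Empty) (T := Empty) hr hd hinj (fun l => l.elim)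
    (fun l => l.elim) hρ' h1 (y := fun l => l.elim) hF hx (fun l => l.elim)
  rw [eval_rename] at h2
  exact h2

end Pool.Agent.H92.GT.Proj
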