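import Pool.Agent.H17LG.Defs
import Pool.Agent.H17LG.ModLREG
import Pool.Agent.H23.Forms

/-!
# Log general type from one function
-/

open Pool.Agent.H23 (RatForm regularForms PrimeDivisorOver dualDer fc)
open Pool.Agent.H17LG (IsLogGeneralType LogRegularAlong exists_logDivisorCoords)
open Pool.Agent.H17GT (RegularAlong)

noncomputable section

namespace Pool.Agent.H92.GT

variable {K : Type} [Field K] [Algebra ℂ K] {k : ℕ}

lemma algebraic_of_le {F F' : IntermediateField ℂ K} (h : F ≤ F')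
    (halg : Algebra.IsAlgebraic F K) : Algebra.IsAlgebraic F' K := by
  constructor
  intro a
  obtain ⟨p, hp, hpa⟩ := halg.isAlgebraic a
  refine ⟨p.map (IntermediateField.inclusion h).toRingHom, ?_, ?_⟩
  · rwa [Ne, Polynomial.map_eq_zero_iff (IntermediateField.inclusion h).toRingHom.injective]
  · rw [← hpa, Polynomial.aeval_def, Polynomial.aeval_def, Polynomial.eval₂_map]
    rfl

/-- Log general type from a function with the required poles. -/
theorem isLogGeneralType_of_function [Algebra.EssFiniteType ℂ K] {z : Fin (k + 1) → K}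
    (hz : IsTranscendenceBasis ℂ z) {b : Module.Basis (Fin (k + 1)) K Ω[K⁄ℂ]}
    {Bd : PrimeDivisorOver K (k + 1) → Prop} {M : ℕ} (hM : 1 ≤ M)
    {N : ℕ} {x : Fin (N + 1) → K} {j₀ : Fin (N + 1)} (hj₀ : x j₀ = 1)
    (halg : Algebra.IsAlgebraic (IntermediateField.adjoin ℂ (Set.range x)) K) {Θ : K}
    (hΘ : Θ ≠ 0)
    (h : ∀ (E : PrimeDivisorOver K (k + 1)) (g₀ : K)
      (bE : Module.Basis (Fin (k + 1)) K Ω[K⁄ℂ]), E.ord g₀ = 1 →
      (∀ i f, 0 ≤ E.ord f → 0 ≤ E.ord (dualDer bE i f)) →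
      (∀ i, i ≠ 0 → ∀ f, E.ord f ≤ E.ord (dualDer bE i f)) →
      (∀ f, E.ord f ≤ E.ord (g₀ * dualDer bE 0 f)) → ∀ i,
      (¬ Bd E → 0 ≤ E.ord (Θ * x i * (bE.toMatrix b).det ^ M)) ∧
        0 ≤ E.ord (Θ * x i * (bE.toMatrix b).det ^ M) + M) :
    IsLogGeneralType Bd := by
  refine ⟨M, hM, exteriorPower.ιMulti K (k + 1) (fun i => b i), ?_, N + 1,
    Fin.cons (Θ * x j₀) fun i => Θ * x i, ?_, ?_, ?_⟩
  · intro h0
    have h1 := congrArg (fc b) h0
    rw [H23.fc_self, map_zero] at h1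
    exact one_ne_zero h1
  · rw [Fin.cons_zero, hj₀, mul_one]
    exact hΘ
  · intro i E
    obtain ⟨g, bE, hbE, hg0, hg, hη, hη', hη0⟩ := exists_logDivisorCoords hz E
    have hmem : exteriorPower.ιMulti K (k + 1) (fun i => bE i) ∈
        regularForms (k + 1) E.localRing := by
      apply AddSubgroup.subset_closure
      refine ⟨1, g, E.localRing.one_mem, hg, ?_⟩
      rw [one_smul]
      simp only [hbE]
    have hform : exteriorPower.ιMulti K (k + 1) (fun i => b i) =
        (bE.toMatrix b).det • exteriorPower.ιMulti K (k + 1) (fun i => bE i) := by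
      rw [H23.ιMulti_eq bE (fun i => b i), Module.Basis.det_apply]
    have hi : ∃ i', (Fin.cons (Θ * x j₀) (fun i => Θ * x i) : Fin (N + 1 + 1) → K) i =
        Θ * x i' := by
      refine Fin.cases ⟨j₀, ?_⟩ (fun i => ⟨i, ?_⟩) i
      · rw [Fin.cons_zero]
      · rw [Fin.cons_succ]
    obtain ⟨i', hi'⟩ := hi
    have h1 := h E (g 0) bE hg0 hη hη' hη0 i'
    rw [hi']
    exact ⟨fun hE => ⟨_, _, hmem, hform, h1.1 hE⟩, fun _ => ⟨_, _, hmem, hform, h1.2⟩⟩
  · refine algebraic_of_le ?_ halg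
    rw [IntermediateField.adjoin_le_iff]
    rintro _ ⟨i, rfl⟩
    apply IntermediateField.subset_adjoin
    refine ⟨i.succ, ?_⟩
    simp only [Fin.cons_succ, Fin.cons_zero]
    rw [hj₀, mul_one, mul_div_cancel_left₀ _ hΘ]

end Pool.Agent.H92.GT
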