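import Mathlib

/-!
# Valuations of polynomials and of resultants
-/

open Polynomial

noncomputable section

namespace Pool.Agent.H92.GT

section Det

variable {K : Type*} [Field K] (v : AddValuation K (WithTop ℤ))

lemma val_prod {κ : Type*} (S : Finset κ) (f : κ → K) :
    v (∏ i ∈ S, f i) = ∑ i ∈ S, v (f i) := by
  classical
  induction S using Finset.induction_on with
  | empty => simp
  | insert a S ha ih => rw [Finset.prod_insert ha, Finset.sum_insert ha, v.map_mul, ih]

lemma coe_sum {κ : Type*} (S : Finset κ) (f : κ → ℤ) :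
    ((∑ i ∈ S, f i : ℤ) : WithTop ℤ) = ∑ i ∈ S, ((f i : ℤ) : WithTop ℤ) := by
  classical
  induction S using Finset.induction_on with
  | empty => simp
  | insert a S ha ih => rw [Finset.sum_insert ha, Finset.sum_insert ha, ← ih]; rfl

/-- A lower bound for the valuation of a determinant. -/
lemma val_det_ge {n : Type*} [Fintype n] [DecidableEq n] (M : Matrix n n K) (r c : n → ℤ)
    (h : ∀ i j, ((r i + c j : ℤ) : WithTop ℤ) ≤ v (M i j)) :
    ((∑ i, r i + ∑ j, c j : ℤ) : WithTop ℤ) ≤ v M.det := by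
  rw [Matrix.det_apply]
  apply v.map_le_sum
  intro σ _
  have h1 : v (Equiv.Perm.sign σ • ∏ i, M (σ i) i) = v (∏ i, M (σ i) i) := by
    rcases Int.units_eq_one_or (Equiv.Perm.sign σ) with h | h
    · rw [h, one_smul]
    · rw [h, Units.neg_smul, one_smul, v.map_neg]
  rw [h1, val_prod]
  have h2 : ∑ i, r i + ∑ j, c j = ∑ i, (r (σ i) + c i) := by
    rw [Finset.sum_add_distrib, Equiv.sum_comp σ r]
  rw [h2, coe_sum]
  exact Finset.sum_le_sum fun i _ => h _ _

end Det

section Sylv

variable {K : Type*} [Field K]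

/-- The product of a Vandermonde matrix and a Sylvester matrix. -/
lemma vandermonde_mul_sylvester' {p q : ℕ} {P Q : K[X]} (hP : P.natDegree ≤ p)
    (hQ : Q.natDegree ≤ q) (w : Fin (p + q) → K) :
    Matrix.vandermonde w * sylvester P Q p q =
      Matrix.of fun i j => Fin.addCases (motive := fun _ => K)
        (fun j₁ : Fin p => w i ^ (j₁ : ℕ) * Q.eval (w i))
        (fun j₁ : Fin q => w i ^ (j₁ : ℕ) * P.eval (w i)) j := by
  have key : ∀ (G : K[X]) (e : ℕ) (hG : G.natDegree ≤ e) (x : K) (j₁ : ℕ) (hj : j₁ + e < p + q),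
      ∑ k : Fin (p + q), x ^ (k : ℕ) *
        (if (k : ℕ) ∈ Set.Icc j₁ (j₁ + e) then G.coeff (k - j₁) else 0) =
      x ^ j₁ * G.eval x := by
    intro G e hG x j₁ hj
    have h1 : x ^ j₁ * G.eval x = (X ^ j₁ * G).eval x := by
      rw [eval_mul, eval_pow, eval_X]
    have hdeg : (X ^ j₁ * G).natDegree < p + q := by
      refine (natDegree_mul_le).trans_lt ?_
      rw [natDegree_X_pow]
      omega
    have h0 := Fin.sum_univ_eq_sum_range (fun k => (X ^ j₁ * G).coeff k * x ^ k) (p + q)
    rw [h1, eval_eq_sum_range' hdeg, ← h0]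
    refine Finset.sum_congr rfl fun k _ => ?_
    rw [mul_comm]
    congr 1
    rw [coeff_X_pow_mul']
    simp only [Set.mem_Icc]
    by_cases h2 : j₁ ≤ k
    · rw [if_pos h2]
      by_cases h3 : (k : ℕ) ≤ j₁ + e
      · rw [if_pos ⟨h2, h3⟩]
      · rw [if_neg (fun h => h3 h.2), coeff_eq_zero_of_natDegree_lt]
        omega
    · rw [if_neg h2, if_neg (fun h => h2 h.1)]
  ext i j
  rw [Matrix.mul_apply]
  induction j using Fin.addCases with
  | left j =>
    simp only [sylvester, Matrix.vandermonde_apply, Matrix.of_apply, Fin.addCases_left]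
    exact key Q q hQ (w i) j (by have := j.2; omega)
  | right j =>
    simp only [sylvester, Matrix.vandermonde_apply, Matrix.of_apply, Fin.addCases_right]
    exact key P p hP (w i) j (by have := j.2; omega)

end Sylv

section Const

variable {K : Type*} [Field K] [Algebra ℂ K] {v : AddValuation K (WithTop ℤ)}

/-- Non-zero constants have valuation zero. -/
lemma val_const (hv : ∀ c : ℂ, 0 ≤ v (algebraMap ℂ K c)) {c : ℂ} (hc : c ≠ 0) :
    v (algebraMap ℂ K c) = 0 := by
  refine le_antisymm ?_ (hv c)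
  have h1 : v (algebraMap ℂ K c) + v (algebraMap ℂ K c⁻¹) = 0 := by
    rw [← v.map_mul, ← map_mul, mul_inv_cancel₀ hc, map_one, v.map_one]
  calc v (algebraMap ℂ K c) ≤ v (algebraMap ℂ K c) + v (algebraMap ℂ K c⁻¹) :=
        le_add_of_nonneg_right (hv _)
    _ = 0 := h1

lemma val_eval_ge (hv : ∀ c : ℂ, 0 ≤ v (algebraMap ℂ K c)) {P : K[X]} {a : ℤ}
    (hP : ∀ i, ((a : ℤ) : WithTop ℤ) ≤ v (P.coeff i)) (w : ℂ) :
    ((a : ℤ) : WithTop ℤ) ≤ v (P.eval (algebraMap ℂ K w)) := by
  rw [eval_eq_sum_range]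
  apply v.map_le_sum
  intro i _
  rw [v.map_mul, ← map_pow]
  exact le_trans (hP i) (le_add_of_nonneg_right (hv _))

/-- **The valuation of a resultant.** -/
lemma val_resultant_ge (hv : ∀ c : ℂ, 0 ≤ v (algebraMap ℂ K c)) {p q : ℕ} {P Q : K[X]} {a b : ℤ}
    (hPd : P.natDegree ≤ p) (hQd : Q.natDegree ≤ q)
    (hP : ∀ i, ((a : ℤ) : WithTop ℤ) ≤ v (P.coeff i))
    (hQ : ∀ i, ((b : ℤ) : WithTop ℤ) ≤ v (Q.coeff i)) (S : Finset ℂ) (hS : S.card ≤ p + q)
    (c : ℂ → ℤ)
    (hPc : ∀ w ∈ S, ((a + c w : ℤ) : WithTop ℤ) ≤ v (P.eval (algebraMap ℂ K w)))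
    (hQc : ∀ w ∈ S, ((b + c w : ℤ) : WithTop ℤ) ≤ v (Q.eval (algebraMap ℂ K w))) :
    ((q * a + p * b + ∑ w ∈ S, c w : ℤ) : WithTop ℤ) ≤ v (resultant P Q p q) := by
  classical
  obtain ⟨I, hSI, hI⟩ := Infinite.exists_superset_card_eq S (p + q) hS
  set e : Fin (p + q) → ℂ := fun k => ((I.equivFinOfCardEq hI).symm k : ℂ) with he
  have heinj : Function.Injective e := by
    intro k l hkl
    exact (I.equivFinOfCardEq hI).symm.injective (Subtype.ext hkl)
  have hdet : (Matrix.vandermonde (fun k => algebraMap ℂ K (e k))).det * resultant P Q p q =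
      (Matrix.of fun i j => Fin.addCases (motive := fun _ => K)
        (fun j₁ : Fin p => algebraMap ℂ K (e i) ^ (j₁ : ℕ) * Q.eval (algebraMap ℂ K (e i)))
        (fun j₁ : Fin q => algebraMap ℂ K (e i) ^ (j₁ : ℕ) * P.eval (algebraMap ℂ K (e i))) j :
          Matrix (Fin (p + q)) (Fin (p + q)) K).det := by
    rw [← vandermonde_mul_sylvester' hPd hQd, Matrix.det_mul]
    rfl
  have hvd : v (Matrix.vandermonde (fun k => algebraMap ℂ K (e k))).det = 0 := by
    have h1 : (Matrix.vandermonde (fun k => algebraMap ℂ K (e k))).det =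
        algebraMap ℂ K (Matrix.vandermonde e).det := by
      rw [Matrix.det_vandermonde, Matrix.det_vandermonde, map_prod]
      refine Finset.prod_congr rfl fun i _ => ?_
      rw [map_prod]
      exact Finset.prod_congr rfl fun j _ => by rw [map_sub]
    rw [h1]
    exact val_const hv (Matrix.det_vandermonde_ne_zero_iff.mpr heinj)
  set c' : ℂ → ℤ := fun w => if w ∈ S then c w else 0 with hc'
  have hbound := val_det_ge v (Matrix.of fun i j => Fin.addCases (motive := fun _ => K)
        (fun j₁ : Fin p => algebraMap ℂ K (e i) ^ (j₁ : ℕ) * Q.eval (algebraMap ℂ K (e i)))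
        (fun j₁ : Fin q => algebraMap ℂ K (e i) ^ (j₁ : ℕ) * P.eval (algebraMap ℂ K (e i))) j :
          Matrix (Fin (p + q)) (Fin (p + q)) K) (fun i => c' (e i))
        (fun j => Fin.addCases (motive := fun _ => ℤ) (fun _ : Fin p => b) (fun _ : Fin q => a) j)
        (by
      intro i j
      have h0 : ∀ n : ℕ, 0 ≤ v (algebraMap ℂ K (e i) ^ n) := by
        intro n
        rw [← map_pow]
        exact hv _
      have h1 : ∀ (G : K[X]) (g : ℤ), (∀ i, ((g : ℤ) : WithTop ℤ) ≤ v (G.coeff i)) →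
          (∀ w ∈ S, ((g + c w : ℤ) : WithTop ℤ) ≤ v (G.eval (algebraMap ℂ K w))) →
          ∀ n : ℕ, ((c' (e i) + g : ℤ) : WithTop ℤ) ≤
            v (algebraMap ℂ K (e i) ^ n * G.eval (algebraMap ℂ K (e i))) := by
        intro G g hG hGc n
        rw [v.map_mul]
        refine le_trans ?_ (le_add_of_nonneg_left (h0 n))
        by_cases hS' : e i ∈ S
        · simp only [hc', if_pos hS']
          rw [add_comm]
          exact hGc _ hS'
        · simp only [hc', if_neg hS']
          rw [zero_add]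
          exact val_eval_ge hv hG _
      induction j using Fin.addCases with
      | left j =>
        simp only [Matrix.of_apply, Fin.addCases_left]
        exact h1 Q b hQ hQc _
      | right j =>
        simp only [Matrix.of_apply, Fin.addCases_right]
        exact h1 P a hP hPc _)
  rw [← hdet, v.map_mul, hvd, zero_add] at hbound
  have hj : ∑ j : Fin (p + q), (Fin.addCases (motive := fun _ => ℤ) (fun _ : Fin p => b)
      (fun _ : Fin q => a) j) = p * b + q * a := by
    rw [Fin.sum_univ_add]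
    simp only [Fin.addCases_left, Fin.addCases_right, Finset.sum_const, Finset.card_univ,
      Fintype.card_fin, nsmul_eq_mul]
  rw [hj] at hbound
  have h2 : ∑ i, c' (e i) = ∑ w ∈ S, c w := by
    have h3 : ∑ i, c' (e i) = ∑ w ∈ I, c' w := by
      rw [← Finset.sum_coe_sort I]
      exact Equiv.sum_comp (I.equivFinOfCardEq hI).symm (fun i : I => c' i)
    rw [h3, ← Finset.sum_subset hSI fun w _ hw => by simp only [hc', if_neg hw]]
    exact Finset.sum_congr rfl fun w hw => by simp only [hc', if_pos hw]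
  rw [h2] at hbound
  refine le_trans (le_of_eq ?_) hbound
  congr 1
  ring

/-- If `m + 1` values of a polynomial of degree at most `m` are divisible then all coefficients are
divisible. -/
lemma coeff_ge_of_eval_ge (hv : ∀ c : ℂ, 0 ≤ v (algebraMap ℂ K c)) {P : K[X]} {m : ℕ}
    (hP : P.natDegree ≤ m) (S : Finset ℂ) (hS : S.card = m + 1) {a : ℤ}
    (h : ∀ w ∈ S, ((a : ℤ) : WithTop ℤ) ≤ v (P.eval (algebraMap ℂ K w))) (i : ℕ) :
    ((a : ℤ) : WithTop ℤ) ≤ v (P.coeff i) := by
  classical
  have h1 : P = Lagrange.interpolate S (algebraMap ℂ K) fun w => P.eval (algebraMap ℂ K w) := by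
    refine Lagrange.eq_interpolate (fun w _ w' _ h => (algebraMap ℂ K).injective h) ?_
    rw [hS]
    refine lt_of_le_of_lt degree_le_natDegree ?_
    exact_mod_cast Nat.lt_succ_of_le hP
  have h2 : ∀ w, Lagrange.basis S (algebraMap ℂ K) w =
      (Lagrange.basis S id w).map (algebraMap ℂ K) := by
    intro w
    unfold Lagrange.basis
    rw [Polynomial.map_prod]
    refine Finset.prod_congr rfl fun j _ => ?_
    unfold Lagrange.basisDivisor
    simp only [Polynomial.map_mul, Polynomial.map_sub, Polynomial.map_C, Polynomial.map_X, id_eq,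
      map_inv₀, map_sub]
  rw [h1, Lagrange.interpolate_apply, finsetSum_coeff]
  apply v.map_le_sum
  intro w hw
  rw [coeff_C_mul, h2, coeff_map, v.map_mul]
  exact le_trans (h w hw) (le_add_of_nonneg_right (hv _))

omit [Algebra ℂ K] in
/-- The content of a polynomial. -/
lemma exists_content {P : K[X]} (hP : P ≠ 0) :
    ∃ a : ℤ, (∀ i, ((a : ℤ) : WithTop ℤ) ≤ v (P.coeff i)) ∧
      ∃ i, v (P.coeff i) = ((a : ℤ) : WithTop ℤ) := by
  obtain ⟨i, hi, hmin⟩ := P.support.exists_min_image (fun i => v (P.coeff i))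
    (Polynomial.support_nonempty.mpr hP)
  have h0 : v (P.coeff i) ≠ ⊤ := v.ne_top_iff.mpr (mem_support_iff.mp hi)
  obtain ⟨a, ha⟩ := WithTop.ne_top_iff_exists.mp h0
  refine ⟨a, fun j => ?_, i, ha.symm⟩
  by_cases hj : j ∈ P.support
  · rw [ha]
    exact hmin j hj
  · rw [notMem_support_iff.mp hj, v.map_zero]
    exact le_top

/-- Few values of a polynomial have large valuation. -/
lemma card_large_le (hv : ∀ c : ℂ, 0 ≤ v (algebraMap ℂ K c)) {P : K[X]} {m : ℕ}
    (hP : P.natDegree ≤ m) {a : ℤ} (ha : ∃ i, v (P.coeff i) = ((a : ℤ) : WithTop ℤ)) (S : Finset ℂ)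
    (hS : ∀ w ∈ S, ((a : ℤ) : WithTop ℤ) < v (P.eval (algebraMap ℂ K w))) : S.card ≤ m := by
  by_contra hcon
  push Not at hcon
  obtain ⟨S', hS'S, hS'⟩ := Finset.exists_subset_card_eq hcon
  obtain ⟨i, hi⟩ := ha
  have h1 := coeff_ge_of_eval_ge hv hP S' hS' (a := a + 1) (fun w hw => by
    have h2 := hS w (hS'S hw)
    induction hx : v (P.eval (algebraMap ℂ K w)) using WithTop.recTopCoe with
    | top => exact le_top
    | coe b =>
      rw [hx] at h2
      have h3 : a < b := by exact_mod_cast h2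
      exact_mod_cast (by omega : a + 1 ≤ b)) i
  rw [hi] at h1
  have h2 : a + 1 ≤ a := by exact_mod_cast h1
  omega

end Const

end Pool.Agent.H92.GT
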