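import Pool.Agent.H17LG.ModLREG
import Pool.Agent.H92.GT.ValRes

/-!
# Bounds for the coordinate derivations at a prime divisor
-/

open Pool.Agent.H23 (RatForm regularForms PrimeDivisorOver dualDer dualDer_apply)

noncomputable section

namespace Pool.Agent.H92.GT

variable {K : Type} [Field K] [Algebra ℂ K] {k : ℕ}

/-- Cramer's rule for the change of coordinates. -/
lemma det_mul_dualDer (b bE : Module.Basis (Fin (k + 1)) K Ω[K⁄ℂ]) (a : Fin (k + 1)) (f : K) :
    (bE.toMatrix b).det * dualDer b a f =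
      ((bE.toMatrix b).updateCol a fun i => dualDer bE i f).det := by
  have h1 : (fun i => dualDer bE i f) = (bE.toMatrix b).mulVec fun j => dualDer b j f := by
    funext i
    rw [Matrix.mulVec, dotProduct]
    have h2 : KaehlerDifferential.D ℂ K f = ∑ j, dualDer b j f • b j := by
      conv_lhs => rw [← b.sum_repr (KaehlerDifferential.D ℂ K f)]
      rfl
    rw [dualDer_apply, h2, map_sum, Finsupp.finsetSum_apply]
    refine Finset.sum_congr rfl fun j _ => ?_
    rw [map_smul, Finsupp.smul_apply, smul_eq_mul, mul_comm]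
    rfl
  rw [h1, ← Matrix.cramer_apply, Matrix.cramer_eq_adjugate_mulVec, Matrix.mulVec_mulVec,
    Matrix.adjugate_mul, Matrix.smul_mulVec, Matrix.one_mulVec]
  rfl

/-- The loss of the coordinate derivations. -/
def loss (k n : ℕ) : ℕ := if k = 0 then 0 else n * (k + 1)

section

variable {v : AddValuation K (WithTop ℤ)} {g₀ : K} {b bE : Module.Basis (Fin (k + 1)) K Ω[K⁄ℂ]}
  {z : Fin (k + 1) → K}

/-- The regular bound. -/
lemma localDer_nonneg (hreg : ∀ i f, 0 ≤ v f → 0 ≤ v (dualDer bE i f))
    (hb : ∀ i, b i = KaehlerDifferential.D ℂ K (z i)) {a : Fin (k + 1)}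
    (hz : ∀ j, j ≠ a → 0 ≤ v (z j)) {f : K} (hf : 0 ≤ v f) :
    0 ≤ v ((bE.toMatrix b).det * dualDer b a f) := by
  rw [det_mul_dualDer]
  have h1 := val_det_ge v ((bE.toMatrix b).updateCol a fun i => dualDer bE i f) (fun _ => 0)
    (fun _ => 0) (by
      intro i j
      rw [add_zero]
      change (0 : WithTop ℤ) ≤ _
      by_cases hj : j = a
      · rw [hj, Matrix.updateCol_self]
        exact hreg i f hf
      · rw [Matrix.updateCol_ne hj]
        have h2 : bE.toMatrix b i j = dualDer bE i (z j) := by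
          rw [Module.Basis.toMatrix_apply, hb j]
          rfl
        rw [h2]
        exact hreg i _ (hz j hj))
  simpa using h1

/-- The logarithmic bound. -/
lemma localDer_log (hg₀ : v g₀ = 1) (hlog : ∀ i, i ≠ 0 → ∀ f, v f ≤ v (dualDer bE i f))
    (hlog0 : ∀ f, v f ≤ v (g₀ * dualDer bE 0 f))
    (hb : ∀ i, b i = KaehlerDifferential.D ℂ K (z i)) {a : Fin (k + 1)} {n : ℕ}
    (hz : ∀ j, ((-(n : ℤ) : ℤ) : WithTop ℤ) ≤ v (z j)) {f : K} {m : ℤ}
    (hf : ((m : ℤ) : WithTop ℤ) ≤ v f) :
    ((m - 1 - n * k : ℤ) : WithTop ℤ) ≤ v ((bE.toMatrix b).det * dualDer b a f) := by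
  rw [det_mul_dualDer]
  have hstep : ∀ i (h : K) (l : ℤ), ((l : ℤ) : WithTop ℤ) ≤ v h →
      (((if i = 0 then -1 else 0) + l : ℤ) : WithTop ℤ) ≤ v (dualDer bE i h) := by
    intro i h l hl
    by_cases hi : i = 0
    · rw [if_pos hi, hi]
      have h1 := hl.trans (hlog0 h)
      rw [v.map_mul, hg₀] at h1
      induction hx : v (dualDer bE 0 h) using WithTop.recTopCoe with
      | top => exact le_top
      | coe c =>
        rw [hx] at h1
        have h2 : l ≤ 1 + c := by exact_mod_cast h1
        exact_mod_cast (by omega : -1 + l ≤ c)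
    · rw [if_neg hi, zero_add]
      exact hl.trans (hlog i hi h)
  have h1 := val_det_ge v ((bE.toMatrix b).updateCol a fun i => dualDer bE i f)
    (fun i => if i = 0 then -1 else 0) (fun j => if j = a then m else -(n : ℤ)) (by
      intro i j
      by_cases hj : j = a
      · rw [hj, Matrix.updateCol_self, if_pos rfl]
        exact hstep i f m hf
      · rw [Matrix.updateCol_ne hj, if_neg hj]
        have h2 : bE.toMatrix b i j = dualDer bE i (z j) := by
          rw [Module.Basis.toMatrix_apply, hb j]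
          rfl
        rw [h2]
        exact hstep i _ _ (hz j))
  refine le_trans (le_of_eq ?_) h1
  congr 1
  rw [Finset.sum_ite_eq' Finset.univ (0 : Fin (k + 1)), if_pos (Finset.mem_univ _)]
  have h3 : ∑ j : Fin (k + 1), (if j = a then m else -(n : ℤ)) =
      ∑ j : Fin (k + 1), ((if j = a then m + n else 0) + -(n : ℤ)) := by
    refine Finset.sum_congr rfl fun j _ => ?_
    split_ifs <;> ring
  rw [h3, Finset.sum_add_distrib, Finset.sum_ite_eq' Finset.univ a, if_pos (Finset.mem_univ _),
    Finset.sum_const, Finset.card_univ, Fintype.card_fin, nsmul_eq_mul]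
  push_cast
  ring

/-- The combined bounds. -/
lemma localDer_loss (hg₀ : v g₀ = 1) (hreg : ∀ i f, 0 ≤ v f → 0 ≤ v (dualDer bE i f))
    (hlog : ∀ i, i ≠ 0 → ∀ f, v f ≤ v (dualDer bE i f))
    (hlog0 : ∀ f, v f ≤ v (g₀ * dualDer bE 0 f))
    (hb : ∀ i, b i = KaehlerDifferential.D ℂ K (z i)) (a : Fin (k + 1)) {n : ℕ}
    (hz : ∀ j, ((-(n : ℤ) : ℤ) : WithTop ℤ) ≤ v (z j)) :
    (∀ f, 0 ≤ v f → ((-(loss k n : ℤ) : ℤ) : WithTop ℤ) ≤
      v ((bE.toMatrix b).det * dualDer b a f)) ∧
    ∀ (f : K) (m : ℤ), ((m : ℤ) : WithTop ℤ) ≤ v f →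
      ((m - 1 - (loss k n : ℤ) : ℤ) : WithTop ℤ) ≤ v ((bE.toMatrix b).det * dualDer b a f) := by
  have hle : (n : ℤ) * k ≤ loss k n := by
    unfold loss
    split_ifs with h
    · rw [h]
      simp
    · push_cast
      nlinarith [Nat.cast_nonneg (α := ℤ) n]
  constructor
  · intro f hf
    by_cases hk : k = 0
    · subst hk
      have h1 := localDer_nonneg (a := a) hreg hb (fun j hj => absurd (Fin.ext (by
        have h1 := j.2
        have h2 := a.2
        omega)) hj) hf
      refine le_trans ?_ h1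
      unfold loss
      simp
    · by_cases hn : n = 0
      · subst hn
        have h1 := localDer_nonneg (a := a) hreg hb (fun j _ => by simpa using hz j) hf
        refine le_trans ?_ h1
        unfold loss
        simp
      · have h1 := localDer_log hg₀ hlog hlog0 hb (a := a) hz (f := f) (m := 0) (by simpa using hf)
        refine le_trans ?_ h1
        have h2 : (loss k n : ℤ) = n * (k + 1) := by
          unfold loss
          rw [if_neg hk]
          push_cast
          ring
        rw [h2]
        have h3 : (1 : ℤ) ≤ n := by exact_mod_cast Nat.one_le_iff_ne_zero.mpr hn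
        exact_mod_cast (by nlinarith : -((n : ℤ) * (k + 1)) ≤ 0 - 1 - n * k)
  · intro f m hf
    have h1 := localDer_log hg₀ hlog hlog0 hb (a := a) hz hf
    refine le_trans ?_ h1
    exact_mod_cast (by linarith : m - 1 - (loss k n : ℤ) ≤ m - 1 - (n : ℤ) * k)

end

end Pool.Agent.H92.GT
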