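import Pool.Agent.H17GT.ModDERAE
import Pool.Agent.H17GT.ModEXT

/-!
# Derivations applied to the coefficients of polynomials
-/

open Polynomial
open Pool.Agent.H23 (dualDer dualDer_apply)
open Pool.Agent.H17GT (overC overC_apply)

noncomputable section

namespace Pool.Agent.H92.GT

variable {K : Type} [Field K] [Algebra ℂ K]

/-- The derivation `δ` applied to the coefficients. -/
def mc (δ : Derivation ℂ K K) (P : K[X]) : K[X] :=
  ∑ i ∈ Finset.range (P.natDegree + 1), C (δ (P.coeff i)) * X ^ i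

lemma mc_coeff (δ : Derivation ℂ K K) (P : K[X]) (n : ℕ) : (mc δ P).coeff n = δ (P.coeff n) := by
  unfold mc
  simp only [finsetSum_coeff, coeff_C_mul, coeff_X_pow, mul_ite, mul_one, mul_zero]
  rw [Finset.sum_ite_eq]
  split_ifs with h
  · rfl
  · rw [coeff_eq_zero_of_natDegree_lt, map_zero]
    simpa using h

lemma mc_natDegree_le (δ : Derivation ℂ K K) (P : K[X]) : (mc δ P).natDegree ≤ P.natDegree := by
  rw [natDegree_le_iff_coeff_eq_zero]
  intro n hn
  rw [mc_coeff, coeff_eq_zero_of_natDegree_lt hn, map_zero]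

lemma mc_mul (δ : Derivation ℂ K K) (P Q : K[X]) : mc δ (P * Q) = mc δ P * Q + P * mc δ Q := by
  ext n
  rw [mc_coeff, coeff_add, coeff_mul, coeff_mul, coeff_mul, map_sum, ← Finset.sum_add_distrib]
  refine Finset.sum_congr rfl fun i _ => ?_
  rw [mc_coeff, mc_coeff, δ.leibniz, smul_eq_mul, smul_eq_mul]
  ring

lemma mc_add (δ : Derivation ℂ K K) (P Q : K[X]) : mc δ (P + Q) = mc δ P + mc δ Q := by
  ext n
  rw [mc_coeff, coeff_add, coeff_add, mc_coeff, mc_coeff, map_add]

lemma mc_C (δ : Derivation ℂ K K) (a : K) : mc δ (C a) = C (δ a) := by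
  ext n
  rw [mc_coeff, coeff_C, coeff_C]
  split_ifs
  · rfl
  · rw [map_zero]

lemma mc_map (δ : Derivation ℂ K K) (D : ℂ[X]) : mc δ (D.map (algebraMap ℂ K)) = 0 := by
  ext n
  rw [mc_coeff, coeff_map, coeff_zero]
  exact δ.map_algebraMap _

lemma mc_smul_add {ι : Type*} (S : Finset ι) (c : ι → K) (δ : ι → Derivation ℂ K K)
    {δ' : Derivation ℂ K K} (h : ∀ f, δ' f = ∑ i ∈ S, c i * δ i f) (P : K[X]) :
    mc δ' P = ∑ i ∈ S, C (c i) * mc (δ i) P := by
  ext n
  rw [mc_coeff, h, finsetSum_coeff]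
  exact Finset.sum_congr rfl fun i _ => by rw [coeff_C_mul, mc_coeff]

lemma mc_eval (δ : Derivation ℂ K K) (P : K[X]) (w : ℂ) :
    (mc δ P).eval (algebraMap ℂ K w) = δ (P.eval (algebraMap ℂ K w)) := by
  have h1 : (mc δ P).eval (algebraMap ℂ K w) =
      ∑ i ∈ Finset.range (P.natDegree + 1), δ (P.coeff i) * algebraMap ℂ K w ^ i := by
    unfold mc
    rw [eval_finsetSum]
    exact Finset.sum_congr rfl fun i _ => by rw [eval_mul, eval_C, eval_pow, eval_X]
  rw [h1, eval_eq_sum_range, map_sum]
  refine Finset.sum_congr rfl fun i _ => ?_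
  rw [δ.leibniz, ← map_pow, δ.map_algebraMap, smul_zero, zero_add, smul_eq_mul, mul_comm]

/-- Elements killed by all derivations are constant. -/
lemma exists_const_of_D_eq_zero {f : K} (hf : KaehlerDifferential.D ℂ K f = 0) :
    ∃ c : ℂ, algebraMap ℂ K c = f := by
  by_cases halg : IsAlgebraic ℂ f
  · have hint : IsIntegral ℂ f := halg.isIntegral
    have h : (minpoly ℂ f).degree = 1 :=
      IsAlgClosed.degree_eq_one_of_irreducible ℂ (minpoly.irreducible hint)
    exact minpoly.mem_range_of_degree_eq_one ℂ f h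
  · exfalso
    have hind : AlgebraicIndependent ℂ (fun _ : Unit => f) := by
      rw [algebraicIndependent_unique_type_iff]
      exact halg
    obtain ⟨D', h1, h2⟩ := Pool.Agent.H17GT.exists_ext_values hind (0 : Derivation ℤ ℂ ℂ)
      fun _ => (1 : K)
    have h3 : ∀ c : ℂ, D' (algebraMap ℂ K c) = 0 := by
      intro c
      rw [h1 c]
      simp
    have h4 := h2 ()
    have h5 : overC D' h3 f = (overC D' h3).liftKaehlerDifferential
        (KaehlerDifferential.D ℂ K f) := by
      rw [Derivation.liftKaehlerDifferential_comp_D]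
    rw [hf, map_zero, overC_apply, h4] at h5
    exact one_ne_zero h5

/-- **Moving factors.** -/
theorem exists_not_dvd {k : ℕ} (b : Module.Basis (Fin (k + 1)) K Ω[K⁄ℂ]) {F p : K[X]}
    (hp : p.Monic) (hirr : Irreducible p) (hpF : p ∣ F) (hsq : Squarefree F)
    (hconst : ¬ ∃ a : ℂ, p = X - C (algebraMap ℂ K a)) :
    ∃ a, ¬ p ∣ mc (dualDer b a) F := by
  by_contra hcon
  push Not at hcon
  apply hconst
  obtain ⟨G, rfl⟩ := hpF
  have h1 : ∀ a, mc (dualDer b a) p = 0 := by
    intro a
    have h2 := hcon a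
    rw [mc_mul] at h2
    have h3 : p ∣ mc (dualDer b a) p * G :=
      (dvd_add_left (dvd_mul_right p _)).mp h2
    rcases hirr.prime.dvd_or_dvd h3 with h4 | h4
    · by_contra h5
      have h6 : (mc (dualDer b a) p).natDegree < p.natDegree := by
        have h7 := mc_natDegree_le (dualDer b a) p
        rcases h7.lt_or_eq with h8 | h8
        · exact h8
        · exfalso
          have h9 : (mc (dualDer b a) p).coeff p.natDegree = 0 := by
            rw [mc_coeff, hp.coeff_natDegree, Derivation.map_one_eq_zero]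
          rw [← h8] at h9
          exact h5 (leadingCoeff_eq_zero.mp h9)
      exact absurd (natDegree_le_of_dvd h4 h5) (by omega)
    · exfalso
      have h5 : p * p ∣ p * G := mul_dvd_mul_left p h4
      exact hirr.not_isUnit (hsq p h5)
  have h2 : ∀ n, ∃ c : ℂ, algebraMap ℂ K c = p.coeff n := by
    intro n
    apply exists_const_of_D_eq_zero
    rw [← b.sum_repr (KaehlerDifferential.D ℂ K (p.coeff n))]
    refine Finset.sum_eq_zero fun a _ => ?_
    have h3 := congrArg (fun q => q.coeff n) (h1 a)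
    simp only [mc_coeff, coeff_zero] at h3
    rw [← dualDer_apply, h3, zero_smul]
  have h3 : p ∈ Polynomial.lifts (algebraMap ℂ K) := by
    rw [Polynomial.lifts_iff_coeff_lifts]
    exact h2
  obtain ⟨p₀, hp₀, hdeg, hmon⟩ := Polynomial.lifts_and_natDegree_eq_and_monic h3 hp
  have hirr₀ : Irreducible p₀ := by
    apply hmon.irreducible_of_irreducible_map (algebraMap ℂ K)
    rw [hp₀]
    exact hirr
  have h4 := IsAlgClosed.degree_eq_one_of_irreducible ℂ hirr₀
  have h5 : p₀.natDegree = 1 := natDegree_eq_of_degree_eq_some h4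
  have h6 := hmon.as_sum
  rw [h5] at h6
  simp only [pow_one, Finset.range_one, Finset.sum_singleton, pow_zero, mul_one] at h6
  refine ⟨-p₀.coeff 0, ?_⟩
  rw [← hp₀, h6]
  simp

end Pool.Agent.H92.GT
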