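import Pool.Agent.H92.GT.ThetaLoc

/-!
# Contents
-/

open Polynomial

noncomputable section

namespace Pool.Agent.H92.GT

variable {K : Type} [Field K] [Algebra ℂ K] {v : AddValuation K (WithTop ℤ)}

/-- `c` is the minimal order of the coefficients of `P`. -/
def IsCt (v : AddValuation K (WithTop ℤ)) (P : K[X]) (c : ℤ) : Prop :=
  (∀ i, ((c : ℤ) : WithTop ℤ) ≤ v (P.coeff i)) ∧ ∃ i, v (P.coeff i) = ((c : ℤ) : WithTop ℤ)

lemma IsCt.finite (hv : ∀ c : ℂ, 0 ≤ v (algebraMap ℂ K c)) {P : K[X]} {c : ℤ}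
    (h : IsCt v P c) : {w : ℂ | v (P.eval (algebraMap ℂ K w)) ≠ ((c : ℤ) : WithTop ℤ)}.Finite := by
  refine (finite_large hv h.2).subset ?_
  intro w hw
  exact lt_of_le_of_ne (val_eval_ge hv h.1 w) (Ne.symm hw)

lemma IsCt.eq_of_finite (hv : ∀ c : ℂ, 0 ≤ v (algebraMap ℂ K c)) {P : K[X]} {c c' : ℤ}
    (h : IsCt v P c)
    (h' : {w : ℂ | v (P.eval (algebraMap ℂ K w)) ≠ ((c' : ℤ) : WithTop ℤ)}.Finite) : c = c' := by
  obtain ⟨w, hw⟩ := ((h.finite hv).union h').infinite_compl.nonempty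
  rw [Set.mem_compl_iff, Set.mem_union, not_or] at hw
  obtain ⟨h1, h2⟩ := hw
  have h3 : v (P.eval (algebraMap ℂ K w)) = ((c : ℤ) : WithTop ℤ) := by
    by_contra h4
    exact h1 h4
  have h4 : v (P.eval (algebraMap ℂ K w)) = ((c' : ℤ) : WithTop ℤ) := by
    by_contra h5
    exact h2 h5
  rw [h3] at h4
  exact_mod_cast h4

/-- Gauss's lemma. -/
lemma IsCt.mul (hv : ∀ c : ℂ, 0 ≤ v (algebraMap ℂ K c)) {P Q : K[X]} {a b : ℤ}
    (hP : IsCt v P a) (hQ : IsCt v Q b) : IsCt v (P * Q) (a + b) := by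
  have hP0 : P ≠ 0 := by
    rintro rfl
    obtain ⟨i, hi⟩ := hP.2
    rw [coeff_zero, v.map_zero] at hi
    exact absurd hi.symm (by simp)
  have hQ0 : Q ≠ 0 := by
    rintro rfl
    obtain ⟨i, hi⟩ := hQ.2
    rw [coeff_zero, v.map_zero] at hi
    exact absurd hi.symm (by simp)
  obtain ⟨c, hc1, hc2⟩ := exists_content (v := v) (mul_ne_zero hP0 hQ0)
  have hc : IsCt v (P * Q) c := ⟨hc1, hc2⟩
  have h1 : c = a + b := by
    refine hc.eq_of_finite hv (((hP.finite hv).union (hQ.finite hv)).subset ?_)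
    intro w hw
    by_contra h2
    rw [Set.mem_union, not_or] at h2
    obtain ⟨h3, h4⟩ := h2
    apply hw
    have h5 : v (P.eval (algebraMap ℂ K w)) = ((a : ℤ) : WithTop ℤ) := by
      by_contra h5
      exact h3 h5
    have h6 : v (Q.eval (algebraMap ℂ K w)) = ((b : ℤ) : WithTop ℤ) := by
      by_contra h6
      exact h4 h6
    rw [eval_mul, v.map_mul, h5, h6]
    rfl
  rw [← h1]
  exact hc

omit [Algebra ℂ K] in
lemma IsCt.unique {P : K[X]} {a b : ℤ} (h : IsCt v P a) (h' : IsCt v P b) : a = b := by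
  obtain ⟨i, hi⟩ := h.2
  obtain ⟨j, hj⟩ := h'.2
  have h1 := h'.1 i
  rw [hi] at h1
  have h2 := h.1 j
  rw [hj] at h2
  have h3 : b ≤ a := by exact_mod_cast h1
  have h4 : a ≤ b := by exact_mod_cast h2
  omega

lemma IsCt.pow (hv : ∀ c : ℂ, 0 ≤ v (algebraMap ℂ K c)) {P : K[X]} {a : ℤ} (hP : IsCt v P a)
    (n : ℕ) : IsCt v (P ^ n) (n * a) := by
  induction n with
  | zero =>
    refine ⟨fun i => ?_, 0, ?_⟩
    · rw [pow_zero, coeff_one]
      split_ifs
      · rw [v.map_one]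
        simp
      · rw [v.map_zero]
        exact le_top
    · rw [pow_zero, coeff_one_zero, v.map_one]
      simp
  | succ n ih =>
    have h1 := ih.mul hv hP
    have h2 : ((n + 1 : ℕ) : ℤ) * a = n * a + a := by
      push_cast
      ring
    rw [pow_succ, h2]
    exact h1

/-- Polynomials with constant coefficients. -/
lemma isCt_map (hv : ∀ c : ℂ, 0 ≤ v (algebraMap ℂ K c)) {D : ℂ[X]} (hD : D ≠ 0) :
    IsCt v (D.map (algebraMap ℂ K)) 0 := by
  refine ⟨fun i => ?_, D.natDegree, ?_⟩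
  · rw [coeff_map]
    simpa using hv _
  · rw [coeff_map, coeff_natDegree, val_const hv (leadingCoeff_ne_zero.mpr hD)]
    rfl

/-- The excess of the order of a value is monotone for divisibility. -/
lemma excess_le (hv : ∀ c : ℂ, 0 ≤ v (algebraMap ℂ K c)) {P Q : K[X]} (hdvd : P ∣ Q)
    {a b : ℤ} (hP : IsCt v P a) (hQ : IsCt v Q b) {w : ℂ} {o o' : ℤ}
    (ho : v (P.eval (algebraMap ℂ K w)) = ((o + a : ℤ) : WithTop ℤ))
    (ho' : v (Q.eval (algebraMap ℂ K w)) = ((o' + b : ℤ) : WithTop ℤ)) : o ≤ o' := by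
  obtain ⟨R, rfl⟩ := hdvd
  have hR0 : R ≠ 0 := by
    rintro rfl
    obtain ⟨i, hi⟩ := hQ.2
    rw [mul_zero, coeff_zero, v.map_zero] at hi
    exact absurd hi.symm (by simp)
  obtain ⟨c, hc1, hc2⟩ := exists_content (v := v) hR0
  have h1 := (hP.mul hv ⟨hc1, hc2⟩).unique hQ
  have h2 := val_eval_ge hv hc1 w
  rw [eval_mul, v.map_mul, ho] at ho'
  have h3 := add_le_add (le_refl ((o + a : ℤ) : WithTop ℤ)) h2
  rw [ho'] at h3
  have h4 : o + a + c ≤ o' + b := by exact_mod_cast h3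
  omega

end Pool.Agent.H92.GT
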