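import Pool.Agent.H17LG.Variety
import Pool.Agent.H99.Cover.Defs

/-!
# Strongly of log general type: varieties in the total space of a sum of line bundles
-/

open MvPolynomial
open Pool.Agent.H23.Fano (PrimeDivisorOver)
open Pool.Agent.H17LG.Variety (IsLogGeneralType)
open Pool.Agent.H99.Cover (Tot VanishesAt ZariskiClosedIn coverSet weights)

noncomputable section

namespace Pool.Agent.H92.GT.Cover

variable {N : ℕ} {ι : Type}

section Subvariety

variable (P : Ideal (MvPolynomial (Fin (N + 1) ⊕ ι) ℂ)) [P.IsPrime]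

/-- The coordinate function `x i` or `y j` in the fraction field of the homogeneous coordinate
ring `ℂ[x, y] / P`. -/
def coordFun (i : Fin (N + 1) ⊕ ι) : FractionRing (MvPolynomial (Fin (N + 1) ⊕ ι) ℂ ⧸ P) :=
  algebraMap (MvPolynomial (Fin (N + 1) ⊕ ι) ℂ ⧸ P) _ (Ideal.Quotient.mk P (X i))

variable (e : ι → ℕ)

/-- The function field of the closed subvariety of the total space of `⊕ O (e j)` over `ℙ^N` given
by the weighted homogeneous prime ideal `P`: the field generated over `ℂ` by the functions
`x i / x i'` and `y j / x i' ^ (e j)`. -/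
def functionField : IntermediateField ℂ (FractionRing (MvPolynomial (Fin (N + 1) ⊕ ι) ℂ ⧸ P)) :=
  IntermediateField.adjoin ℂ
    {f | ∃ i i', f = coordFun P i / coordFun P (Sum.inl i') ^ weights N e i}

/-- The function field of the closed subvariety given by `P`. -/
def FunField : Type := functionField P e

instance : Field (FunField P e) := (inferInstance : Field (functionField P e))

instance : Algebra ℂ (FunField P e) := (inferInstance : Algebra ℂ (functionField P e))

/-- The function `x i / x i'` or `y j / x i' ^ (e j)` on the subvariety given by `P`. -/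
def ratio (i : Fin (N + 1) ⊕ ι) (i' : Fin (N + 1)) : FunField P e :=
  (⟨coordFun P i / coordFun P (Sum.inl i') ^ weights N e i,
    IntermediateField.subset_adjoin _ _ ⟨i, i', rfl⟩⟩ : functionField P e)

/-- The centre of the prime divisor `E` on the closed subvariety given by `P` lies in the
hypersurface `H (x) = 0`. -/
def OnBoundary (H : MvPolynomial (Fin (N + 1)) ℂ) {k : ℕ}
    (E : PrimeDivisorOver (FunField P e) k) : Prop :=
  ∃ i', coordFun P (Sum.inl i') ≠ 0 ∧ (∀ i, 0 ≤ E.ord (ratio P e i i')) ∧
    0 < E.ord (aeval (fun i => ratio P e (Sum.inl i) i') H)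

end Subvariety

/-- The closed subset of `X` given by the ideal `P`. -/
def zeroSet {e : ι → ℕ} (X : Set (Tot N e)) (P : Ideal (MvPolynomial (Fin (N + 1) ⊕ ι) ℂ)) :
    Set (Tot N e) :=
  {x | x ∈ X ∧ ∀ Q ∈ P, (∃ n, IsWeightedHomogeneous (weights N e) Q n) → VanishesAt Q x}

/-- Let `X` be the variety `G i (x) = 0`, `y j ^ m j = F j (x)`, `H (x) ≠ 0` in the total space of
`⊕ O (e j)` over `ℙ^N`.  Then `X` is irreducible of dimension `n` and of log general type.

Irreducible closed subsets of `X` are given by weighted homogeneous prime ideals `P` which contain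
the equations of `X` but not `H`, and their dimension is the transcendence degree of their function
field.  The closure of `X` is finite over `ℙ^N`, hence complete, and its boundary is given by
`H (x) = 0`. -/
def LogGeneralType {κ : Type} (n : ℕ) (e m : ι → ℕ) (G : κ → MvPolynomial (Fin (N + 1)) ℂ)
    (F : ι → MvPolynomial (Fin (N + 1)) ℂ) (H : MvPolynomial (Fin (N + 1)) ℂ) : Prop :=
  ∃ (P : Ideal (MvPolynomial (Fin (N + 1) ⊕ ι) ℂ)) (_ : P.IsPrime),
    (∀ p ∈ P, ∀ n, weightedHomogeneousComponent (weights N e) n p ∈ P) ∧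
    (∀ i, rename Sum.inl (G i) ∈ P) ∧
    (∀ j, X (Sum.inr j) ^ m j - rename Sum.inl (F j) ∈ P) ∧ rename Sum.inl H ∉ P ∧
    zeroSet (coverSet e m G F H) P = coverSet e m G F H ∧
    (∃ z : Fin n → FunField P e, IsTranscendenceBasis ℂ z) ∧
    IsLogGeneralType (OnBoundary P e H (k := n))

/-- Let `X` be the variety `G i (x) = 0`, `y j ^ m j = F j (x)`, `H (x) ≠ 0` in the total space of
`⊕ O (e j)` over `ℙ^N`.  Then `X` is strongly of log general type: there is a Zariski closed proper
subset `Ξ` of `X` such that all closed subvarieties of positive dimension of `X` that are not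
contained in `Ξ` are of log general type.  Closed subvarieties are given by weighted homogeneous
prime ideals as in `LogGeneralType`. -/
def StronglyLogGeneralType {κ : Type} (e m : ι → ℕ) (G : κ → MvPolynomial (Fin (N + 1)) ℂ)
    (F : ι → MvPolynomial (Fin (N + 1)) ℂ) (H : MvPolynomial (Fin (N + 1)) ℂ) : Prop :=
  ∃ Ξ : Set (Tot N e), ZariskiClosedIn (coverSet e m G F H) Ξ ∧ Ξ ≠ coverSet e m G F H ∧
    ∀ (P : Ideal (MvPolynomial (Fin (N + 1) ⊕ ι) ℂ)) [P.IsPrime],
      (∀ p ∈ P, ∀ n, weightedHomogeneousComponent (weights N e) n p ∈ P) →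
      (∀ i, rename Sum.inl (G i) ∈ P) →
      (∀ j, X (Sum.inr j) ^ m j - rename Sum.inl (F j) ∈ P) → rename Sum.inl H ∉ P →
      ¬ zeroSet (coverSet e m G F H) P ⊆ Ξ →
      ∀ k, 1 ≤ k → (∃ z : Fin k → FunField P e, IsTranscendenceBasis ℂ z) →
        IsLogGeneralType (OnBoundary P e H (k := k))

end Pool.Agent.H92.GT.Cover
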