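import Pool.Agent.H92.GGL.WDisc
import Pool.Agent.H92.GGL.CurveRigid

/-!
# The polynomial over the function field
-/

open Polynomial
open Pool.Agent.H17 Pool.Agent.H92.GGL

noncomputable section

namespace Pool.Agent.H92.GT

variable {K : Type} [Field K] [Algebra ℂ K]

omit [Algebra ℂ K] in
lemma of_discN_ne_zero {n : ℕ} (hn : 0 < n) {P : K[X]} (hP : P.natDegree ≤ n)
    (h : discN n P ≠ 0) : P.natDegree = n ∧ Squarefree P := by
  constructor
  · by_contra hne
    have h1 : P.natDegree ≤ n - 1 := by omega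
    apply h
    unfold discN
    obtain ⟨m, rfl⟩ : ∃ m, n = m + 1 := ⟨n - 1, by omega⟩
    rw [Nat.add_sub_cancel] at h1 ⊢
    rw [resultant_succ_left_deg _ _ _ _ h1, coeff_derivative,
      coeff_eq_zero_of_natDegree_lt (by omega)]
    simp
  · intro x hx
    by_contra hxu
    have hP0 : P ≠ 0 := by
      rintro rfl
      apply h
      unfold discN
      rw [derivative_zero, resultant_zero_zero, zero_pow (by omega)]
    have hx0 : x ≠ 0 := by
      rintro rfl
      rw [mul_zero, zero_dvd_iff] at hx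
      exact hP0 hx
    obtain ⟨p, hp, hpx⟩ := WfDvdMonoid.exists_irreducible_factor hxu hx0
    refine not_sq_dvd_of_discN_ne_zero hn hP h hp ?_
    rw [sq]
    exact (mul_dvd_mul hpx hpx).trans hx

/-- The polynomial with the coefficients `∑ j, b j k * x j ^ d`. -/
def polyK {N : ℕ} (r d : ℕ) (b : Fin (N + 1) → Fin (r + 1) → ℂ) (x : Fin (N + 1) → K) : K[X] :=
  polyOf fun k : Fin (r + 1) => ∑ j, algebraMap ℂ K (b j k) * x j ^ d

lemma polyK_natDegree {N : ℕ} {r d : ℕ} {b : Fin (N + 1) → Fin (r + 1) → ℂ}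
    {x : Fin (N + 1) → K} : (polyK r d b x).natDegree ≤ r := natDegree_polyOf _

lemma polyK_eval {N r d : ℕ} {t : Fin (N + 1) → ℂ} {b : Fin (N + 1) → Fin (r + 1) → ℂ}
    (hb : ∀ (a : Fin (r + 1) → ℂ) k, a k = ∑ j, b j k * evMap r t a j)
    {M : ℕ} {c : Fin M → Fin (N + 1) → ℂ}
    (hc : ∀ w : Fin (N + 1) → ℂ, (∀ l, ∑ j, c l j * w j = 0) ↔ ∃ a, evMap r t a = w)
    {x : Fin (N + 1) → K} (hx : ∀ l, ∑ j, algebraMap ℂ K (c l j) * x j ^ d = 0)
    (j : Fin (N + 1)) : (polyK r d b x).eval (algebraMap ℂ K (t j)) = x j ^ d := by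
  rw [← sub_eq_zero, ← Module.forall_dual_apply_eq_zero_iff ℂ]
  intro φ
  have hφ : ∀ (z : ℂ) (f : K), φ (algebraMap ℂ K z * f) = z * φ f := by
    intro z f
    rw [← Algebra.smul_def, map_smul, smul_eq_mul]
  obtain ⟨a, ha⟩ := (hc fun j => φ (x j ^ d)).mp (by
    intro l
    have h1 := congrArg φ (hx l)
    rw [map_sum, map_zero] at h1
    rw [← h1]
    exact Finset.sum_congr rfl fun j _ => (hφ _ _).symm)
  have h1 : ∀ k, φ (∑ i, algebraMap ℂ K (b i k) * x i ^ d) = a k := by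
    intro k
    rw [hb a k, map_sum, ha]
    exact Finset.sum_congr rfl fun i _ => hφ _ _
  have h2 : φ ((polyK r d b x).eval (algebraMap ℂ K (t j))) = evMap r t a j := by
    rw [evMap_apply, polyOf_eval, polyK, polyOf_eval, map_sum]
    refine Finset.sum_congr rfl fun k _ => ?_
    rw [mul_comm, ← map_pow, hφ, h1, mul_comm]
  rw [map_sub, h2, congrFun ha j, sub_self]

lemma genPoly_map_aeval {σ : Type} {N r d : ℕ} {b : Fin (N + 1) → Fin (r + 1) → ℂ}
    {v : Fin (N + 1) → σ} {X : σ → K} :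
    (genPoly r d b v).map (MvPolynomial.aeval X : MvPolynomial σ ℂ →ₐ[ℂ] K).toRingHom =
      polyK r d b fun j => X (v j) := by
  unfold genPoly polyK
  rw [polyOf_map]
  congr 1
  funext k
  rw [map_sum]
  refine Finset.sum_congr rfl fun j _ => ?_
  rw [map_mul, map_pow]
  congr 1
  · exact MvPolynomial.aeval_C _ _
  · congr 1
    exact MvPolynomial.aeval_X _ _

lemma genPoly_eval_aeval {σ : Type} {N r d : ℕ} {b : Fin (N + 1) → Fin (r + 1) → ℂ}
    {v : Fin (N + 1) → σ} {X : σ → K} (c : ℂ) :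
    MvPolynomial.aeval X ((genPoly r d b v).eval (MvPolynomial.C c)) =
      (polyK r d b fun j => X (v j)).eval (algebraMap ℂ K c) := by
  rw [← genPoly_map_aeval, eval_map]
  have h1 : algebraMap ℂ K c =
      (MvPolynomial.aeval X : MvPolynomial σ ℂ →ₐ[ℂ] K).toRingHom (MvPolynomial.C c) :=
    (MvPolynomial.aeval_C _ _).symm
  rw [h1, Polynomial.eval₂_hom]
  rfl

end Pool.Agent.H92.GT
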