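import Pool.Agent.H92.GT.CoverDefs

/-!
# The generic point of a closed subvariety of the total space
-/

open MvPolynomial
open Pool.Agent.H99.Cover (weights)

noncomputable section

namespace Pool.Agent.H92.GT.Cover

variable {N : ℕ} {ι : Type}

theorem essFiniteType_functionField [Finite ι] (P : Ideal (MvPolynomial (Fin (N + 1) ⊕ ι) ℂ))
    [P.IsPrime] (e : ι → ℕ) : Algebra.EssFiniteType ℂ (functionField P e) := by
  rw [IntermediateField.essFiniteType_iff]
  have hfin : {f | ∃ i i', f = coordFun P i / coordFun P (Sum.inl i') ^ weights N e i}.Finite := by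
    have : {f | ∃ i i', f = coordFun P i / coordFun P (Sum.inl i') ^ weights N e i} =
        Set.range fun q : (Fin (N + 1) ⊕ ι) × Fin (N + 1) =>
          coordFun P q.1 / coordFun P (Sum.inl q.2) ^ weights N e q.1 := by
      ext y
      constructor
      · rintro ⟨i, j, rfl⟩
        exact ⟨(i, j), rfl⟩
      · rintro ⟨⟨i, j⟩, rfl⟩
        exact ⟨i, j, rfl⟩
    rw [this]
    exact Set.finite_range _
  refine ⟨hfin.toFinset, ?_⟩
  rw [functionField, Set.Finite.coe_toFinset]

lemma aeval_wscale {σ K : Type} [Field K] [Algebra ℂ K] {w : σ → ℕ} {n : ℕ}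
    {G : MvPolynomial σ ℂ} (hG : IsWeightedHomogeneous w G n) (c : K) (x : σ → K) :
    aeval (fun i => c ^ w i * x i) G = c ^ n * aeval x G := by
  rw [aeval_def, aeval_def, eval₂_eq, eval₂_eq, Finset.mul_sum]
  refine Finset.sum_congr rfl fun m hm => ?_
  have h4 : Finsupp.weight w m = n := hG (mem_support_iff.mp hm)
  have h5 : ∏ i ∈ m.support, (c ^ w i * x i) ^ m i = c ^ n * ∏ i ∈ m.support, x i ^ m i := by
    rw [Finset.prod_congr rfl fun i _ => mul_pow (c ^ w i) (x i) (m i), Finset.prod_mul_distrib]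
    congr 1
    rw [← h4, Finsupp.weight_apply, Finsupp.sum, ← Finset.prod_pow_eq_pow_sum]
    refine Finset.prod_congr rfl fun i _ => ?_
    rw [← pow_mul, smul_eq_mul, mul_comm]
  rw [h5]
  ring

lemma aeval_coordFun_eq_zero_iff (P : Ideal (MvPolynomial (Fin (N + 1) ⊕ ι) ℂ)) [P.IsPrime]
    (G : MvPolynomial (Fin (N + 1) ⊕ ι) ℂ) : aeval (coordFun P) G = 0 ↔ G ∈ P := by
  have heval : ∀ G : MvPolynomial (Fin (N + 1) ⊕ ι) ℂ, aeval (coordFun P) G =
      algebraMap (MvPolynomial (Fin (N + 1) ⊕ ι) ℂ ⧸ P)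
        (FractionRing (MvPolynomial (Fin (N + 1) ⊕ ι) ℂ ⧸ P)) (Ideal.Quotient.mk P G) := by
    intro G
    have h8 : (aeval (coordFun P) : MvPolynomial (Fin (N + 1) ⊕ ι) ℂ →ₐ[ℂ] _) =
        (IsScalarTower.toAlgHom ℂ (MvPolynomial (Fin (N + 1) ⊕ ι) ℂ ⧸ P)
          (FractionRing (MvPolynomial (Fin (N + 1) ⊕ ι) ℂ ⧸ P))).comp (Ideal.Quotient.mkₐ ℂ P) := by
      apply MvPolynomial.algHom_ext
      intro i
      rw [aeval_X]
      rfl
    rw [h8]
    rfl
  rw [heval]
  constructor
  · intro h0
    have h10 : Ideal.Quotient.mk P G = 0 :=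
      (IsFractionRing.injective (MvPolynomial (Fin (N + 1) ⊕ ι) ℂ ⧸ P)
        (FractionRing (MvPolynomial (Fin (N + 1) ⊕ ι) ℂ ⧸ P))) (by rw [h0, map_zero])
    exact Ideal.Quotient.eq_zero_iff_mem.1 h10
  · intro hGP
    rw [Ideal.Quotient.eq_zero_iff_mem.2 hGP, map_zero]

/-- The generic point of a closed subvariety, normalised by a non-zero coordinate. -/
theorem cover_point (P : Ideal (MvPolynomial (Fin (N + 1) ⊕ ι) ℂ)) [P.IsPrime]
    (e m : ι → ℕ) (hm : ∀ l, 1 ≤ m l) (B : ι → MvPolynomial (Fin (N + 1)) ℂ)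
    (hB : ∀ l, (B l).IsHomogeneous (m l * e l))
    (hBP : ∀ l, X (Sum.inr l) ^ m l - rename Sum.inl (B l) ∈ P)
    {j₀ : Fin (N + 1)} (hj₀ : coordFun P (Sum.inl j₀) ≠ 0) :
    ∃ (x : Fin (N + 1) → functionField P e) (y : ι → functionField P e),
      x j₀ = 1 ∧ (∀ j, x j = 0 ↔ coordFun P (Sum.inl j) = 0) ∧
      (∀ (i : Fin (N + 1)) (j : Fin (N + 1)), x i / x j = ratio P e (Sum.inl i) j) ∧
      (∀ (l : ι) (j : Fin (N + 1)), y l / x j ^ e l = ratio P e (Sum.inr l) j) ∧
      IntermediateField.adjoin ℂ (Set.range (Sum.elim x y)) = ⊤ ∧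
      Algebra.IsAlgebraic (IntermediateField.adjoin ℂ (Set.range x)) (functionField P e) ∧
      (∀ (G : MvPolynomial (Fin (N + 1) ⊕ ι) ℂ) (n : ℕ),
        IsWeightedHomogeneous (weights N e) G n → (aeval (Sum.elim x y) G = 0 ↔ G ∈ P)) := by
  classical
  have heval0 := aeval_coordFun_eq_zero_iff P
  set c := coordFun P (Sum.inl j₀) with hc
  have hmem : ∀ i, coordFun P i / c ^ weights N e i ∈ functionField P e := fun i =>
    IntermediateField.subset_adjoin _ _ ⟨i, j₀, rfl⟩
  set X' : Fin (N + 1) ⊕ ι → functionField P e := fun i => ⟨coordFun P i / c ^ weights N e i,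
    hmem i⟩ with hX'
  have hval : ∀ i, ((X' i : functionField P e) :
      FractionRing (MvPolynomial (Fin (N + 1) ⊕ ι) ℂ ⧸ P)) = coordFun P i / c ^ weights N e i :=
    fun i => rfl
  have hratio : ∀ i j, ((X' i / X' (Sum.inl j) ^ weights N e i : functionField P e) :
      FractionRing (MvPolynomial (Fin (N + 1) ⊕ ι) ℂ ⧸ P)) =
        coordFun P i / coordFun P (Sum.inl j) ^ weights N e i := by
    intro i j
    have h1 : ((X' i / X' (Sum.inl j) ^ weights N e i : functionField P e) :
      FractionRing (MvPolynomial (Fin (N + 1) ⊕ ι) ℂ ⧸ P)) =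
        (coordFun P i / c ^ weights N e i) / (coordFun P (Sum.inl j) / c ^ 1) ^ weights N e i := by
      rfl
    rw [h1, pow_one, div_pow, div_div_div_cancel_right₀ (pow_ne_zero _ hj₀)]
  have hX'1 : X' (Sum.inl j₀) = 1 := by
    apply Subtype.ext
    rw [hval]
    change c / c ^ 1 = 1
    rw [pow_one, div_self hj₀]
  have haev : ∀ (G : MvPolynomial (Fin (N + 1) ⊕ ι) ℂ) (n : ℕ),
      IsWeightedHomogeneous (weights N e) G n →
      ((aeval X' G : functionField P e) : FractionRing (MvPolynomial (Fin (N + 1) ⊕ ι) ℂ ⧸ P)) =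
        c⁻¹ ^ n * aeval (coordFun P) G := by
    intro G n hG
    have h3 : ((functionField P e).val (aeval X' G)) =
        aeval (fun i => (functionField P e).val (X' i)) G := by
      rw [← MvPolynomial.comp_aeval]
      rfl
    change (functionField P e).val (aeval X' G) = _
    rw [h3, ← aeval_wscale hG]
    congr 2
    funext i
    change coordFun P i / c ^ weights N e i = _
    rw [div_eq_inv_mul, inv_pow]
  have hker : ∀ (G : MvPolynomial (Fin (N + 1) ⊕ ι) ℂ) (n : ℕ),
      IsWeightedHomogeneous (weights N e) G n → (aeval X' G = 0 ↔ G ∈ P) := by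
    intro G n hG
    rw [← heval0]
    constructor
    · intro h0
      have h1 := haev G n hG
      rw [h0] at h1
      exact (mul_eq_zero.1 h1.symm).resolve_left (pow_ne_zero _ (inv_ne_zero hj₀))
    · intro h0
      apply Subtype.ext
      rw [haev G n hG, h0, mul_zero]
      rfl
  have hsplit : Sum.elim (fun j => X' (Sum.inl j)) (fun l => X' (Sum.inr l)) = X' := by
    funext i
    rcases i with i | l <;> rfl
  -- the field is generated by the coordinates
  have hgen : IntermediateField.adjoin ℂ (Set.range X') = ⊤ := by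
    have h1 : IntermediateField.adjoin ℂ {f | ∃ i j, f = X' i / X' (Sum.inl j) ^ weights N e i} =
        (⊤ : IntermediateField ℂ (functionField P e)) := by
      rw [← IntermediateField.lift_inj, IntermediateField.lift_adjoin, IntermediateField.lift_top]
      conv_rhs => rw [functionField]
      congr 1
      ext y
      constructor
      · rintro ⟨y', ⟨i, j, rfl⟩, rfl⟩
        exact ⟨i, j, hratio i j⟩
      · rintro ⟨i, j, rfl⟩
        exact ⟨X' i / X' (Sum.inl j) ^ weights N e i, ⟨i, j, rfl⟩, hratio i j⟩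
    rw [eq_top_iff, ← h1, IntermediateField.adjoin_le_iff]
    rintro y ⟨i, j, rfl⟩
    have h2 : ∀ i, X' i ∈ IntermediateField.adjoin ℂ (Set.range X') := fun i =>
      IntermediateField.subset_adjoin _ _ ⟨i, rfl⟩
    exact div_mem (h2 i) (pow_mem (h2 _) _)
  refine ⟨fun j => X' (Sum.inl j), fun l => X' (Sum.inr l), hX'1, ?_, ?_, ?_, ?_, ?_, ?_⟩
  · intro j
    constructor
    · intro h0
      have h1 : coordFun P (Sum.inl j) / c ^ 1 = 0 := congrArg Subtype.val h0
      rw [pow_one] at h1
      exact (div_eq_zero_iff.1 h1).resolve_right hj₀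
    · intro h0
      apply Subtype.ext
      rw [hval, h0, zero_div]
      rfl
  · intro i j
    apply Subtype.ext
    have h1 := hratio (Sum.inl i) j
    change ((X' (Sum.inl i) / X' (Sum.inl j) ^ 1 : functionField P e) :
      FractionRing (MvPolynomial (Fin (N + 1) ⊕ ι) ℂ ⧸ P)) = _ at h1
    rw [pow_one] at h1
    rw [h1]
    rfl
  · intro l j
    apply Subtype.ext
    have h1 := hratio (Sum.inr l) j
    change ((X' (Sum.inr l) / X' (Sum.inl j) ^ e l : functionField P e) :
      FractionRing (MvPolynomial (Fin (N + 1) ⊕ ι) ℂ ⧸ P)) = _ at h1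
    rw [h1]
    rfl
  · rw [hsplit]
    exact hgen
  · -- algebraicity
    set L := IntermediateField.adjoin ℂ (Set.range fun j => X' (Sum.inl j)) with hL
    have hxL : ∀ j, X' (Sum.inl j) ∈ L := fun j =>
      IntermediateField.subset_adjoin _ _ ⟨j, rfl⟩
    have hrel' : ∀ l, X' (Sum.inr l) ^ m l = aeval (fun j => X' (Sum.inl j)) (B l) := by
      intro l
      have hwh : IsWeightedHomogeneous (weights N e)
          (X (Sum.inr l) ^ m l - rename Sum.inl (B l) : MvPolynomial (Fin (N + 1) ⊕ ι) ℂ)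
          (m l * e l) := by
        have h1 : IsWeightedHomogeneous (weights N e)
            (X (Sum.inr l) ^ m l : MvPolynomial (Fin (N + 1) ⊕ ι) ℂ) (m l * e l) := by
          have h2 := (isWeightedHomogeneous_X ℂ (weights N e) (Sum.inr l)).pow (m l)
          rw [smul_eq_mul] at h2
          exact h2
        have h3 : IsWeightedHomogeneous (weights N e)
            (rename Sum.inl (B l) : MvPolynomial (Fin (N + 1) ⊕ ι) ℂ) (m l * e l) := by
          intro μ hμ
          obtain ⟨u, hu, hu'⟩ := coeff_rename_ne_zero _ _ _ hμ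
          have h4 := hB l hu'
          rw [← hu]
          rw [Finsupp.weight_apply] at h4 ⊢
          rw [Finsupp.sum_mapDomain_index (by simp) (by intros; rw [add_smul])]
          exact h4
        exact h1.sub h3
      have h1 := (hker _ _ hwh).mpr (hBP l)
      rw [map_sub, map_pow, aeval_X, aeval_rename, sub_eq_zero] at h1
      exact h1
    have hBL : ∀ l, aeval (fun j => X' (Sum.inl j)) (B l) ∈ L := by
      intro l
      rw [aeval_def, eval₂_eq]
      refine sum_mem fun μ _ => mul_mem (L.algebraMap_mem _) (prod_mem fun j _ => pow_mem (hxL j) _)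
    have hint : ∀ i, IsAlgebraic L (X' i) := by
      rintro (j | l)
      · exact isAlgebraic_algebraMap (⟨_, hxL j⟩ : L)
      · refine IsAlgebraic.of_pow (n := m l) (hm l) ?_
        rw [hrel' l]
        exact isAlgebraic_algebraMap (⟨_, hBL l⟩ : L)
    set A := algebraicClosure L (functionField P e) with hA
    have hAtop : ∀ f : functionField P e, IsAlgebraic L f := by
      intro f
      have h1 : f ∈ IntermediateField.adjoin ℂ (Set.range X') := by
        rw [hgen]
        exact IntermediateField.mem_top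
      have h2 : IntermediateField.adjoin ℂ (Set.range X') ≤ A.restrictScalars ℂ := by
        rw [IntermediateField.adjoin_le_iff]
        rintro _ ⟨i, rfl⟩
        exact mem_algebraicClosure_iff.mpr (hint i)
      exact mem_algebraicClosure_iff.mp (h2 h1)
    exact ⟨hAtop⟩
  · rw [hsplit]
    exact hker


/-- The generic point of a closed subvariety of positive dimension. -/
theorem exists_cover_point (P : Ideal (MvPolynomial (Fin (N + 1) ⊕ ι) ℂ)) [P.IsPrime]
    (e m : ι → ℕ) (hm : ∀ l, 1 ≤ m l) (B : ι → MvPolynomial (Fin (N + 1)) ℂ)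
    (hB : ∀ l, (B l).IsHomogeneous (m l * e l))
    (hBP : ∀ l, X (Sum.inr l) ^ m l - rename Sum.inl (B l) ∈ P)
    {k : ℕ} (z : Fin (k + 1) → functionField P e) (hz : IsTranscendenceBasis ℂ z) :
    ∃ (x : Fin (N + 1) → functionField P e) (y : ι → functionField P e) (j₀ : Fin (N + 1)),
      x j₀ = 1 ∧ (∀ j, x j = 0 ↔ coordFun P (Sum.inl j) = 0) ∧
      (∀ (i : Fin (N + 1)) (j : Fin (N + 1)), x i / x j = ratio P e (Sum.inl i) j) ∧
      (∀ (l : ι) (j : Fin (N + 1)), y l / x j ^ e l = ratio P e (Sum.inr l) j) ∧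
      IntermediateField.adjoin ℂ (Set.range (Sum.elim x y)) = ⊤ ∧
      Algebra.IsAlgebraic (IntermediateField.adjoin ℂ (Set.range x)) (functionField P e) ∧
      (∀ (G : MvPolynomial (Fin (N + 1) ⊕ ι) ℂ) (n : ℕ),
        IsWeightedHomogeneous (weights N e) G n → (aeval (Sum.elim x y) G = 0 ↔ G ∈ P)) := by
  classical
  have heval0 := aeval_coordFun_eq_zero_iff P
  have hrel : ∀ l, coordFun P (Sum.inr l) ^ m l =
      aeval (fun j => coordFun P (Sum.inl j)) (B l) := by
    intro l
    have h1 := (heval0 _).mpr (hBP l)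
    rw [map_sub, map_pow, aeval_X, aeval_rename, sub_eq_zero] at h1
    exact h1
  -- some coordinate is nonzero
  obtain ⟨j₀, hj₀⟩ : ∃ j, coordFun P (Sum.inl j) ≠ 0 := by
    by_contra hcon
    push Not at hcon
    have halg : ∀ i : Fin (N + 1) ⊕ ι, IsAlgebraic ℂ (coordFun P i) := by
      rintro (i | l)
      · rw [hcon i]
        exact isAlgebraic_zero
      · refine IsAlgebraic.of_pow (n := m l) (hm l) ?_
        rw [hrel l]
        have h1 : (fun j => coordFun P (Sum.inl j)) =
            fun j => algebraMap ℂ (FractionRing (MvPolynomial (Fin (N + 1) ⊕ ι) ℂ ⧸ P)) 0 := by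
          funext j
          rw [hcon j, map_zero]
        rw [h1]
        have h2 : aeval (fun _ : Fin (N + 1) => algebraMap ℂ
            (FractionRing (MvPolynomial (Fin (N + 1) ⊕ ι) ℂ ⧸ P)) 0) (B l) =
            algebraMap ℂ _ (eval (fun _ => 0) (B l)) := by
          exact aeval_algebraMap_apply _ _ _
        rw [h2]
        exact isAlgebraic_algebraMap _
    have h1 : Algebra.IsAlgebraic ℂ (functionField P e) := by
      refine IntermediateField.isAlgebraic_adjoin ?_
      rintro f ⟨i, i', rfl⟩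
      rw [← isAlgebraic_iff_isIntegral]
      exact (halg i).mul ((halg (Sum.inl i')).pow _).inv
    exact hz.1.transcendental 0 (h1.isAlgebraic (z 0))
  obtain ⟨x, y, h⟩ := cover_point P e m hm B hB hBP hj₀
  exact ⟨x, y, j₀, h⟩

end Pool.Agent.H92.GT.Cover
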