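import Pool.Agent.H92.GT.Family
import Pool.Agent.H92.GT.CoverPoint
import Pool.Agent.H92.GT.CoverField
import Pool.Agent.H92.GT.Index
import Pool.Agent.H17LG.Translate

/-!
# Closed subvarieties of the covers are of log general type
-/

open MvPolynomial
open Pool.Agent.H99.Cover (weights)
open Pool.Agent.H92.GGL

noncomputable section

namespace Pool.Agent.H92.GT.Cover

variable {ι T : Type} [Fintype ι] [Fintype T] [DecidableEq ι]

lemma val_aeval_nonneg {σ K : Type} [Field K] [Algebra ℂ K] {v : AddValuation K (WithTop ℤ)}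
    (hv : ∀ c : ℂ, 0 ≤ v (algebraMap ℂ K c)) {x : σ → K} (hx : ∀ i, 0 ≤ v (x i))
    (G : MvPolynomial σ ℂ) : 0 ≤ v (aeval x G) := by
  induction G using MvPolynomial.induction_on with
  | C a =>
    rw [aeval_C]
    exact hv a
  | add p q hp hq =>
    rw [map_add]
    exact le_trans (le_min hp hq) (v.map_add _ _)
  | mul_X p i hp =>
    rw [map_mul, aeval_X, v.map_mul]
    exact add_nonneg hp (hx i)

lemma scale_identity {K : Type} [Field K] (f a : K) {s : K} (hs : s ≠ 0) (n : ℕ) :
    a⁻¹ ^ n * f = f * s ^ n * (a * s)⁻¹ ^ n := by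
  have h3 : s⁻¹ ^ n * s ^ n = 1 := by
    rw [← mul_pow, inv_mul_cancel₀ hs, one_pow]
  rw [mul_inv, mul_pow]
  linear_combination (-a⁻¹ ^ n * f) * h3

lemma nonneg_of_nsmul {n : ℕ} (hn : 1 ≤ n) {w : WithTop ℤ} (h : 0 ≤ n • w) : 0 ≤ w := by
  induction w using WithTop.recTopCoe with
  | top => exact le_top
  | coe a =>
    have h5 : ∀ n : ℕ, n • ((a : ℤ) : WithTop ℤ) = ((n * a : ℤ) : WithTop ℤ) := by
      intro n
      induction n with
      | zero => simp
      | succ n ih =>
        rw [succ_nsmul, ih]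
        have : ((n * a + a : ℤ) : WithTop ℤ) = (((n + 1 : ℕ) * a : ℤ) : WithTop ℤ) := by
          congr 1
          push_cast
          ring
        rw [← this, WithTop.coe_add]
    rw [h5] at h
    have h1 : (0 : ℤ) ≤ n * a := by exact_mod_cast h
    have h2 : (0 : ℤ) < n := by exact_mod_cast hn
    exact_mod_cast (nonneg_of_mul_nonneg_right h1 h2)

omit [Fintype ι] [DecidableEq ι] in
lemma isWeightedHomogeneous_rename {N n : ℕ} {e : ι → ℕ} {G : MvPolynomial (Fin (N + 1)) ℂ}
    (hG : G.IsHomogeneous n) : IsWeightedHomogeneous (weights N e)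
      (rename Sum.inl G : MvPolynomial (Fin (N + 1) ⊕ ι) ℂ) n := by
  intro μ hμ
  obtain ⟨u, hu, hu'⟩ := coeff_rename_ne_zero _ _ _ hμ
  have h4 := hG hu'
  rw [← hu]
  rw [Finsupp.weight_apply] at h4 ⊢
  rw [Finsupp.sum_mapDomain_index (by simp) (by intros; rw [add_smul])]
  exact h4

/-- The product of the values of the generic polynomial at some nodes. -/
def prodForm {N : ℕ} (r d : ℕ) (b : Fin (N + 1) → Fin (r + 1) → ℂ) (τ : T → ℂ) (S : Finset T) :
    MvPolynomial (Fin (N + 1)) ℂ :=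
  ∏ i ∈ S, (genPoly r d b id).eval (C (τ i))

omit [Fintype T] in
lemma prodForm_isHomogeneous {N r d : ℕ} {b : Fin (N + 1) → Fin (r + 1) → ℂ} {τ : T → ℂ}
    (S : Finset T) : (prodForm r d b τ S).IsHomogeneous (d * S.card) := by
  unfold prodForm
  have h1 := MvPolynomial.IsHomogeneous.prod S
    (fun i => ((genPoly r d b id).eval (C (τ i)) : MvPolynomial (Fin (N + 1)) ℂ))
    (fun _ => d) (fun i _ => genPoly_eval_isWeightedHomogeneous (w := 1) (fun _ => rfl) (τ i))
  rw [Finset.sum_const, smul_eq_mul, mul_comm] at h1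
  exact h1

omit [Fintype T] in
lemma aeval_prodForm {K : Type} [Field K] [Algebra ℂ K] {N r d : ℕ}
    {b : Fin (N + 1) → Fin (r + 1) → ℂ} {τ : T → ℂ} (S : Finset T) (x : Fin (N + 1) → K) :
    aeval x (prodForm r d b τ S) =
      ∏ i ∈ S, (polyK r d b x).eval (algebraMap ℂ K (τ i)) := by
  unfold prodForm
  rw [map_prod]
  exact Finset.prod_congr rfl fun i _ => genPoly_eval_aeval (v := id) (X := x) (τ i)

/-- **Closed subvarieties of the covers are of log general type.** -/
theorem isLogGeneralType_cover {N r d : ℕ} (hr : 1 ≤ r) (hrN : r ≤ N) (hd : 0 < d)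
    {t : Fin (N + 1) → ℂ} {τ : T → ℂ} (hinj : Function.Injective (Sum.elim t τ))
    {β : T → Option ι} {k e : ι → ℕ} (hk : ∀ l, 1 ≤ k l)
    (hke : ∀ l, k l * e l = d * (nd β (some l)).card)
    (hnum : 2 * (r : ℝ) < chi r d N β k) {q : ℕ}
    (hnum' : 2 ≤ q → q < r → 2 * (r : ℝ) + q * r / d < chi r d N β k)
    {b : Fin (N + 1) → Fin (r + 1) → ℂ}
    (hb : ∀ (a : Fin (r + 1) → ℂ) k, a k = ∑ j, b j k * evMap r t a j)
    {M : ℕ} {c : Fin M → Fin (N + 1) → ℂ}
    (hc : ∀ w : Fin (N + 1) → ℂ, (∀ l, ∑ j, c l j * w j = 0) ↔ ∃ a, evMap r t a = w)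
    (P : Ideal (MvPolynomial (Fin (N + 1) ⊕ ι) ℂ)) [P.IsPrime]
    (hA : ∀ l, rename Sum.inl (∑ j, C (c l j) * X j ^ d) ∈ P)
    (hB : ∀ l, X (Sum.inr l) ^ k l - rename Sum.inl (prodForm r d b τ (nd β (some l))) ∈ P)
    (hH : rename Sum.inl (prodForm r d b τ (nd β none)) ∉ P)
    (hD : discN r (genPoly r d b Sum.inl) ∉ P)
    (hy : ∀ l, (X (Sum.inr l) : MvPolynomial (Fin (N + 1) ⊕ ι) ℂ) ∉ P) (hq : 1 ≤ q)
    (hz : ∃ z : Fin q → FunField P e, IsTranscendenceBasis ℂ z) :
    H17LG.Variety.IsLogGeneralType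
      (OnBoundary P e (prodForm r d b τ (nd β none)) (k := q)) := by
  classical
  obtain ⟨q, rfl⟩ : ∃ q', q = q' + 1 := ⟨q - 1, by omega⟩
  obtain ⟨z, hz⟩ := hz
  have hBhom : ∀ l, (prodForm (N := N) r d b τ (nd β (some l))).IsHomogeneous (k l * e l) := by
    intro l
    rw [hke]
    exact prodForm_isHomogeneous _
  obtain ⟨x, y, j₀, hx1, hx0, hxr, hyr, -, halg, hker⟩ := exists_cover_point P e k hk _ hBhom hB
    (k := q) z hz
  have hess : Algebra.EssFiniteType ℂ (functionField P e) := essFiniteType_functionField P e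
  obtain ⟨J, hJ⟩ := exists_index halg (z := z) hz
  set F := polyK r d b x with hF
  have hkerR : ∀ (G : MvPolynomial (Fin (N + 1)) ℂ) (n : ℕ), G.IsHomogeneous n →
      (aeval x G = 0 ↔ rename Sum.inl G ∈ P) := by
    intro G n hG
    rw [← hker _ n (isWeightedHomogeneous_rename hG), aeval_rename]
    rfl
  have hFx : ∀ j, F.eval (algebraMap ℂ _ (t j)) = x j ^ d := by
    intro j
    refine polyK_eval hb hc (fun l => ?_) j
    have h1 := (hkerR (∑ j, C (c l j) * X j ^ d) d (by
      refine MvPolynomial.IsHomogeneous.sum _ _ _ fun j _ => ?_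
      exact MvPolynomial.isHomogeneous_C_mul_X_pow _ _ _)).mpr (hA l)
    rw [map_sum] at h1
    rw [← h1]
    refine Finset.sum_congr rfl fun j _ => ?_
    rw [map_mul, map_pow, aeval_C, aeval_X]
  have hy0 : ∀ l, y l ≠ 0 := by
    intro l h0
    apply hy l
    rw [← hker _ _ (isWeightedHomogeneous_X ℂ (weights N e) (Sum.inr l)), aeval_X]
    exact h0
  have hdisc : discN r F ≠ 0 := by
    intro h0
    apply hD
    rw [← hker _ _ (discN_isWeightedHomogeneous fun k =>
        genPoly_coeff (r := r) (d := d) (b := b) (v := Sum.inl) (w := weights N e)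
          (fun j => rfl) k)]
    have h1 := discN_map (aeval (Sum.elim x y) :
      MvPolynomial (Fin (N + 1) ⊕ ι) ℂ →ₐ[ℂ] functionField P e).toRingHom r
      (genPoly r d b Sum.inl)
    rw [genPoly_map_aeval] at h1
    have h2 : (polyK r d b fun j => Sum.elim x y (Sum.inl j)) = F := rfl
    rw [h2, h0] at h1
    exact h1.symm
  obtain ⟨hFdeg, hsq⟩ := of_discN_ne_zero hr polyK_natDegree hdisc
  have hyB : ∀ l, y l ^ k l =
      ∏ i ∈ nd β (some l), F.eval (algebraMap ℂ _ (τ i)) := by
    intro l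
    have h1 : IsWeightedHomogeneous (weights N e)
        (X (Sum.inr l) ^ k l : MvPolynomial (Fin (N + 1) ⊕ ι) ℂ) (k l * e l) := by
      have h2 := (isWeightedHomogeneous_X ℂ (weights N e) (Sum.inr l)).pow (k l)
      rw [smul_eq_mul] at h2
      exact h2
    have h2 := (hker _ _ (h1.sub (isWeightedHomogeneous_rename (hBhom l)))).mpr (hB l)
    rw [map_sub, map_pow, aeval_X, aeval_rename, sub_eq_zero] at h2
    have h3 : (Sum.elim x y ∘ Sum.inl) = x := rfl
    rw [h3, aeval_prodForm] at h2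
    exact h2
  have hHx : aeval x (prodForm r d b τ (nd β none)) ≠ 0 := by
    intro h0
    exact hH ((hkerR _ _ (prodForm_isHomogeneous _)).mp h0)
  have hFO : ∀ i ∈ nd β none, F.eval (algebraMap ℂ _ (τ i)) ≠ 0 := by
    rw [aeval_prodForm, Finset.prod_ne_zero_iff] at hHx
    exact hHx
  refine H17LG.isLogGeneralType_translate (K := functionField P e)
    (B := fun E => OnBoundary P e (prodForm r d b τ (nd β none)) (H23.toFano E))
    (fun E => Iff.rfl) ?_
  refine isLogGeneralType_family (K := functionField P e) hx1 halg hJ hr hd hrN hinj hk hke hnum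
    (fun h1 h2 => ?_) hFdeg hsq hFx hy0 hyB hFO ?_
  · have h3 := hnum' (by omega) h2
    push_cast at h3
    exact h3
  intro E s hs hxs hj hE
  obtain ⟨j, hj⟩ := hj
  by_contra hcon
  rw [not_le] at hcon
  apply hE
  have hxj : x j ≠ 0 := by
    rintro h0
    rw [h0, zero_mul, E.ord.map_zero] at hj
    exact absurd hj (by simp)
  have hxs0 : x j * s ≠ 0 := mul_ne_zero hxj hs
  have hinv : E.ord (x j * s)⁻¹ = 0 := H23.val_inv E.ord hj
  have hri : ∀ i, 0 ≤ E.ord (x i / x j) := by
    intro i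
    have h1 : x i / x j = (x i * s) * (x j * s)⁻¹ := by field_simp
    rw [h1, E.ord.map_mul, hinv, add_zero]
    exact hxs i
  have hscale : ∀ (G : MvPolynomial (Fin (N + 1)) ℂ) (n : ℕ), G.IsHomogeneous n →
      aeval (fun i => x i / x j) G = (x j)⁻¹ ^ n * aeval x G := by
    intro G n hG
    rw [← aeval_wscale hG]
    congr 2
    funext i
    rw [Pi.one_apply, pow_one, div_eq_inv_mul]
  refine ⟨j, fun h => hxj ((hx0 j).mpr h), ?_, ?_⟩
  · rintro (i | l)
    · rw [← hxr i j]
      exact hri i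
    · rw [← hyr l j]
      change 0 ≤ E.ord (y l / x j ^ e l)
      have h1 : 0 ≤ E.ord ((y l / x j ^ e l) ^ k l) := by
        have h2 : (y l / x j ^ e l) ^ k l =
            aeval (fun i => x i / x j) (prodForm r d b τ (nd β (some l))) := by
          rw [hscale _ _ (hBhom l), aeval_prodForm, div_pow, hyB l, ← pow_mul, mul_comm (e l),
            inv_pow, div_eq_inv_mul]
        rw [h2]
        exact val_aeval_nonneg E.ord_const hri _
      rw [E.ord.map_pow] at h1
      exact nonneg_of_nsmul (hk l) h1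
  · have h1 : (fun i => ratio P e (Sum.inl i) j) = fun i => x i / x j :=
      funext fun i => (hxr i j).symm
    rw [h1]
    change 0 < E.ord (aeval (fun i => x i / x j) (prodForm r d b τ (nd β none)))
    rw [hscale _ _ (prodForm_isHomogeneous _), aeval_prodForm, scale_identity _ (x j) hs,
      E.ord.map_mul, E.ord.map_pow, hinv, nsmul_zero, add_zero]
    exact hcon

end Pool.Agent.H92.GT.Cover
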