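import Pool.Agent.H92.GT.Mult

/-!
# The top-dimensional case for a moving polynomial
-/

open Polynomial
open Pool.Agent.H23 (RatForm regularForms PrimeDivisorOver dualDer dualDer_apply)
open Pool.Agent.H17LG (IsLogGeneralType)

noncomputable section

namespace Pool.Agent.H92.GT

variable {K : Type} [Field K] [Algebra ℂ K] {k : ℕ}

/-- The coefficients and their derivatives are independent. -/
lemma coeff_indep' {N : ℕ} {x : Fin (N + 1) → K}
    {J : Fin (k + 1) → Fin (N + 1)} {b : Module.Basis (Fin (k + 1)) K Ω[K⁄ℂ]}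
    (hb : ∀ i, b i = KaehlerDifferential.D ℂ K (x (J i))) {n : ℕ} {F : K[X]}
    (hFdeg : F.natDegree ≤ n) {t₀ : ℂ} (ht₀ : F.eval (algebraMap ℂ K t₀) = 1)
    (hxδ : ∀ δ : Derivation ℂ K K, mc δ F = 0 → ∀ j, δ (x j) = 0) {c₀ : K} {c : Fin (k + 1) → K}
    (h : ∀ m : Fin (n + 1), c₀ * F.coeff m + ∑ a : Fin (k + 1), c a * dualDer b a (F.coeff m) = 0) :
    c₀ = 0 ∧ ∀ a, c a = 0 := by
  classical
  set δ : Derivation ℂ K K := ∑ a : Fin (k + 1), c a • dualDer b a with hδ
  have hδapp : ∀ g, δ g = ∑ a : Fin (k + 1), c a * dualDer b a g := by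
    intro g
    rw [hδ, der_sum_apply]
    rfl
  have h2 : ∀ w : ℂ, δ (F.eval (algebraMap ℂ K w)) = -c₀ * F.eval (algebraMap ℂ K w) := by
    intro w
    rw [eval_eq_sum_fin hFdeg, map_sum, Finset.mul_sum]
    refine Finset.sum_congr rfl fun m _ => ?_
    rw [δ.leibniz, δ.map_algebraMap, smul_zero, zero_add, smul_eq_mul]
    have h3 := h m
    rw [← hδapp] at h3
    linear_combination (algebraMap ℂ K (w ^ (m : ℕ))) * h3
  have h3 : c₀ = 0 := by
    have h4 := h2 t₀
    rw [ht₀, δ.map_one_eq_zero, mul_one] at h4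
    exact neg_eq_zero.mp h4.symm
  have h4 : mc δ F = 0 := by
    ext m
    rw [mc_coeff, coeff_zero]
    by_cases hm : m < n + 1
    · have h5 := h ⟨m, hm⟩
      rw [h3, zero_mul, zero_add, ← hδapp] at h5
      exact h5
    · rw [coeff_eq_zero_of_natDegree_lt (by omega), map_zero]
  refine ⟨h3, fun a => ?_⟩
  have h6 := hxδ δ h4 (J a)
  rw [hδapp, Finset.sum_eq_single a] at h6
  · rw [H23.dualDer_coord b hb a a, if_pos rfl, mul_one] at h6
    exact h6
  · intro a' _ ha'
    rw [H23.dualDer_coord b hb a' a, if_neg ha', mul_zero]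
  · intro h7
    exact absurd (Finset.mem_univ _) h7

lemma wm_det_ne_zero' {N : ℕ} {x : Fin (N + 1) → K}
    {J : Fin (k + 1) → Fin (N + 1)} {b : Module.Basis (Fin (k + 1)) K Ω[K⁄ℂ]}
    (hb : ∀ i, b i = KaehlerDifferential.D ℂ K (x (J i))) {F : K[X]}
    (hFdeg : F.natDegree ≤ k + 1) {t₀ : ℂ} (ht₀ : F.eval (algebraMap ℂ K t₀) = 1)
    (hxδ : ∀ δ : Derivation ℂ K K, mc δ F = 0 → ∀ j, δ (x j) = 0) :
    (wm (fun i => dualDer b i) fun m => F.coeff m).det ≠ 0 := by
  classical
  intro h0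
  obtain ⟨c, hc, hcm⟩ := Matrix.exists_vecMul_eq_zero_iff.mpr h0
  obtain ⟨h1, h2⟩ := coeff_indep' (c₀ := c 0) (c := fun a => c a.succ) hb hFdeg ht₀ hxδ
    (fun m => by
      have h2 := congrFun hcm m
      rw [Matrix.vecMul, dotProduct, Fin.sum_univ_succ] at h2
      exact h2)
  apply hc
  funext i
  refine Fin.cases h1 (fun a => h2 a) i

/-- The dimension is at most the degree of the moving polynomial. -/
lemma dim_le' {N : ℕ} {x : Fin (N + 1) → K}
    {J : Fin (k + 1) → Fin (N + 1)} {b : Module.Basis (Fin (k + 1)) K Ω[K⁄ℂ]}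
    (hb : ∀ i, b i = KaehlerDifferential.D ℂ K (x (J i))) {n : ℕ} {F : K[X]}
    (hFdeg : F.natDegree ≤ n) {t₀ : ℂ} (ht₀ : F.eval (algebraMap ℂ K t₀) = 1)
    (hxδ : ∀ δ : Derivation ℂ K K, mc δ F = 0 → ∀ j, δ (x j) = 0) : k + 1 ≤ n := by
  classical
  set v : Option (Fin (k + 1)) → Fin (n + 1) → K := fun i m =>
    i.elim (F.coeff m) (fun a => dualDer b a (F.coeff m)) with hv
  have hli : LinearIndependent K v := by
    rw [Fintype.linearIndependent_iff]
    intro c hc
    obtain ⟨h1, h2⟩ := coeff_indep' (c₀ := c none) (c := fun a => c (some a)) hb hFdeg ht₀ hxδ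
      (fun m => by
        have h2 := congrFun hc m
        rw [Fintype.sum_option] at h2
        simpa [hv, Finset.sum_apply] using h2)
    rintro (_ | a)
    · exact h1
    · exact h2 a
  have h1 := hli.fintype_card_le_finrank
  rw [Module.finrank_fin_fun, Fintype.card_option, Fintype.card_fin] at h1
  omega

/-- **The top-dimensional case.** -/
theorem isLogGeneralType_of_moving_top [Algebra.EssFiniteType ℂ K] {N : ℕ}
    {x : Fin (N + 1) → K} {j₀ : Fin (N + 1)} (hj₀ : x j₀ = 1)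
    (halg : Algebra.IsAlgebraic (IntermediateField.adjoin ℂ (Set.range x)) K)
    {J : Fin (k + 1) → Fin (N + 1)} (hz : IsTranscendenceBasis ℂ fun i => x (J i))
    {F : K[X]} (hFdeg : F.natDegree ≤ k + 1)
    (hmov : ∀ a : ℂ, F.eval (algebraMap ℂ K a) ≠ 0) {t₀ : ℂ}
    (ht₀ : F.eval (algebraMap ℂ K t₀) = 1)
    (hxδ : ∀ δ : Derivation ℂ K K, mc δ F = 0 → ∀ j, δ (x j) = 0)
    {Bd : PrimeDivisorOver K (k + 1) → Prop} {Q : K} (hQ : Q ≠ 0) {M : ℕ} (hM : 1 ≤ M)
    (S : Finset ℂ)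
    (hQE : ∀ (E : PrimeDivisorOver K (k + 1)) (n γ : ℕ),
      (∀ j, ((-(n : ℤ) : ℤ) : WithTop ℤ) ≤ E.ord (x j)) →
      (∃ j, E.ord (x j) = ((-(n : ℤ) : ℤ) : WithTop ℤ)) → IsCt E.ord F (-(γ : ℤ)) →
      ∀ o : ℂ → ℤ, (∀ w, E.ord (F.eval (algebraMap ℂ K w)) = ((o w - γ : ℤ) : WithTop ℤ)) →
      (∀ w, 0 ≤ o w) → (∀ S' : Finset ℂ, (∀ w ∈ S', 0 < o w) → S'.card ≤ k + 1) →
      ∃ q : ℤ, E.ord Q = ((q : ℤ) : WithTop ℤ) ∧
        (¬ Bd E → q + M * ((k + 2) * γ) + n ≤ M * ∑ w ∈ S, max (o w - 1) 0) ∧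
        q + M * ((k + 2) * γ) + n ≤ M * ∑ w ∈ S, o w) :
    IsLogGeneralType Bd := by
  classical
  obtain ⟨b, hb⟩ := H23.exists_basis_kaehler hz
  have hF0 : F ≠ 0 := by
    rintro rfl
    rw [eval_zero] at ht₀
    exact zero_ne_one ht₀
  set f : Fin (k + 2) → K := fun m => F.coeff m with hf
  have hFev : ∀ w : ℂ, F.eval (algebraMap ℂ K w) =
      ∑ m : Fin (k + 2), f m * algebraMap ℂ K (w ^ (m : ℕ)) := eval_eq_sum_fin hFdeg
  set Θ : K := (wm (fun i => dualDer b i) f).det with hΘdef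
  have hΘ : Θ ≠ 0 := wm_det_ne_zero' hb hFdeg ht₀ hxδ
  refine isLogGeneralType_of_function hz (b := b) (M := M) hM hj₀ halg
    (Θ := Θ ^ M / Q) (div_ne_zero (pow_ne_zero _ hΘ) hQ) ?_
  intro E g₀ bE hg₀ hreg hlog hlog0 i
  set v := E.ord with hvdef
  have hv : ∀ c : ℂ, 0 ≤ v (algebraMap ℂ K c) := E.ord_const
  set Δ := (bE.toMatrix b).det with hΔ
  obtain ⟨n, hxn, hn⟩ := exists_pole_order hj₀ v
  -- the content
  obtain ⟨c₀, hc₀1, hc₀2⟩ := exists_content (v := v) hF0
  have hc₀ : c₀ ≤ 0 := by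
    have h1 := val_eval_ge hv hc₀1 t₀
    rw [ht₀, v.map_one] at h1
    exact_mod_cast h1
  obtain ⟨γ, hγ⟩ : ∃ γ : ℕ, c₀ = -(γ : ℤ) := ⟨c₀.natAbs, by omega⟩
  have hct : IsCt v F (-(γ : ℤ)) := by
    rw [← hγ]
    exact ⟨hc₀1, hc₀2⟩
  have hg₀0 : g₀ ≠ 0 := by
    rintro rfl
    rw [v.map_zero] at hg₀
    exact absurd hg₀ (by simp)
  set s := g₀ ^ γ with hs
  have hs0 : s ≠ 0 := pow_ne_zero _ hg₀0
  have hvg : ∀ m : ℕ, v (g₀ ^ m) = ((m : ℤ) : WithTop ℤ) := by
    intro m
    rw [v.map_pow, hg₀]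
    simp
  have hvs : ∀ m : ℕ, v (s ^ m) = ((m * γ : ℤ) : WithTop ℤ) := by
    intro m
    rw [hs, ← pow_mul, hvg]
    congr 1
    push_cast
    ring
  have hvs1 : v s = ((γ : ℤ) : WithTop ℤ) := hvg γ
  -- the orders at the constants
  have hoex : ∀ w : ℂ, ∃ o : ℤ, v (F.eval (algebraMap ℂ K w)) = ((o - γ : ℤ) : WithTop ℤ) := by
    intro w
    obtain ⟨o, ho⟩ := exists_int' (v := v) (hmov w)
    exact ⟨o + γ, by rw [ho]; congr 1; ring⟩
  choose o ho using hoex
  have ho0 : ∀ w, 0 ≤ o w := by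
    intro w
    have h1 := val_eval_ge hv hct.1 w
    rw [ho w] at h1
    have h2 : -(γ : ℤ) ≤ o w - γ := by exact_mod_cast h1
    omega
  have hlarge : ∀ S' : Finset ℂ, (∀ w ∈ S', 0 < o w) → S'.card ≤ k + 1 := by
    intro S' hpos
    refine card_large_le hv hFdeg hct.2 S' (fun w hw => ?_)
    rw [ho w]
    have := hpos w hw
    exact_mod_cast (by omega : -(γ : ℤ) < o w - γ)
  obtain ⟨q, hq, hq1, hq2⟩ := hQE E n γ hxn hn hct o ho ho0 hlarge
  -- the local determinant
  have hWl : (wm (fun i => dualDer bE i) fun m => s * f m).det =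
      s ^ (k + 2) * (Θ * Δ) := by
    rw [wm_local b bE]
    ring
  have hsf : ∀ m, 0 ≤ v (s * f m) := by
    intro m
    rw [v.map_mul, hvs1]
    have h1 := add_le_add (le_refl ((γ : ℤ) : WithTop ℤ)) (hct.1 m)
    refine le_trans (le_of_eq ?_) h1
    exact_mod_cast (by ring : (0 : ℤ) = γ + -γ)
  have hWreg : 0 ≤ v (s ^ (k + 2) * (Θ * Δ)) := by
    rw [← hWl]
    have h1 := val_det_ge v (wm (fun i => dualDer bE i) fun m => s * f m) (fun _ => 0)
      (fun _ => 0) (by
        intro i m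
        rw [add_zero]
        change (0 : WithTop ℤ) ≤ _
        refine Fin.cases ?_ (fun a => ?_) i
        · rw [wm_zero]
          exact hsf m
        · rw [wm_succ]
          exact hreg a _ (hsf m))
    simpa using h1
  have hsev : ∀ w, v (s * F.eval (algebraMap ℂ K w)) = ((o w : ℤ) : WithTop ℤ) := by
    intro w
    rw [v.map_mul, hvs1, ho w]
    exact_mod_cast (by ring : (γ : ℤ) + (o w - γ) = o w)
  have hWlog : ((∑ w ∈ S, o w - 1 : ℤ) : WithTop ℤ) ≤ v (s ^ (k + 2) * (Θ * Δ)) := by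
    set S' := S.filter fun w => 0 < o w with hS'
    have hS'card : S'.card ≤ k + 2 := by
      have h1 := hlarge S' fun w hw => (Finset.mem_filter.mp hw).2
      omega
    obtain ⟨I, hSI, hI⟩ := Infinite.exists_superset_card_eq S' (k + 2) hS'card
    set e : Fin (k + 2) → ℂ := fun m => ((I.equivFinOfCardEq hI).symm m : ℂ) with he
    have heinj : Function.Injective e := by
      intro m l hml
      exact (I.equivFinOfCardEq hI).symm.injective (Subtype.ext hml)
    have h1 : (wm (fun i => dualDer bE i) fun m => s * F.eval (algebraMap ℂ K (e m))) =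
        wm (fun i => dualDer bE i) (fun m => s * f m) *
          ((Matrix.vandermonde e).map (algebraMap ℂ K)).transpose := by
      rw [← wm_mul]
      congr 1
      funext m
      rw [hFev, Finset.mul_sum]
      refine Finset.sum_congr rfl fun l _ => ?_
      rw [Matrix.vandermonde_apply]
      ring
    have h2 : v ((Matrix.vandermonde e).map (algebraMap ℂ K)).transpose.det = 0 := by
      rw [Matrix.det_transpose]
      have h3 : ((Matrix.vandermonde e).map (algebraMap ℂ K)).det =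
          algebraMap ℂ K (Matrix.vandermonde e).det := ((algebraMap ℂ K).map_det _).symm
      rw [h3]
      exact val_const hv (Matrix.det_vandermonde_ne_zero_iff.mpr heinj)
    have h3 := val_det_ge v (wm (fun i => dualDer bE i) fun m => s * F.eval (algebraMap ℂ K (e m)))
      (fun i => if i = 1 then -1 else 0) (fun m => o (e m)) (by
        intro i m
        have h4 := (hsev (e m)).ge
        refine Fin.cases ?_ (fun a => ?_) i
        · rw [wm_zero, if_neg (by simp), zero_add]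
          exact h4
        · rw [wm_succ]
          by_cases ha : a = 0
          · rw [ha, if_pos (by simp)]
            have h5 := h4.trans (hlog0 _)
            rw [v.map_mul, hg₀] at h5
            induction hx : v (dualDer bE 0 (s * F.eval (algebraMap ℂ K (e m))))
              using WithTop.recTopCoe with
            | top => exact le_top
            | coe c =>
              rw [hx] at h5
              have h6 : o (e m) ≤ 1 + c := by exact_mod_cast h5
              exact_mod_cast (by omega : -1 + o (e m) ≤ c)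
          · have h5 : a.succ ≠ 1 := by
              intro h6
              exact ha (Fin.succ_injective _ (h6.trans (by simp)))
            rw [if_neg h5, zero_add]
            exact h4.trans (hlog a ha _))
    rw [h1, Matrix.det_mul, v.map_mul, h2, add_zero, hWl] at h3
    refine le_trans ?_ h3
    rw [Finset.sum_ite_eq' Finset.univ (1 : Fin (k + 2)), if_pos (Finset.mem_univ _)]
    have h5 : ∑ w ∈ S, o w ≤ ∑ m, o (e m) := by
      have h6 : ∑ m, o (e m) = ∑ w ∈ I, o w := by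
        rw [← Finset.sum_coe_sort I]
        exact Equiv.sum_comp (I.equivFinOfCardEq hI).symm (fun w : I => o w)
      rw [h6, ← Finset.sum_subset (Finset.filter_subset _ S) fun w hw hw' => by
          have h7 : ¬ 0 < o w := fun h => hw' (Finset.mem_filter.mpr ⟨hw, h⟩)
          have h8 := ho0 w
          omega]
      exact Finset.sum_le_sum_of_subset_of_nonneg hSI fun w _ _ => ho0 w
    exact_mod_cast (by linarith : ∑ w ∈ S, o w - 1 ≤ -1 + ∑ m, o (e m))
  have hid : v (Θ ^ M / Q * x i * Δ ^ M) + ((q : ℤ) : WithTop ℤ) =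
      M • v (Θ * Δ) + v (x i) := by
    have h1 := mul_id_aux Θ (x i) Δ hQ M 1
    rw [mul_one, pow_one] at h1
    rw [← hq, ← v.map_mul, ← v.map_pow, ← v.map_mul, h1]
  have hconv : ∀ c : ℤ, ((c : ℤ) : WithTop ℤ) ≤ v (s ^ (k + 2) * (Θ * Δ)) →
      ((c - (k + 2 : ℕ) * γ : ℤ) : WithTop ℤ) ≤ v (Θ * Δ) := by
    intro c hc
    rw [v.map_mul, hvs, add_comm] at hc
    exact wt_of_mul (X := v (Θ * Δ)) rfl hc
  have hfin : ∀ c : ℤ, ((c : ℤ) : WithTop ℤ) ≤ v (Θ * Δ) →
      ((M * c - n - q : ℤ) : WithTop ℤ) ≤ v (Θ ^ M / Q * x i * Δ ^ M) := by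
    intro c hc
    refine wt_of_mul hid ?_
    have h1 := add_le_add (wt_nsmul_ge M hc) (hxn i)
    exact le_trans (le_of_eq rfl) h1
  constructor
  · intro hE
    have h3 := hq1 hE
    by_cases hall : ∀ w ∈ S, o w = 0
    · have h4 : ∑ w ∈ S, max (o w - 1) 0 = 0 := by
        refine Finset.sum_eq_zero fun w hw => ?_
        rw [hall w hw]
        rfl
      rw [h4] at h3
      have h2 := hfin _ (hconv 0 (by simpa using hWreg))
      refine le_trans ?_ h2
      exact_mod_cast (by push_cast; nlinarith : (0 : ℤ) ≤ M * (0 - (k + 2 : ℕ) * γ) - n - q)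
    · push Not at hall
      obtain ⟨w₀, hw₀, hw₀'⟩ := hall
      have h4 : ∑ w ∈ S, max (o w - 1) 0 ≤ ∑ w ∈ S, o w - 1 := by
        have h4 : ∑ w ∈ S, max (o w - 1) 0 + 1 ≤ ∑ w ∈ S, o w := by
          rw [← Finset.sum_erase_add _ _ hw₀, ← Finset.sum_erase_add S o hw₀]
          have h5 : ∑ w ∈ S.erase w₀, max (o w - 1) 0 ≤ ∑ w ∈ S.erase w₀, o w := by
            refine Finset.sum_le_sum fun w _ => ?_
            have := ho0 w
            omega
          have := ho0 w₀
          omega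
        omega
      have h2 := hfin _ (hconv _ hWlog)
      refine le_trans ?_ h2
      have hM0 : (0 : ℤ) ≤ M := Nat.cast_nonneg _
      exact_mod_cast (by push_cast; nlinarith :
        (0 : ℤ) ≤ M * (∑ w ∈ S, o w - 1 - (k + 2 : ℕ) * γ) - n - q)
  · have h2 := hfin _ (hconv _ hWlog)
    have h4 := add_le_add h2 (le_refl ((M : ℕ) : WithTop ℤ))
    refine le_trans ?_ h4
    have h3 := hq2
    have h5 : (0 : ℤ) ≤ M * (∑ w ∈ S, o w - 1 - (k + 2 : ℕ) * γ) - n - q + M := by
      push_cast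
      nlinarith
    have h6 : ((M : ℕ) : WithTop ℤ) = (((M : ℕ) : ℤ) : WithTop ℤ) := rfl
    rw [h6, ← WithTop.coe_add]
    exact_mod_cast h5

end Pool.Agent.H92.GT
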