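import Pool.Agent.H92.GT.Roots

/-!
# The radical of the moving part
-/

open Polynomial
open UniqueFactorizationMonoid (normalizedFactors)

noncomputable section

namespace Pool.Agent.H92.GT

variable {K : Type} [Field K] [Algebra ℂ K]

lemma mc_finset_prod {α : Type*} (δ : Derivation ℂ K K) (S : Finset α) (f : α → K[X])
    (h : ∀ i ∈ S, mc δ (f i) = 0) : mc δ (∏ i ∈ S, f i) = 0 := by
  classical
  induction S using Finset.induction_on with
  | empty =>
    rw [Finset.prod_empty, ← C_1, mc_C, δ.map_one_eq_zero, C_0]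
  | insert i S hi ih =>
    rw [Finset.prod_insert hi, mc_mul, h i (Finset.mem_insert_self i S),
      ih fun j hj => h j (Finset.mem_insert_of_mem hj), zero_mul, mul_zero, add_zero]

lemma mc_pow_eq_zero (δ : Derivation ℂ K K) {p : K[X]} (h : mc δ p = 0) (n : ℕ) :
    mc δ (p ^ n) = 0 := by
  induction n with
  | zero => rw [pow_zero, ← C_1, mc_C, δ.map_one_eq_zero, C_0]
  | succ n ih => rw [pow_succ, mc_mul, ih, h, zero_mul, mul_zero, add_zero]

/-- A derivation which kills the coefficients of a squarefree polynomial kills those of its monic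
factors. -/
lemma mc_factor_eq_zero (δ : Derivation ℂ K K) {F p : K[X]} (hp : p.Monic) (hirr : Irreducible p)
    (hpF : p ∣ F) (hsq : Squarefree F) (h : mc δ F = 0) : mc δ p = 0 := by
  obtain ⟨G, rfl⟩ := hpF
  rw [mc_mul] at h
  have h1 : p ∣ mc δ p * G := by
    have h2 : mc δ p * G = p * (-mc δ G) := by linear_combination h
    rw [h2]
    exact dvd_mul_right _ _
  have h2 : ¬ p ∣ G := by
    intro h3
    exact hirr.not_isUnit (hsq p (mul_dvd_mul_left p h3))
  have h3 : p ∣ mc δ p := (hirr.prime.dvd_or_dvd h1).resolve_right h2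
  by_contra h4
  have h5 := natDegree_le_of_dvd h3 h4
  have h6 : (mc δ p).natDegree < p.natDegree := by
    rw [natDegree_lt_iff_degree_lt h4, degree_lt_iff_coeff_zero]
    intro i hi
    rw [mc_coeff]
    rcases Nat.eq_or_lt_of_le hi with h7 | h7
    · rw [← h7, hp.coeff_natDegree, δ.map_one_eq_zero]
    · rw [coeff_eq_zero_of_natDegree_lt h7, map_zero]
  omega

/-- **The radical of the moving part.** -/
theorem exists_radical {G : K[X]} (hG0 : G ≠ 0) {r m : ℕ} (hGdeg : G.natDegree = r)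
    (hmult : ∀ p : K[X], Irreducible p → ¬ p ^ m ∣ G) {A : Finset ℂ}
    (hA : ∀ a, a ∈ A ↔ G.eval (algebraMap ℂ K a) = 0) :
    ∃ (Ps : Finset K[X]) (g : K) (G₁ : K[X]),
      (∀ p ∈ Ps, p.Monic ∧ Irreducible p ∧ ¬ ∃ a : ℂ, p = X - C (algebraMap ℂ K a)) ∧
      Squarefree (∏ p ∈ Ps, p) ∧ (∏ p ∈ Ps, p) ∣ G ∧ g ≠ 0 ∧ G = C g * G₁ ∧
      (∀ δ : Derivation ℂ K K, (∀ p ∈ Ps, mc δ p = 0) → mc δ G₁ = 0) ∧
      (Ps.Nonempty → ∃ a, 1 ≤ a ∧ a < m ∧ (∏ p ∈ Ps, p).natDegree + A.card + a ≤ r + 1 ∧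
        G ∣ (∏ p ∈ Ps, p) ^ a * ((∏ c ∈ A, (X - C c)) ^ r).map (algebraMap ℂ K)) := by
  classical
  set fac := normalizedFactors G with hfac
  set all : Finset K[X] := fac.toFinset with hall
  have hmem : ∀ p, p ∈ all ↔ Irreducible p ∧ p.Monic ∧ p ∣ G := by
    intro p
    rw [hall, Multiset.mem_toFinset]
    exact Polynomial.mem_normalizedFactors_iff hG0
  set cnt : K[X] → ℕ := fun p => fac.count p with hcnt
  have hcnt1 : ∀ p ∈ all, 1 ≤ cnt p := by
    intro p hp
    rw [hall, Multiset.mem_toFinset] at hp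
    exact Multiset.one_le_count_iff_mem.mpr hp
  set G₁ : K[X] := ∏ p ∈ all, p ^ cnt p with hG₁
  have hG : G = C G.leadingCoeff * G₁ := by
    rw [hG₁, hall, ← Finset.prod_multiset_count]
    exact (leadingCoeff_mul_prod_normalizedFactors G).symm
  have hg : G.leadingCoeff ≠ 0 := leadingCoeff_ne_zero.mpr hG0
  set Ps := all.filter fun p => ¬ ∃ a : ℂ, p = X - C (algebraMap ℂ K a) with hPs
  set Cf := all.filter fun p => ∃ a : ℂ, p = X - C (algebraMap ℂ K a) with hCf
  have hCfA : Cf = A.image fun a => X - C (algebraMap ℂ K a) := by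
    ext p
    rw [hCf, Finset.mem_filter, Finset.mem_image, hmem]
    constructor
    · rintro ⟨⟨h1, h2, h3⟩, a, rfl⟩
      refine ⟨a, ?_, rfl⟩
      rw [hA]
      exact dvd_iff_isRoot.mp h3
    · rintro ⟨a, ha, rfl⟩
      exact ⟨⟨irreducible_X_sub_C _, monic_X_sub_C _, dvd_iff_isRoot.mpr ((hA a).mp ha)⟩, a, rfl⟩
  have hinjA : Function.Injective fun a : ℂ => (X - C (algebraMap ℂ K a) : K[X]) := by
    intro a a' h
    have h1 : algebraMap ℂ K a = algebraMap ℂ K a' := C_injective (sub_right_injective h)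
    exact (algebraMap ℂ K).injective h1
  have hCfcard : Cf.card = A.card := by
    rw [hCfA, Finset.card_image_of_injective _ hinjA]
  have hsplit : G₁ = (∏ p ∈ Ps, p ^ cnt p) * ∏ p ∈ Cf, p ^ cnt p := by
    rw [hG₁, hPs, hCf, mul_comm, Finset.prod_filter_mul_prod_filter_not]
  have hPsp : ∀ p ∈ Ps, p.Monic ∧ Irreducible p ∧ p ∣ G ∧
      ¬ ∃ a : ℂ, p = X - C (algebraMap ℂ K a) := by
    intro p hp
    obtain ⟨h1, h2⟩ := Finset.mem_filter.mp hp
    obtain ⟨h3, h4, h5⟩ := (hmem p).mp h1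
    exact ⟨h4, h3, h5, h2⟩
  have hdegG : r = ∑ p ∈ Ps, cnt p * p.natDegree + ∑ p ∈ Cf, cnt p * p.natDegree := by
    have h1 : ∀ p ∈ all, p ^ cnt p ≠ 0 := fun p hp => pow_ne_zero _ ((hmem p).mp hp).2.1.ne_zero
    rw [← hGdeg, hG, natDegree_C_mul hg, hG₁, natDegree_prod _ _ h1, hPs, hCf, add_comm,
      Finset.sum_filter_add_sum_filter_not]
    exact Finset.sum_congr rfl fun p _ => natDegree_pow _ _
  have hdiv : (∏ p ∈ Ps, p) ∣ ∏ p ∈ Ps, p ^ cnt p := by
    refine Finset.prod_dvd_prod_of_dvd _ _ fun p hp => ?_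
    exact dvd_pow_self p (by
      have := hcnt1 p (Finset.mem_filter.mp hp).1
      omega)
  refine ⟨Ps, G.leadingCoeff, G₁, fun p hp => ?_, ?_, ?_, hg, hG, ?_, ?_⟩
  · obtain ⟨h1, h2, -, h3⟩ := hPsp p hp
    exact ⟨h1, h2, h3⟩
  · refine Finset.squarefree_prod_of_pairwise_isCoprime (fun p hp q hq hpq => ?_)
      fun p hp => (hPsp p hp).2.1.squarefree
    obtain ⟨h1, h2, -, -⟩ := hPsp p hp
    obtain ⟨h3, h4, -, -⟩ := hPsp q hq
    refine IsCoprime.isRelPrime ((h2.coprime_iff_not_dvd).mpr fun h5 => hpq ?_)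
    exact eq_of_monic_of_associated h1 h3 ((h2.associated_of_dvd h4) h5)
  · rw [hG, hsplit]
    exact Dvd.dvd.mul_left (Dvd.dvd.mul_right hdiv _) _
  · intro δ hδ
    rw [hsplit, mc_mul, mc_finset_prod δ Ps _ fun p hp => mc_pow_eq_zero δ (hδ p hp) _,
      mc_finset_prod δ Cf _ fun p hp => mc_pow_eq_zero δ ?_ _, zero_mul, mul_zero, add_zero]
    obtain ⟨-, a, rfl⟩ := Finset.mem_filter.mp hp
    ext i
    rw [mc_coeff, coeff_sub, coeff_X, coeff_C, coeff_zero, map_sub]
    split_ifs <;> simp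
  · intro hne
    obtain ⟨p₁, hp₁, hmax⟩ := Ps.exists_max_image cnt hne
    have hp₁all : p₁ ∈ all := (Finset.mem_filter.mp hp₁).1
    have hcntle : ∀ p ∈ all, p ^ cnt p ∣ G := by
      intro p hp
      rw [hG, hG₁]
      exact Dvd.dvd.mul_left (Finset.dvd_prod_of_mem (fun p => p ^ cnt p) hp) _
    refine ⟨cnt p₁, hcnt1 p₁ hp₁all, ?_, ?_, ?_⟩
    · by_contra hcon
      push Not at hcon
      exact hmult p₁ (hPsp p₁ hp₁).2.1 ((pow_dvd_pow _ hcon).trans (hcntle p₁ hp₁all))
    · rw [natDegree_prod_of_monic _ _ fun p hp => (hPsp p hp).1]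
      have h1 : ∀ p ∈ Ps, 1 ≤ p.natDegree := fun p hp => (hPsp p hp).2.1.natDegree_pos
      have h2 : ∑ p ∈ Ps, p.natDegree + cnt p₁ ≤ ∑ p ∈ Ps, cnt p * p.natDegree + 1 := by
        rw [← Finset.add_sum_erase _ _ hp₁,
          ← Finset.add_sum_erase _ (fun p => cnt p * p.natDegree) hp₁]
        have h3 : ∑ p ∈ Ps.erase p₁, p.natDegree ≤ ∑ p ∈ Ps.erase p₁, cnt p * p.natDegree := by
          refine Finset.sum_le_sum fun p hp => ?_
          have h4 := hcnt1 p (Finset.mem_filter.mp (Finset.mem_of_mem_erase hp)).1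
          exact Nat.le_mul_of_pos_left _ h4
        have h4 := h1 p₁ hp₁
        have h5 := hcnt1 p₁ hp₁all
        have h6 : p₁.natDegree + cnt p₁ ≤ cnt p₁ * p₁.natDegree + 1 := by nlinarith
        omega
      have h3 : A.card ≤ ∑ p ∈ Cf, cnt p * p.natDegree := by
        rw [← hCfcard, Finset.card_eq_sum_ones]
        refine Finset.sum_le_sum fun p hp => ?_
        obtain ⟨h4, a, ha⟩ := Finset.mem_filter.mp hp
        rw [ha, natDegree_X_sub_C, mul_one, ← ha]
        exact hcnt1 p h4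
      omega
    · rw [hG, C_mul_dvd hg, hsplit]
      refine mul_dvd_mul ?_ ?_
      · rw [← Finset.prod_pow]
        refine Finset.prod_dvd_prod_of_dvd _ _ fun p hp => pow_dvd_pow _ (hmax p hp)
      · rw [Polynomial.map_pow, Polynomial.map_prod, ← Finset.prod_pow, hCfA,
          Finset.prod_image fun a _ a' _ h => hinjA h]
        refine Finset.prod_dvd_prod_of_dvd _ _ fun a ha => ?_
        rw [Polynomial.map_sub, Polynomial.map_X, Polynomial.map_C]
        refine pow_dvd_pow _ ?_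
        have h4 : X - C (algebraMap ℂ K a) ∈ Cf := by
          rw [hCfA]
          exact Finset.mem_image_of_mem _ ha
        have h5 := Finset.single_le_sum (f := fun p => cnt p * p.natDegree)
          (fun _ _ => Nat.zero_le _) h4
        simp only [natDegree_X_sub_C, mul_one] at h5
        omega

end Pool.Agent.H92.GT
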