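import Pool.Agent.H92.GT.MultDenom
import Pool.Agent.H92.GT.MultTop
import Pool.Agent.H92.GT.Radical

/-!
# Subvarieties of the family with multiple roots
-/

open Polynomial
open Pool.Agent.H23 (RatForm regularForms PrimeDivisorOver dualDer)
open Pool.Agent.H17LG (IsLogGeneralType)

noncomputable section

namespace Pool.Agent.H92.GT

variable {K : Type} [Field K] [Algebra ℂ K] {ι T : Type} [Fintype ι] [Fintype T] [DecidableEq ι]

/-- The numerical invariants. -/
def chiA (r d N : ℕ) (β : T → Option ι) (k : ι → ℕ) (a : ℕ) : ℝ :=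
  (N + 1) * (1 - min 1 ((a : ℝ) / d)) + (nd β none).card +
    ∑ l, (nd β (some l)).card *
      (1 - min 1 ((a : ℝ) * (min r (nd β (some l)).card : ℕ) / (k l : ℝ)))

lemma min_aux {M μ k c : ℕ} (hk : 1 ≤ k) (hM : M = μ * k) :
    ((μ * (k - min k c) : ℕ) : ℝ) = M * (1 - min 1 ((c : ℝ) / k)) := by
  have hk0 : (0 : ℝ) < k := by exact_mod_cast hk
  rw [hM, Nat.cast_mul, Nat.cast_sub (min_le_left _ _), Nat.cast_mul]
  rcases le_total k c with h | h
  · have h1 : (1 : ℝ) ≤ (c : ℝ) / k := by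
      rw [one_le_div hk0]
      exact_mod_cast h
    rw [min_eq_left h, min_eq_left h1]
    ring
  · have h1 : (c : ℝ) / k ≤ 1 := by
      rw [div_le_one hk0]
      exact_mod_cast h
    rw [min_eq_right h, min_eq_right h1]
    field_simp

omit [Algebra ℂ K] in
lemma mwt_ge {N r d a : ℕ} (hd : 0 < d) {x : Fin (N + 1) → K} {β : T → Option ι} {k : ι → ℕ}
    (hk : ∀ l, 1 ≤ k l) {M μ₀ : ℕ} {μ : ι → ℕ} (hM₀ : M = μ₀ * d) (hM : ∀ l, M = μ l * k l)
    {α : ℕ} (hzero : N + 1 ≤ (nz x).card + α) :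
    (M : ℝ) * (chiA r d N β k a - α) ≤ (mwt x β M (μ₀ * (d - min a d))
      (fun l => μ l * (k l - min (k l) (a * min r (nd β (some l)).card))) : ℝ) := by
  unfold mwt chiA
  have h1 : ((μ₀ * (d - min a d) : ℕ) : ℝ) = M * (1 - min 1 ((a : ℝ) / d)) := by
    rw [min_comm]
    exact min_aux hd hM₀
  have h2 : ∀ l, ((μ l * (k l - min (k l) (a * min r (nd β (some l)).card)) : ℕ) : ℝ) =
      M * (1 - min 1 ((a : ℝ) * (min r (nd β (some l)).card : ℕ) / (k l : ℝ))) := by
    intro l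
    have h3 := min_aux (c := a * min r (nd β (some l)).card) (hk l) (hM l)
    rw [h3, Nat.cast_mul]
  have h3 : ((∑ l, (nd β (some l)).card *
      (μ l * (k l - min (k l) (a * min r (nd β (some l)).card))) : ℕ) : ℝ) =
      M * ∑ l, (nd β (some l)).card *
        (1 - min 1 ((a : ℝ) * (min r (nd β (some l)).card : ℕ) / (k l : ℝ))) := by
    rw [Nat.cast_sum, Finset.mul_sum]
    refine Finset.sum_congr rfl fun l _ => ?_
    rw [Nat.cast_mul, h2]
    ring
  rw [Nat.cast_add, Nat.cast_add, h3, Nat.cast_mul, h1, Nat.cast_mul]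
  set B := ∑ l, ((nd β (some l)).card : ℝ) *
        (1 - min 1 ((a : ℝ) * (min r (nd β (some l)).card : ℕ) / (k l : ℝ))) with hB
  have h4 : (0 : ℝ) ≤ min 1 ((a : ℝ) / d) := by positivity
  have h5 : min 1 ((a : ℝ) / d) ≤ 1 := min_le_left _ _
  have h6 : (N : ℝ) + 1 ≤ (nz x).card + α := by exact_mod_cast hzero
  have hM0 : (0 : ℝ) ≤ M := Nat.cast_nonneg _
  have hα : (0 : ℝ) ≤ α := Nat.cast_nonneg _
  set u := min 1 ((a : ℝ) / d) with hu
  have h7 : ((N : ℝ) + 1) * (1 - u) - α ≤ (nz x).card * (1 - u) := by nlinarith only [h6, h4, h5]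
  have h8 := mul_le_mul_of_nonneg_left h7 hM0
  nlinarith only [h8]

/-- The estimate of the order of the denominator. -/
theorem order_estimate {v : AddValuation K (WithTop ℤ)} (hv : ∀ c : ℂ, 0 ≤ v (algebraMap ℂ K c))
    {N : ℕ} {x : Fin (N + 1) → K} {j₀ : Fin (N + 1)} (hj₀ : x j₀ = 1)
    {r d a n γ : ℕ} (hrN : r ≤ N) {t : Fin (N + 1) → ℂ} {τ : T → ℂ}
    (hinj : Function.Injective (Sum.elim t τ)) {β : T → Option ι} {k e : ι → ℕ}
    (hke : ∀ l, k l * e l = d * (nd β (some l)).card)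
    {G F : K[X]} (hG0 : G ≠ 0) (hGdeg : G.natDegree ≤ r)
    (hGx : ∀ j, G.eval (algebraMap ℂ K (t j)) = x j ^ d) {y : ι → K} (hy0 : ∀ l, y l ≠ 0)
    (hy : ∀ l, y l ^ k l = ∏ i ∈ nd β (some l), G.eval (algebraMap ℂ K (τ i)))
    (hGS : ∀ w ∈ nodeSet x t τ, G.eval (algebraMap ℂ K w) ≠ 0)
    (hFG : F ∣ G) {D : ℂ[X]} (hD : D ≠ 0) (hGF : G ∣ F ^ a * D.map (algebraMap ℂ K))
    (hDA : ∀ w ∈ nodeSet x t τ, D.eval w ≠ 0) (ht₀ : F.eval (algebraMap ℂ K (t j₀)) = 1)
    {M μ₀ : ℕ} {μ : ι → ℕ} (hM₀ : M = μ₀ * d) (hM : ∀ l, M = μ l * k l)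
    (hxn : ∀ j, ((-(n : ℤ) : ℤ) : WithTop ℤ) ≤ v (x j))
    (hn : ∃ j, v (x j) = ((-(n : ℤ) : ℤ) : WithTop ℤ)) (hct : IsCt v F (-(γ : ℤ)))
    {o : ℂ → ℤ} (ho : ∀ w, v (F.eval (algebraMap ℂ K w)) = ((o w - γ : ℤ) : WithTop ℤ))
    (ho0 : ∀ w, 0 ≤ o w) (hlarge : ∀ S' : Finset ℂ, (∀ w ∈ S', 0 < o w) → S'.card ≤ r)
    {Bd : Prop}
    (hBd : ∀ s : K, s ≠ 0 → (∀ j, 0 ≤ v (x j * s)) → (∃ j, v (x j * s) = 0) → ¬ Bd →
      v ((∏ i ∈ nd β none, G.eval (algebraMap ℂ K (τ i))) * s ^ (d * (nd β none).card)) ≤ 0) :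
    (∃ q : ℤ, v (mdenom x t τ β F M (μ₀ * (d - min a d))
        (fun l => μ l * (k l - min (k l) (a * min r (nd β (some l)).card)))) =
          ((q : ℤ) : WithTop ℤ) ∧
      (¬ Bd → q + mwt x β M (μ₀ * (d - min a d))
        (fun l => μ l * (k l - min (k l) (a * min r (nd β (some l)).card))) * γ ≤
          M * ∑ w ∈ nodeSet x t τ, max (o w - 1) 0) ∧
      q + mwt x β M (μ₀ * (d - min a d))
        (fun l => μ l * (k l - min (k l) (a * min r (nd β (some l)).card))) * γ ≤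
          M * ∑ w ∈ nodeSet x t τ, o w) ∧ d * n ≤ a * γ := by
  classical
  have ht : Function.Injective t := fun i j h => by
    have := @hinj (Sum.inl i) (Sum.inl j) (by simpa using h)
    simpa using this
  have hmt : ∀ j ∈ nz x, t j ∈ nodeSet x t τ := fun j hj =>
    Finset.mem_union_left _ (Finset.mem_image_of_mem _ hj)
  have hmτ : ∀ i, τ i ∈ nodeSet x t τ := fun i =>
    Finset.mem_union_right _ (Finset.mem_image_of_mem _ (Finset.mem_univ i))
  have hpow : ∀ (g : K) (c : ℤ) (n : ℕ), v g = ((c : ℤ) : WithTop ℤ) →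
      v (g ^ n) = ((n * c : ℤ) : WithTop ℤ) := by
    intro g c n h
    have h1 := val_prod_pow (v := v) {()} (fun _ => g) (fun _ => c) n (fun _ _ => h)
    simpa using h1
  obtain ⟨j₁, hj₁⟩ := hn
  -- the content of `G`
  have hGt : ∀ j, ((-(d * n : ℕ) : ℤ) : WithTop ℤ) ≤ v (G.eval (algebraMap ℂ K (t j))) := by
    intro j
    rw [hGx, v.map_pow]
    have h1 : ∀ m : ℕ, ((-(m * n : ℕ) : ℤ) : WithTop ℤ) ≤ m • v (x j) := by
      intro m
      induction m with
      | zero => simp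
      | succ m ih =>
        have h2 : (-((m + 1) * n : ℕ) : ℤ) = -(m * n : ℕ) + -(n : ℤ) := by
          push_cast
          ring
        rw [h2, succ_nsmul, WithTop.coe_add]
        exact add_le_add ih (hxn j)
    exact h1 d
  have hGt1 : v (G.eval (algebraMap ℂ K (t j₁))) = ((-(d * n : ℕ) : ℤ) : WithTop ℤ) := by
    rw [hGx, hpow _ _ d hj₁]
    congr 1
    push_cast
    ring
  have hctG : IsCt v G (-(d * n : ℕ)) := by
    obtain ⟨c, hc1, hc2⟩ := exists_content (v := v) hG0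
    have h1 : ((c : ℤ) : WithTop ℤ) ≤ ((-(d * n : ℕ) : ℤ) : WithTop ℤ) := by
      rw [← hGt1]
      exact val_eval_ge hv hc1 _
    have h2 : ((-(d * n : ℕ) : ℤ) : WithTop ℤ) ≤ ((c : ℤ) : WithTop ℤ) := by
      obtain ⟨i, hi⟩ := hc2
      rw [← hi]
      obtain ⟨T', hT', hT'card⟩ := Finset.exists_subset_card_eq
        (s := Finset.univ.image t) (n := r + 1) (by
          rw [Finset.card_image_of_injective _ ht, Finset.card_univ, Fintype.card_fin]
          omega)
      refine coeff_ge_of_eval_ge hv hGdeg T' hT'card (fun w hw => ?_) i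
      obtain ⟨j, -, rfl⟩ := Finset.mem_image.mp (hT' hw)
      exact hGt j
    have h3 : c = -(d * n : ℕ) := le_antisymm (by exact_mod_cast h1) (by exact_mod_cast h2)
    rw [← h3]
    exact ⟨hc1, hc2⟩
  -- the orders of the values of `G`
  have hoex : ∀ w : ℂ, ∃ o' : ℤ, G.eval (algebraMap ℂ K w) ≠ 0 →
      v (G.eval (algebraMap ℂ K w)) = ((o' + -(d * n : ℕ) : ℤ) : WithTop ℤ) := by
    intro w
    by_cases h : G.eval (algebraMap ℂ K w) = 0
    · exact ⟨0, fun h' => absurd h h'⟩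
    · obtain ⟨c, hc⟩ := exists_int' (v := v) h
      exact ⟨c + (d * n : ℕ), fun _ => by rw [hc]; congr 1; ring⟩
  choose o' ho' using hoex
  have ho1 : ∀ w ∈ nodeSet x t τ, o w ≤ o' w := fun w hw =>
    excess_le hv hFG hct hctG (w := w) (by rw [ho w]; congr 1) (ho' w (hGS w hw))
  have ho2 : ∀ w ∈ nodeSet x t τ, o' w ≤ a * o w := by
    intro w hw
    have h1 : IsCt v (F ^ a * D.map (algebraMap ℂ K)) (a * -(γ : ℤ) + 0) :=
      (hct.pow hv a).mul hv (isCt_map hv hD)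
    refine excess_le hv hGF hctG h1 (w := w) (ho' w (hGS w hw)) ?_
    rw [eval_mul, eval_pow, v.map_mul, hpow _ _ a (ho w), eval_map, eval₂_at_apply,
      val_const hv (hDA w hw), add_zero]
    congr 1
    ring
  -- the base node
  have hj₀nz : j₀ ∈ nz x := by
    rw [mem_nz, hj₀]
    exact one_ne_zero
  have hγ : o (t j₀) = γ := by
    have h1 := ho (t j₀)
    rw [ht₀, v.map_one] at h1
    have h2 : (0 : ℤ) = o (t j₀) - γ := by exact_mod_cast h1
    omega
  have hdn : o' (t j₀) = (d * n : ℕ) := by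
    have h1 := ho' (t j₀) (hGS _ (hmt _ hj₀nz))
    rw [hGx, hj₀, one_pow, v.map_one] at h1
    have h2 : (0 : ℤ) = o' (t j₀) + -(d * n : ℕ) := by exact_mod_cast h1
    omega
  have hna : d * n ≤ a * γ := by
    have h1 := ho2 _ (hmt _ hj₀nz)
    rw [hγ, hdn] at h1
    exact_mod_cast h1
  refine ⟨?_, hna⟩
  -- divisibility
  have hdx : ∀ j ∈ nz x, ∃ c : ℤ, o' (t j) = d * c := by
    intro j hj
    obtain ⟨c, hc⟩ := exists_int' (v := v) (mem_nz.mp hj)
    refine ⟨c + n, ?_⟩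
    have h1 := ho' (t j) (hGS _ (hmt _ hj))
    rw [hGx, hpow _ _ d hc] at h1
    have h2 : (d : ℤ) * c = o' (t j) + -(d * n : ℕ) := by exact_mod_cast h1
    push_cast at h2
    linarith only [h2]
  have hdy : ∀ l, ∃ c : ℤ, ∑ i ∈ nd β (some l), o' (τ i) = k l * c := by
    intro l
    obtain ⟨c, hc⟩ := exists_int' (v := v) (hy0 l)
    refine ⟨c + e l * n, ?_⟩
    have h1 := congrArg v (hy l)
    rw [hpow _ _ (k l) hc, val_prod, Finset.sum_congr rfl fun i _ => ho' _ (hGS _ (hmτ i)),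
      ← coe_sum] at h1
    have h2 : (k l : ℤ) * c = ∑ i ∈ nd β (some l), (o' (τ i) + -(d * n : ℕ)) := by
      exact_mod_cast h1
    rw [Finset.sum_add_distrib, Finset.sum_const, nsmul_eq_mul] at h2
    have h3 : (k l : ℤ) * e l = d * (nd β (some l)).card := by exact_mod_cast hke l
    push_cast at h2
    linear_combination -h2 - n * h3
  have hO : ¬ Bd → ∀ i ∈ nd β none, o (τ i) = 0 := by
    intro hB i hi
    have hxj₁ : x j₁ ≠ 0 := by
      intro h0
      rw [h0, v.map_zero] at hj₁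
      exact WithTop.top_ne_coe hj₁
    have hvs : v (x j₁)⁻¹ = ((n : ℤ) : WithTop ℤ) := by
      obtain ⟨c, hc⟩ := exists_int' (v := v) (inv_ne_zero hxj₁)
      have h1 : v (x j₁ * (x j₁)⁻¹) = 0 := by rw [mul_inv_cancel₀ hxj₁, v.map_one]
      rw [v.map_mul, hj₁, hc] at h1
      have h2 : -(n : ℤ) + c = 0 := by exact_mod_cast h1
      rw [hc]
      congr 1
      omega
    have h1 := hBd (x j₁)⁻¹ (inv_ne_zero hxj₁) (fun j => by
      rw [v.map_mul, hvs]
      have h1 := add_le_add (hxn j) (le_refl ((n : ℤ) : WithTop ℤ))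
      refine le_trans (le_of_eq ?_) h1
      have : (-(n : ℤ) + n : ℤ) = 0 := by ring
      exact_mod_cast this.symm) ⟨j₁, by rw [mul_inv_cancel₀ hxj₁, v.map_one]⟩ hB
    rw [v.map_mul, val_prod, Finset.sum_congr rfl fun i _ => ho' _ (hGS _ (hmτ i)), ← coe_sum,
      hpow _ _ _ hvs] at h1
    have h2 : ∑ i ∈ nd β none, (o' (τ i) + -(d * n : ℕ)) + ((d * (nd β none).card : ℕ) : ℤ) * n ≤
        0 := by exact_mod_cast h1
    rw [Finset.sum_add_distrib, Finset.sum_const, nsmul_eq_mul] at h2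
    have h3 : ∑ i ∈ nd β none, o' (τ i) ≤ 0 := by
      push_cast at h2
      linarith
    have h4 : ∀ i ∈ nd β none, 0 ≤ o' (τ i) := fun i _ =>
      (ho0 _).trans (ho1 _ (hmτ i))
    have h5 := (Finset.sum_eq_zero_iff_of_nonneg h4).mp (le_antisymm h3 (Finset.sum_nonneg h4))
    have h6 := h5 i hi
    have h7 := ho1 _ (hmτ i)
    have h8 := ho0 (τ i)
    omega
  have h1 := mdenom_le (x := x) (a := a) hinj (β := β) hM₀ hM ho0 ho1 ho2 hdx hdy hlarge hO
  refine ⟨_, mdenom_order ho, ?_, ?_⟩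
  · intro hB
    have h2 := h1.1 hB
    linarith only [h2]
  · have h2 := h1.2
    linarith only [h1]

lemma der_pow_eq_zero {δ : Derivation ℂ K K} {f : K} {n : ℕ} (hn : 0 < n)
    (h : δ (f ^ n) = 0) : δ f = 0 := by
  have _ : CharZero K := charZero_of_injective_algebraMap (algebraMap ℂ K).injective
  rw [δ.leibniz_pow, nsmul_eq_mul, smul_eq_mul] at h
  rcases mul_eq_zero.mp h with h1 | h1
  · exact absurd h1 (by exact_mod_cast hn.ne')
  · rcases mul_eq_zero.mp h1 with h2 | h2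
    · rw [eq_zero_of_pow_eq_zero h2, map_zero]
    · exact h2

/-- **Subvarieties of the family are of log general type.** -/
theorem isLogGeneralType_mult [Algebra.EssFiniteType ℂ K] {N : ℕ} {x : Fin (N + 1) → K}
    {j₀ : Fin (N + 1)} (hj₀ : x j₀ = 1)
    (halg : Algebra.IsAlgebraic (IntermediateField.adjoin ℂ (Set.range x)) K) {q : ℕ}
    {J : Fin (q + 1) → Fin (N + 1)} (hz : IsTranscendenceBasis ℂ fun i => x (J i))
    {r d m : ℕ} (hd : 0 < d) (hrN : r ≤ N) {t : Fin (N + 1) → ℂ} {τ : T → ℂ}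
    (hinj : Function.Injective (Sum.elim t τ)) {β : T → Option ι} {k e : ι → ℕ}
    (hk : ∀ l, 1 ≤ k l) (hke : ∀ l, k l * e l = d * (nd β (some l)).card)
    (hnum : ∀ a : ℕ, 1 ≤ a → a < m → 2 * ((r : ℝ) + 1 - a) < chiA r d N β k a)
    (hnum' : ∀ a : ℕ, 1 ≤ a → a < m → 1 ≤ q → q + 1 + a < r + 1 →
      2 * ((r : ℝ) + 1 - a) + (q + 1) * ((r + 1 - a) * a) / d < chiA r d N β k a)
    {G : K[X]} (hGdeg : G.natDegree ≤ r) (hmult : ∀ p : K[X], Irreducible p → ¬ p ^ m ∣ G)
    (hGx : ∀ j, G.eval (algebraMap ℂ K (t j)) = x j ^ d) {y : ι → K} (hy0 : ∀ l, y l ≠ 0)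
    (hy : ∀ l, y l ^ k l = ∏ i ∈ nd β (some l), G.eval (algebraMap ℂ K (τ i)))
    (hGO : ∀ i ∈ nd β none, G.eval (algebraMap ℂ K (τ i)) ≠ 0)
    {Bd : PrimeDivisorOver K (q + 1) → Prop}
    (hBd : ∀ (E : PrimeDivisorOver K (q + 1)) (s : K), s ≠ 0 → (∀ j, 0 ≤ E.ord (x j * s)) →
      (∃ j, E.ord (x j * s) = 0) → ¬ Bd E →
      E.ord ((∏ i ∈ nd β none, G.eval (algebraMap ℂ K (τ i))) * s ^ (d * (nd β none).card)) ≤ 0) :
    IsLogGeneralType Bd := by
  classical
  obtain ⟨b, hb⟩ := H23.exists_basis_kaehler hz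
  have ht : Function.Injective t := fun i j h => by
    have := @hinj (Sum.inl i) (Sum.inl j) (by simpa using h)
    simpa using this
  have hGτ : ∀ i, G.eval (algebraMap ℂ K (τ i)) ≠ 0 := by
    intro i
    rcases hβ : β i with _ | l
    · exact hGO i (Finset.mem_filter.mpr ⟨Finset.mem_univ _, hβ⟩)
    · have h1 := pow_ne_zero (k l) (hy0 l)
      rw [hy l, Finset.prod_ne_zero_iff] at h1
      exact h1 i (Finset.mem_filter.mpr ⟨Finset.mem_univ _, hβ⟩)
  have hGS : ∀ w ∈ nodeSet x t τ, G.eval (algebraMap ℂ K w) ≠ 0 := by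
    intro w hw
    rcases Finset.mem_union.mp hw with h | h
    · obtain ⟨j, hj, rfl⟩ := Finset.mem_image.mp h
      rw [hGx]
      exact pow_ne_zero _ (mem_nz.mp hj)
    · obtain ⟨i, -, rfl⟩ := Finset.mem_image.mp h
      exact hGτ i
  have hG0 : G ≠ 0 := by
    rintro rfl
    have h1 := hGx j₀
    rw [eval_zero, hj₀, one_pow] at h1
    exact zero_ne_one h1
  -- the constant roots
  set A : Finset ℂ := G.roots.toFinset.preimage (algebraMap ℂ K)
    ((algebraMap ℂ K).injective.injOn) with hAdef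
  have hA : ∀ a, a ∈ A ↔ G.eval (algebraMap ℂ K a) = 0 := by
    intro a
    rw [hAdef, Finset.mem_preimage, Multiset.mem_toFinset, mem_roots hG0]
    rfl
  have hzero : N + 1 ≤ (nz x).card + A.card := by
    have h1 : (Finset.univ.filter fun j => ¬ x j ≠ 0).card ≤ A.card := by
      rw [← Finset.card_image_of_injective _ ht]
      refine Finset.card_le_card fun w hw => ?_
      obtain ⟨j, hj, rfl⟩ := Finset.mem_image.mp hw
      rw [hA, hGx, not_not.mp (Finset.mem_filter.mp hj).2, zero_pow hd.ne']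
    have h2 := Finset.card_filter_add_card_filter_not (s := (Finset.univ : Finset (Fin (N + 1))))
      (fun j => x j ≠ 0)
    rw [Finset.card_univ, Fintype.card_fin] at h2
    have h3 : nz x = Finset.univ.filter fun j => x j ≠ 0 := by
      ext j
      simp [mem_nz]
    rw [h3]
    omega
  obtain ⟨Ps, g, G₁, hPs, hsq, hPG, hg, hGG₁, hkill, hPa⟩ :=
    exists_radical hG0 (r := G.natDegree) (m := m) rfl hmult hA
  -- derivations
  have hδx : ∀ δ : Derivation ℂ K K, (∀ p ∈ Ps, mc δ p = 0) → ∀ j, δ (x j) = 0 := by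
    intro δ hδ j
    have h1 := hkill δ hδ
    have h2 : ∀ w : ℂ, δ (G₁.eval (algebraMap ℂ K w)) = 0 := by
      intro w
      rw [← mc_eval, h1, eval_zero]
    have h3 : ∀ w : ℂ, G.eval (algebraMap ℂ K w) = g * G₁.eval (algebraMap ℂ K w) := by
      intro w
      conv_lhs => rw [hGG₁]
      rw [eval_mul, eval_C]
    have h4 : δ g = 0 := by
      have h5 : g * G₁.eval (algebraMap ℂ K (t j₀)) = 1 := by
        rw [← h3, hGx, hj₀, one_pow]
      have h6 := congrArg δ h5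
      rw [δ.leibniz, h2, smul_zero, zero_add, δ.map_one_eq_zero, smul_eq_mul] at h6
      rcases mul_eq_zero.mp h6 with h7 | h7
      · rw [h7, mul_zero] at h5
        exact absurd h5 zero_ne_one
      · exact h7
    refine der_pow_eq_zero hd ?_
    rw [← hGx, h3, δ.leibniz, h2, h4, smul_zero, smul_zero, add_zero]
  have hPsne : Ps.Nonempty := by
    rw [Finset.nonempty_iff_ne_empty]
    intro h0
    have h1 := hδx (dualDer b 0) (by simp [h0]) (J 0)
    rw [H23.dualDer_coord b hb 0 0, if_pos rfl] at h1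
    exact one_ne_zero h1
  obtain ⟨a, ha1, ham, hρA, hGdvd⟩ := hPa hPsne
  set F₀ : K[X] := ∏ p ∈ Ps, p with hF₀
  have hF₀t : F₀.eval (algebraMap ℂ K (t j₀)) ≠ 0 := by
    intro h0
    obtain ⟨G', hG'⟩ := hPG
    have h1 := hGx j₀
    rw [hG', eval_mul, h0, zero_mul, hj₀, one_pow] at h1
    exact zero_ne_one h1
  set f₀ := (F₀.eval (algebraMap ℂ K (t j₀)))⁻¹ with hf₀
  have hf₀0 : f₀ ≠ 0 := inv_ne_zero hF₀t
  set F : K[X] := C f₀ * F₀ with hF
  have hassoc : Associated F₀ F := by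
    rw [hF]
    exact (associated_isUnit_mul_right_iff (isUnit_C.mpr hf₀0.isUnit)).mpr (Associated.refl _)
  have hFG : F ∣ G := hassoc.symm.dvd.trans hPG
  have hFsq : Squarefree F := by
    rwa [← hassoc.squarefree_iff]
  have ht₀ : F.eval (algebraMap ℂ K (t j₀)) = 1 := by
    rw [hF, eval_mul, eval_C, hf₀, inv_mul_cancel₀ hF₀t]
  set ρ := F₀.natDegree with hρ
  have hFdeg : F.natDegree = ρ := by rw [hF, natDegree_C_mul hf₀0]
  have hρ1 : 1 ≤ ρ := by
    obtain ⟨p, hp⟩ := hPsne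
    have h1 : p ∣ F₀ := Finset.dvd_prod_of_mem _ hp
    have h2 := natDegree_le_of_dvd h1 hsq.ne_zero
    have h3 := (hPs p hp).2.1.natDegree_pos
    omega
  have hρr : ρ ≤ r := by omega
  have hmov : ∀ w : ℂ, F.eval (algebraMap ℂ K w) ≠ 0 := by
    intro w h0
    rw [hF, eval_mul, eval_C] at h0
    have h1 := (mul_eq_zero.mp h0).resolve_left hf₀0
    rw [hF₀, eval_prod, Finset.prod_eq_zero_iff] at h1
    obtain ⟨p, hp, hpw⟩ := h1
    obtain ⟨h2, h3, h4⟩ := hPs p hp
    apply h4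
    refine ⟨w, (eq_of_monic_of_associated (monic_X_sub_C _) h2 ?_).symm⟩
    exact (irreducible_X_sub_C _).associated_of_dvd h3 (dvd_iff_isRoot.mpr hpw)
  have hxδ : ∀ δ : Derivation ℂ K K, mc δ F = 0 → ∀ j, δ (x j) = 0 := by
    intro δ hδ
    refine hδx δ fun p hp => ?_
    exact mc_factor_eq_zero δ (hPs p hp).1 (hPs p hp).2.1
      ((Finset.dvd_prod_of_mem _ hp).trans hassoc.dvd) hFsq hδ
  have hqρ : q + 1 ≤ ρ := dim_le' hb hFdeg.le ht₀ hxδ
  -- the divisor `D`
  set D : ℂ[X] := (∏ c ∈ A, (X - C c)) ^ G.natDegree with hD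
  have hD0 : D ≠ 0 := pow_ne_zero _ (Finset.prod_ne_zero_iff.mpr fun c _ => X_sub_C_ne_zero c)
  have hGF : G ∣ F ^ a * D.map (algebraMap ℂ K) :=
    hGdvd.trans (mul_dvd_mul_right (pow_dvd_pow_of_dvd hassoc.dvd a) _)
  have hDA : ∀ w ∈ nodeSet x t τ, D.eval w ≠ 0 := by
    intro w hw
    rw [hD, eval_pow]
    refine pow_ne_zero _ ?_
    rw [eval_prod, Finset.prod_ne_zero_iff]
    intro c hc
    rw [eval_sub, eval_X, eval_C, sub_ne_zero]
    rintro rfl
    exact hGS _ hw ((hA _).mp hc)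
  -- the multiple
  set M₀ : ℕ := d * ∏ l, k l with hM₀def
  have hM₀1 : 1 ≤ M₀ := Nat.mul_pos hd (Finset.prod_pos fun l _ => hk l)
  have hχ := hnum a ha1 ham
  have haR : (1 : ℝ) ≤ a := by exact_mod_cast ha1
  have hdR : (1 : ℝ) ≤ d := by exact_mod_cast hd
  have hρAR : (ρ : ℝ) + A.card + a ≤ r + 1 := by
    have h1 : ρ + A.card + a ≤ r + 1 := by omega
    exact_mod_cast h1
  have hAR : (0 : ℝ) ≤ A.card := Nat.cast_nonneg _
  have hρR : (1 : ℝ) ≤ ρ := by exact_mod_cast hρ1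
  -- a general choice of the multiple
  have hchoose : ∀ {A₁ B₁ : ℝ}, A₁ < B₁ → ∃ L : ℕ, 1 ≤ L ∧ ∀ M : ℕ, L ≤ M →
      (a : ℝ) + M * A₁ ≤ M * B₁ := by
    intro A₁ B₁ h
    obtain ⟨L, hL⟩ := exists_nat_gt ((a : ℝ) / (B₁ - A₁))
    refine ⟨L + 1, by omega, fun M hM => ?_⟩
    have h1 : 0 < B₁ - A₁ := by linarith only [h]
    rw [div_lt_iff₀ h1] at hL
    have h2 : (L : ℝ) ≤ M := by exact_mod_cast (by omega : L ≤ M)
    nlinarith only [h, hL, h2]
  have hmain : ∀ {cost : ℝ}, (cost : ℝ) < d * (chiA r d N β k a - A.card) →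
      ∃ (M μ₀ : ℕ) (μ : ι → ℕ), 1 ≤ M ∧ M = μ₀ * d ∧ (∀ l, M = μ l * k l) ∧
      (a : ℝ) + M * cost ≤ d * (mwt x β M (μ₀ * (d - min a d))
        (fun l => μ l * (k l - min (k l) (a * min r (nd β (some l)).card))) : ℝ) := by
    intro cost hcost
    obtain ⟨L, hL1, hL⟩ := hchoose hcost
    refine ⟨M₀ * L, (∏ l, k l) * L, fun l => d * (∏ l' ∈ Finset.univ.erase l, k l') * L,
      Nat.mul_pos hM₀1 hL1, by rw [hM₀def]; ring, fun l => ?_, ?_⟩
    · rw [hM₀def, ← Finset.mul_prod_erase Finset.univ k (Finset.mem_univ l)]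
      ring
    · refine (hL (M₀ * L) (Nat.le_mul_of_pos_left _ hM₀1)).trans ?_
      have h1 := mwt_ge (r := r) (a := a) hd (x := x) (β := β) hk (M := M₀ * L)
        (μ₀ := (∏ l, k l) * L) (μ := fun l => d * (∏ l' ∈ Finset.univ.erase l, k l') * L)
        (by rw [hM₀def]; ring) (fun l => by
          rw [hM₀def, ← Finset.mul_prod_erase Finset.univ k (Finset.mem_univ l)]
          ring) hzero
      have h2 := mul_le_mul_of_nonneg_left h1 (by linarith only [] : (0 : ℝ) ≤ d)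
      linarith only [h2]
  rcases Nat.eq_or_lt_of_le hqρ with hqρ' | hqρ'
  · -- the top-dimensional case
    obtain ⟨M, μ₀, μ, hM1, hM₀, hM, hMw⟩ := hmain (cost := d * (q + 2)) (by
      refine mul_lt_mul_of_pos_left ?_ (by linarith only [hdR])
      have h1 : (ρ : ℝ) = q + 1 := by
        rw [← hqρ']
        push_cast
        ring
      linarith only [hχ, hρAR, h1])
    refine isLogGeneralType_of_moving_top hj₀ halg hz (by omega : F.natDegree ≤ q + 1) hmov ht₀ hxδ
      (mdenom_ne_zero (x := x) (t := t) (τ := τ) (β := β) hmov M (μ₀ * (d - min a d))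
        (fun l => μ l * (k l - min (k l) (a * min r (nd β (some l)).card)))) hM1
      (nodeSet x t τ) ?_
    intro E n γ hxn hn hct o ho ho0 hlarge
    obtain ⟨⟨qq, hqq, hqq1, hqq2⟩, hna⟩ := order_estimate E.ord_const hj₀ hrN hinj hke hG0 hGdeg
      hGx hy0 hy hGS hFG hD0 hGF hDA ht₀ hM₀ hM hxn hn hct ho ho0
      (fun S' hS' => (hlarge S' hS').trans (by omega)) (hBd E)
    have hcost : (M * ((q + 2) * γ) + n : ℤ) ≤ mwt x β M (μ₀ * (d - min a d))
        (fun l => μ l * (k l - min (k l) (a * min r (nd β (some l)).card))) * γ := by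
      set W := mwt x β M (μ₀ * (d - min a d))
        (fun l => μ l * (k l - min (k l) (a * min r (nd β (some l)).card))) with hW
      have h1 : a + M * (d * (q + 2)) ≤ d * W := by exact_mod_cast hMw
      have h2 : d * (M * ((q + 2) * γ) + n) ≤ d * (W * γ) := by
        calc d * (M * ((q + 2) * γ) + n) = M * (d * (q + 2)) * γ + d * n := by ring
          _ ≤ M * (d * (q + 2)) * γ + a * γ := by omega
          _ = (a + M * (d * (q + 2))) * γ := by ring
          _ ≤ d * W * γ := Nat.mul_le_mul_right _ h1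
          _ = d * (W * γ) := by ring
      have h3 := Nat.le_of_mul_le_mul_left h2 hd
      exact_mod_cast h3
    refine ⟨qq, hqq, fun hB => ?_, ?_⟩
    · have := hqq1 hB
      linarith only [hcost, this]
    · linarith only [hqq2, hcost]
  · -- the other cases
    obtain ⟨M, μ₀, μ, hM1, hM₀, hM, hMw⟩ := hmain (cost := d * (2 * ρ) + a * (lc q * ρ)) (by
      rcases Nat.eq_zero_or_pos q with hq0 | hq0
      · subst hq0
        rw [lc, if_pos rfl, Nat.cast_zero, zero_mul, mul_zero, add_zero]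
        refine mul_lt_mul_of_pos_left ?_ (by linarith only [hdR])
        linarith only [hχ, hρAR]
      · have h1 := hnum' a ha1 ham hq0 (by omega)
        have h2 : (d : ℝ) * (2 * ((r : ℝ) + 1 - a) + (q + 1) * ((r + 1 - a) * a) / d) <
            d * chiA r d N β k a := mul_lt_mul_of_pos_left h1 (by linarith only [hdR])
        have h3 : (d : ℝ) * (2 * ((r : ℝ) + 1 - a) + (q + 1) * ((r + 1 - a) * a) / d) =
            d * (2 * ((r : ℝ) + 1 - a)) + (q + 1) * ((r + 1 - a) * a) := by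
          field_simp
        rw [h3] at h2
        rw [lc, if_neg (by omega)]
        push_cast
        have h4 : (0 : ℝ) ≤ (q + 1) * a := by positivity
        have h5 : (q + 1) * (a : ℝ) * ρ ≤ (q + 1) * a * (r + 1 - a) :=
          mul_le_mul_of_nonneg_left (by linarith only [hρAR]) h4
        have h6 : (d : ℝ) * (2 * ρ + A.card) ≤ d * (2 * ((r : ℝ) + 1 - a)) :=
          mul_le_mul_of_nonneg_left (by linarith only [hρAR]) (by linarith only [])
        linarith only [h2, h5, h6])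
    refine isLogGeneralType_of_moving hj₀ halg hz hFdeg hρ1 hFsq hmov ht₀
      (mdenom_ne_zero (x := x) (t := t) (τ := τ) (β := β) hmov M (μ₀ * (d - min a d))
        (fun l => μ l * (k l - min (k l) (a * min r (nd β (some l)).card)))) hM1
      (nodeSet x t τ) ?_
    intro E n γ hxn hn hct o ho ho0 hlarge
    obtain ⟨⟨qq, hqq, hqq1, hqq2⟩, hna⟩ := order_estimate E.ord_const hj₀ hrN hinj hke hG0 hGdeg
      hGx hy0 hy hGS hFG hD0 hGF hDA ht₀ hM₀ hM hxn hn hct ho ho0
      (fun S' hS' => (hlarge S' hS').trans hρr) (hBd E)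
    have hcost : (M * (2 * ρ * γ + n * lc q * ρ) + n : ℤ) ≤ mwt x β M (μ₀ * (d - min a d))
        (fun l => μ l * (k l - min (k l) (a * min r (nd β (some l)).card))) * γ := by
      set W := mwt x β M (μ₀ * (d - min a d))
        (fun l => μ l * (k l - min (k l) (a * min r (nd β (some l)).card))) with hW
      have h1 : a + M * (d * (2 * ρ) + a * (lc q * ρ)) ≤ d * W := by exact_mod_cast hMw
      have h2 : d * (M * (2 * ρ * γ + n * lc q * ρ) + n) ≤ d * (W * γ) := by
        calc d * (M * (2 * ρ * γ + n * lc q * ρ) + n) =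
            M * (d * (2 * ρ)) * γ + (d * n) * (M * (lc q * ρ) + 1) := by ring
          _ ≤ M * (d * (2 * ρ)) * γ + (a * γ) * (M * (lc q * ρ) + 1) :=
            Nat.add_le_add_left (Nat.mul_le_mul_right _ hna) _
          _ = (a + M * (d * (2 * ρ) + a * (lc q * ρ))) * γ := by ring
          _ ≤ d * W * γ := Nat.mul_le_mul_right _ h1
          _ = d * (W * γ) := by ring
      have h3 := Nat.le_of_mul_le_mul_left h2 hd
      exact_mod_cast h3
    refine ⟨qq, hqq, fun hB => ?_, ?_⟩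
    · have := hqq1 hB
      linarith only [hcost, this]
    · linarith only [hqq2, hcost]

end Pool.Agent.H92.GT
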