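import Pool.Agent.H92.GGL.WDisc

/-!
# Equations for the polynomials with a root of high multiplicity
-/

open Polynomial

noncomputable section

namespace Pool.Agent.H92.GT

section Alg

variable {A : Type*} [CommRing A]

/-- A polynomial of degree at most `r` in the coordinate `1 / (X - b)`. -/
def mob (r : ℕ) (b : A) (F : A[X]) : A[X] := reflect r (taylor b F)

/-- A combination of the derivatives. -/
def mder (m : ℕ) (s : A) (F : A[X]) : A[X] :=
  ∑ i ∈ Finset.range (m - 1), C (s ^ i) * derivative^[i + 1] F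

/-- The equations for the polynomials with a root of multiplicity at least `m`. -/
def multRes (m r : ℕ) (b s : A) (F : A[X]) : A :=
  resultant (mob r b F) (mder m s (mob r b F)) r (r - 1)

lemma mob_map {B : Type*} [CommRing B] (φ : A →+* B) (r : ℕ) (b : A) (F : A[X]) :
    (mob r b F).map φ = mob r (φ b) (F.map φ) := by
  unfold mob
  rw [← reflect_map, map_taylor]

lemma mder_map {B : Type*} [CommRing B] (φ : A →+* B) (m : ℕ) (s : A) (F : A[X]) :
    (mder m s F).map φ = mder m (φ s) (F.map φ) := by
  unfold mder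
  rw [Polynomial.map_sum]
  refine Finset.sum_congr rfl fun i _ => ?_
  rw [Polynomial.map_mul, map_C, map_pow, iterate_derivative_map]

lemma multRes_map {B : Type*} [CommRing B] (φ : A →+* B) (m r : ℕ) (b s : A) (F : A[X]) :
    multRes m r (φ b) (φ s) (F.map φ) = φ (multRes m r b s F) := by
  unfold multRes
  rw [← mob_map, ← mder_map, resultant_map_map]

lemma mob_natDegree_le {r : ℕ} (b : A) {F : A[X]} (hF : F.natDegree ≤ r) :
    (mob r b F).natDegree ≤ r := by
  unfold mob
  refine natDegree_reflect_le.trans ?_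
  rw [natDegree_taylor]
  omega

lemma mder_natDegree_le (m : ℕ) (s : A) {r : ℕ} {F : A[X]} (hF : F.natDegree ≤ r) :
    (mder m s F).natDegree ≤ r - 1 := by
  unfold mder
  refine natDegree_sum_le_of_forall_le _ _ fun i _ => ?_
  refine (natDegree_C_mul_le _ _).trans ?_
  have := natDegree_iterate_derivative F (i + 1)
  omega

lemma mob_mul {p q : ℕ} (b : A) {F G : A[X]} (hF : F.natDegree ≤ p) (hG : G.natDegree ≤ q) :
    mob (p + q) b (F * G) = mob p b F * mob q b G := by
  unfold mob
  rw [taylor_mul, reflect_mul]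
  · rwa [natDegree_taylor]
  · rwa [natDegree_taylor]

lemma mob_pow {e : ℕ} (b : A) {F : A[X]} (hF : F.natDegree ≤ e) (n : ℕ) :
    mob (e * n) b (F ^ n) = mob e b F ^ n := by
  induction n with
  | zero =>
    unfold mob
    rw [pow_zero, taylor_one, mul_zero, reflect_C, pow_zero, mul_one, C_1, pow_zero]
  | succ n ih =>
    have h1 : (F ^ n).natDegree ≤ e * n := by
      refine natDegree_pow_le.trans ?_
      rw [mul_comm e n]
      exact Nat.mul_le_mul_left _ hF
    rw [pow_succ, Nat.mul_succ, mob_mul b h1 hF, ih, pow_succ]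

lemma dvd_mder {m : ℕ} (s : A) {F q : A[X]} (h : q ^ m ∣ F) : q ∣ mder m s F := by
  unfold mder
  refine Finset.dvd_sum fun i hi => ?_
  rw [Finset.mem_range] at hi
  refine Dvd.dvd.mul_left ?_ _
  refine (dvd_pow_self q (by omega)).trans (pow_sub_dvd_iterate_derivative_of_pow_dvd (i + 1) h)

end Alg

section Fld

variable {L : Type*} [Field L]

/-- The equations hold if there is a factor of high multiplicity. -/
theorem multRes_eq_zero {m r e : ℕ} (hm : 2 ≤ m) (he : 1 ≤ e) {p H F : L[X]} (hp0 : p ≠ 0)
    (hp : p.natDegree ≤ e) (hH : H.natDegree + e * m ≤ r) (hF : F = p ^ m * H) (b s : L) :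
    multRes m r b s F = 0 := by
  have hr : r = e * m + (r - e * m) := by omega
  have hpm : (p ^ m).natDegree ≤ e * m := by
    refine natDegree_pow_le.trans ?_
    rw [mul_comm e m]
    exact Nat.mul_le_mul_left _ hp
  have hFr : F.natDegree ≤ r := by
    rw [hF]
    have := natDegree_mul_le (p := p ^ m) (q := H)
    omega
  set q := mob e b p with hq
  have hq0 : q ≠ 0 := by
    rw [hq, mob, Ne, reflect_eq_zero_iff, taylor_eq_zero]
    exact hp0
  have hmob : mob r b F = q ^ m * mob (r - e * m) b H := by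
    rw [hF, hq, ← mob_pow b hp]
    conv_lhs => rw [hr]
    exact mob_mul b hpm (by omega)
  have hdvd : q ^ m ∣ mob r b F := by
    rw [hmob]
    exact dvd_mul_right _ _
  have hem : 2 ≤ e * m := by nlinarith
  by_cases hqd : q.natDegree = 0
  · have h1 : (mob r b F).natDegree ≤ r - e * m := by
      rw [hmob]
      refine natDegree_mul_le.trans ?_
      have h2 := natDegree_pow_le (p := q) (n := m)
      rw [hqd, mul_zero] at h2
      have h3 := mob_natDegree_le (r := r - e * m) b (F := H) (by omega)
      omega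
    have h2 := mder_natDegree_le m s h1
    unfold multRes
    exact resultant_eq_zero_of_lt_lt _ _ _ _ (by omega) (by omega)
  · by_contra hne
    obtain ⟨u, v, -, -, huv⟩ := exists_mul_add_mul_eq_C_resultant (mob r b F)
      (mder m s (mob r b F)) (mob_natDegree_le b hFr)
      (mder_natDegree_le m s (mob_natDegree_le b hFr)) (Or.inl (by omega))
    have h1 : q ∣ C (multRes m r b s F) := by
      unfold multRes
      rw [← huv]
      refine dvd_add (Dvd.dvd.mul_right ?_ _) (Dvd.dvd.mul_right (dvd_mder s hdvd) _)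
      exact (dvd_pow_self q (by omega)).trans hdvd
    have h2 := natDegree_eq_zero_of_isUnit
      (isUnit_of_dvd_unit h1 (isUnit_C.mpr (isUnit_iff_ne_zero.mpr hne)))
    exact hqd h2

end Fld

/-- The converse over the complex numbers. -/
theorem exists_root_of_multRes {m r : ℕ} (hm : 2 ≤ m) {F : ℂ[X]} (hF0 : F ≠ 0)
    (hF : F.natDegree ≤ r) (hr : 1 ≤ r) (h : ∀ b s : ℂ, multRes m r b s F = 0) :
    ∃ (a b : ℂ) (H : ℂ[X]), (a ≠ 0 ∨ b ≠ 0) ∧ H.natDegree + m ≤ r ∧
      F = (C a + C b * X) ^ m * H := by
  classical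
  -- a point which is not a root
  obtain ⟨b, hb⟩ : ∃ b : ℂ, F.eval b ≠ 0 := by
    by_contra hcon
    push Not at hcon
    exact hF0 (Polynomial.funext fun x => by rw [hcon x, eval_zero])
  set P := mob r b F with hP
  have hPr : P.coeff r = F.eval b := by
    rw [hP, mob, coeff_reflect, revAt_le le_rfl, Nat.sub_self, taylor_coeff_zero]
  have hPdeg : P.natDegree = r := by
    refine le_antisymm (mob_natDegree_le b hF) (le_natDegree_of_ne_zero ?_)
    rwa [hPr]
  have hP0 : P ≠ 0 := by
    intro h0
    rw [h0, coeff_zero] at hPr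
    exact hb hPr.symm
  -- common roots
  have hroot : ∀ s : ℂ, ∃ α ∈ P.roots.toFinset, (mder m s P).eval α = 0 := by
    intro s
    have h1 : multRes m r b s F = 0 := h b s
    unfold multRes at h1
    rw [← hP] at h1
    have h2 : (mder m s P).natDegree ≤ r - 1 := mder_natDegree_le m s hPdeg.le
    obtain ⟨k, hk⟩ := Nat.exists_eq_add_of_le h2
    rw [hk, resultant_add_right_deg _ _ _ _ _ le_rfl, hPr] at h1
    have h3 := (mul_eq_zero.mp h1).resolve_left (pow_ne_zero _ hb)
    conv_lhs at h3 => rw [← hPdeg]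
    rw [resultant_eq_zero_iff] at h3
    have h4 := h3.2
    by_cases hQ0 : mder m s P = 0
    · obtain ⟨α, hα⟩ := IsAlgClosed.exists_root P (by
        rw [degree_eq_natDegree hP0, hPdeg]
        exact_mod_cast (by omega : r ≠ 0))
      refine ⟨α, ?_, by rw [hQ0, eval_zero]⟩
      rw [Multiset.mem_toFinset, mem_roots hP0]
      exact hα
    · obtain ⟨p, hp, hp1, hp2⟩ : ∃ p : ℂ[X], Irreducible p ∧ p ∣ P ∧ p ∣ mder m s P := by
        by_contra hcon
        push Not at hcon
        exact h4 ((UniqueFactorizationMonoid.isRelPrime_iff_no_prime_factors hP0).mpr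
          (fun {p} h5 h6 h7 => hcon p h7.irreducible h5 h6)).isCoprime
      obtain ⟨α, hα⟩ := IsAlgClosed.exists_root p (by
        have h5 := hp.degree_pos
        exact h5.ne')
      refine ⟨α, ?_, ?_⟩
      · rw [Multiset.mem_toFinset, mem_roots hP0]
        exact hα.dvd hp1
      · exact hα.dvd hp2
  choose α hα hα' using hroot
  obtain ⟨α₀, hα₀mem, hα₀⟩ : ∃ α₀ ∈ P.roots.toFinset, {s : ℂ | α s = α₀}.Infinite := by
    by_contra hcon
    push Not at hcon
    have h1 : (Set.univ : Set ℂ) ⊆ ⋃ α₀ ∈ P.roots.toFinset, {s : ℂ | α s = α₀} := by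
      intro s _
      exact Set.mem_biUnion (hα s) rfl
    have h2 : (⋃ α₀ ∈ P.roots.toFinset, {s : ℂ | α s = α₀}).Finite :=
      Set.Finite.biUnion P.roots.toFinset.finite_toSet fun α₀ h => hcon α₀ h
    exact Set.infinite_univ (h2.subset h1)
  have hPα : P.eval α₀ = 0 := by
    rw [Multiset.mem_toFinset, mem_roots hP0] at hα₀mem
    exact hα₀mem
  -- the derivatives vanish
  set R : ℂ[X] := ∑ i ∈ Finset.range (m - 1), C ((derivative^[i + 1] P).eval α₀) * X ^ i with hR
  have hR0 : R = 0 := by
    refine eq_zero_of_infinite_isRoot R (hα₀.mono ?_)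
    intro s hs
    have h1 := hα' s
    have h2 : α s = α₀ := hs
    rw [h2, mder, eval_finsetSum] at h1
    change R.eval s = 0
    rw [hR, eval_finsetSum, ← h1]
    refine Finset.sum_congr rfl fun i _ => ?_
    rw [eval_mul, eval_mul, eval_C, eval_C, eval_pow, eval_X, mul_comm]
  have hder : ∀ i < m, (derivative^[i] P).eval α₀ = 0 := by
    intro i hi
    rcases Nat.eq_zero_or_pos i with h0 | h0
    · rw [h0]
      exact hPα
    · have h1 := congrArg (fun Q : ℂ[X] => Q.coeff (i - 1)) hR0
      simp only [hR, finsetSum_coeff, coeff_C_mul, coeff_X_pow, coeff_zero, mul_ite, mul_one,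
        mul_zero] at h1
      rw [Finset.sum_ite_eq, if_pos (Finset.mem_range.mpr (by omega))] at h1
      rwa [show i - 1 + 1 = i by omega] at h1
  have hmult : (X - C α₀) ^ m ∣ P := by
    have h1 : m - 1 < P.rootMultiplicity α₀ :=
      lt_rootMultiplicity_of_isRoot_iterate_derivative hP0 fun i hi => hder i (by omega)
    exact (pow_dvd_pow _ (by omega)).trans (P.pow_rootMultiplicity_dvd α₀)
  obtain ⟨H, hH⟩ := hmult
  have hH0 : H ≠ 0 := by
    rintro rfl
    rw [mul_zero] at hH
    exact hP0 hH
  have hHdeg : m + H.natDegree = r := by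
    rw [← hPdeg, hH, natDegree_mul (pow_ne_zero _ (X_sub_C_ne_zero α₀)) hH0, natDegree_pow,
      natDegree_X_sub_C, mul_one]
  -- go back
  have hback : F = taylor (-b) (reflect r P) := by
    rw [hP, mob, reflect_reflect, taylor_taylor, neg_add_cancel, taylor_zero]
  have href : reflect r P = (C 1 + C (-α₀) * X) ^ m * reflect (r - m) H := by
    have h1 : r = 1 * m + (r - m) := by omega
    conv_lhs => rw [h1, hH]
    rw [reflect_mul _ _ _ (by omega)]
    · have h2 := mob_pow (0 : ℂ) (e := 1) (F := X - C α₀) (natDegree_X_sub_C_le α₀) m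
      unfold mob at h2
      rw [taylor_zero, taylor_zero] at h2
      rw [h2]
      congr 2
      rw [reflect_sub, reflect_one_X, reflect_C, pow_one, C_neg, C_1]
      ring
    · rw [natDegree_pow, natDegree_X_sub_C, mul_comm]
  refine ⟨1 + α₀ * b, -α₀, taylor (-b) (reflect (r - m) H), ?_, ?_, ?_⟩
  · by_cases h0 : α₀ = 0
    · left
      rw [h0, zero_mul, add_zero]
      exact one_ne_zero
    · right
      exact neg_ne_zero.mpr h0
  · rw [natDegree_taylor]
    have := natDegree_reflect_le (N := r - m) (p := H)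
    omega
  · conv_lhs => rw [hback, href]
    rw [taylor_mul, taylor_pow]
    congr 2
    rw [map_add, taylor_C, taylor_mul, taylor_C, taylor_X]
    rw [C_neg, C_neg, C_add, C_mul, C_1]
    ring

section Homog

variable {σ : Type*} {w : σ → ℕ} {d : ℕ}

lemma resultant_isWeightedHomogeneous {p q : ℕ} {P Q : (MvPolynomial σ ℂ)[X]}
    (hP : ∀ k, MvPolynomial.IsWeightedHomogeneous w (P.coeff k) d)
    (hQ : ∀ k, MvPolynomial.IsWeightedHomogeneous w (Q.coeff k) d) :
    MvPolynomial.IsWeightedHomogeneous w (resultant P Q p q) ((p + q) * d) := by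
  unfold resultant
  rw [Matrix.det_apply]
  refine MvPolynomial.IsWeightedHomogeneous.sum _ _ _ fun σ _ => ?_
  have h1 : MvPolynomial.IsWeightedHomogeneous w
      (∏ i, sylvester P Q p q (σ i) i) (∑ _i : Fin (p + q), d) := by
    refine MvPolynomial.IsWeightedHomogeneous.prod _ _ _ fun i _ => ?_
    unfold sylvester
    rw [Matrix.of_apply]
    induction i using Fin.addCases with
    | left i =>
      rw [Fin.addCases_left]
      split_ifs
      · exact hQ _
      · exact MvPolynomial.isWeightedHomogeneous_zero _ _ _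
    | right i =>
      rw [Fin.addCases_right]
      split_ifs
      · exact hP _
      · exact MvPolynomial.isWeightedHomogeneous_zero _ _ _
  rw [Finset.sum_const, Finset.card_univ, Fintype.card_fin, smul_eq_mul] at h1
  rcases Int.units_eq_one_or (Equiv.Perm.sign σ) with h | h
  · rw [h, one_smul]
    exact h1
  · rw [h, Units.neg_smul, one_smul]
    exact h1.neg

lemma C_mul_isWeightedHomogeneous (c : ℂ) {P : MvPolynomial σ ℂ}
    (hP : MvPolynomial.IsWeightedHomogeneous w P d) :
    MvPolynomial.IsWeightedHomogeneous w (MvPolynomial.C c * P) d := by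
  have h := (MvPolynomial.isWeightedHomogeneous_C w c).mul hP
  rwa [zero_add] at h

lemma natCast_mul_isWeightedHomogeneous (n : ℕ) {P : MvPolynomial σ ℂ}
    (hP : MvPolynomial.IsWeightedHomogeneous w P d) :
    MvPolynomial.IsWeightedHomogeneous w ((n : MvPolynomial σ ℂ) * P) d := by
  have h := C_mul_isWeightedHomogeneous (n : ℂ) hP
  rwa [map_natCast] at h

lemma mob_isWeightedHomogeneous {F : (MvPolynomial σ ℂ)[X]}
    (hF : ∀ k, MvPolynomial.IsWeightedHomogeneous w (F.coeff k) d) (r : ℕ) (b : ℂ) (k : ℕ) :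
    MvPolynomial.IsWeightedHomogeneous w ((mob r (MvPolynomial.C b) F).coeff k) d := by
  unfold mob
  rw [coeff_reflect, taylor_coeff, eval_eq_sum_range]
  refine MvPolynomial.IsWeightedHomogeneous.sum _ _ _ fun i _ => ?_
  rw [hasseDeriv_coeff, ← map_pow, mul_comm]
  exact C_mul_isWeightedHomogeneous _ (natCast_mul_isWeightedHomogeneous _ (hF _))

lemma mder_isWeightedHomogeneous {F : (MvPolynomial σ ℂ)[X]}
    (hF : ∀ k, MvPolynomial.IsWeightedHomogeneous w (F.coeff k) d) (m : ℕ) (s : ℂ) (k : ℕ) :
    MvPolynomial.IsWeightedHomogeneous w ((mder m (MvPolynomial.C s) F).coeff k) d := by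
  unfold mder
  rw [finsetSum_coeff]
  refine MvPolynomial.IsWeightedHomogeneous.sum _ _ _ fun i _ => ?_
  rw [coeff_C_mul, ← map_pow, coeff_iterate_derivative, nsmul_eq_mul]
  exact C_mul_isWeightedHomogeneous _ (natCast_mul_isWeightedHomogeneous _ (hF _))

/-- The equations are weighted homogeneous. -/
theorem multRes_isWeightedHomogeneous {F : (MvPolynomial σ ℂ)[X]}
    (hF : ∀ k, MvPolynomial.IsWeightedHomogeneous w (F.coeff k) d) (m r : ℕ) (b s : ℂ) :
    MvPolynomial.IsWeightedHomogeneous w
      (multRes m r (MvPolynomial.C b) (MvPolynomial.C s) F) ((r + (r - 1)) * d) := by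
  unfold multRes
  exact resultant_isWeightedHomogeneous (mob_isWeightedHomogeneous hF r b)
    (mder_isWeightedHomogeneous (mob_isWeightedHomogeneous hF r b) m s)

end Homog

end Pool.Agent.H92.GT
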