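import Pool.Agent.H92.GT.ValRes

/-!
# The denominators
-/

open Polynomial

noncomputable section

namespace Pool.Agent.H92.GT

variable {K : Type} [Field K] [Algebra ℂ K] {ι T : Type} [Fintype ι] [Fintype T] [DecidableEq ι]

/-- The nodes of a block. -/
abbrev nd (β : T → Option ι) (l : Option ι) : Finset T := Finset.univ.filter fun i => β i = l

/-- The indices of the non-zero coordinates. -/
def nz {N : ℕ} (x : Fin (N + 1) → K) : Finset (Fin (N + 1)) := by
  classical exact Finset.univ.filter fun j => x j ≠ 0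

omit [Algebra ℂ K] in
lemma mem_nz {N : ℕ} {x : Fin (N + 1) → K} {j : Fin (N + 1)} : j ∈ nz x ↔ x j ≠ 0 := by
  simp [nz]

/-- The denominator. -/
def denom {N : ℕ} (r d : ℕ) (x : Fin (N + 1) → K) (β : T → Option ι) (k : ι → ℕ) (y : ι → K)
    (F : K[X]) (τ : T → ℂ) : K :=
  (∏ j ∈ nz x, x j ^ (d - 1)) * (∏ l, y l ^ (k l - min r (nd β (some l)).card)) *
    ∏ i ∈ nd β none, F.eval (algebraMap ℂ K (τ i))

/-- The weight of the denominator. -/
def denomWt {N : ℕ} (r d : ℕ) (x : Fin (N + 1) → K) (β : T → Option ι) (k e : ι → ℕ) : ℕ :=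
  (d - 1) * (nz x).card + ∑ l, e l * (k l - min r (nd β (some l)).card) + d * (nd β none).card

/-- The set of the nodes. -/
def nodeSet {N : ℕ} (x : Fin (N + 1) → K) (t : Fin (N + 1) → ℂ) (τ : T → ℂ) : Finset ℂ :=
  (nz x).image t ∪ Finset.univ.image τ

omit [Algebra ℂ K] [Fintype ι] [DecidableEq ι] in
lemma sum_nodeSet {N : ℕ} {x : Fin (N + 1) → K} {t : Fin (N + 1) → ℂ} {τ : T → ℂ}
    (hinj : Function.Injective (Sum.elim t τ)) (g : ℂ → ℤ) :
    ∑ w ∈ nodeSet x t τ, g w = ∑ j ∈ nz x, g (t j) + ∑ i, g (τ i) := by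
  classical
  rw [nodeSet, Finset.sum_union, Finset.sum_image, Finset.sum_image]
  · intro i _ i' _ h
    have := @hinj (Sum.inr i) (Sum.inr i') (by simpa using h)
    simpa using this
  · intro i _ i' _ h
    have := @hinj (Sum.inl i) (Sum.inl i') (by simpa using h)
    simpa using this
  · rw [Finset.disjoint_left]
    intro w hw hw'
    obtain ⟨j, -, rfl⟩ := Finset.mem_image.mp hw
    obtain ⟨i, -, hi⟩ := Finset.mem_image.mp hw'
    have := @hinj (Sum.inr i) (Sum.inl j) (by simpa using hi)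
    simp at this

lemma sum_blocks (β : T → Option ι) (g : T → ℤ) :
    ∑ i, g i = ∑ i ∈ nd β none, g i + ∑ l, ∑ i ∈ nd β (some l), g i := by
  rw [← Finset.sum_fiberwise Finset.univ β g, Fintype.sum_option]

lemma denom_ne_zero {N r d : ℕ} {x : Fin (N + 1) → K} {β : T → Option ι} {k : ι → ℕ} {y : ι → K}
    {F : K[X]} {τ : T → ℂ} (hy0 : ∀ l, y l ≠ 0)
    (hFτ : ∀ i, F.eval (algebraMap ℂ K (τ i)) ≠ 0) : denom r d x β k y F τ ≠ 0 := by
  unfold denom
  refine mul_ne_zero (mul_ne_zero ?_ ?_) ?_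
  · exact Finset.prod_ne_zero_iff.mpr fun j hj => pow_ne_zero _ (mem_nz.mp hj)
  · exact Finset.prod_ne_zero_iff.mpr fun l _ => pow_ne_zero _ (hy0 l)
  · exact Finset.prod_ne_zero_iff.mpr fun i _ => hFτ i

/-- The order of the denominator. -/
theorem denom_order {v : AddValuation K (WithTop ℤ)} {N r d : ℕ} (hd : 0 < d)
    {x : Fin (N + 1) → K} {t : Fin (N + 1) → ℂ} {τ : T → ℂ}
    (hinj : Function.Injective (Sum.elim t τ)) {β : T → Option ι} {k e : ι → ℕ}
    (hk : ∀ l, 1 ≤ k l) (hke : ∀ l, k l * e l = d * (nd β (some l)).card) {F : K[X]}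
    (hFx : ∀ j, F.eval (algebraMap ℂ K (t j)) = x j ^ d) {y : ι → K} (hy0 : ∀ l, y l ≠ 0)
    (hy : ∀ l, y l ^ k l = ∏ i ∈ nd β (some l), F.eval (algebraMap ℂ K (τ i)))
    {s : K} (hs : s ≠ 0) (hxs : ∀ j, 0 ≤ v (x j * s)) {o : ℂ → ℤ}
    (ho : ∀ w ∈ nodeSet x t τ, v (F.eval (algebraMap ℂ K w) * s ^ d) = ((o w : ℤ) : WithTop ℤ))
    (ho0 : ∀ w ∈ nodeSet x t τ, 0 ≤ o w)
    (hlarge : ∀ S' ⊆ nodeSet x t τ, (∀ w ∈ S', 0 < o w) → S'.card ≤ r)
    {Bd : Prop} (hO : ¬ Bd → ∀ i ∈ nd β none, o (τ i) = 0) :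
    (¬ Bd → v (denom r d x β k y F τ * s ^ denomWt r d x β k e) ≤
      ((∑ w ∈ nodeSet x t τ, max (o w - 1) 0 : ℤ) : WithTop ℤ)) ∧
    v (denom r d x β k y F τ * s ^ denomWt r d x β k e) ≤
      ((∑ w ∈ nodeSet x t τ, o w : ℤ) : WithTop ℤ) := by
  classical
  have hmt : ∀ j ∈ nz x, t j ∈ nodeSet x t τ := fun j hj =>
    Finset.mem_union_left _ (Finset.mem_image_of_mem _ hj)
  have hmτ : ∀ i, τ i ∈ nodeSet x t τ := fun i =>
    Finset.mem_union_right _ (Finset.mem_image_of_mem _ (Finset.mem_univ i))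
  have hint : ∀ g : K, ∃ n : ℤ, g ≠ 0 → v g = ((n : ℤ) : WithTop ℤ) := by
    intro g
    induction hx : v g using WithTop.recTopCoe with
    | top => exact ⟨0, fun h => absurd (v.top_iff.mp hx) h⟩
    | coe c => exact ⟨c, fun _ => rfl⟩
  choose ν hν using hint
  set a : Fin (N + 1) → ℤ := fun j => ν (x j * s) with ha
  set b : ι → ℤ := fun l => ν (y l * s ^ e l) with hb
  have hva : ∀ j ∈ nz x, v (x j * s) = ((a j : ℤ) : WithTop ℤ) := fun j hj =>
    hν _ (mul_ne_zero (mem_nz.mp hj) hs)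
  have hvb : ∀ l, v (y l * s ^ e l) = ((b l : ℤ) : WithTop ℤ) := fun l =>
    hν _ (mul_ne_zero (hy0 l) (pow_ne_zero _ hs))
  have ha0 : ∀ j ∈ nz x, 0 ≤ a j := by
    intro j hj
    have h1 := hxs j
    rw [hva j hj] at h1
    exact_mod_cast h1
  have hcsum : ∀ {α : Type} (S : Finset α) (f : α → ℤ),
      ((∑ i ∈ S, f i : ℤ) : WithTop ℤ) = ∑ i ∈ S, ((f i : ℤ) : WithTop ℤ) := by
    intro α S f
    induction S using Finset.induction_on with
    | empty => simp
    | insert i S hi ih => rw [Finset.sum_insert hi, Finset.sum_insert hi, WithTop.coe_add, ih]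
  have hvprod : ∀ {α : Type} (S : Finset α) (f : α → K),
      v (∏ i ∈ S, f i) = ∑ i ∈ S, v (f i) := by
    intro α S f
    induction S using Finset.induction_on with
    | empty => simp
    | insert i S hi ih => rw [Finset.prod_insert hi, Finset.sum_insert hi, v.map_mul, ih]
  have hvpow : ∀ (g : K) (n : ℕ) (c : ℤ), v g = ((c : ℤ) : WithTop ℤ) →
      v (g ^ n) = ((n * c : ℤ) : WithTop ℤ) := by
    intro g n c hg
    rw [v.map_pow, hg]
    induction n with
    | zero => simp
    | succ n ih =>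
      rw [succ_nsmul, ih]
      have : ((n * c + c : ℤ) : WithTop ℤ) = (((n + 1 : ℕ) * c : ℤ) : WithTop ℤ) := by
        congr 1
        push_cast
        ring
      rw [← this, WithTop.coe_add]
  -- the orders at the first nodes
  have hot : ∀ j ∈ nz x, o (t j) = d * a j := by
    intro j hj
    have h1 := ho _ (hmt j hj)
    rw [hFx, ← mul_pow, hvpow _ d _ (hva j hj)] at h1
    exact_mod_cast h1.symm
  -- the orders in the blocks
  have hob : ∀ l, k l * b l = ∑ i ∈ nd β (some l), o (τ i) := by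
    intro l
    have h1 : (y l * s ^ e l) ^ k l =
        ∏ i ∈ nd β (some l), (F.eval (algebraMap ℂ K (τ i)) * s ^ d) := by
      rw [Finset.prod_mul_distrib, Finset.prod_const, mul_pow, hy l, ← pow_mul, ← pow_mul,
        mul_comm (e l) (k l), hke]
    have h2 := congrArg v h1
    rw [hvpow _ (k l) _ (hvb l), hvprod, Finset.sum_congr rfl fun i _ => ho _ (hmτ i),
      ← hcsum] at h2
    exact_mod_cast h2
  have hb0 : ∀ l, 0 ≤ b l := by
    intro l
    have h1 : (0 : ℤ) ≤ ∑ i ∈ nd β (some l), o (τ i) :=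
      Finset.sum_nonneg fun i _ => ho0 _ (hmτ i)
    rw [← hob l] at h1
    have h2 : (0 : ℤ) < k l := by exact_mod_cast (hk l)
    exact nonneg_of_mul_nonneg_right h1 h2
  -- the order of the denominator
  set m : ι → ℕ := fun l => min r (nd β (some l)).card with hm
  have hfac : denom r d x β k y F τ * s ^ denomWt r d x β k e =
      (∏ j ∈ nz x, (x j * s) ^ (d - 1)) * (∏ l, (y l * s ^ e l) ^ (k l - m l)) *
      ∏ i ∈ nd β none, (F.eval (algebraMap ℂ K (τ i)) * s ^ d) := by
    have h1 : ∏ j ∈ nz x, (x j * s) ^ (d - 1) =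
        (∏ j ∈ nz x, x j ^ (d - 1)) * s ^ ((d - 1) * (nz x).card) := by
      rw [Finset.prod_congr rfl fun j _ => mul_pow (x j) s (d - 1), Finset.prod_mul_distrib,
        Finset.prod_const, ← pow_mul]
    have h2 : ∏ l, (y l * s ^ e l) ^ (k l - m l) =
        (∏ l, y l ^ (k l - m l)) * s ^ (∑ l, e l * (k l - m l)) := by
      rw [Finset.prod_congr rfl fun l _ => mul_pow (y l) (s ^ e l) (k l - m l),
        Finset.prod_mul_distrib, Finset.prod_congr rfl fun l _ => (pow_mul s (e l) (k l - m l)).symm,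
        Finset.prod_pow_eq_pow_sum]
    have h3 : ∏ i ∈ nd β none, (F.eval (algebraMap ℂ K (τ i)) * s ^ d) =
        (∏ i ∈ nd β none, F.eval (algebraMap ℂ K (τ i))) * s ^ (d * (nd β none).card) := by
      rw [Finset.prod_mul_distrib, Finset.prod_const, ← pow_mul]
    rw [h1, h2, h3, denom, denomWt, pow_add, pow_add]
    ring
  have hord : v (denom r d x β k y F τ * s ^ denomWt r d x β k e) =
      ((∑ j ∈ nz x, ((d - 1 : ℕ) : ℤ) * a j + ∑ l, ((k l - m l : ℕ) : ℤ) * b l +
        ∑ i ∈ nd β none, o (τ i) : ℤ) : WithTop ℤ) := by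
    rw [hfac, v.map_mul, v.map_mul, hvprod, hvprod, hvprod, WithTop.coe_add, WithTop.coe_add, hcsum,
      hcsum, hcsum, Finset.sum_congr rfl fun j hj => hvpow _ (d - 1) _ (hva j hj),
      Finset.sum_congr rfl fun l _ => hvpow _ (k l - m l) _ (hvb l),
      Finset.sum_congr rfl fun i _ => ho _ (hmτ i)]
  rw [hord, sum_nodeSet hinj, sum_nodeSet hinj, sum_blocks β fun i => max (o (τ i) - 1) 0,
    sum_blocks β fun i => o (τ i)]
  -- estimates
  have he1 : ∑ j ∈ nz x, ((d - 1 : ℕ) : ℤ) * a j ≤ ∑ j ∈ nz x, max (o (t j) - 1) 0 := by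
    refine Finset.sum_le_sum fun j hj => ?_
    rw [hot j hj, Nat.cast_sub hd]
    have h1 := ha0 j hj
    rcases eq_or_lt_of_le h1 with h2 | h2
    · rw [← h2, mul_zero]
      exact le_max_right _ _
    · refine le_trans ?_ (le_max_left _ _)
      push_cast
      nlinarith
  have he2 : ∀ l, ((k l - m l : ℕ) : ℤ) * b l ≤ ∑ i ∈ nd β (some l), max (o (τ i) - 1) 0 := by
    intro l
    rcases eq_or_lt_of_le (hb0 l) with h2 | h2
    · rw [← h2, mul_zero]
      exact Finset.sum_nonneg fun i _ => le_max_right _ _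
    · -- the number of the nodes of positive order
      set S' := (nd β (some l)).filter fun i => 0 < o (τ i) with hS'
      have hcard : S'.card ≤ m l := by
        rw [hm]
        refine le_min ?_ (Finset.card_filter_le _ _)
        have h3 := hlarge (S'.image τ) (fun w hw => by
          obtain ⟨i, -, rfl⟩ := Finset.mem_image.mp hw
          exact hmτ i) (fun w hw => by
          obtain ⟨i, hi, rfl⟩ := Finset.mem_image.mp hw
          exact (Finset.mem_filter.mp hi).2)
        rwa [Finset.card_image_of_injOn] at h3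
        intro i _ i' _ h
        have := @hinj (Sum.inr i) (Sum.inr i') (by simpa using h)
        simpa using this
      have h4 : ∑ i ∈ nd β (some l), max (o (τ i) - 1) 0 =
          ∑ i ∈ nd β (some l), o (τ i) - S'.card := by
        have h5 : ∀ i ∈ nd β (some l), max (o (τ i) - 1) 0 =
            o (τ i) - if 0 < o (τ i) then 1 else 0 := by
          intro i _
          have := ho0 _ (hmτ i)
          split_ifs with h
          · omega
          · omega
        rw [Finset.sum_congr rfl h5, Finset.sum_sub_distrib, ← Finset.sum_filter,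
          Finset.sum_const, nsmul_eq_mul, mul_one]
      rw [h4, ← hob l]
      have h6 : (S'.card : ℤ) ≤ m l := by exact_mod_cast hcard
      have h7 : (0 : ℤ) ≤ ((k l : ℤ) * b l - S'.card) := by
        rw [hob l, ← h4]
        exact Finset.sum_nonneg fun i _ => le_max_right _ _
      rcases le_total (k l) (m l) with h8 | h8
      · rw [Nat.sub_eq_zero_of_le h8, Nat.cast_zero, zero_mul]
        exact h7
      · rw [Nat.cast_sub h8]
        have h9 : (0 : ℤ) ≤ m l := Nat.cast_nonneg _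
        nlinarith
  have he3 : ∀ l, ∑ i ∈ nd β (some l), max (o (τ i) - 1) 0 ≤ ∑ i ∈ nd β (some l), o (τ i) := by
    intro l
    refine Finset.sum_le_sum fun i _ => ?_
    have := ho0 _ (hmτ i)
    omega
  have he4 : ∑ j ∈ nz x, max (o (t j) - 1) 0 ≤ ∑ j ∈ nz x, o (t j) := by
    refine Finset.sum_le_sum fun j hj => ?_
    have := ho0 _ (hmt j hj)
    omega
  have he5 : ∑ l, ((k l - m l : ℕ) : ℤ) * b l ≤
      ∑ l, ∑ i ∈ nd β (some l), max (o (τ i) - 1) 0 := Finset.sum_le_sum fun l _ => he2 l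
  have he6 : ∑ l, ∑ i ∈ nd β (some l), max (o (τ i) - 1) 0 ≤
      ∑ l, ∑ i ∈ nd β (some l), o (τ i) := Finset.sum_le_sum fun l _ => he3 l
  constructor
  · intro hB
    have h1 : ∑ i ∈ nd β none, o (τ i) = 0 := Finset.sum_eq_zero fun i hi => hO hB i hi
    have h2 : (0 : ℤ) ≤ ∑ i ∈ nd β none, max (o (τ i) - 1) 0 :=
      Finset.sum_nonneg fun i _ => le_max_right _ _
    exact_mod_cast (by linarith)
  · exact_mod_cast (by linarith)

end Pool.Agent.H92.GT
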