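import Pool.Agent.H92.GT.Roots

/-!
# The top-dimensional case
-/

open Polynomial
open Pool.Agent.H23 (RatForm regularForms PrimeDivisorOver dualDer dualDer_apply)
open Pool.Agent.H17LG (IsLogGeneralType)

noncomputable section

namespace Pool.Agent.H92.GT

variable {K : Type} [Field K] [Algebra ℂ K] {k : ℕ}

/-- The matrix of the values of functions and their derivatives. -/
def wm (D : Fin (k + 1) → Derivation ℂ K K) (f : Fin (k + 2) → K) :
    Matrix (Fin (k + 2)) (Fin (k + 2)) K :=
  Matrix.of fun i m => Fin.cases (motive := fun _ => K) (f m) (fun a => D a (f m)) i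

lemma wm_zero (D : Fin (k + 1) → Derivation ℂ K K) (f : Fin (k + 2) → K) (m : Fin (k + 2)) :
    wm D f 0 m = f m := rfl

lemma wm_succ (D : Fin (k + 1) → Derivation ℂ K K) (f : Fin (k + 2) → K) (a : Fin (k + 1))
    (m : Fin (k + 2)) : wm D f a.succ m = D a (f m) := rfl

/-- Linear combinations with constant coefficients. -/
lemma wm_mul (D : Fin (k + 1) → Derivation ℂ K K) (f : Fin (k + 2) → K)
    (V : Matrix (Fin (k + 2)) (Fin (k + 2)) ℂ) :
    wm D (fun b => ∑ m, f m * algebraMap ℂ K (V b m)) =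
      wm D f * (V.map (algebraMap ℂ K)).transpose := by
  ext i b
  rw [Matrix.mul_apply]
  refine Fin.cases ?_ (fun a => ?_) i
  · rw [wm_zero]
    rfl
  · rw [wm_succ, map_sum]
    refine Finset.sum_congr rfl fun m _ => ?_
    rw [(D a).leibniz, (D a).map_algebraMap, smul_zero, zero_add, smul_eq_mul, mul_comm]
    rfl

/-- Change of coordinates and scaling. -/
lemma wm_local (b bE : Module.Basis (Fin (k + 1)) K Ω[K⁄ℂ]) (h : K) (f : Fin (k + 2) → K) :
    (wm (fun i => dualDer bE i) fun m => h * f m).det =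
      h ^ (k + 2) * (bE.toMatrix b).det * (wm (fun i => dualDer b i) f).det := by
  set R : Matrix (Fin (k + 2)) (Fin (k + 2)) K := Matrix.of fun i j =>
    Fin.cases (motive := fun _ => K) (Fin.cases (motive := fun _ => K) h (fun _ => 0) j)
      (fun i' => Fin.cases (motive := fun _ => K) (dualDer bE i' h)
        (fun a => h * bE.toMatrix b i' a) j) i with hR
  have hR00 : R 0 0 = h := rfl
  have hR0s : ∀ a : Fin (k + 1), R 0 a.succ = 0 := fun a => rfl
  have hRs0 : ∀ a : Fin (k + 1), R a.succ 0 = dualDer bE a h := fun a => rfl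
  have hRss : ∀ i a : Fin (k + 1), R i.succ a.succ = h * bE.toMatrix b i a := fun i a => rfl
  have h1 : (wm (fun i => dualDer bE i) fun m => h * f m) = R * wm (fun i => dualDer b i) f := by
    ext i m
    rw [Matrix.mul_apply, Fin.sum_univ_succ]
    refine Fin.cases ?_ (fun a => ?_) i
    · rw [wm_zero, wm_zero, hR00]
      simp only [hR0s, zero_mul, Finset.sum_const_zero, add_zero]
    · rw [wm_succ, wm_zero, hRs0]
      simp only [hRss, wm_succ]
      have h2 : KaehlerDifferential.D ℂ K (f m) = ∑ j, dualDer b j (f m) • b j := by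
        conv_lhs => rw [← b.sum_repr (KaehlerDifferential.D ℂ K (f m))]
        rfl
      have h3 : dualDer bE a (f m) = ∑ j, bE.toMatrix b a j * dualDer b j (f m) := by
        rw [dualDer_apply, h2, map_sum, Finsupp.finsetSum_apply]
        refine Finset.sum_congr rfl fun j _ => ?_
        rw [map_smul, Finsupp.smul_apply, smul_eq_mul, mul_comm]
        rfl
      rw [(dualDer bE a).leibniz, smul_eq_mul, smul_eq_mul, h3, Finset.mul_sum, add_comm]
      congr 1
      · ring
      · exact Finset.sum_congr rfl fun j _ => by ring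
  have h2 : R.det = h ^ (k + 2) * (bE.toMatrix b).det := by
    rw [Matrix.det_succ_row_zero, Fin.sum_univ_succ]
    simp only [hR0s, mul_zero, zero_mul, Finset.sum_const_zero, add_zero, Fin.val_zero, pow_zero,
      one_mul, hR00]
    have h3 : R.submatrix Fin.succ (Fin.succAbove 0) = h • bE.toMatrix b := by
      ext i a
      rw [Matrix.submatrix_apply, Fin.succAbove_zero, hRss]
      rfl
    rw [h3, Matrix.det_smul, Fintype.card_fin]
    ring
  rw [h1, Matrix.det_mul, h2]

lemma der_sum_apply {ι : Type*} (S : Finset ι) (D : ι → Derivation ℂ K K) (g : K) :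
    (∑ i ∈ S, D i) g = ∑ i ∈ S, D i g := by
  classical
  induction S using Finset.induction_on with
  | empty => simp
  | insert a S ha ih => rw [Finset.sum_insert ha, Finset.sum_insert ha, Derivation.add_apply, ih]

lemma eval_eq_sum_fin {n : ℕ} {F : K[X]} (hFdeg : F.natDegree ≤ n) (w : ℂ) :
    F.eval (algebraMap ℂ K w) = ∑ m : Fin (n + 1), F.coeff m * algebraMap ℂ K (w ^ (m : ℕ)) := by
  rw [eval_eq_sum_range' (show F.natDegree < n + 1 by omega), ← Fin.sum_univ_eq_sum_range
    (fun m => F.coeff m * algebraMap ℂ K w ^ m)]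
  exact Finset.sum_congr rfl fun m _ => by rw [map_pow]

/-- The coefficients and their derivatives are independent. -/
lemma coeff_indep {N : ℕ} {x : Fin (N + 1) → K} {j₀ : Fin (N + 1)} (hj₀ : x j₀ = 1)
    {J : Fin (k + 1) → Fin (N + 1)} {b : Module.Basis (Fin (k + 1)) K Ω[K⁄ℂ]}
    (hb : ∀ i, b i = KaehlerDifferential.D ℂ K (x (J i)))
    {d : ℕ} (hd : 0 < d) {t : Fin (N + 1) → ℂ} {n : ℕ} {F : K[X]} (hFdeg : F.natDegree ≤ n)
    (hFx : ∀ j, F.eval (algebraMap ℂ K (t j)) = x j ^ d) {c₀ : K} {c : Fin (k + 1) → K}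
    (h : ∀ m : Fin (n + 1), c₀ * F.coeff m + ∑ a : Fin (k + 1), c a * dualDer b a (F.coeff m) = 0) :
    c₀ = 0 ∧ ∀ a, c a = 0 := by
  classical
  set δ : Derivation ℂ K K := ∑ a : Fin (k + 1), c a • dualDer b a with hδ
  have hδapp : ∀ g, δ g = ∑ a : Fin (k + 1), c a * dualDer b a g := by
    intro g
    rw [hδ, der_sum_apply]
    rfl
  have h2 : ∀ w : ℂ, δ (F.eval (algebraMap ℂ K w)) = -c₀ * F.eval (algebraMap ℂ K w) := by
    intro w
    rw [eval_eq_sum_fin hFdeg, map_sum, Finset.mul_sum]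
    refine Finset.sum_congr rfl fun m _ => ?_
    rw [δ.leibniz, δ.map_algebraMap, smul_zero, zero_add, smul_eq_mul]
    have h3 := h m
    rw [← hδapp] at h3
    linear_combination (algebraMap ℂ K (w ^ (m : ℕ))) * h3
  have h3 : c₀ = 0 := by
    have h4 := h2 (t j₀)
    rw [hFx, hj₀, one_pow, δ.map_one_eq_zero, mul_one] at h4
    exact neg_eq_zero.mp h4.symm
  have h4 : ∀ j, δ (x j) = 0 := by
    intro j
    have h5 := h2 (t j)
    rw [hFx, h3, neg_zero, zero_mul, δ.leibniz_pow, nsmul_eq_mul, smul_eq_mul] at h5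
    rcases mul_eq_zero.mp h5 with h6 | h6
    · have : CharZero K := charZero_of_injective_algebraMap (algebraMap ℂ K).injective
      exact absurd h6 (by exact_mod_cast hd.ne')
    · rcases mul_eq_zero.mp h6 with h7 | h7
      · have h8 : x j = 0 := (pow_eq_zero_iff (n := d - 1) (by
          intro h9
          rw [h9, pow_zero] at h7
          exact one_ne_zero h7)).mp h7
        rw [h8, map_zero]
      · exact h7
  refine ⟨h3, fun a => ?_⟩
  have h6 := h4 (J a)
  rw [hδapp, Finset.sum_eq_single a] at h6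
  · rw [H23.dualDer_coord b hb a a, if_pos rfl, mul_one] at h6
    exact h6
  · intro a' _ ha'
    rw [H23.dualDer_coord b hb a' a, if_neg ha', mul_zero]
  · intro h7
    exact absurd (Finset.mem_univ _) h7

/-- The determinant does not vanish in the top-dimensional case. -/
lemma wm_det_ne_zero {N : ℕ} {x : Fin (N + 1) → K} {j₀ : Fin (N + 1)} (hj₀ : x j₀ = 1)
    {J : Fin (k + 1) → Fin (N + 1)} {b : Module.Basis (Fin (k + 1)) K Ω[K⁄ℂ]}
    (hb : ∀ i, b i = KaehlerDifferential.D ℂ K (x (J i)))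
    {d : ℕ} (hd : 0 < d) {t : Fin (N + 1) → ℂ} {F : K[X]} (hFdeg : F.natDegree ≤ k + 1)
    (hFx : ∀ j, F.eval (algebraMap ℂ K (t j)) = x j ^ d) :
    (wm (fun i => dualDer b i) fun m => F.coeff m).det ≠ 0 := by
  classical
  intro h0
  obtain ⟨c, hc, hcm⟩ := Matrix.exists_vecMul_eq_zero_iff.mpr h0
  obtain ⟨h1, h2⟩ := coeff_indep (c₀ := c 0) (c := fun a => c a.succ) hj₀ hb hd hFdeg hFx
    (fun m => by
      have h2 := congrFun hcm m
      rw [Matrix.vecMul, dotProduct, Fin.sum_univ_succ] at h2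
      exact h2)
  apply hc
  funext i
  refine Fin.cases h1 (fun a => h2 a) i

/-- The dimension is at most the degree of the polynomials. -/
lemma dim_le {N : ℕ} {x : Fin (N + 1) → K} {j₀ : Fin (N + 1)} (hj₀ : x j₀ = 1)
    {J : Fin (k + 1) → Fin (N + 1)} {b : Module.Basis (Fin (k + 1)) K Ω[K⁄ℂ]}
    (hb : ∀ i, b i = KaehlerDifferential.D ℂ K (x (J i)))
    {d : ℕ} (hd : 0 < d) {t : Fin (N + 1) → ℂ} {n : ℕ} {F : K[X]} (hFdeg : F.natDegree ≤ n)
    (hFx : ∀ j, F.eval (algebraMap ℂ K (t j)) = x j ^ d) : k + 1 ≤ n := by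
  classical
  set v : Option (Fin (k + 1)) → Fin (n + 1) → K := fun i m =>
    i.elim (F.coeff m) (fun a => dualDer b a (F.coeff m)) with hv
  have hli : LinearIndependent K v := by
    rw [Fintype.linearIndependent_iff]
    intro c hc
    obtain ⟨h1, h2⟩ := coeff_indep (c₀ := c none) (c := fun a => c (some a)) hj₀ hb hd hFdeg hFx
      (fun m => by
        have h2 := congrFun hc m
        rw [Fintype.sum_option] at h2
        simpa [hv, Finset.sum_apply] using h2)
    rintro (_ | a)
    · exact h1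
    · exact h2 a
  have h1 := hli.fintype_card_le_finrank
  rw [Module.finrank_fin_fun, Fintype.card_option, Fintype.card_fin] at h1
  omega

/-- In the top-dimensional case there are no constant roots. -/
lemma eval_ne_zero_of_top {N : ℕ} {x : Fin (N + 1) → K} {j₀ : Fin (N + 1)} (hj₀ : x j₀ = 1)
    {J : Fin (k + 1) → Fin (N + 1)} {b : Module.Basis (Fin (k + 1)) K Ω[K⁄ℂ]}
    (hb : ∀ i, b i = KaehlerDifferential.D ℂ K (x (J i)))
    {d : ℕ} (hd : 0 < d) {t : Fin (N + 1) → ℂ} {F : K[X]} (hFdeg : F.natDegree ≤ k + 1)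
    (hFx : ∀ j, F.eval (algebraMap ℂ K (t j)) = x j ^ d) (w : ℂ) :
    F.eval (algebraMap ℂ K w) ≠ 0 := by
  classical
  intro h0
  have h1 := wm_det_ne_zero hj₀ hb hd hFdeg hFx
  have h2 := Matrix.eq_zero_of_mulVec_eq_zero h1 (v := fun m => algebraMap ℂ K (w ^ (m : ℕ))) (by
    funext i
    rw [Matrix.mulVec, dotProduct, Pi.zero_apply]
    refine Fin.cases ?_ (fun a => ?_) i
    · simp only [wm_zero]
      rw [← h0, eval_eq_sum_fin hFdeg]
    · simp only [wm_succ]
      have h3 : dualDer b a (F.eval (algebraMap ℂ K w)) = 0 := by rw [h0, map_zero]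
      rw [eval_eq_sum_fin hFdeg, map_sum] at h3
      rw [← h3]
      refine Finset.sum_congr rfl fun m _ => ?_
      rw [Derivation.leibniz, Derivation.map_algebraMap, smul_zero, zero_add, smul_eq_mul,
        mul_comm])
  have h3 := congrFun h2 0
  simp at h3

/-- **The top-dimensional case.** -/
theorem isLogGeneralType_of_top_roots [Algebra.EssFiniteType ℂ K] {N : ℕ} {x : Fin (N + 1) → K}
    {j₀ : Fin (N + 1)} (hj₀ : x j₀ = 1)
    (halg : Algebra.IsAlgebraic (IntermediateField.adjoin ℂ (Set.range x)) K)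
    {J : Fin (k + 1) → Fin (N + 1)} (hz : IsTranscendenceBasis ℂ fun i => x (J i))
    {d : ℕ} (hd : 0 < d) (hrN : k + 1 ≤ N) {t : Fin (N + 1) → ℂ} (ht : Function.Injective t)
    {F : K[X]} (hFdeg : F.natDegree ≤ k + 1)
    (hFx : ∀ j, F.eval (algebraMap ℂ K (t j)) = x j ^ d)
    {Bd : PrimeDivisorOver K (k + 1) → Prop}
    {Q : K} (hQ : Q ≠ 0) {wQ : ℕ} (hwQ : d * (k + 2) + 1 ≤ wQ)
    (S : Finset ℂ) (hSA : ∀ w ∈ S, F.eval (algebraMap ℂ K w) ≠ 0)
    (hQE : ∀ (E : PrimeDivisorOver K (k + 1)) (s : K), s ≠ 0 → (∀ j, 0 ≤ E.ord (x j * s)) →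
      (∃ j, E.ord (x j * s) = 0) → ∀ o : ℂ → ℤ,
      (∀ w ∈ S, E.ord (F.eval (algebraMap ℂ K w) * s ^ d) = ((o w : ℤ) : WithTop ℤ)) →
      (∀ w ∈ S, 0 ≤ o w) →
      (∀ S' ⊆ S, (∀ w ∈ S', 0 < o w) → S'.card ≤ k + 1) →
      (¬ Bd E → E.ord (Q * s ^ wQ) ≤ ((∑ w ∈ S, max (o w - 1) 0 : ℤ) : WithTop ℤ)) ∧
      E.ord (Q * s ^ wQ) ≤ ((∑ w ∈ S, o w : ℤ) : WithTop ℤ)) :
    IsLogGeneralType Bd := by
  classical
  obtain ⟨b, hb⟩ := H23.exists_basis_kaehler hz
  set f : Fin (k + 2) → K := fun m => F.coeff m with hf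
  have hFev : ∀ w : ℂ, F.eval (algebraMap ℂ K w) =
      ∑ m : Fin (k + 2), f m * algebraMap ℂ K (w ^ (m : ℕ)) := eval_eq_sum_fin hFdeg
  set Θ : K := (wm (fun i => dualDer b i) f).det with hΘdef
  -- non-vanishing
  have hΘ : Θ ≠ 0 := wm_det_ne_zero hj₀ hb hd hFdeg hFx
  refine isLogGeneralType_of_function hz (b := b) le_rfl hj₀ halg (Θ := Θ / Q)
    (div_ne_zero hΘ hQ) ?_
  intro E g₀ bE hg₀ hreg hlog hlog0 i
  set v := E.ord with hvdef
  have hv : ∀ c : ℂ, 0 ≤ v (algebraMap ℂ K c) := E.ord_const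
  set Δ := (bE.toMatrix b).det with hΔ
  -- the minimal order
  obtain ⟨j₁, -, hj₁⟩ := Finset.exists_min_image (Finset.univ : Finset (Fin (N + 1)))
    (fun j => v (x j)) Finset.univ_nonempty
  have hj₁0 : v (x j₁) ≤ 0 := by
    have h1 := hj₁ j₀ (Finset.mem_univ _)
    rwa [hj₀, v.map_one] at h1
  have hxj₁ : x j₁ ≠ 0 := by
    intro h0
    rw [h0, v.map_zero, top_le_iff] at hj₁0
    exact absurd hj₁0 (by simp)
  obtain ⟨n, hn⟩ : ∃ n : ℕ, v (x j₁) = ((-(n : ℤ) : ℤ) : WithTop ℤ) := by
    obtain ⟨c, hc⟩ := exists_int' (v := v) hxj₁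
    rw [hc] at hj₁0
    have h1 : c ≤ 0 := by exact_mod_cast hj₁0
    refine ⟨c.natAbs, ?_⟩
    rw [hc]
    congr 1
    omega
  have hxn : ∀ j, ((-(n : ℤ) : ℤ) : WithTop ℤ) ≤ v (x j) := fun j => by
    rw [← hn]
    exact hj₁ j (Finset.mem_univ _)
  have hg₀0 : g₀ ≠ 0 := by
    rintro rfl
    rw [v.map_zero] at hg₀
    exact absurd hg₀ (by simp)
  set s := g₀ ^ n with hs
  have hs0 : s ≠ 0 := pow_ne_zero _ hg₀0
  have hvs : ∀ m : ℕ, v (s ^ m) = ((m * n : ℤ) : WithTop ℤ) := by
    intro m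
    have h1 : ∀ m : ℕ, v (g₀ ^ m) = ((m : ℤ) : WithTop ℤ) := by
      intro m
      rw [v.map_pow, hg₀]
      simp
    rw [hs, ← pow_mul, h1]
    congr 1
    push_cast
    ring
  have hvs1 : v s = ((n : ℤ) : WithTop ℤ) := by
    have := hvs 1
    simpa using this
  have hxs : ∀ j, 0 ≤ v (x j * s) := by
    intro j
    rw [v.map_mul, hvs1]
    have h1 := add_le_add (hxn j) (le_refl ((n : ℤ) : WithTop ℤ))
    refine le_trans (le_of_eq ?_) h1
    have : (-(n : ℤ) + n : ℤ) = 0 := by ring
    exact_mod_cast this.symm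
  have hxs1 : v (x j₁ * s) = 0 := by
    rw [v.map_mul, hvs1, hn]
    have : (-(n : ℤ) + n : ℤ) = 0 := by ring
    exact_mod_cast this
  -- the local polynomial
  have hsd : s ^ d ≠ 0 := pow_ne_zero _ hs0
  set Fl : K[X] := C (s ^ d) * F with hFl
  have hFldeg : Fl.natDegree ≤ k + 1 := (natDegree_C_mul_le _ _).trans hFdeg
  have hFlev : ∀ w : ℂ, Fl.eval (algebraMap ℂ K w) = F.eval (algebraMap ℂ K w) * s ^ d := by
    intro w
    rw [hFl, eval_mul, eval_C, mul_comm]
  have hFlt : ∀ j, v (Fl.eval (algebraMap ℂ K (t j))) = d • v (x j * s) := by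
    intro j
    rw [hFlev, hFx, ← mul_pow, v.map_pow]
  have hc0 : ∀ i, 0 ≤ v (Fl.coeff i) := by
    obtain ⟨T, hT, hTcard⟩ := Finset.exists_subset_card_eq (s := Finset.univ.image t)
      (n := k + 1 + 1) (by
        rw [Finset.card_image_of_injective _ ht, Finset.card_univ, Fintype.card_fin]
        omega)
    intro i
    have h1 := coeff_ge_of_eval_ge hv (P := Fl) hFldeg T hTcard (a := 0) (fun w hw => by
      obtain ⟨j, -, rfl⟩ := Finset.mem_image.mp (hT hw)
      rw [hFlt j]
      exact nsmul_nonneg (hxs j) _) i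
    simpa using h1
  have hc1 : ∃ i, v (Fl.coeff i) = ((0 : ℤ) : WithTop ℤ) := by
    by_contra hcon
    push Not at hcon
    have h1 : ∀ i, ((1 : ℤ) : WithTop ℤ) ≤ v (Fl.coeff i) := by
      intro i
      exact H23.one_le_of_pos (lt_of_le_of_ne (hc0 i) (Ne.symm (by simpa using hcon i)))
    have h2 := val_eval_ge hv h1 (t j₁)
    rw [hFlt j₁, hxs1, smul_zero] at h2
    exact absurd h2 (by norm_num)
  have hFlnn : ∀ w : ℂ, 0 ≤ v (Fl.eval (algebraMap ℂ K w)) := by
    intro w
    have h1 := val_eval_ge hv (a := 0) (P := Fl) (by simpa using hc0) w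
    simpa using h1
  -- the local determinant
  have hWl : (wm (fun i => dualDer bE i) fun m => s ^ d * f m).det =
      s ^ (d * (k + 2)) * Δ * Θ := by
    rw [wm_local b bE, ← pow_mul]
  have hWreg : 0 ≤ v (s ^ (d * (k + 2)) * Δ * Θ) := by
    rw [← hWl]
    have h1 := val_det_ge v (wm (fun i => dualDer bE i) fun m => s ^ d * f m) (fun _ => 0)
      (fun _ => 0) (by
        intro i m
        rw [add_zero]
        change (0 : WithTop ℤ) ≤ _
        have h2 : 0 ≤ v (s ^ d * f m) := by
          have := hc0 m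
          rwa [hFl, coeff_C_mul] at this
        refine Fin.cases ?_ (fun a => ?_) i
        · rw [wm_zero]
          exact h2
        · rw [wm_succ]
          exact hreg a _ h2)
    simpa using h1
  -- the orders at the nodes
  have hoex : ∀ w : ℂ, ∃ o : ℤ, w ∈ S → v (Fl.eval (algebraMap ℂ K w)) = ((o : ℤ) : WithTop ℤ) := by
    intro w
    by_cases hw : w ∈ S
    · have h1 : Fl.eval (algebraMap ℂ K w) ≠ 0 := by
        rw [hFlev]
        exact mul_ne_zero (hSA w hw) hsd
      obtain ⟨o, ho⟩ := exists_int' (v := v) h1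
      exact ⟨o, fun _ => ho⟩
    · exact ⟨0, fun h => absurd h hw⟩
  choose o hoS using hoex
  have ho0 : ∀ w ∈ S, 0 ≤ o w := by
    intro w hw
    have h1 := hFlnn w
    rw [hoS w hw] at h1
    exact_mod_cast h1
  have hWlog : ((∑ w ∈ S, o w - 1 : ℤ) : WithTop ℤ) ≤ v (s ^ (d * (k + 2)) * Δ * Θ) := by
    set S' := S.filter fun w => 0 < o w with hS'
    have hS'card : S'.card ≤ k + 2 := by
      have h1 := card_large_le hv hFldeg hc1 S' fun w hw => by
        obtain ⟨hwS, hw⟩ := Finset.mem_filter.mp hw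
        rw [hoS w hwS]
        exact_mod_cast hw
      omega
    obtain ⟨I, hSI, hI⟩ := Infinite.exists_superset_card_eq S' (k + 2) hS'card
    set e : Fin (k + 2) → ℂ := fun m => ((I.equivFinOfCardEq hI).symm m : ℂ) with he
    have heinj : Function.Injective e := by
      intro m l hml
      exact (I.equivFinOfCardEq hI).symm.injective (Subtype.ext hml)
    have h1 : (wm (fun i => dualDer bE i) fun m => Fl.eval (algebraMap ℂ K (e m))) =
        wm (fun i => dualDer bE i) (fun m => s ^ d * f m) *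
          ((Matrix.vandermonde e).map (algebraMap ℂ K)).transpose := by
      rw [← wm_mul]
      congr 1
      funext m
      rw [hFlev, hFev, Finset.sum_mul]
      refine Finset.sum_congr rfl fun l _ => ?_
      rw [Matrix.vandermonde_apply]
      ring
    have h2 : v ((Matrix.vandermonde e).map (algebraMap ℂ K)).transpose.det = 0 := by
      rw [Matrix.det_transpose]
      have h3 : ((Matrix.vandermonde e).map (algebraMap ℂ K)).det =
          algebraMap ℂ K (Matrix.vandermonde e).det := ((algebraMap ℂ K).map_det _).symm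
      rw [h3]
      exact val_const hv (Matrix.det_vandermonde_ne_zero_iff.mpr heinj)
    set c' : ℂ → ℤ := fun w => if w ∈ S' then o w else 0 with hc'
    have hval : ∀ w ∈ I, ((c' w : ℤ) : WithTop ℤ) ≤ v (Fl.eval (algebraMap ℂ K w)) := by
      intro w _
      by_cases hw : w ∈ S'
      · simp only [hc', if_pos hw]
        exact (hoS w (Finset.mem_filter.mp hw).1).ge
      · simp only [hc', if_neg hw]
        exact hFlnn w
    have h3 := val_det_ge v (wm (fun i => dualDer bE i) fun m => Fl.eval (algebraMap ℂ K (e m)))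
      (fun i => if i = 1 then -1 else 0) (fun m => c' (e m)) (by
        intro i m
        have h4 := hval (e m) ((I.equivFinOfCardEq hI).symm m).2
        refine Fin.cases ?_ (fun a => ?_) i
        · rw [wm_zero, if_neg (by simp), zero_add]
          exact h4
        · rw [wm_succ]
          by_cases ha : a = 0
          · rw [ha, if_pos (by simp)]
            have h5 := h4.trans (hlog0 _)
            rw [v.map_mul, hg₀] at h5
            induction hx : v (dualDer bE 0 (Fl.eval (algebraMap ℂ K (e m))))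
              using WithTop.recTopCoe with
            | top => exact le_top
            | coe c =>
              rw [hx] at h5
              have h6 : c' (e m) ≤ 1 + c := by exact_mod_cast h5
              exact_mod_cast (by omega : -1 + c' (e m) ≤ c)
          · have h5 : a.succ ≠ 1 := by
              intro h6
              exact ha (Fin.succ_injective _ (h6.trans (by simp)))
            rw [if_neg h5, zero_add]
            exact h4.trans (hlog a ha _))
    rw [h1, Matrix.det_mul, v.map_mul, h2, add_zero, hWl] at h3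
    refine le_trans (le_of_eq ?_) h3
    congr 1
    rw [Finset.sum_ite_eq' Finset.univ (1 : Fin (k + 2)), if_pos (Finset.mem_univ _)]
    have h5 : ∑ m, c' (e m) = ∑ w ∈ S, o w := by
      have h6 : ∑ m, c' (e m) = ∑ w ∈ I, c' w := by
        rw [← Finset.sum_coe_sort I]
        exact Equiv.sum_comp (I.equivFinOfCardEq hI).symm (fun w : I => c' w)
      rw [h6, ← Finset.sum_subset hSI fun w _ hw => by simp only [hc', if_neg hw],
        ← Finset.sum_subset (Finset.filter_subset _ S) fun w hw hw' => by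
          have h7 : ¬ 0 < o w := fun h => hw' (Finset.mem_filter.mpr ⟨hw, h⟩)
          have h8 := ho0 w hw
          omega]
      exact Finset.sum_congr rfl fun w hw => by
        have hw' : w ∈ S' := hw
        simp only [hc', if_pos hw']
    rw [h5]
    ring
  have hlarge : ∀ S' ⊆ S, (∀ w ∈ S', 0 < o w) → S'.card ≤ k + 1 := by
    intro S' hS' hpos
    exact card_large_le hv hFldeg hc1 S' (fun w hw => by
      rw [hoS w (hS' hw)]
      exact_mod_cast hpos w hw)
  have hQE' := hQE E s hs0 hxs ⟨j₁, hxs1⟩ o (fun w hw => by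
    rw [← hoS w hw, hFlev w]) ho0 hlarge
  -- the identity of orders
  obtain ⟨q, hq⟩ := exists_int' (v := v) (mul_ne_zero hQ (pow_ne_zero wQ hs0))
  have hid : v (Θ / Q * x i * Δ ^ 1) + ((q : ℤ) : WithTop ℤ) +
      (((d * (k + 2) + 1 : ℕ) * n : ℤ) : WithTop ℤ) =
      v (s ^ (d * (k + 2)) * Δ * Θ) + v (x i * s) + ((wQ * n : ℤ) : WithTop ℤ) := by
    have h1 : (Θ / Q * x i * Δ ^ 1) * (Q * s ^ wQ) * s ^ (d * (k + 2) + 1) =
        (s ^ (d * (k + 2)) * Δ * Θ) * (x i * s) * s ^ wQ := by
      field_simp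
      ring
    have h2 := congrArg v h1
    rw [v.map_mul ((Θ / Q * x i * Δ ^ 1) * (Q * s ^ wQ)) (s ^ (d * (k + 2) + 1)),
      v.map_mul (Θ / Q * x i * Δ ^ 1) (Q * s ^ wQ),
      v.map_mul ((s ^ (d * (k + 2)) * Δ * Θ) * (x i * s)) (s ^ wQ),
      v.map_mul (s ^ (d * (k + 2)) * Δ * Θ) (x i * s), hq, hvs, hvs] at h2
    exact h2
  have hwQ' : ((d * (k + 2) + 1 : ℕ) : ℤ) ≤ wQ := by exact_mod_cast hwQ
  have hn0 : (0 : ℤ) ≤ n := Nat.cast_nonneg _
  constructor
  · intro hE
    have hqS : q ≤ ∑ w ∈ S, max (o w - 1) 0 := by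
      have h1 := hQE'.1 hE
      rw [hq] at h1
      exact_mod_cast h1
    by_cases hall : ∀ w ∈ S, o w = 0
    · have h3 : ∑ w ∈ S, max (o w - 1) 0 = 0 := by
        refine Finset.sum_eq_zero fun w hw => ?_
        rw [hall w hw]
        rfl
      rw [h3] at hqS
      have h2 := wt_cancel (e := 0) (tb := 0) hid (by simpa using hWreg) (hxs i) (by nlinarith)
      simpa using h2
    · push Not at hall
      obtain ⟨w₀, hw₀, hw₀'⟩ := hall
      have h3 : ∑ w ∈ S, max (o w - 1) 0 ≤ ∑ w ∈ S, o w - 1 := by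
        have h4 : ∑ w ∈ S, max (o w - 1) 0 + 1 ≤ ∑ w ∈ S, o w := by
          rw [← Finset.sum_erase_add _ _ hw₀, ← Finset.sum_erase_add S o hw₀]
          have h5 : ∑ w ∈ S.erase w₀, max (o w - 1) 0 ≤ ∑ w ∈ S.erase w₀, o w := by
            refine Finset.sum_le_sum fun w hw => ?_
            have := ho0 w (Finset.mem_of_mem_erase hw)
            omega
          have := ho0 w₀ hw₀
          omega
        omega
      have h2 := wt_cancel (e := 0) hid hWlog (hxs i) (by nlinarith)
      simpa using h2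
  · have hqS : q ≤ ∑ w ∈ S, o w := by
      have h1 := hQE'.2
      rw [hq] at h1
      exact_mod_cast h1
    have h2 := wt_cancel (e := 1) hid hWlog (hxs i) (by nlinarith)
    refine le_trans h2 (le_of_eq ?_)
    congr 1

end Pool.Agent.H92.GT
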