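import Pool.Agent.H92.GT.Denom
import Pool.Agent.H92.GT.Top

/-!
# Subvarieties of the family
-/

open Polynomial
open Pool.Agent.H23 (RatForm regularForms PrimeDivisorOver dualDer)
open Pool.Agent.H17LG (IsLogGeneralType)

noncomputable section

namespace Pool.Agent.H92.GT

variable {K : Type} [Field K] [Algebra ℂ K] {ι T : Type} [Fintype ι] [Fintype T] [DecidableEq ι]

/-- The numerical invariant. -/
def chi (r d N : ℕ) (β : T → Option ι) (k : ι → ℕ) : ℝ :=
  (N + 1) * (1 - 1 / (d : ℝ)) + (nd β none).card +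
    ∑ l, (nd β (some l)).card * (1 - min 1 (((min r (nd β (some l)).card : ℕ) : ℝ) / (k l : ℝ)))

omit [Algebra ℂ K] in
lemma denomWt_eq {N r d : ℕ} (hd : 0 < d) {x : Fin (N + 1) → K} {β : T → Option ι} {k e : ι → ℕ}
    (hk : ∀ l, 1 ≤ k l) (hke : ∀ l, k l * e l = d * (nd β (some l)).card) :
    (denomWt r d x β k e : ℝ) = d * chi r d N β k - (d - 1) * (N + 1 - (nz x).card) := by
  have hd' : (d : ℝ) ≠ 0 := by exact_mod_cast hd.ne'
  have h1 : ∀ l, ((e l * (k l - min r (nd β (some l)).card) : ℕ) : ℝ) =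
      d * ((nd β (some l)).card *
        (1 - min 1 (((min r (nd β (some l)).card : ℕ) : ℝ) / (k l : ℝ)))) := by
    intro l
    have hk' : (k l : ℝ) ≠ 0 := by
      have := hk l
      exact_mod_cast (by omega : k l ≠ 0)
    have hk0 : (0 : ℝ) < k l := lt_of_le_of_ne (Nat.cast_nonneg _) (Ne.symm hk')
    have h2 : (k l : ℝ) * e l = d * (nd β (some l)).card := by exact_mod_cast hke l
    rw [← mul_assoc, ← h2, Nat.cast_mul]
    rcases le_total (k l) (min r (nd β (some l)).card) with h3 | h3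
    · have h3' : (k l : ℝ) ≤ ((min r (nd β (some l)).card : ℕ) : ℝ) := by exact_mod_cast h3
      rw [Nat.sub_eq_zero_of_le h3, min_eq_left ((one_le_div hk0).mpr h3')]
      simp
    · have h3' : ((min r (nd β (some l)).card : ℕ) : ℝ) ≤ (k l : ℝ) := by exact_mod_cast h3
      rw [Nat.cast_sub h3, min_eq_right ((div_le_one hk0).mpr h3')]
      field_simp
  unfold denomWt chi
  rw [Nat.cast_add, Nat.cast_add, Nat.cast_sum, Finset.sum_congr rfl fun l _ => h1 l,
    ← Finset.mul_sum, Nat.cast_mul, Nat.cast_sub hd, Nat.cast_mul]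
  push_cast
  field_simp
  ring

/-- **Subvarieties of the family are of log general type.** -/
theorem isLogGeneralType_family [Algebra.EssFiniteType ℂ K] {N : ℕ} {x : Fin (N + 1) → K}
    {j₀ : Fin (N + 1)} (hj₀ : x j₀ = 1)
    (halg : Algebra.IsAlgebraic (IntermediateField.adjoin ℂ (Set.range x)) K) {q : ℕ}
    {J : Fin (q + 1) → Fin (N + 1)} (hz : IsTranscendenceBasis ℂ fun i => x (J i))
    {r d : ℕ} (hr : 1 ≤ r) (hd : 0 < d) (hrN : r ≤ N) {t : Fin (N + 1) → ℂ} {τ : T → ℂ}
    (hinj : Function.Injective (Sum.elim t τ)) {β : T → Option ι} {k e : ι → ℕ}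
    (hk : ∀ l, 1 ≤ k l) (hke : ∀ l, k l * e l = d * (nd β (some l)).card)
    (hnum : 2 * (r : ℝ) < chi r d N β k)
    (hnum' : 1 ≤ q → q + 1 < r → 2 * (r : ℝ) + (q + 1) * r / d < chi r d N β k)
    {F : K[X]} (hFdeg : F.natDegree = r) (hsq : Squarefree F)
    (hFx : ∀ j, F.eval (algebraMap ℂ K (t j)) = x j ^ d) {y : ι → K} (hy0 : ∀ l, y l ≠ 0)
    (hy : ∀ l, y l ^ k l = ∏ i ∈ nd β (some l), F.eval (algebraMap ℂ K (τ i)))
    (hFO : ∀ i ∈ nd β none, F.eval (algebraMap ℂ K (τ i)) ≠ 0)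
    {Bd : PrimeDivisorOver K (q + 1) → Prop}
    (hBd : ∀ (E : PrimeDivisorOver K (q + 1)) (s : K), s ≠ 0 → (∀ j, 0 ≤ E.ord (x j * s)) →
      (∃ j, E.ord (x j * s) = 0) → ¬ Bd E →
      E.ord ((∏ i ∈ nd β none, F.eval (algebraMap ℂ K (τ i))) * s ^ (d * (nd β none).card)) ≤ 0) :
    IsLogGeneralType Bd := by
  classical
  have ht : Function.Injective t := fun i j h => by
    have := @hinj (Sum.inl i) (Sum.inl j) (by simpa using h)
    simpa using this
  have hFτ : ∀ i, F.eval (algebraMap ℂ K (τ i)) ≠ 0 := by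
    intro i
    rcases hβ : β i with _ | l
    · exact hFO i (Finset.mem_filter.mpr ⟨Finset.mem_univ _, hβ⟩)
    · have h1 := pow_ne_zero (k l) (hy0 l)
      rw [hy l, Finset.prod_ne_zero_iff] at h1
      exact h1 i (Finset.mem_filter.mpr ⟨Finset.mem_univ _, hβ⟩)
  have hFS : ∀ w ∈ nodeSet x t τ, F.eval (algebraMap ℂ K w) ≠ 0 := by
    intro w hw
    rcases Finset.mem_union.mp hw with h | h
    · obtain ⟨j, hj, rfl⟩ := Finset.mem_image.mp h
      rw [hFx]
      exact pow_ne_zero _ (mem_nz.mp hj)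
    · obtain ⟨i, -, rfl⟩ := Finset.mem_image.mp h
      exact hFτ i
  have hF0 : F ≠ 0 := hsq.ne_zero
  -- the constant roots
  set A : Finset ℂ := F.roots.toFinset.preimage (algebraMap ℂ K)
    ((algebraMap ℂ K).injective.injOn) with hAdef
  have hA : ∀ a, a ∈ A ↔ F.eval (algebraMap ℂ K a) = 0 := by
    intro a
    rw [hAdef, Finset.mem_preimage, Multiset.mem_toFinset, mem_roots hF0]
    rfl
  have hAr : A.card ≤ r := by
    have h1 : (A.image (algebraMap ℂ K)).card ≤ F.roots.toFinset.card := by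
      refine Finset.card_le_card fun w hw => ?_
      obtain ⟨a, ha, rfl⟩ := Finset.mem_image.mp hw
      exact Finset.mem_preimage.mp ha
    rw [Finset.card_image_of_injective _ (algebraMap ℂ K).injective] at h1
    exact h1.trans ((Multiset.toFinset_card_le _).trans ((card_roots' F).trans hFdeg.le))
  have hzero : N + 1 ≤ (nz x).card + A.card := by
    have h1 : (Finset.univ.filter fun j => ¬ x j ≠ 0).card ≤ A.card := by
      rw [← Finset.card_image_of_injective _ ht]
      refine Finset.card_le_card fun w hw => ?_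
      obtain ⟨j, hj, rfl⟩ := Finset.mem_image.mp hw
      rw [hA, hFx, not_not.mp (Finset.mem_filter.mp hj).2, zero_pow hd.ne']
    have h2 := Finset.card_filter_add_card_filter_not (s := (Finset.univ : Finset (Fin (N + 1))))
      (fun j => x j ≠ 0)
    rw [Finset.card_univ, Fintype.card_fin] at h2
    have h3 : nz x = Finset.univ.filter fun j => x j ≠ 0 := by
      ext j
      simp [mem_nz]
    rw [h3]
    omega
  have hQ : denom r d x β k y F τ ≠ 0 := denom_ne_zero hy0 hFτ
  have hd1 : (1 : ℝ) ≤ d := by exact_mod_cast hd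
  have hwt : (d : ℝ) * chi r d N β k - (d - 1) * A.card ≤ (denomWt r d x β k e : ℝ) := by
    rw [denomWt_eq hd hk hke]
    have h1 : ((N : ℝ) + 1) ≤ (nz x).card + A.card := by exact_mod_cast hzero
    nlinarith
  have hQE : ∀ (E : PrimeDivisorOver K (q + 1)) (s : K), s ≠ 0 → (∀ j, 0 ≤ E.ord (x j * s)) →
      (∃ j, E.ord (x j * s) = 0) → ∀ o : ℂ → ℤ,
      (∀ w ∈ nodeSet x t τ, E.ord (F.eval (algebraMap ℂ K w) * s ^ d) =
        ((o w : ℤ) : WithTop ℤ)) →
      (∀ w ∈ nodeSet x t τ, 0 ≤ o w) →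
      (∀ S' ⊆ nodeSet x t τ, (∀ w ∈ S', 0 < o w) → S'.card ≤ r) →
      (¬ Bd E → E.ord (denom r d x β k y F τ * s ^ denomWt r d x β k e) ≤
        ((∑ w ∈ nodeSet x t τ, max (o w - 1) 0 : ℤ) : WithTop ℤ)) ∧
      E.ord (denom r d x β k y F τ * s ^ denomWt r d x β k e) ≤
        ((∑ w ∈ nodeSet x t τ, o w : ℤ) : WithTop ℤ) := by
    intro E s hs hxs hxs1 o ho ho0 hlarge
    refine denom_order hd hinj hk hke hFx hy0 hy hs hxs ho ho0 hlarge ?_
    intro hE i hi
    have h1 := hBd E s hs hxs hxs1 hE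
    have hmτ : ∀ i, τ i ∈ nodeSet x t τ := fun i =>
      Finset.mem_union_right _ (Finset.mem_image_of_mem _ (Finset.mem_univ i))
    have h2 : (∏ i ∈ nd β none, F.eval (algebraMap ℂ K (τ i))) * s ^ (d * (nd β none).card) =
        ∏ i ∈ nd β none, (F.eval (algebraMap ℂ K (τ i)) * s ^ d) := by
      rw [Finset.prod_mul_distrib, Finset.prod_const, ← pow_mul]
    rw [h2, val_prod, Finset.sum_congr rfl fun i _ => ho _ (hmτ i), ← coe_sum] at h1
    have h3 : ∑ i ∈ nd β none, o (τ i) ≤ 0 := by exact_mod_cast h1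
    have h4 := (Finset.sum_eq_zero_iff_of_nonneg fun i _ => ho0 _ (hmτ i)).mp
      (le_antisymm h3 (Finset.sum_nonneg fun i _ => ho0 _ (hmτ i)))
    exact h4 i hi
  have hSA : ∀ w ∈ nodeSet x t τ, w ∉ A := fun w hw h => hFS w hw ((hA w).mp h)
  obtain ⟨b, hb⟩ := H23.exists_basis_kaehler hz
  have hqr : q + 1 ≤ r := dim_le hj₀ hb hd hFdeg.le hFx
  have hArR : (A.card : ℝ) ≤ r := by exact_mod_cast hAr
  have hA0 : (0 : ℝ) ≤ A.card := Nat.cast_nonneg _
  rcases Nat.eq_zero_or_pos q with hq0 | hq0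
  · -- curves
    subst hq0
    refine isLogGeneralType_of_roots hj₀ halg hz hd hrN ht hFdeg hsq hFx hA hQ
      (wQ := denomWt r d x β k e) ?_ (nodeSet x t τ) hSA hQE
    have h1 : ((2 * d + lc 0) * (r - A.card) : ℕ) < denomWt r d x β k e := by
      have h2 : (((2 * d + lc 0) * (r - A.card) : ℕ) : ℝ) < (denomWt r d x β k e : ℝ) := by
        rw [lc, if_pos rfl, add_zero, Nat.cast_mul, Nat.cast_sub hAr]
        push_cast
        refine lt_of_lt_of_le ?_ hwt
        nlinarith
      exact_mod_cast h2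
    omega
  · rcases Nat.eq_or_lt_of_le hqr with hqr' | hqr'
    · -- the top-dimensional case
      subst hqr'
      refine isLogGeneralType_of_top_roots hj₀ halg hz hd hrN ht hFdeg.le hFx hQ
        (wQ := denomWt (q + 1) d x β k e) ?_ (nodeSet x t τ) hFS hQE
      have hAe : A.card = 0 := by
        rw [Finset.card_eq_zero, Finset.eq_empty_iff_forall_notMem]
        intro a ha
        exact eval_ne_zero_of_top hj₀ hb hd hFdeg.le hFx a ((hA a).mp ha)
      have h1 : d * (q + 2) < denomWt (q + 1) d x β k e := by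
        have h2 : ((d * (q + 2) : ℕ) : ℝ) < (denomWt (q + 1) d x β k e : ℝ) := by
          refine lt_of_lt_of_le ?_ hwt
          rw [hAe]
          push_cast at hnum ⊢
          have hq : (0 : ℝ) ≤ q := Nat.cast_nonneg _
          nlinarith
        exact_mod_cast h2
      omega
    · -- the remaining cases
      refine isLogGeneralType_of_roots hj₀ halg hz hd hrN ht hFdeg hsq hFx hA hQ
        (wQ := denomWt r d x β k e) ?_ (nodeSet x t τ) hSA hQE
      have h1 : ((2 * d + lc q) * (r - A.card) : ℕ) < denomWt r d x β k e := by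
        have h2 : (((2 * d + lc q) * (r - A.card) : ℕ) : ℝ) < (denomWt r d x β k e : ℝ) := by
          rw [lc, if_neg (by omega), Nat.cast_mul, Nat.cast_sub hAr]
          push_cast
          refine lt_of_lt_of_le ?_ hwt
          have h3 := hnum' hq0 hqr'
          have h4 : (d : ℝ) * (2 * (r : ℝ) + (q + 1) * r / d) < d * chi r d N β k :=
            mul_lt_mul_of_pos_left h3 (by linarith)
          have h5 : (d : ℝ) * (2 * (r : ℝ) + (q + 1) * r / d) = 2 * d * r + (q + 1) * r := by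
            field_simp
          rw [h5] at h4
          have hq : (0 : ℝ) ≤ q := Nat.cast_nonneg _
          nlinarith
        exact_mod_cast h2
      omega

end Pool.Agent.H92.GT
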