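import Mathlib

/-!
# The linear forms given by the values of polynomials
-/

noncomputable section

namespace Pool.Agent.H92.GT

open MvPolynomial

/-- The value at `w` of the generic polynomial of degree `r`. -/
def lin (r : ℕ) (w : ℂ) : MvPolynomial (Fin (r + 1)) ℂ := ∑ m : Fin (r + 1), C (w ^ (m : ℕ)) * X m

lemma eval_lin (r : ℕ) (w : ℂ) (a : Fin (r + 1) → ℂ) :
    eval a (lin r w) = ∑ m : Fin (r + 1), a m * w ^ (m : ℕ) := by
  unfold lin
  rw [map_sum]
  refine Finset.sum_congr rfl fun m _ => ?_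
  rw [map_mul, eval_C, eval_X, mul_comm]

lemma lin_prime (r : ℕ) (w : ℂ) : Prime (lin r w) := by
  rw [← MulEquiv.prime_iff (finSuccEquiv ℂ r).toMulEquiv]
  have h1 : (finSuccEquiv ℂ r) (lin r w) =
      Polynomial.X - Polynomial.C (-∑ m : Fin r, C (w ^ ((m : ℕ) + 1)) * X m) := by
    unfold lin
    rw [map_sum, Fin.sum_univ_succ, map_mul, finSuccEquiv_X_zero, Fin.val_zero, pow_zero, map_one,
      map_one, one_mul, map_neg, sub_neg_eq_add, map_sum]
    congr 1
    refine Finset.sum_congr rfl fun m _ => ?_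
    rw [map_mul, finSuccEquiv_X_succ, Polynomial.C_mul, Fin.val_succ]
    congr 1
    rw [finSuccEquiv_apply, eval₂Hom_C]
    rfl
  change Prime ((finSuccEquiv ℂ r) (lin r w))
  rw [h1]
  exact Polynomial.prime_X_sub_C _

lemma lin_ne_zero (r : ℕ) (w : ℂ) : lin r w ≠ 0 := (lin_prime r w).ne_zero

lemma lin_not_dvd {r : ℕ} (hr : 1 ≤ r) {w w' : ℂ} (h : w ≠ w') : ¬ lin r w ∣ lin r w' := by
  rintro ⟨q, hq⟩
  have h1 : ∀ v : ℂ, eval (fun m : Fin (r + 1) => if (m : ℕ) = 0 then -w else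
      if (m : ℕ) = 1 then 1 else 0) (lin r v) = v - w := by
    intro v
    rw [eval_lin]
    obtain ⟨r, rfl⟩ : ∃ r', r = r' + 1 := ⟨r - 1, by omega⟩
    rw [Fin.sum_univ_succ, Fin.sum_univ_succ]
    simp
    ring
  have h2 := congrArg (eval (fun m : Fin (r + 1) => if (m : ℕ) = 0 then -w else
      if (m : ℕ) = 1 then 1 else 0)) hq
  rw [map_mul, h1, h1, sub_self, zero_mul, sub_eq_zero] at h2
  exact h h2.symm

lemma emultiplicity_prod_lin {r : ℕ} (hr : 1 ≤ r) (w : ℂ) (W : Finset ℂ) :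
    emultiplicity (lin r w) (∏ w' ∈ W, lin r w') = if w ∈ W then 1 else 0 := by
  classical
  rw [Finset.emultiplicity_prod (lin_prime r w)]
  have h1 : ∀ w', emultiplicity (lin r w) (lin r w') = if w = w' then 1 else 0 := by
    intro w'
    split_ifs with h
    · rw [← h]
      have := emultiplicity_pow_self_of_prime (lin_prime r w) 1
      simpa using this
    · exact emultiplicity_eq_zero.mpr (lin_not_dvd hr h)
  rw [Finset.sum_congr rfl fun w' _ => h1 w', Finset.sum_ite_eq]

end Pool.Agent.H92.GT
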