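import Pool.Agent.H92.GT.KummerEval
import Pool.Agent.H92.GT.LinForm
import Pool.Agent.H92.GT.CoverMain

/-!
# The generic point of the covers
-/

open MvPolynomial
open Pool.Agent.H99.Cover (weights Tot Coord mk mk_eq_mk exists_mk VanishesAt coverSet
  mk_mem_coverSet)
open Pool.Agent.H92.GGL

noncomputable section

namespace Pool.Agent.H92.GT.Cover

section Ideal

variable {N : ℕ} {ι L : Type} [Field L] [Algebra ℂ L]

/-- The homogeneous coordinate ring of a point. -/
def phi (e : ι → ℕ) (ρ : Fin (N + 1) ⊕ ι → L) :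
    MvPolynomial (Fin (N + 1) ⊕ ι) ℂ →ₐ[ℂ] Polynomial L :=
  aeval fun i => Polynomial.C (ρ i) * Polynomial.X ^ weights N e i

lemma phi_coeff (e : ι → ℕ) (ρ : Fin (N + 1) ⊕ ι → L) (Q : MvPolynomial (Fin (N + 1) ⊕ ι) ℂ)
    (n : ℕ) : (phi e ρ Q).coeff n =
      aeval ρ (weightedHomogeneousComponent (weights N e) n Q) := by
  classical
  rw [weightedHomogeneousComponent_apply, map_sum, phi, aeval_def, eval₂_eq,
    Polynomial.finsetSum_coeff, Finset.sum_filter]
  refine Finset.sum_congr rfl fun m _ => ?_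
  have h1 : ∏ i ∈ m.support, (Polynomial.C (ρ i) * Polynomial.X ^ weights N e i) ^ m i =
      Polynomial.C (∏ i ∈ m.support, ρ i ^ m i) *
        Polynomial.X ^ (Finsupp.weight (weights N e) m) := by
    rw [Finset.prod_congr rfl fun i _ => mul_pow (Polynomial.C (ρ i))
      (Polynomial.X ^ weights N e i) (m i), Finset.prod_mul_distrib, map_prod]
    congr 1
    · exact Finset.prod_congr rfl fun i _ => (Polynomial.C_pow).symm
    · rw [Finsupp.weight_apply, Finsupp.sum, ← Finset.prod_pow_eq_pow_sum]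
      refine Finset.prod_congr rfl fun i _ => ?_
      rw [← pow_mul, smul_eq_mul, mul_comm]
  rw [h1]
  have h2 : algebraMap ℂ (Polynomial L) (Q.coeff m) =
      Polynomial.C (algebraMap ℂ L (Q.coeff m)) := rfl
  rw [h2, ← mul_assoc, ← Polynomial.C_mul, Polynomial.coeff_C_mul_X_pow]
  split_ifs with h3 h4 h5
  · rw [aeval_monomial]
    rfl
  · exact absurd h3.symm h4
  · exact absurd h5.symm h3
  · rfl

/-- The ideal of a point. -/
def genIdeal (e : ι → ℕ) (ρ : Fin (N + 1) ⊕ ι → L) : Ideal (MvPolynomial (Fin (N + 1) ⊕ ι) ℂ) :=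
  RingHom.ker (phi e ρ)

instance (e : ι → ℕ) (ρ : Fin (N + 1) ⊕ ι → L) : (genIdeal e ρ).IsPrime :=
  RingHom.ker_isPrime _

lemma mem_genIdeal (e : ι → ℕ) (ρ : Fin (N + 1) ⊕ ι → L)
    (Q : MvPolynomial (Fin (N + 1) ⊕ ι) ℂ) : Q ∈ genIdeal e ρ ↔
      ∀ n, aeval ρ (weightedHomogeneousComponent (weights N e) n Q) = 0 := by
  rw [genIdeal, RingHom.mem_ker, Polynomial.ext_iff]
  refine forall_congr' fun n => ?_
  rw [← phi_coeff]
  rfl

lemma mem_genIdeal_of_homogeneous {e : ι → ℕ} {ρ : Fin (N + 1) ⊕ ι → L}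
    {Q : MvPolynomial (Fin (N + 1) ⊕ ι) ℂ} {n : ℕ}
    (hQ : IsWeightedHomogeneous (weights N e) Q n) : Q ∈ genIdeal e ρ ↔ aeval ρ Q = 0 := by
  classical
  rw [mem_genIdeal]
  constructor
  · intro h
    have h1 := h n
    rwa [weightedHomogeneousComponent_of_mem (n := n) (m := n) hQ, if_pos rfl] at h1
  · intro h m
    rw [weightedHomogeneousComponent_of_mem (n := n) (m := m) hQ]
    split_ifs
    · exact h
    · exact map_zero _

lemma genIdeal_homogeneous (e : ι → ℕ) (ρ : Fin (N + 1) ⊕ ι → L) :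
    ∀ Q ∈ genIdeal e ρ, ∀ n, weightedHomogeneousComponent (weights N e) n Q ∈ genIdeal e ρ := by
  intro Q hQ n
  rw [mem_genIdeal_of_homogeneous (weightedHomogeneousComponent_isWeightedHomogeneous n Q)]
  exact (mem_genIdeal e ρ Q).mp hQ n

end Ideal

end Pool.Agent.H92.GT.Cover
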