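import Pool.Agent.H92.GT.Generic

/-!
# The generic point of the family
-/

open MvPolynomial
open Pool.Agent.H99.Cover (weights Tot Coord mk mk_eq_mk exists_mk VanishesAt coverSet
  mk_mem_coverSet)
open Pool.Agent.H92.GGL

noncomputable section

namespace Pool.Agent.H92.GT.Cover

/-- The generic field. -/
abbrev GenField (r : ℕ) : Type := AlgebraicClosure (FractionRing (MvPolynomial (Fin (r + 1)) ℂ))

section

variable {N r : ℕ} {ι T : Type} [Fintype ι] [Fintype T] [DecidableEq ι]

/-- The sets of nodes. -/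
def nodeSets (t : Fin (N + 1) → ℂ) (τ : T → ℂ) (β : T → Option ι) :
    Fin (N + 1) ⊕ ι → Finset ℂ :=
  Sum.elim (fun j => {t j}) (fun l => (nd β (some l)).image τ)

omit [Fintype ι] in
lemma nodeSets_disjoint {t : Fin (N + 1) → ℂ} {τ : T → ℂ}
    (hinj : Function.Injective (Sum.elim t τ)) (β : T → Option ι) {i i' : Fin (N + 1) ⊕ ι}
    {w : ℂ} (h : w ∈ nodeSets t τ β i) (h' : w ∈ nodeSets t τ β i') : i = i' := by
  have key : ∀ (j : Fin (N + 1)) (a : T), t j ≠ τ a := by
    intro j a h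
    have := @hinj (Sum.inl j) (Sum.inr a) (by simpa using h)
    simp at this
  rcases i with j | l <;> rcases i' with j' | l'
  · simp only [nodeSets, Sum.elim_inl, Finset.mem_singleton] at h h'
    have := @hinj (Sum.inl j) (Sum.inl j') (by simpa using h.symm.trans h')
    simpa using this
  · simp only [nodeSets, Sum.elim_inl, Sum.elim_inr, Finset.mem_singleton,
      Finset.mem_image] at h h'
    obtain ⟨a, -, ha⟩ := h'
    exact absurd (h.symm.trans ha.symm) (key j a)
  · simp only [nodeSets, Sum.elim_inl, Sum.elim_inr, Finset.mem_singleton,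
      Finset.mem_image] at h h'
    obtain ⟨a, -, ha⟩ := h
    exact absurd (h'.symm.trans ha.symm) (key j' a)
  · simp only [nodeSets, Sum.elim_inr, Finset.mem_image, Finset.mem_filter] at h h'
    obtain ⟨a, ⟨-, ha⟩, ha'⟩ := h
    obtain ⟨b, ⟨-, hb⟩, hb'⟩ := h'
    have h1 := @hinj (Sum.inr a) (Sum.inr b) (by simpa using ha'.trans hb'.symm)
    have h2 : a = b := by simpa using h1
    rw [h2, hb] at ha
    have h3 : l = l' := by simpa using ha.symm
    rw [h3]

/-- The exponents. -/
def expo (d : ℕ) (k : ι → ℕ) : Fin (N + 1) ⊕ ι → ℕ := Sum.elim (fun _ => d) k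

/-- The radicands. -/
def radi (r : ℕ) (t : Fin (N + 1) → ℂ) (τ : T → ℂ) (β : T → Option ι) (i : Fin (N + 1) ⊕ ι) :
    MvPolynomial (Fin (r + 1)) ℂ := ∏ w ∈ nodeSets t τ β i, lin r w

omit [Fintype ι] in
lemma radi_inl (t : Fin (N + 1) → ℂ) (τ : T → ℂ) (β : T → Option ι) (j : Fin (N + 1)) :
    radi r t τ β (Sum.inl j) = lin r (t j) := by
  simp [radi, nodeSets]

omit [Fintype ι] in
lemma radi_inr {t : Fin (N + 1) → ℂ} {τ : T → ℂ} (hinj : Function.Injective (Sum.elim t τ))
    (β : T → Option ι) (l : ι) :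
    radi r t τ β (Sum.inr l) = ∏ i ∈ nd β (some l), lin r (τ i) := by
  simp only [radi, nodeSets, Sum.elim_inr]
  rw [Finset.prod_image]
  intro a _ b _ h
  have := @hinj (Sum.inr a) (Sum.inr b) (by simpa using h)
  simpa using this

/-- **Relations at the generic point hold everywhere.** -/
theorem generic_vanish (hr : 1 ≤ r) {d : ℕ} (hd : 0 < d) {t : Fin (N + 1) → ℂ} {τ : T → ℂ}
    (hinj : Function.Injective (Sum.elim t τ)) {β : T → Option ι} {k : ι → ℕ}
    (hk : ∀ l, 1 ≤ k l) (hne : ∀ l, (nd β (some l)).Nonempty)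
    {ρ : Fin (N + 1) ⊕ ι → GenField r}
    (hρ : ∀ i, ρ i ^ expo d k i = algebraMap (MvPolynomial (Fin (r + 1)) ℂ) (GenField r)
      (radi r t τ β i))
    {Q : MvPolynomial (Fin (N + 1) ⊕ ι) ℂ} (hQ : aeval ρ Q = 0) {x : Fin (N + 1) → ℂ}
    {y : ι → ℂ} {F : Polynomial ℂ} (hF : F.natDegree ≤ r) (hx : ∀ j, x j ^ d = F.eval (t j))
    (hy : ∀ l, y l ^ k l = ∏ i ∈ nd β (some l), F.eval (τ i)) :
    MvPolynomial.eval (Sum.elim x y) Q = 0 := by
  classical
  have hn : ∀ i, 0 < expo (N := N) d k i := by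
    rintro (j | l)
    · exact hd
    · exact hk l
  have hW : ∀ i, ∃ w, w ∈ nodeSets t τ β i := by
    rintro (j | l)
    · exact ⟨t j, by simp [nodeSets]⟩
    · obtain ⟨a, ha⟩ := hne l
      exact ⟨τ a, by
        simp only [nodeSets, Sum.elim_inr]
        exact Finset.mem_image_of_mem _ ha⟩
  choose w hw using hW
  have hev : ∀ v : ℂ, (aeval (fun m : Fin (r + 1) => F.coeff m) :
      MvPolynomial (Fin (r + 1)) ℂ →ₐ[ℂ] ℂ) (lin r v) = F.eval v := by
    intro v
    have h1 := eval_lin r v (fun m : Fin (r + 1) => F.coeff m)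
    rw [Polynomial.eval_eq_sum_range' (show F.natDegree < r + 1 by omega),
      ← Fin.sum_univ_eq_sum_range (fun m => F.coeff m * v ^ m)]
    exact h1
  refine Kummer.eval_eq_zero (R := MvPolynomial (Fin (r + 1)) ℂ) (L := GenField r) hn
    (u := radi r t τ β) (fun i => ?_) hρ (p := fun i => lin r (w i)) (fun i => lin_prime r _)
    (fun i i' => ?_) hQ (aeval (fun m : Fin (r + 1) => F.coeff m)) (fun i => ?_)
  · exact Finset.prod_ne_zero_iff.mpr fun v _ => lin_ne_zero r v
  · rw [radi, emultiplicity_prod_lin hr]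
    by_cases h : i' = i
    · subst h
      rw [if_pos (hw i'), if_pos rfl]
    · rw [if_neg h, if_neg]
      intro h1
      exact h (nodeSets_disjoint hinj β h1 (hw i))
  · rcases i with j | l
    · rw [radi_inl, hev]
      exact hx j
    · rw [radi_inr hinj, map_prod, Finset.prod_congr rfl fun i _ => hev _]
      exact hy l

end

end Pool.Agent.H92.GT.Cover
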