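import Mathlib

/-!
# Kummer theory: independence of radicals
-/

noncomputable section

namespace Pool.Agent.H92.GT.Kummer

lemma mem_range_of_isIntegral {L : Type*} [Field L] [Algebra ℂ L] {x : L} (hx : IsIntegral ℂ x) :
    x ∈ (algebraMap ℂ L).range :=
  minpoly.mem_range_of_degree_eq_one ℂ x
    (IsAlgClosed.degree_eq_one_of_irreducible ℂ (minpoly.irreducible hx))

section

variable {L : Type} [Field L] {σ : Type} [Fintype σ]

/-- The monomials in the radicals. -/
def mono {n : σ → ℕ} (ρ : σ → L) (κ : ∀ i, Fin (n i)) : L := ∏ i, ρ i ^ (κ i : ℕ)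

variable {K : Type} [Field K] [Algebra K L] [Algebra ℂ K] [Algebra ℂ L] [IsScalarTower ℂ K L]

lemma smul_root {g : L ≃ₐ[K] L} {n : ℕ} (hn : 0 < n) {ζ : L} (hζ : ζ ^ n = 1) : g ζ = ζ := by
  have h1 : IsIntegral ℂ ζ := IsIntegral.of_pow hn (by rw [hζ]; exact isIntegral_one)
  obtain ⟨c, hc⟩ := mem_range_of_isIntegral h1
  rw [← hc, IsScalarTower.algebraMap_apply ℂ K L, g.commutes]

/-- The character defined by a radical. -/
def chr {m : L} (hm : m ≠ 0) {n : ℕ} (hn : 0 < n) {a : K} (ha : m ^ n = algebraMap K L a) :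
    (L ≃ₐ[K] L) →* L where
  toFun g := g m / m
  map_one' := by rw [AlgEquiv.one_apply, div_self hm]
  map_mul' g h := by
    have h1 : (h m / m) ^ n = 1 := by
      rw [div_pow, ← map_pow, ha, h.commutes, ← ha, div_self (pow_ne_zero _ hm)]
    have h2 : g (h m / m) = h m / m := smul_root hn h1
    have h3 : g (h m) = g m * (h m / m) := by
      conv_lhs => rw [show h m = (h m / m) * m by field_simp]
      rw [map_mul, h2, mul_comm]
    rw [AlgEquiv.mul_apply, h3]
    field_simp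

lemma chr_apply {m : L} (hm : m ≠ 0) {n : ℕ} (hn : 0 < n) {a : K}
    (ha : m ^ n = algebraMap K L a) (g : L ≃ₐ[K] L) : chr hm hn ha g = g m / m := rfl

/-- **Independence of radicals.** -/
theorem indep [DecidableEq σ] [IsGalois K L] {n : σ → ℕ} (hn : ∀ i, 0 < n i) {ρ : σ → L} (hρ : ∀ i, ρ i ≠ 0)
    {u : σ → K} (hu : ∀ i, ρ i ^ n i = algebraMap K L (u i))
    (hne : ∀ κ κ' : ∀ i, Fin (n i), (∃ c : K, mono ρ κ = algebraMap K L c * mono ρ κ') → κ = κ')
    {g : (∀ i, Fin (n i)) → K} (hg : ∑ κ, algebraMap K L (g κ) * mono ρ κ = 0) (κ) : g κ = 0 := by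
  classical
  set M := ∏ i, n i with hM
  have hM0 : 0 < M := Finset.prod_pos fun i _ => hn i
  have hm0 : ∀ κ : ∀ i, Fin (n i), mono ρ κ ≠ 0 := fun κ =>
    Finset.prod_ne_zero_iff.mpr fun i _ => pow_ne_zero _ (hρ i)
  have hpow : ∀ κ : ∀ i, Fin (n i), mono ρ κ ^ M =
      algebraMap K L (∏ i, u i ^ ((M / n i) * (κ i : ℕ))) := by
    intro κ
    rw [mono, ← Finset.prod_pow, map_prod]
    refine Finset.prod_congr rfl fun i _ => ?_
    have h1 : M = n i * (M / n i) :=
      (Nat.mul_div_cancel' (Finset.dvd_prod_of_mem _ (Finset.mem_univ i))).symm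
    rw [map_pow, ← hu i, ← pow_mul, ← pow_mul]
    congr 1
    conv_lhs => rw [h1]
    ring
  set χ : (∀ i, Fin (n i)) → ((L ≃ₐ[K] L) →* L) := fun κ => chr (hm0 κ) hM0 (hpow κ) with hχ
  have hinj : Function.Injective χ := by
    intro κ κ' h
    apply hne
    have h1 : ∀ s : L ≃ₐ[K] L, s (mono ρ κ / mono ρ κ') = mono ρ κ / mono ρ κ' := by
      intro s
      have h2 := DFunLike.congr_fun h s
      rw [hχ] at h2
      simp only [chr_apply] at h2
      rw [map_div₀, div_eq_div_iff (by simpa using hm0 κ') (hm0 κ')]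
      rw [div_eq_div_iff (hm0 κ) (hm0 κ')] at h2
      linear_combination h2
    obtain ⟨c, hc⟩ := (InfiniteGalois.mem_range_algebraMap_iff_fixed (k := K) _).mpr h1
    refine ⟨c, ?_⟩
    rw [hc, div_mul_cancel₀ _ (hm0 κ')]
  have hli := (linearIndependent_monoidHom (L ≃ₐ[K] L) L).comp χ hinj
  rw [Fintype.linearIndependent_iff] at hli
  have h1 := hli (fun κ => algebraMap K L (g κ) * mono ρ κ) (by
    funext s
    rw [Finset.sum_apply, Pi.zero_apply]
    have h2 := congrArg s hg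
    rw [map_sum, map_zero] at h2
    rw [← h2]
    refine Finset.sum_congr rfl fun κ _ => ?_
    rw [map_mul, s.commutes, Pi.smul_apply, Function.comp_apply]
    change algebraMap K L (g κ) * mono ρ κ * (s (mono ρ κ) / mono ρ κ) = _
    field_simp [hm0 κ]) κ
  have h3 := (mul_eq_zero.mp h1).resolve_right (hm0 κ)
  exact (map_eq_zero _).mp h3

end

section UFD

variable {R : Type} [CommRing R] [IsDomain R] [WfDvdMonoid R] {σ : Type} [Fintype σ]
  [DecidableEq σ]

/-- Radicals of elements with distinct simple prime factors. -/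
theorem ratio_ne {L : Type} [Field L] [Algebra R L] [Algebra (FractionRing R) L]
    [IsScalarTower R (FractionRing R) L] {n : σ → ℕ}
    (hn : ∀ i, 0 < n i) {ρ : σ → L} {u : σ → R} (hu0 : ∀ i, u i ≠ 0)
    (hu : ∀ i, ρ i ^ n i = algebraMap R L (u i)) {p : σ → R} (hp : ∀ i, Prime (p i))
    (hmul : ∀ i j, emultiplicity (p i) (u j) = if j = i then 1 else 0)
    (κ κ' : ∀ i, Fin (n i))
    (h : ∃ c : FractionRing R, mono ρ κ = algebraMap (FractionRing R) L c * mono ρ κ') :
    κ = κ' := by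
  classical
  obtain ⟨c, hc⟩ := h
  set M := ∏ i, n i with hM
  have hM0 : 0 < M := Finset.prod_pos fun i _ => hn i
  have hMn : ∀ i, M = n i * (M / n i) := fun i =>
    (Nat.mul_div_cancel' (Finset.dvd_prod_of_mem _ (Finset.mem_univ i))).symm
  have hpow : ∀ κ : ∀ i, Fin (n i), mono ρ κ ^ M =
      algebraMap R L (∏ i, u i ^ ((M / n i) * (κ i : ℕ))) := by
    intro κ
    rw [mono, ← Finset.prod_pow, map_prod]
    refine Finset.prod_congr rfl fun i _ => ?_
    rw [map_pow, ← hu i, ← pow_mul, ← pow_mul]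
    congr 1
    conv_lhs => rw [hMn i]
    ring
  obtain ⟨g, h, hh, rfl⟩ := IsFractionRing.div_surjective (A := R) c
  have hh0 : h ≠ 0 := nonZeroDivisors.ne_zero hh
  have hRL : Function.Injective (algebraMap R L) := by
    rw [IsScalarTower.algebraMap_eq R (FractionRing R) L, RingHom.coe_comp]
    exact (algebraMap (FractionRing R) L).injective.comp (IsFractionRing.injective R _)
  have hhL : algebraMap R L h ≠ 0 := fun h0 => hh0 (hRL (by rw [h0, map_zero]))
  have hc' : algebraMap (FractionRing R) L (algebraMap R _ g / algebraMap R _ h) =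
      algebraMap R L g / algebraMap R L h := by
    rw [map_div₀, ← IsScalarTower.algebraMap_apply, ← IsScalarTower.algebraMap_apply]
  rw [hc'] at hc
  have h1 : h ^ M * ∏ i, u i ^ ((M / n i) * (κ i : ℕ)) =
      g ^ M * ∏ i, u i ^ ((M / n i) * (κ' i : ℕ)) := by
    apply hRL
    rw [map_mul, map_mul, ← hpow, ← hpow, hc, mul_pow, div_pow, map_pow, map_pow]
    field_simp
  have hg0 : g ≠ 0 := by
    rintro rfl
    rw [zero_pow hM0.ne', zero_mul] at h1
    rcases mul_eq_zero.mp h1 with h2 | h2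
    · exact pow_ne_zero _ hh0 h2
    · obtain ⟨i, -, h3⟩ := Finset.prod_eq_zero_iff.mp h2
      exact pow_ne_zero _ (hu0 i) h3
  funext i₀
  have h2 := congrArg (emultiplicity (p i₀)) h1
  have h3 : ∀ κ : ∀ i, Fin (n i), emultiplicity (p i₀) (∏ i, u i ^ ((M / n i) * (κ i : ℕ))) =
      (((M / n i₀) * (κ i₀ : ℕ) : ℕ) : ℕ∞) := by
    intro κ
    rw [Finset.emultiplicity_prod (hp i₀), Finset.sum_eq_single i₀]
    · rw [emultiplicity_pow (hp i₀), hmul, if_pos rfl, mul_one]
    · intro i _ hi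
      rw [emultiplicity_pow (hp i₀), hmul, if_neg hi, mul_zero]
    · intro h4
      exact absurd (Finset.mem_univ _) h4
  rw [emultiplicity_mul (hp i₀), emultiplicity_mul (hp i₀), h3, h3, emultiplicity_pow (hp i₀),
    emultiplicity_pow (hp i₀),
    (FiniteMultiplicity.of_prime_left (hp i₀) hh0).emultiplicity_eq_multiplicity,
    (FiniteMultiplicity.of_prime_left (hp i₀) hg0).emultiplicity_eq_multiplicity] at h2
  set a := multiplicity (p i₀) h
  set b := multiplicity (p i₀) g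
  have h4 : M * a + (M / n i₀) * (κ i₀ : ℕ) = M * b + (M / n i₀) * (κ' i₀ : ℕ) := by
    exact_mod_cast h2
  have hq : 0 < M / n i₀ := by
    rw [Nat.div_pos_iff]
    refine ⟨hn i₀, Nat.le_of_dvd hM0 (Finset.dvd_prod_of_mem _ (Finset.mem_univ i₀))⟩
  have h5 : (M / n i₀) * (n i₀ * a + (κ i₀ : ℕ)) = (M / n i₀) * (n i₀ * b + (κ' i₀ : ℕ)) := by
    have h6 := hMn i₀
    calc (M / n i₀) * (n i₀ * a + (κ i₀ : ℕ)) =
        (n i₀ * (M / n i₀)) * a + (M / n i₀) * (κ i₀ : ℕ) := by ring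
      _ = (n i₀ * (M / n i₀)) * b + (M / n i₀) * (κ' i₀ : ℕ) := by rw [← h6]; exact h4
      _ = _ := by ring
  have h6 := Nat.eq_of_mul_eq_mul_left hq h5
  apply Fin.ext
  have h7 := congrArg (fun x => x % n i₀) h6
  simp only [Nat.mul_add_mod] at h7
  rwa [Nat.mod_eq_of_lt (κ i₀).2, Nat.mod_eq_of_lt (κ' i₀).2] at h7

end UFD

end Pool.Agent.H92.GT.Kummer
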