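import Pool.Agent.H17LG.Variety
import Pool.Agent.H92.GT.ValRes

/-!
# Rational curves are not of general type
-/

open Polynomial IntermediateField
open Pool.Agent.H23.Fano (Form Diff ExtPow regularForms PrimeDivisorOver d)
open Pool.Agent.H17LG.Variety (PoleAtMost)

noncomputable section

namespace Pool.Agent.H92.GT.RatCurve

variable {K : Type} [Field K] [Algebra ℂ K]

/-- The isomorphism with the rational functions. -/
def toRat {u : K} (hu : Transcendental ℂ u) (htop : ℂ⟮u⟯ = ⊤) : RatFunc ℂ ≃ₐ[ℂ] K :=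
  (RatFunc.algEquivOfTranscendental u hu).trans
    ((IntermediateField.equivOfEq htop).trans IntermediateField.topEquiv)

lemma toRat_apply {u : K} (hu : Transcendental ℂ u) (htop : ℂ⟮u⟯ = ⊤) (f : RatFunc ℂ) :
    toRat hu htop f = aeval u f.num / aeval u f.denom := by
  rw [← RatFunc.algEquivOfTranscendental_apply u hu]
  rfl

lemma toRat_X {u : K} (hu : Transcendental ℂ u) (htop : ℂ⟮u⟯ = ⊤) :
    toRat hu htop RatFunc.X = u := by
  rw [toRat_apply, RatFunc.num_X, RatFunc.denom_X, aeval_X, map_one, div_one]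

/-- Reduced fractions. -/
lemma exists_frac {u : K} (hu : Transcendental ℂ u) (htop : ℂ⟮u⟯ = ⊤) (g : K) :
    ∃ p q : ℂ[X], IsCoprime p q ∧ q ≠ 0 ∧ g = aeval u p / aeval u q := by
  refine ⟨((toRat hu htop).symm g).num, ((toRat hu htop).symm g).denom,
    RatFunc.isCoprime_num_denom _, RatFunc.denom_ne_zero _, ?_⟩
  rw [← toRat_apply hu htop, AlgEquiv.apply_symm_apply]

lemma aeval_ne_zero {u : K} (hu : Transcendental ℂ u) {p : ℂ[X]} (hp : p ≠ 0) : aeval u p ≠ 0 :=
  fun h => hp ((transcendental_iff.mp hu) p h)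

/-- Rational functions as Laurent series. -/
def toLaurent : RatFunc ℂ →+* LaurentSeries ℂ :=
  IsFractionRing.lift (A := ℂ[X])
    (g := (HahnSeries.ofPowerSeries ℤ ℂ).comp Polynomial.coeToPowerSeries.ringHom)
    (HahnSeries.ofPowerSeries_injective.comp (Polynomial.coe_injective ℂ))

lemma toLaurent_C (c : ℂ) : toLaurent (algebraMap ℂ (RatFunc ℂ) c) = HahnSeries.C c := by
  have h1 : algebraMap ℂ (RatFunc ℂ) c = algebraMap ℂ[X] (RatFunc ℂ) (C c) := by
    rw [IsScalarTower.algebraMap_apply ℂ ℂ[X] (RatFunc ℂ)]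
    rfl
  rw [h1, toLaurent, IsFractionRing.lift_algebraMap]
  change HahnSeries.ofPowerSeries ℤ ℂ ((C c : ℂ[X]) : PowerSeries ℂ) = _
  rw [Polynomial.coe_C, HahnSeries.ofPowerSeries_C]

lemma toLaurent_X : toLaurent RatFunc.X = HahnSeries.single 1 1 := by
  rw [← RatFunc.algebraMap_X, toLaurent, IsFractionRing.lift_algebraMap]
  change HahnSeries.ofPowerSeries ℤ ℂ ((X : ℂ[X]) : PowerSeries ℂ) = _
  rw [Polynomial.coe_X, HahnSeries.ofPowerSeries_X]

/-- The prime divisor with a given uniformizer. -/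
theorem exists_divisor {u : K} (hu : Transcendental ℂ u) (htop : ℂ⟮u⟯ = ⊤) :
    ∃ E : PrimeDivisorOver K 1, E.ord u = 1 := by
  set φ : K →+* LaurentSeries ℂ := toLaurent.comp
    ((toRat hu htop).symm : K ≃ₐ[ℂ] RatFunc ℂ).toRingEquiv.toRingHom with hφ
  have hφapp : ∀ f, φ f = toLaurent ((toRat hu htop).symm f) := fun _ => rfl
  set v : AddValuation K (WithTop ℤ) := (HahnSeries.addVal ℤ ℂ).comap φ with hv
  have hvapp : ∀ f, v f = HahnSeries.addVal ℤ ℂ (φ f) := fun _ => rfl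
  have hc : ∀ c : ℂ, 0 ≤ v (algebraMap ℂ K c) := by
    intro c
    rw [hvapp, hφapp, AlgEquiv.commutes, toLaurent_C]
    by_cases h0 : c = 0
    · rw [h0, map_zero, AddValuation.map_zero]
      exact le_top
    · rw [HahnSeries.addVal_apply, HahnSeries.C_apply, HahnSeries.orderTop_single h0]
      exact le_rfl
  have hu1 : v u = 1 := by
    have h2 : (toRat hu htop).symm u = RatFunc.X := by
      rw [AlgEquiv.symm_apply_eq, toRat_X]
    rw [hvapp, hφapp, h2, toLaurent_X, HahnSeries.addVal_apply,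
      HahnSeries.orderTop_single one_ne_zero]
    rfl
  refine ⟨⟨v, hc, ⟨u, hu1⟩, ⟨Fin.elim0, fun i => i.elim0, ?_⟩⟩, hu1⟩
  intro p hp
  obtain ⟨c, rfl⟩ := MvPolynomial.C_surjective (Fin 0) p
  have hc0 : c ≠ 0 := by
    rintro rfl
    exact hp (map_zero _)
  have h1 : MvPolynomial.aeval (Fin.elim0 : Fin 0 → K) (MvPolynomial.C c) = algebraMap ℂ K c :=
    MvPolynomial.aeval_C _ _
  exact (congrArg v h1).trans (val_const hc hc0)

section Val

variable {v : AddValuation K (WithTop ℤ)} (hv : ∀ c : ℂ, 0 ≤ v (algebraMap ℂ K c))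
  {s : K} {a : ℂ} (hs : v (s - algebraMap ℂ K a) = 1)

include hv hs

lemma val_s : 0 ≤ v s := by
  have h1 : s = (s - algebraMap ℂ K a) + algebraMap ℂ K a := by ring
  rw [h1]
  refine le_trans (le_min ?_ (hv a)) (v.map_add _ _)
  rw [hs]
  exact zero_le_one

lemma val_aeval (p : ℂ[X]) : 0 ≤ v (aeval s p) := by
  induction p using Polynomial.induction_on' with
  | add p q hp hq =>
    rw [map_add]
    exact le_trans (le_min hp hq) (v.map_add _ _)
  | monomial n c =>
    rw [aeval_monomial, v.map_mul, v.map_pow]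
    exact add_nonneg (hv c) (nsmul_nonneg (val_s hv hs) n)

lemma val_aeval_root {p : ℂ[X]} (hp : p.eval a = 0) : 1 ≤ v (aeval s p) := by
  obtain ⟨q, hq⟩ := dvd_iff_isRoot.mpr (show p.IsRoot a from hp)
  rw [hq, map_mul, v.map_mul, map_sub, aeval_X, aeval_C, hs]
  exact le_add_of_nonneg_right (val_aeval hv hs q)

lemma val_aeval_of_ne {p : ℂ[X]} (hp : p.eval a ≠ 0) : v (aeval s p) = 0 := by
  have h1 : aeval s p = aeval s (p - C (p.eval a)) + algebraMap ℂ K (p.eval a) := by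
    rw [map_sub, aeval_C]
    ring
  have h2 : 1 ≤ v (aeval s (p - C (p.eval a))) :=
    val_aeval_root hv hs (by rw [eval_sub, eval_C, sub_self])
  have h3 : v (algebraMap ℂ K (p.eval a)) = 0 := val_const hv hp
  rw [h1, v.map_add_eq_of_lt_right, h3]
  rw [h3]
  exact lt_of_lt_of_le zero_lt_one h2

end Val

/-- Differentials of regular functions. -/
lemma exists_coeff {u : K} (hu : Transcendental ℂ u) (htop : ℂ⟮u⟯ = ⊤) {E : PrimeDivisorOver K 1}
    (hE : E.ord u = 1) {g : K} (hg : 0 ≤ E.ord g) : ∃ w, 0 ≤ E.ord w ∧ d g = w • d u := by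
  have hE' : E.ord (u - algebraMap ℂ K 0) = 1 := by rw [map_zero, sub_zero, hE]
  obtain ⟨p, q, hpq, hq, rfl⟩ := exists_frac hu htop g
  have hq0 : q.eval 0 ≠ 0 := by
    intro h0
    have h1 : p.eval 0 ≠ 0 := by
      intro h1
      obtain ⟨a, b, hab⟩ := hpq
      have h2 := congrArg (fun P : ℂ[X] => P.eval 0) hab
      simp only [eval_add, eval_mul, h0, h1, mul_zero, add_zero, eval_one] at h2
      exact zero_ne_one h2
    have h2 := val_aeval_of_ne E.ord_const hE' h1
    have h3 := val_aeval_root E.ord_const hE' h0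
    have h4 : E.ord (aeval u p) = E.ord (aeval u p / aeval u q) + E.ord (aeval u q) := by
      rw [← E.ord.map_mul, div_mul_cancel₀ _ (aeval_ne_zero hu hq)]
    rw [h2] at h4
    have h5 := add_le_add hg h3
    rw [← h4, zero_add] at h5
    exact absurd h5 (by decide)
  have hvq : E.ord (aeval u q) = 0 := val_aeval_of_ne E.ord_const hE' hq0
  have hvq' : E.ord ((aeval u q)⁻¹ ^ 2) = 0 := by
    have h1 : E.ord ((aeval u q)⁻¹ ^ 2) + 2 • E.ord (aeval u q) = 0 := by
      rw [← E.ord.map_pow, ← E.ord.map_mul, ← mul_pow, inv_mul_cancel₀ (aeval_ne_zero hu hq),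
        one_pow, E.ord.map_one]
    rwa [hvq, nsmul_zero, add_zero] at h1
  refine ⟨(aeval u q)⁻¹ ^ 2 * aeval u (q * derivative p - p * derivative q), ?_, ?_⟩
  · rw [E.ord.map_mul, hvq', zero_add]
    exact val_aeval E.ord_const hE' _
  · have h1 : KaehlerDifferential.D ℂ K (aeval u p / aeval u q) =
        ((aeval u q)⁻¹ ^ 2 * aeval u (q * derivative p - p * derivative q)) •
          KaehlerDifferential.D ℂ K u := by
      rw [Derivation.leibniz_div, Derivation.map_aeval, Derivation.map_aeval, smul_smul, smul_smul,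
        ← sub_smul, smul_smul, map_sub, map_mul, map_mul]
    exact h1

/-- The basic form. -/
def w₀ (u : K) : Form K 1 := Form.mk 1 fun _ => u

lemma mk_eq {c w : K} {a : Fin 1 → K} {u : K} (h : d (a 0) = w • d u) :
    Form.mk c a = (c * w) • w₀ u := by
  have h1 : (fun i => d (a i)) = fun i : Fin 1 => w • (fun _ : Fin 1 => d u) i := by
    funext i
    rw [Subsingleton.elim i 0, h]
  have h2 : exteriorPower.ιMulti K 1 (fun i => d (a i) : Fin 1 → Ω[K⁄ℂ]) =
      w • exteriorPower.ιMulti K 1 (fun _ => d u : Fin 1 → Ω[K⁄ℂ]) := by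
    rw [show (fun i => d (a i) : Fin 1 → Ω[K⁄ℂ]) = fun i : Fin 1 => w • (fun _ => d u :
      Fin 1 → Ω[K⁄ℂ]) i from h1]
    have h3 := (exteriorPower.ιMulti K 1 (M := Ω[K⁄ℂ])).map_smul_univ (fun _ : Fin 1 => w)
      (fun _ => d u : Fin 1 → Ω[K⁄ℂ])
    rw [Finset.prod_const, Finset.card_univ, Fintype.card_fin, pow_one] at h3
    exact h3
  have h4 : (c • exteriorPower.ιMulti K 1 (fun i => d (a i) : Fin 1 → Ω[K⁄ℂ]) : ⋀[K]^1 Ω[K⁄ℂ]) =
      (c * w) • ((1 : K) • exteriorPower.ιMulti K 1 (fun _ => d u : Fin 1 → Ω[K⁄ℂ])) := by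
    rw [h2, one_smul, mul_smul]
  exact h4

/-- Regular forms. -/
lemma exists_coeff_form {u : K} (hu : Transcendental ℂ u) (htop : ℂ⟮u⟯ = ⊤)
    {E : PrimeDivisorOver K 1} (hE : E.ord u = 1) {η : Form K 1}
    (hη : η ∈ regularForms 1 E.localRing) : ∃ w, 0 ≤ E.ord w ∧ η = w • w₀ u := by
  unfold regularForms at hη
  induction hη using AddSubgroup.closure_induction with
  | mem η h =>
    obtain ⟨c, a, hc, ha, rfl⟩ := h
    obtain ⟨w, hw, hw'⟩ := exists_coeff hu htop hE (ha 0)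
    refine ⟨c * w, ?_, mk_eq hw'⟩
    rw [E.ord.map_mul]
    exact add_nonneg hc hw
  | zero => exact ⟨0, by rw [E.ord.map_zero]; exact le_top, by rw [zero_smul]⟩
  | add x y _ _ hx hy =>
    obtain ⟨w, hw, rfl⟩ := hx
    obtain ⟨w', hw', rfl⟩ := hy
    exact ⟨w + w', le_trans (le_min hw hw') (E.ord.map_add _ _), (add_smul _ _ _).symm⟩
  | neg x _ hx =>
    obtain ⟨w, hw, rfl⟩ := hx
    exact ⟨-w, by rwa [E.ord.map_neg], (neg_smul _ _).symm⟩

lemma adjoin_sub {s : K} (htop : ℂ⟮s⟯ = ⊤) (a : ℂ) : ℂ⟮s - algebraMap ℂ K a⟯ = ⊤ := by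
  rw [eq_top_iff, ← htop, adjoin_simple_le_iff]
  have h1 : s = (s - algebraMap ℂ K a) + algebraMap ℂ K a := by ring
  have h2 : (s - algebraMap ℂ K a) + algebraMap ℂ K a ∈ ℂ⟮s - algebraMap ℂ K a⟯ :=
    add_mem (mem_adjoin_simple_self ℂ _) (IntermediateField.algebraMap_mem _ a)
  rwa [← h1] at h2

lemma adjoin_inv {s : K} (htop : ℂ⟮s⟯ = ⊤) : ℂ⟮s⁻¹⟯ = ⊤ := by
  rw [eq_top_iff, ← htop, adjoin_simple_le_iff]
  have h1 : (s⁻¹)⁻¹ ∈ ℂ⟮s⁻¹⟯ := inv_mem (mem_adjoin_simple_self ℂ _)
  rwa [inv_inv] at h1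

lemma transcendental_sub {s : K} (hs : Transcendental ℂ s) (a : ℂ) :
    Transcendental ℂ (s - algebraMap ℂ K a) := by
  intro h
  apply hs
  have h1 := h.add (isAlgebraic_algebraMap (A := K) a)
  rwa [sub_add_cancel] at h1

lemma transcendental_inv {s : K} (hs : Transcendental ℂ s) : Transcendental ℂ s⁻¹ := by
  intro h
  apply hs
  have h1 := h.inv
  rwa [inv_inv] at h1

/-- **Rational curves are not of general type.** -/
theorem not_poleAtMost {s : K} (hs : Transcendental ℂ s) (htop : ℂ⟮s⟯ = ⊤) {m : ℕ} (hm : 1 ≤ m)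
    {ω : Form K 1} (hω : ω ≠ 0) {f : K} (hf : f ≠ 0) :
    ¬ ∀ E : PrimeDivisorOver K 1, PoleAtMost 0 E m f ω := by
  intro hall
  have hs0 : s ≠ 0 := by
    rintro rfl
    exact hs isAlgebraic_zero
  -- the finite places
  have hfin : ∀ a : ℂ, ∃ (E : PrimeDivisorOver K 1) (h : K), E.ord (s - algebraMap ℂ K a) = 1 ∧
      ω = h • w₀ s ∧ 0 ≤ E.ord (f * h ^ m) := by
    intro a
    obtain ⟨E, hE⟩ := exists_divisor (transcendental_sub hs a) (adjoin_sub htop a)
    obtain ⟨g, η, hη, hω', hord⟩ := hall E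
    obtain ⟨w, hw, hηw⟩ := exists_coeff_form (transcendental_sub hs a) (adjoin_sub htop a) hE hη
    have h1 : w₀ (s - algebraMap ℂ K a) = w₀ s := by
      have h2 : d (s - algebraMap ℂ K a) = (1 : K) • d s := by
        have h3 : KaehlerDifferential.D ℂ K (s - algebraMap ℂ K a) =
            (1 : K) • KaehlerDifferential.D ℂ K s := by
          rw [map_sub, Derivation.map_algebraMap, sub_zero, one_smul]
        exact h3
      have h4 := mk_eq (c := 1) (a := fun _ : Fin 1 => s - algebraMap ℂ K a) h2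
      rw [one_mul, one_smul] at h4
      exact h4
    refine ⟨E, g * w, hE, ?_, ?_⟩
    · rw [hω', hηw, h1, smul_smul]
    · rw [Nat.cast_zero, add_zero] at hord
      rw [mul_pow, ← mul_assoc, E.ord.map_mul, E.ord.map_pow]
      exact add_nonneg hord (nsmul_nonneg hw m)
  -- the place at infinity
  obtain ⟨E', hE'⟩ := exists_divisor (transcendental_inv hs) (adjoin_inv htop)
  have hE'' : E'.ord (s⁻¹ - algebraMap ℂ K 0) = 1 := by rw [map_zero, sub_zero, hE']
  have hinf : ∃ h : K, ω = h • w₀ s ∧ 2 ≤ E'.ord (f * h ^ m) := by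
    obtain ⟨g, η, hη, hω', hord⟩ := hall E'
    obtain ⟨w, hw, hηw⟩ := exists_coeff_form (transcendental_inv hs) (adjoin_inv htop) hE' hη
    have h1 : w₀ s⁻¹ = (-(s⁻¹ ^ 2)) • w₀ s := by
      have h2 : d s⁻¹ = (-(s⁻¹ ^ 2)) • d s := by
        have h3 : KaehlerDifferential.D ℂ K s⁻¹ =
            (-(s⁻¹ ^ 2)) • KaehlerDifferential.D ℂ K s := by
          rw [Derivation.leibniz_inv]
        exact h3
      have h4 := mk_eq (c := 1) (a := fun _ : Fin 1 => s⁻¹) h2
      rw [one_mul] at h4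
      exact h4
    refine ⟨g * w * (-(s⁻¹ ^ 2)), ?_, ?_⟩
    · rw [hω', hηw, h1, smul_smul, smul_smul, mul_assoc]
    · rw [Nat.cast_zero, add_zero] at hord
      have h5 : f * (g * w * (-(s⁻¹ ^ 2))) ^ m = f * g ^ m * w ^ m * (-1) ^ m *
          (s⁻¹ ^ (2 * m)) := by
        rw [mul_pow, mul_pow, neg_pow, ← pow_mul]
        ring
      have h6 : E'.ord ((-1 : K) ^ m) = 0 := by
        rw [E'.ord.map_pow, E'.ord.map_neg, E'.ord.map_one, nsmul_zero]
      have h7 : (2 : WithTop ℤ) ≤ E'.ord (s⁻¹ ^ (2 * m)) := by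
        rw [E'.ord.map_pow, hE', nsmul_one]
        exact_mod_cast (by omega : 2 ≤ 2 * m)
      rw [h5, E'.ord.map_mul, E'.ord.map_mul, E'.ord.map_mul, h6, add_zero, E'.ord.map_pow]
      have h8 := add_nonneg hord (nsmul_nonneg hw m)
      calc (2 : WithTop ℤ) = 0 + 2 := by rw [zero_add]
        _ ≤ _ := add_le_add h8 h7
  -- uniqueness of the coefficient
  have huniq : ∀ h h' : K, ω = h • w₀ s → ω = h' • w₀ s → h = h' := by
    intro h h' h1 h2
    have h3 : w₀ s ≠ 0 := by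
      intro h0
      apply hω
      rw [h1, h0, smul_zero]
    rw [h1] at h2
    exact smul_left_injective K h3 h2
  obtain ⟨h, hωh, hinf'⟩ := hinf
  have hh0 : h ≠ 0 := by
    rintro rfl
    apply hω
    rw [hωh, zero_smul]
  set F := f * h ^ m with hF
  have hF0 : F ≠ 0 := mul_ne_zero hf (pow_ne_zero _ hh0)
  obtain ⟨p, q, hpq, hq, hFpq⟩ := exists_frac hs htop F
  have hp0 : p ≠ 0 := by
    rintro rfl
    rw [map_zero, zero_div] at hFpq
    exact hF0 hFpq
  -- there are no finite poles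
  have hqdeg : q.natDegree = 0 := by
    by_contra hcon
    obtain ⟨a, ha⟩ := IsAlgClosed.exists_root q (by
      rw [degree_eq_natDegree hq]
      exact_mod_cast hcon)
    obtain ⟨E, h', hE, hωh', hord⟩ := hfin a
    rw [huniq h' h hωh' hωh, ← hF] at hord
    have h1 : p.eval a ≠ 0 := by
      intro h1
      obtain ⟨x, y, hab⟩ := hpq
      have h2 := congrArg (fun P : ℂ[X] => P.eval a) hab
      have h3 : q.eval a = 0 := ha
      simp only [eval_add, eval_mul, h3, h1, mul_zero, add_zero, eval_one] at h2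
      exact zero_ne_one h2
    have h2 := val_aeval_of_ne E.ord_const hE h1
    have h3 := val_aeval_root E.ord_const hE ha
    have h4 : E.ord (aeval s p) = E.ord F + E.ord (aeval s q) := by
      rw [← E.ord.map_mul, hFpq, div_mul_cancel₀ _ (aeval_ne_zero hs hq)]
    rw [h2] at h4
    have h5 := add_le_add hord h3
    rw [← h4, zero_add] at h5
    exact absurd h5 (by decide)
  -- the order at infinity
  obtain ⟨c, hc⟩ : ∃ c, q = C c := ⟨q.coeff 0, eq_C_of_natDegree_eq_zero hqdeg⟩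
  have hc0 : c ≠ 0 := by
    rintro rfl
    exact hq (by rw [hc, C_0])
  have h1 : F * s⁻¹ ^ p.natDegree * algebraMap ℂ K c = aeval s⁻¹ p.reverse := by
    have h2 : aeval s p = aeval s⁻¹ p.reverse * s ^ p.natDegree := by
      let _ : Invertible s := invertibleOfNonzero hs0
      have h3 := Polynomial.eval₂_reverse_mul_pow (algebraMap ℂ K) s p
      rw [invOf_eq_inv] at h3
      exact h3.symm
    rw [hFpq, hc, aeval_C, h2, div_mul_eq_mul_div, div_mul_cancel₀, mul_assoc, ← mul_pow,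
      mul_inv_cancel₀ hs0, one_pow, mul_one]
    exact (map_ne_zero (algebraMap ℂ K)).mpr hc0
  have h2 : E'.ord (aeval s⁻¹ p.reverse) = 0 := by
    refine val_aeval_of_ne E'.ord_const hE'' ?_
    rw [← coeff_zero_eq_eval_zero, coeff_zero_reverse]
    exact leadingCoeff_ne_zero.mpr hp0
  rw [← h1, E'.ord.map_mul, E'.ord.map_mul, val_const E'.ord_const hc0, add_zero,
    E'.ord.map_pow, hE', nsmul_one] at h2
  have h3 : (2 : WithTop ℤ) ≤ 0 := by
    calc (2 : WithTop ℤ) ≤ E'.ord F := hinf'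
      _ ≤ E'.ord F + (p.natDegree : WithTop ℤ) := le_add_of_nonneg_right (by positivity)
      _ = 0 := h2
  exact absurd h3 (by decide)

end Pool.Agent.H92.GT.RatCurve
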