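import Pool.Agent.H92.GT.ProjGeneric
import Pool.Agent.H92.GT.RationalCurve

/-!
# The ideal and the function field of a line
-/

open MvPolynomial IntermediateField
open Pool.Agent.H17GT (coordFun functionField)
open Pool.Agent.H17LG.Variety (FunField)

noncomputable section

namespace Pool.Agent.H92.GT.Proj

variable {N : ℕ}

lemma eval_scale {Q : MvPolynomial (Fin (N + 1)) ℂ} {n : ℕ} (hQ : Q.IsHomogeneous n) (c : ℂ)
    (x : Fin (N + 1) → ℂ) : eval (c • x) Q = c ^ n * eval x Q := by
  have h1 := aeval_scale (K := ℂ) hQ c x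
  rw [aeval_def, aeval_def] at h1
  exact h1

/-- A homogeneous polynomial vanishes on a line if it vanishes on an affine line. -/
lemma vanish_on_line {Q : MvPolynomial (Fin (N + 1)) ℂ} {n : ℕ} (hQ : Q.IsHomogeneous n)
    {v w : Fin (N + 1) → ℂ} (h : ∀ z : ℂ, eval (v + z • w) Q = 0) (a b : ℂ) :
    eval (a • v + b • w) Q = 0 := by
  have h1 : ∀ a ≠ (0 : ℂ), eval (a • v + b • w) Q = 0 := by
    intro a ha
    have h2 : a • v + b • w = a • (v + (b / a) • w) := by
      rw [smul_add, smul_smul, mul_div_cancel₀ _ ha]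
    rw [h2, eval_scale hQ, h, mul_zero]
  set R : Polynomial ℂ := aeval (fun j => Polynomial.C (b * w j) + Polynomial.C (v j) *
    Polynomial.X) Q with hR
  have h3 : ∀ a : ℂ, R.eval a = eval (a • v + b • w) Q := by
    intro a
    have h4 := MvPolynomial.map_aeval (fun j => Polynomial.C (b * w j) + Polynomial.C (v j) *
      Polynomial.X) (Polynomial.evalRingHom a) Q
    rw [← hR] at h4
    have h5 : R.eval a = Polynomial.evalRingHom a R := rfl
    rw [h5, h4]
    have h6 : ((Polynomial.evalRingHom a).comp (algebraMap ℂ (Polynomial ℂ))) = RingHom.id ℂ := by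
      ext c
      simp
    rw [h6]
    have h7 : (fun j => (Polynomial.evalRingHom a) (Polynomial.C (b * w j) + Polynomial.C (v j) *
        Polynomial.X)) = a • v + b • w := by
      funext j
      simp
      ring
    rw [h7]
    rfl
  have h4 : R = 0 := by
    refine Polynomial.eq_zero_of_infinite_isRoot R ((Set.finite_singleton (0 : ℂ)).infinite_compl.mono
      fun a ha => ?_)
    have h5 : R.eval a = 0 := by rw [h3, h1 a ha]
    exact h5
  rw [← h3, h4, Polynomial.eval_zero]

/-- **The ideal and the function field of a line.** -/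
theorem exists_line_ideal {v w : Fin (N + 1) → ℂ}
    (hind : ∀ a b : ℂ, a • v + b • w = 0 → a = 0 ∧ b = 0) :
    ∃ (P : Ideal (MvPolynomial (Fin (N + 1)) ℂ)) (_ : P.IsPrime),
      (∀ Q ∈ P, ∀ n, homogeneousComponent n Q ∈ P) ∧
      (∀ (Q : MvPolynomial (Fin (N + 1)) ℂ) (n : ℕ), Q.IsHomogeneous n →
        (Q ∈ P ↔ ∀ a b : ℂ, eval (a • v + b • w) Q = 0)) ∧
      (∃ z : Fin 1 → FunField P, IsTranscendenceBasis ℂ z) ∧
      ∃ s : FunField P, Transcendental ℂ s ∧ ℂ⟮s⟯ = ⊤ := by
  classical
  set ρ : Fin (N + 1) → RatFunc ℂ := fun j =>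
    algebraMap (Polynomial ℂ) (RatFunc ℂ) (Polynomial.C (v j) + Polynomial.C (w j) * Polynomial.X)
    with hρ
  set P := genIdeal ρ with hP
  have hmem : ∀ (Q : MvPolynomial (Fin (N + 1)) ℂ) (n : ℕ), Q.IsHomogeneous n →
        (Q ∈ P ↔ ∀ a b : ℂ, eval (a • v + b • w) Q = 0) := by
    intro Q n hQ
    rw [hP, mem_genIdeal_of_homogeneous hQ]
    set R : Polynomial ℂ := aeval (fun j => Polynomial.C (v j) + Polynomial.C (w j) *
      Polynomial.X) Q with hR
    have h1 : aeval ρ Q = algebraMap (Polynomial ℂ) (RatFunc ℂ) R := by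
      rw [hR]
      have h2 := MvPolynomial.comp_aeval_apply (R := ℂ) (fun j => Polynomial.C (v j) +
        Polynomial.C (w j) * Polynomial.X)
        (IsScalarTower.toAlgHom ℂ (Polynomial ℂ) (RatFunc ℂ)) Q
      exact h2.symm
    have h3 : ∀ z : ℂ, R.eval z = eval (v + z • w) Q := by
      intro a
      have h4 := MvPolynomial.map_aeval (fun j => Polynomial.C (v j) + Polynomial.C (w j) *
        Polynomial.X) (Polynomial.evalRingHom a) Q
      rw [← hR] at h4
      have h5 : R.eval a = Polynomial.evalRingHom a R := rfl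
      rw [h5, h4]
      have h6 : ((Polynomial.evalRingHom a).comp (algebraMap ℂ (Polynomial ℂ))) = RingHom.id ℂ := by
        ext c
        simp
      rw [h6]
      have h7 : (fun j => (Polynomial.evalRingHom a) (Polynomial.C (v j) + Polynomial.C (w j) *
          Polynomial.X)) = v + a • w := by
        funext j
        simp
        ring
      rw [h7]
      rfl
    rw [h1, map_eq_zero_iff _ (RatFunc.algebraMap_injective ℂ)]
    constructor
    · intro h0
      exact vanish_on_line hQ fun z => by rw [← h3, h0, Polynomial.eval_zero]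
    · intro h0
      refine Polynomial.funext fun z => ?_
      rw [h3, Polynomial.eval_zero]
      have h4 := h0 1 z
      rwa [one_smul] at h4
  -- a non-zero minor
  obtain ⟨i₀, j₀, hΔ⟩ : ∃ i₀ j₀, v i₀ * w j₀ - v j₀ * w i₀ ≠ 0 := by
    by_contra hcon
    push Not at hcon
    obtain ⟨j, hj⟩ : ∃ j, v j ≠ 0 := by
      by_contra h0
      push Not at h0
      refine one_ne_zero (hind 1 0 ?_).1
      funext j
      simp [h0 j]
    refine hj (hind (-w j) (v j) ?_).2
    funext i
    simp only [Pi.add_apply, Pi.smul_apply, smul_eq_mul, Pi.zero_apply]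
    linear_combination -hcon i j
  set Δ := v i₀ * w j₀ - v j₀ * w i₀ with hΔdef
  have hX : ∀ j : Fin (N + 1), (X j : MvPolynomial (Fin (N + 1)) ℂ).IsHomogeneous 1 := fun j =>
    isHomogeneous_X ℂ j
  have hCX : ∀ (c : ℂ) (j : Fin (N + 1)),
      (C c * X j : MvPolynomial (Fin (N + 1)) ℂ).IsHomogeneous 1 := fun c j =>
    (hX j).C_mul c
  have hj₀ : coordFun P j₀ ≠ 0 := by
    intro h0
    have h1 := (aeval_coordFun_eq_zero_iff P (X j₀)).mp (by rw [aeval_X]; exact h0)
    rw [hmem _ 1 (hX j₀)] at h1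
    have h2 := h1 1 0
    have h3 := h1 0 1
    simp only [eval_X, Pi.add_apply, Pi.smul_apply, smul_eq_mul, one_mul, zero_mul, add_zero,
      zero_add] at h2 h3
    apply hΔ
    rw [hΔdef, h2, h3, mul_zero, zero_mul, sub_zero]
  obtain ⟨x, hx1, hgen, hker⟩ := proj_point P hj₀
  have hcoord : ∀ k, ∃ α β : ℂ, x k = algebraMap ℂ _ α * x i₀ + algebraMap ℂ _ β := by
    intro k
    refine ⟨(v k * w j₀ - w k * v j₀) / Δ, (v i₀ * w k - w i₀ * v k) / Δ, ?_⟩
    set α := (v k * w j₀ - w k * v j₀) / Δ with hα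
    set β := (v i₀ * w k - w i₀ * v k) / Δ with hβ
    have hv : v k = α * v i₀ + β * v j₀ := by
      rw [hα, hβ]
      field_simp
      rw [hΔdef]
      ring
    have hw : w k = α * w i₀ + β * w j₀ := by
      rw [hα, hβ]
      field_simp
      rw [hΔdef]
      ring
    have h1 : (X k - (C α * X i₀ + C β * X j₀) : MvPolynomial (Fin (N + 1)) ℂ) ∈ P := by
      rw [hmem _ 1 ((hX k).sub ((hCX α i₀).add (hCX β j₀)))]
      intro a b
      simp only [map_sub, map_add, map_mul, eval_X, eval_C, Pi.add_apply, Pi.smul_apply,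
        smul_eq_mul]
      rw [hv, hw]
      ring
    have h2 := (hker 1 _ ((hX k).sub ((hCX α i₀).add (hCX β j₀)))).mpr h1
    rw [map_sub, map_add, map_mul, map_mul, aeval_X, aeval_X, aeval_X, aeval_C, aeval_C, hx1,
      mul_one, sub_eq_zero] at h2
    exact h2
  set s : functionField P := x i₀ with hs
  have htop : IntermediateField.adjoin ℂ {s} = ⊤ := by
    rw [eq_top_iff, ← hgen, IntermediateField.adjoin_le_iff]
    rintro _ ⟨k, rfl⟩
    obtain ⟨α, β, h1⟩ := hcoord k
    rw [h1]
    exact add_mem (mul_mem (IntermediateField.algebraMap_mem _ α)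
      (IntermediateField.mem_adjoin_simple_self ℂ s)) (IntermediateField.algebraMap_mem _ β)
  have htrans : Transcendental ℂ s := by
    intro halg
    obtain ⟨c, hc⟩ : ∃ c : ℂ, algebraMap ℂ (functionField P) c = s := by
      have hint : IsIntegral ℂ s := halg.isIntegral
      have h : (minpoly ℂ s).degree = 1 :=
        IsAlgClosed.degree_eq_one_of_irreducible ℂ (minpoly.irreducible hint)
      exact minpoly.mem_range_of_degree_eq_one ℂ s h
    have h1 : (X i₀ - C c * X j₀ : MvPolynomial (Fin (N + 1)) ℂ) ∈ P := by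
      rw [← hker 1 _ ((hX i₀).sub (hCX c j₀)), map_sub, map_mul, aeval_X, aeval_X, aeval_C, hx1,
        mul_one, hc, sub_self]
    rw [hmem _ 1 ((hX i₀).sub (hCX c j₀))] at h1
    have h2 := h1 1 0
    have h3 := h1 0 1
    simp only [map_sub, map_mul, eval_X, eval_C, Pi.add_apply, Pi.smul_apply, smul_eq_mul, one_mul,
      zero_mul, add_zero, zero_add] at h2 h3
    apply hΔ
    rw [hΔdef]
    linear_combination w j₀ * h2 - v j₀ * h3
  have hrange : Set.range (fun _ : Fin 1 => s) = {s} := by
    ext f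
    constructor
    · rintro ⟨_, rfl⟩
      rfl
    · rintro rfl
      exact ⟨0, rfl⟩
  have hbasis : IsTranscendenceBasis ℂ (fun _ : Fin 1 => s) := by
    refine isTranscendenceBasis_of ?_ ?_
    · rw [algebraicIndependent_unique_type_iff]
      exact htrans
    · rw [hrange, htop]
      exact ⟨fun f => isAlgebraic_algebraMap (⟨f, IntermediateField.mem_top⟩ :
        (⊤ : IntermediateField ℂ (functionField P)))⟩
  exact ⟨P, inferInstance, genIdeal_homogeneous ρ, hmem, ⟨_, hbasis⟩, s, htrans, htop⟩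

end Pool.Agent.H92.GT.Proj
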