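import Pool.Agent.H92.GT.Top
import Pool.Agent.H92.GT.Content

/-!
# Log general type from a moving polynomial
-/

open Polynomial
open Pool.Agent.H23 (RatForm regularForms PrimeDivisorOver dualDer)
open Pool.Agent.H17LG (IsLogGeneralType)
open UniqueFactorizationMonoid (normalizedFactors)

noncomputable section

namespace Pool.Agent.H92.GT

lemma wt_of_mul {X Y : WithTop ℤ} {q y : ℤ} (h : X + ((q : ℤ) : WithTop ℤ) = Y)
    (hY : ((y : ℤ) : WithTop ℤ) ≤ Y) : ((y - q : ℤ) : WithTop ℤ) ≤ X := by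
  induction X using WithTop.recTopCoe with
  | top => exact le_top
  | coe a =>
    rw [← h] at hY
    have h1 : y ≤ a + q := by exact_mod_cast hY
    exact_mod_cast (by omega : y - q ≤ a)

lemma wt_nsmul_ge (n : ℕ) {X : WithTop ℤ} {a : ℤ} (h : ((a : ℤ) : WithTop ℤ) ≤ X) :
    ((n * a : ℤ) : WithTop ℤ) ≤ n • X := by
  induction n with
  | zero => simp
  | succ n ih =>
    have h2 : ((n + 1 : ℕ) : ℤ) * a = n * a + a := by
      push_cast
      ring
    rw [h2, succ_nsmul, WithTop.coe_add]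
    exact add_le_add ih h

lemma mul_id_aux {K : Type} [Field K] (T y D : K) {Q : K} (hQ : Q ≠ 0) (M ρ : ℕ) :
    T ^ M / Q * y * D ^ (M * ρ) * Q = (T * D ^ ρ) ^ M * y := by
  rw [mul_pow, ← pow_mul, mul_comm ρ M]
  field_simp

variable {K : Type} [Field K] [Algebra ℂ K] {k : ℕ}

omit [Algebra ℂ K] in
/-- The data at a prime divisor. -/
lemma exists_pole_order {N : ℕ} {x : Fin (N + 1) → K} {j₀ : Fin (N + 1)} (hj₀ : x j₀ = 1)
    (v : AddValuation K (WithTop ℤ)) :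
    ∃ n : ℕ, (∀ j, ((-(n : ℤ) : ℤ) : WithTop ℤ) ≤ v (x j)) ∧
      ∃ j, v (x j) = ((-(n : ℤ) : ℤ) : WithTop ℤ) := by
  obtain ⟨j₁, -, hj₁⟩ := Finset.exists_min_image (Finset.univ : Finset (Fin (N + 1)))
    (fun j => v (x j)) Finset.univ_nonempty
  have hj₁0 : v (x j₁) ≤ 0 := by
    have h1 := hj₁ j₀ (Finset.mem_univ _)
    rwa [hj₀, v.map_one] at h1
  have hxj₁ : x j₁ ≠ 0 := by
    intro h0
    rw [h0, v.map_zero, top_le_iff] at hj₁0
    exact absurd hj₁0 (by simp)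
  obtain ⟨c, hc⟩ := exists_int' (v := v) hxj₁
  have h1 : c ≤ 0 := by
    rw [hc] at hj₁0
    exact_mod_cast hj₁0
  have h2 : v (x j₁) = ((-((c.natAbs : ℕ) : ℤ) : ℤ) : WithTop ℤ) := by
    rw [hc]
    congr 1
    omega
  exact ⟨c.natAbs, fun j => by rw [← h2]; exact hj₁ j (Finset.mem_univ _), j₁, h2⟩

/-- **Log general type from a moving polynomial.** -/
theorem isLogGeneralType_of_moving [Algebra.EssFiniteType ℂ K] {N : ℕ} {x : Fin (N + 1) → K}
    {j₀ : Fin (N + 1)} (hj₀ : x j₀ = 1)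
    (halg : Algebra.IsAlgebraic (IntermediateField.adjoin ℂ (Set.range x)) K)
    {J : Fin (k + 1) → Fin (N + 1)} (hz : IsTranscendenceBasis ℂ fun i => x (J i))
    {F : K[X]} {ρ : ℕ} (hFdeg : F.natDegree = ρ) (hρ1 : 1 ≤ ρ) (hsq : Squarefree F)
    (hmov : ∀ a : ℂ, F.eval (algebraMap ℂ K a) ≠ 0) {t₀ : ℂ}
    (ht₀ : F.eval (algebraMap ℂ K t₀) = 1)
    {Bd : PrimeDivisorOver K (k + 1) → Prop} {Q : K} (hQ : Q ≠ 0) {M : ℕ} (hM : 1 ≤ M)
    (S : Finset ℂ)
    (hQE : ∀ (E : PrimeDivisorOver K (k + 1)) (n γ : ℕ),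
      (∀ j, ((-(n : ℤ) : ℤ) : WithTop ℤ) ≤ E.ord (x j)) →
      (∃ j, E.ord (x j) = ((-(n : ℤ) : ℤ) : WithTop ℤ)) → IsCt E.ord F (-(γ : ℤ)) →
      ∀ o : ℂ → ℤ, (∀ w, E.ord (F.eval (algebraMap ℂ K w)) = ((o w - γ : ℤ) : WithTop ℤ)) →
      (∀ w, 0 ≤ o w) → (∀ S' : Finset ℂ, (∀ w ∈ S', 0 < o w) → S'.card ≤ ρ) →
      ∃ q : ℤ, E.ord Q = ((q : ℤ) : WithTop ℤ) ∧
        (¬ Bd E → q + M * (2 * ρ * γ + n * lc k * ρ) + n ≤ M * ∑ w ∈ S, max (o w - 1) 0) ∧
        q + M * (2 * ρ * γ + n * lc k * ρ) + n ≤ M * ∑ w ∈ S, o w) :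
    IsLogGeneralType Bd := by
  classical
  obtain ⟨b, hb⟩ := H23.exists_basis_kaehler hz
  have hF0 : F ≠ 0 := hsq.ne_zero
  have hu : F.leadingCoeff ≠ 0 := leadingCoeff_ne_zero.mpr hF0
  set u := F.leadingCoeff with hudef
  obtain ⟨Ps, F', hPs, hF', hFF'⟩ := exists_moving hF0 hsq (A := ∅) (fun a => by
    simp only [Finset.notMem_empty, false_iff]
    exact hmov a)
  rw [Finset.prod_empty, Polynomial.map_one, mul_one] at hFF'
  rw [← hFF', ← hudef] at hF'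
  have hPdvd : ∀ p ∈ Ps, p ∣ F := fun p hp => by
    rw [hF']
    exact Dvd.dvd.mul_left (Finset.dvd_prod_of_mem _ hp) _
  -- the indices
  have hidx : ∀ p : K[X], ∃ a, p ∈ Ps → ¬ p ∣ mc (dualDer b a) F := by
    intro p
    by_cases hp : p ∈ Ps
    · obtain ⟨h1, h2, h3⟩ := hPs p hp
      obtain ⟨a, ha⟩ := exists_not_dvd b h1 h2 (hPdvd p hp) hsq h3
      exact ⟨a, fun _ => ha⟩
    · exact ⟨0, fun h => absurd h hp⟩
  choose a ha using hidx
  set Θ : K := u ^ ρ * ∏ p ∈ Ps, resultant p (mc (dualDer b (a p)) F) p.natDegree ρ with hΘdef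
  have hΘ : Θ ≠ 0 := by
    refine mul_ne_zero (pow_ne_zero _ hu) (Finset.prod_ne_zero_iff.mpr fun p hp => ?_)
    obtain ⟨h1, h2, h3⟩ := hPs p hp
    exact resultant_ne_zero' h1 h2 (ha p hp) ((mc_natDegree_le _ _).trans hFdeg.le)
  have hdegsum : ρ = ∑ p ∈ Ps, p.natDegree := by
    rw [← hFdeg, hF', natDegree_C_mul hu, natDegree_prod _ _ fun p hp => (hPs p hp).1.ne_zero]
  refine isLogGeneralType_of_function hz (b := b) (M := M * ρ) (Nat.mul_pos hM hρ1) hj₀ halg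
    (Θ := Θ ^ M / Q) (div_ne_zero (pow_ne_zero _ hΘ) hQ) ?_
  intro E g₀ bE hg₀ hreg hlog hlog0 i
  set v := E.ord with hvdef
  have hv : ∀ c : ℂ, 0 ≤ v (algebraMap ℂ K c) := E.ord_const
  set Δ := (bE.toMatrix b).det with hΔ
  obtain ⟨n, hxn, hn⟩ := exists_pole_order hj₀ v
  -- the content
  obtain ⟨c₀, hc₀1, hc₀2⟩ := exists_content (v := v) hF0
  have hc₀ : c₀ ≤ 0 := by
    have h1 := val_eval_ge hv hc₀1 t₀
    rw [ht₀, v.map_one] at h1
    exact_mod_cast h1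
  obtain ⟨γ, hγ⟩ : ∃ γ : ℕ, c₀ = -(γ : ℤ) := ⟨c₀.natAbs, by omega⟩
  have hct : IsCt v F (-(γ : ℤ)) := by
    rw [← hγ]
    exact ⟨hc₀1, hc₀2⟩
  have hg₀0 : g₀ ≠ 0 := by
    rintro rfl
    rw [v.map_zero] at hg₀
    exact absurd hg₀ (by simp)
  set s := g₀ ^ γ with hs
  have hs0 : s ≠ 0 := pow_ne_zero _ hg₀0
  have hvg : ∀ m : ℕ, v (g₀ ^ m) = ((m : ℤ) : WithTop ℤ) := by
    intro m
    rw [v.map_pow, hg₀]
    simp
  have hvs : ∀ m : ℕ, v (s ^ m) = ((m * γ : ℤ) : WithTop ℤ) := by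
    intro m
    rw [hs, ← pow_mul, hvg]
    congr 1
    push_cast
    ring
  have hvs1 : v s = ((γ : ℤ) : WithTop ℤ) := hvg γ
  -- the orders at the constants
  have hoex : ∀ w : ℂ, ∃ o : ℤ, v (F.eval (algebraMap ℂ K w)) = ((o - γ : ℤ) : WithTop ℤ) := by
    intro w
    obtain ⟨o, ho⟩ := exists_int' (v := v) (hmov w)
    exact ⟨o + γ, by rw [ho]; congr 1; ring⟩
  choose o ho using hoex
  have ho0 : ∀ w, 0 ≤ o w := by
    intro w
    have h1 := val_eval_ge hv hct.1 w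
    rw [ho w] at h1
    have h2 : -(γ : ℤ) ≤ o w - γ := by exact_mod_cast h1
    omega
  have hlarge : ∀ S' : Finset ℂ, (∀ w ∈ S', 0 < o w) → S'.card ≤ ρ := by
    intro S' hpos
    refine card_large_le hv hFdeg.le hct.2 S' (fun w hw => ?_)
    rw [ho w]
    have := hpos w hw
    exact_mod_cast (by omega : -(γ : ℤ) < o w - γ)
  obtain ⟨q, hq, hq1, hq2⟩ := hQE E n γ hxn hn hct o ho ho0 hlarge
  -- the local polynomial
  set Fl : K[X] := C s * F with hFl
  have hFldeg : Fl.natDegree = ρ := by rw [hFl, natDegree_C_mul hs0, hFdeg]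
  have hFlprod : Fl = C (s * u) * ∏ p ∈ Ps, p := by
    rw [hFl]
    conv_lhs => rw [hF']
    rw [C_mul, mul_assoc]
  have hFlev : ∀ w, v (Fl.eval (algebraMap ℂ K w)) = ((o w : ℤ) : WithTop ℤ) := by
    intro w
    rw [hFl, eval_mul, eval_C, v.map_mul, hvs1, ho w]
    exact_mod_cast (by ring : (γ : ℤ) + (o w - γ) = o w)
  have hFlc : ∀ i, v (Fl.coeff i) = v s + v (F.coeff i) := by
    intro i
    rw [hFl, coeff_C_mul, v.map_mul]
  have hc0 : ∀ i, 0 ≤ v (Fl.coeff i) := by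
    intro i
    rw [hFlc, hvs1]
    have h1 := add_le_add (le_refl ((γ : ℤ) : WithTop ℤ)) (hct.1 i)
    refine le_trans (le_of_eq ?_) h1
    exact_mod_cast (by ring : (0 : ℤ) = γ + -γ)
  have hc1 : ∃ i, v (Fl.coeff i) = 0 := by
    obtain ⟨i, hi⟩ := hct.2
    refine ⟨i, ?_⟩
    rw [hFlc, hvs1, hi]
    exact_mod_cast (by ring : (γ : ℤ) + -γ = 0)
  -- the local derivations
  set δ : K[X] → Derivation ℂ K K := fun p => Δ • dualDer b (a p) with hδ
  have hδapp : ∀ p f, δ p f = Δ * dualDer b (a p) f := fun p f => rfl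
  have hloss := fun p => localDer_loss (v := v) (z := fun i => x (J i)) hg₀ hreg hlog hlog0 hb
    (a p) (n := n) fun j => hxn _
  set L : K[X] → K[X] := fun p => mc (δ p) Fl with hL
  have hLd : ∀ p ∈ Ps, (L p).natDegree ≤ Fl.natDegree := fun p _ => mc_natDegree_le _ _
  have hLc : ∀ p i, ((-(loss k n : ℤ) : ℤ) : WithTop ℤ) ≤ v ((L p).coeff i) := by
    intro p i
    rw [hL, mc_coeff, hδapp]
    exact (hloss p).1 _ (hc0 i)
  have hLw : ∀ p (w : ℂ), ((o w - 1 - (loss k n : ℤ) : ℤ) : WithTop ℤ) ≤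
      v ((L p).eval (algebraMap ℂ K w)) := by
    intro p w
    rw [hL, mc_eval, hδapp]
    exact (hloss p).2 _ _ (hFlev w).ge
  have hLw' : ∀ p (w : ℂ), ((-(loss k n : ℤ) : ℤ) : WithTop ℤ) ≤
      v ((L p).eval (algebraMap ℂ K w)) := by
    intro p w
    rw [hL, mc_eval, hδapp]
    refine (hloss p).1 _ ?_
    rw [hFlev w]
    exact_mod_cast ho0 w
  -- the relation of the resultants
  have hres : ∀ p ∈ Ps, resultant p (L p) p.natDegree ρ =
      (s * Δ) ^ p.natDegree *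
        resultant p (mc (dualDer b (a p)) F) p.natDegree ρ := by
    intro p hp
    obtain ⟨G, hG⟩ := hPdvd p hp
    have hp0 := (hPs p hp).1.ne_zero
    have hG0 : G ≠ 0 := by
      rintro rfl
      rw [mul_zero] at hG
      exact hF0 hG
    have hGdeg : G.natDegree + p.natDegree = ρ := by
      rw [← hFdeg, hG, natDegree_mul hp0 hG0, add_comm]
    have h1 : L p = C (s * Δ) * mc (dualDer b (a p)) F + p * (G * C (δ p s)) := by
      have h2 : mc (δ p) F = C Δ * mc (dualDer b (a p)) F := by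
        have := mc_smul_add (Finset.univ : Finset Unit) (fun _ => Δ) (fun _ => dualDer b (a p))
          (δ' := δ p) (fun f => by rw [hδapp]; simp) F
        simpa using this
      have h3 : p * (G * C (δ p s)) = F * C (δ p s) := by
        rw [hG]
        ring
      rw [h3, hL]
      simp only
      rw [hFl, mc_mul, mc_C, h2, C_mul]
      ring
    rw [h1, resultant_add_mul_right, resultant_C_mul_right]
    · refine le_trans (Nat.add_le_add_right (natDegree_mul_C_le _ _) _) hGdeg.le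
    · exact le_rfl
  have hΘl : (s * u) ^ ρ * ∏ p ∈ Ps, resultant p (L p) p.natDegree ρ =
      s ^ (2 * ρ) * (Θ * Δ ^ ρ) := by
    rw [Finset.prod_congr rfl hres, Finset.prod_mul_distrib, Finset.prod_pow_eq_pow_sum,
      ← hdegsum, hΘdef]
    ring
  have hu' : s * u ≠ 0 := mul_ne_zero hs0 hu
  have hmon : ∀ p ∈ Ps, p.Monic := fun p hp => (hPs p hp).1
  have hest := fun (bb : ℤ) (h : ℂ → ℤ) => theta_loc_ge hv hmon hu' hFlprod hc0 hc1 (b := bb) hLd
    (h := h) (S := S)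
  rw [hFldeg, hΘl, v.map_mul, hvs] at hest
  have hFS : ∀ w ∈ S, Fl.eval (algebraMap ℂ K w) ≠ 0 := by
    intro w _ h0
    have h1 := hFlev w
    rw [h0, v.map_zero] at h1
    exact absurd h1 (by simp)
  have hid : v (Θ ^ M / Q * x i * Δ ^ (M * ρ)) + ((q : ℤ) : WithTop ℤ) =
      M • v (Θ * Δ ^ ρ) + v (x i) := by
    rw [← hq, ← v.map_mul, ← v.map_pow, ← v.map_mul, mul_id_aux _ _ _ hQ]
  have hlossn : (loss k n : ℤ) = n * lc k := by
    rw [loss_eq]
    push_cast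
    rfl
  have hconv : ∀ c : ℤ, ((c : ℤ) : WithTop ℤ) ≤ (((2 * ρ : ℕ) * γ : ℤ) : WithTop ℤ) +
      v (Θ * Δ ^ ρ) → ((c - 2 * ρ * γ : ℤ) : WithTop ℤ) ≤ v (Θ * Δ ^ ρ) := by
    intro c hc
    have h1 := wt_of_mul (X := v (Θ * Δ ^ ρ)) (q := (2 * ρ : ℕ) * γ) rfl
      (by rw [add_comm] at hc; exact hc)
    refine le_trans (le_of_eq ?_) h1
    congr 1
  have hfin : ∀ c : ℤ, ((c : ℤ) : WithTop ℤ) ≤ v (Θ * Δ ^ ρ) →
      ((M * c - n - q : ℤ) : WithTop ℤ) ≤ v (Θ ^ M / Q * x i * Δ ^ (M * ρ)) := by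
    intro c hc
    refine wt_of_mul hid ?_
    have h1 := add_le_add (wt_nsmul_ge M hc) (hxn i)
    exact le_trans (le_of_eq rfl) h1
  constructor
  · intro hE
    have h1 := hest (-(loss k n : ℤ)) (fun w => max (o w - 1) 0) (fun p _ i => hLc p i)
      (fun w _ => le_max_right _ _) hFS (fun w _ => by
        rw [hFlev w]
        have := ho0 w
        exact_mod_cast (by omega : max (o w - 1) 0 ≤ o w)) (fun p _ w _ => by
        rcases le_total (o w - 1) 0 with h | h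
        · rw [max_eq_right h, add_zero]
          exact hLw' p w
        · rw [max_eq_left h]
          refine le_trans (le_of_eq ?_) (hLw p w)
          congr 1
          ring)
    have h2 := hfin _ (hconv _ h1)
    refine le_trans ?_ h2
    have h3 := hq1 hE
    rw [hlossn]
    exact_mod_cast (by nlinarith : (0 : ℤ) ≤ M * (ρ * -((n : ℤ) * lc k) +
      ∑ w ∈ S, max (o w - 1) 0 - 2 * ρ * γ) - n - q)
  · have h1 := hest (-(loss k n : ℤ) - 1) o (fun p _ i => by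
        refine le_trans ?_ (hLc p i)
        exact_mod_cast (by omega : -(loss k n : ℤ) - 1 ≤ -(loss k n : ℤ)))
      (fun w _ => ho0 w) hFS (fun w _ => (hFlev w).ge) (fun p _ w _ => by
        refine le_trans (le_of_eq ?_) (hLw p w)
        congr 1
        ring)
    have h2 := hfin _ (hconv _ h1)
    have h4 := add_le_add h2 (le_refl (((M * ρ : ℕ) : ℕ) : WithTop ℤ))
    refine le_trans ?_ h4
    have h3 := hq2
    rw [hlossn]
    have h5 : (0 : ℤ) ≤ M * (ρ * (-((n : ℤ) * lc k) - 1) + ∑ w ∈ S, o w - 2 * ρ * γ) - n - q +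
        (M * ρ : ℕ) := by
      push_cast
      nlinarith
    have h6 : (((M * ρ : ℕ) : ℕ) : WithTop ℤ) = (((M * ρ : ℕ) : ℤ) : WithTop ℤ) := rfl
    rw [h6, ← WithTop.coe_add]
    exact_mod_cast h5

end Pool.Agent.H92.GT
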