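import Pool.Agent.H92.GT.Denom
import Pool.Agent.H92.GT.Content

/-!
# The denominators for a moving polynomial
-/

open Polynomial

noncomputable section

namespace Pool.Agent.H92.GT

variable {K : Type} [Field K] [Algebra ℂ K] {ι T : Type} [Fintype ι] [Fintype T] [DecidableEq ι]

/-- The denominator for a moving polynomial. -/
def mdenom {N : ℕ} (x : Fin (N + 1) → K) (t : Fin (N + 1) → ℂ) (τ : T → ℂ) (β : T → Option ι)
    (F : K[X]) (M e₀ : ℕ) (e : ι → ℕ) : K :=
  (∏ j ∈ nz x, F.eval (algebraMap ℂ K (t j)) ^ e₀) *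
    (∏ l, ∏ i ∈ nd β (some l), F.eval (algebraMap ℂ K (τ i)) ^ e l) *
    ∏ i ∈ nd β none, F.eval (algebraMap ℂ K (τ i)) ^ M

/-- The weight of the denominator. -/
def mwt {N : ℕ} (x : Fin (N + 1) → K) (β : T → Option ι) (M e₀ : ℕ) (e : ι → ℕ) : ℕ :=
  (nz x).card * e₀ + ∑ l, (nd β (some l)).card * e l + (nd β none).card * M

lemma mdenom_ne_zero {N : ℕ} {x : Fin (N + 1) → K} {t : Fin (N + 1) → ℂ} {τ : T → ℂ}
    {β : T → Option ι} {F : K[X]} (hF : ∀ w : ℂ, F.eval (algebraMap ℂ K w) ≠ 0) (M e₀ : ℕ)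
    (e : ι → ℕ) : mdenom x t τ β F M e₀ e ≠ 0 := by
  unfold mdenom
  refine mul_ne_zero (mul_ne_zero ?_ ?_) ?_
  · exact Finset.prod_ne_zero_iff.mpr fun j _ => pow_ne_zero _ (hF _)
  · exact Finset.prod_ne_zero_iff.mpr fun l _ =>
      Finset.prod_ne_zero_iff.mpr fun i _ => pow_ne_zero _ (hF _)
  · exact Finset.prod_ne_zero_iff.mpr fun i _ => pow_ne_zero _ (hF _)

omit [Algebra ℂ K] in
lemma val_prod_pow {v : AddValuation K (WithTop ℤ)} {α : Type*} (S : Finset α) (f : α → K)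
    (c : α → ℤ) (n : ℕ) (h : ∀ i ∈ S, v (f i) = ((c i : ℤ) : WithTop ℤ)) :
    v (∏ i ∈ S, f i ^ n) = ((n * ∑ i ∈ S, c i : ℤ) : WithTop ℤ) := by
  classical
  induction S using Finset.induction_on with
  | empty => simp
  | insert i S hi ih =>
    have hpow : ∀ n : ℕ, v (f i ^ n) = ((n * c i : ℤ) : WithTop ℤ) := by
      intro n
      rw [v.map_pow, h i (Finset.mem_insert_self i S)]
      induction n with
      | zero => simp
      | succ n ih2 =>
        have h2 : ((n + 1 : ℕ) : ℤ) * c i = n * c i + c i := by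
          push_cast
          ring
        rw [h2, succ_nsmul, WithTop.coe_add, ih2]
    rw [Finset.prod_insert hi, v.map_mul, ih fun j hj => h j (Finset.mem_insert_of_mem hj), hpow,
      Finset.sum_insert hi, mul_add, WithTop.coe_add]

/-- The order of the denominator. -/
lemma mdenom_order {v : AddValuation K (WithTop ℤ)} {N : ℕ} {x : Fin (N + 1) → K}
    {t : Fin (N + 1) → ℂ} {τ : T → ℂ} {β : T → Option ι} {F : K[X]} {M e₀ : ℕ} {e : ι → ℕ}
    {o : ℂ → ℤ} {γ : ℤ}
    (ho : ∀ w, v (F.eval (algebraMap ℂ K w)) = ((o w - γ : ℤ) : WithTop ℤ)) :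
    v (mdenom x t τ β F M e₀ e) = ((e₀ * ∑ j ∈ nz x, o (t j) +
      ∑ l, e l * ∑ i ∈ nd β (some l), o (τ i) + M * ∑ i ∈ nd β none, o (τ i) -
      mwt x β M e₀ e * γ : ℤ) : WithTop ℤ) := by
  unfold mdenom
  rw [v.map_mul, v.map_mul, val_prod_pow _ _ (fun j => o (t j) - γ) _ fun j _ => ho _,
    val_prod_pow _ _ (fun i => o (τ i) - γ) _ fun i _ => ho _, val_prod,
    Finset.sum_congr rfl fun l _ => val_prod_pow _ _ (fun i => o (τ i) - γ) _ fun i _ => ho _,
    ← coe_sum, ← WithTop.coe_add, ← WithTop.coe_add]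
  congr 1
  unfold mwt
  have hsum : ∀ {α : Type} (S : Finset α) (f : α → ℤ), ∑ i ∈ S, (f i - γ) =
      ∑ i ∈ S, f i - S.card * γ := by
    intro α S f
    rw [Finset.sum_sub_distrib, Finset.sum_const, nsmul_eq_mul]
  have h1 : ∀ l, (e l : ℤ) * ∑ i ∈ nd β (some l), (o (τ i) - γ) =
      e l * ∑ i ∈ nd β (some l), o (τ i) - ((nd β (some l)).card * e l : ℤ) * γ := by
    intro l
    rw [hsum]
    ring
  have h2 : ∑ l, (e l : ℤ) * ∑ i ∈ nd β (some l), (o (τ i) - γ) =
      ∑ l, (e l : ℤ) * ∑ i ∈ nd β (some l), o (τ i) -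
        (∑ l, ((nd β (some l)).card * e l : ℤ)) * γ := by
    rw [Finset.sum_congr rfl fun l _ => h1 l, Finset.sum_sub_distrib, ← Finset.sum_mul]
  rw [h2, hsum, hsum]
  push_cast
  ring

omit [Algebra ℂ K] in
/-- The main estimate. -/
theorem mdenom_le {N r d a : ℕ} {x : Fin (N + 1) → K} {t : Fin (N + 1) → ℂ}
    {τ : T → ℂ} (hinj : Function.Injective (Sum.elim t τ)) {β : T → Option ι} {k : ι → ℕ}
    {M μ₀ : ℕ} {μ : ι → ℕ} (hM₀ : M = μ₀ * d) (hM : ∀ l, M = μ l * k l) {o o' : ℂ → ℤ}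
    (ho0 : ∀ w, 0 ≤ o w) (ho1 : ∀ w ∈ nodeSet x t τ, o w ≤ o' w)
    (ho2 : ∀ w ∈ nodeSet x t τ, o' w ≤ a * o w)
    (hdx : ∀ j ∈ nz x, ∃ c : ℤ, o' (t j) = d * c)
    (hdy : ∀ l, ∃ c : ℤ, ∑ i ∈ nd β (some l), o' (τ i) = k l * c)
    (hlarge : ∀ S' : Finset ℂ, (∀ w ∈ S', 0 < o w) → S'.card ≤ r)
    {Bd : Prop} (hO : ¬ Bd → ∀ i ∈ nd β none, o (τ i) = 0) :
    (¬ Bd → ((μ₀ * (d - min a d) : ℕ) : ℤ) * ∑ j ∈ nz x, o (t j) +
      ∑ l, ((μ l * (k l - min (k l) (a * min r (nd β (some l)).card)) : ℕ) : ℤ) *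
        ∑ i ∈ nd β (some l), o (τ i) + M * ∑ i ∈ nd β none, o (τ i) ≤
      M * ∑ w ∈ nodeSet x t τ, max (o w - 1) 0) ∧
    ((μ₀ * (d - min a d) : ℕ) : ℤ) * ∑ j ∈ nz x, o (t j) +
      ∑ l, ((μ l * (k l - min (k l) (a * min r (nd β (some l)).card)) : ℕ) : ℤ) *
        ∑ i ∈ nd β (some l), o (τ i) + M * ∑ i ∈ nd β none, o (τ i) ≤
      M * ∑ w ∈ nodeSet x t τ, o w := by
  classical
  have hmt : ∀ j ∈ nz x, t j ∈ nodeSet x t τ := fun j hj =>
    Finset.mem_union_left _ (Finset.mem_image_of_mem _ hj)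
  have hmτ : ∀ i, τ i ∈ nodeSet x t τ := fun i =>
    Finset.mem_union_right _ (Finset.mem_image_of_mem _ (Finset.mem_univ i))
  have hd0 : (0 : ℤ) ≤ d := Nat.cast_nonneg _
  have hμ₀0 : (0 : ℤ) ≤ μ₀ := Nat.cast_nonneg _
  have hMZ : (M : ℤ) = μ₀ * d := by exact_mod_cast hM₀
  have hMZl : ∀ l, (M : ℤ) = μ l * k l := fun l => by exact_mod_cast hM l
  -- the first nodes
  have he1 : ∀ j ∈ nz x, ((μ₀ * (d - min a d) : ℕ) : ℤ) * o (t j) ≤
      M * max (o (t j) - 1) 0 := by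
    intro j hj
    rcases eq_or_lt_of_le (ho0 (t j)) with h | h
    · rw [← h, mul_zero]
      exact mul_nonneg (Nat.cast_nonneg _) (le_max_right _ _)
    · obtain ⟨c, hc⟩ := hdx j hj
      have h1 := ho1 _ (hmt j hj)
      have h2 := ho2 _ (hmt j hj)
      have hc1 : 1 ≤ c := by
        by_contra hcon
        have h3 : c ≤ 0 := by omega
        have h4 : (d : ℤ) * c ≤ 0 := mul_nonpos_of_nonneg_of_nonpos hd0 h3
        omega
      have h3 : (d : ℤ) ≤ d * c := by nlinarith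
      have h4 : (d : ℤ) ≤ ((min a d : ℕ) : ℤ) * o (t j) := by
        rcases le_total a d with h5 | h5
        · rw [min_eq_left h5]
          omega
        · rw [min_eq_right h5]
          nlinarith
      refine le_trans ?_ (mul_le_mul_of_nonneg_left (le_max_left (o (t j) - 1) 0)
        (Nat.cast_nonneg M))
      rw [Nat.cast_mul, Nat.cast_sub (min_le_right _ _), hMZ]
      nlinarith
  -- the blocks
  have he2 : ∀ l, ((μ l * (k l - min (k l) (a * min r (nd β (some l)).card)) : ℕ) : ℤ) *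
      ∑ i ∈ nd β (some l), o (τ i) ≤ M * ∑ i ∈ nd β (some l), max (o (τ i) - 1) 0 := by
    intro l
    have hμl : (0 : ℤ) ≤ μ l := Nat.cast_nonneg _
    have hkl : (0 : ℤ) ≤ k l := Nat.cast_nonneg _
    set S' := (nd β (some l)).filter fun i => 0 < o (τ i) with hS'
    have hcard : S'.card ≤ min r (nd β (some l)).card := by
      refine le_min ?_ (Finset.card_filter_le _ _)
      have h3 := hlarge (S'.image τ) (fun w hw => by
        obtain ⟨i, hi, rfl⟩ := Finset.mem_image.mp hw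
        exact (Finset.mem_filter.mp hi).2)
      rwa [Finset.card_image_of_injOn] at h3
      intro i _ i' _ h
      have := @hinj (Sum.inr i) (Sum.inr i') (by simpa using h)
      simpa using this
    have h4 : ∑ i ∈ nd β (some l), max (o (τ i) - 1) 0 =
        ∑ i ∈ nd β (some l), o (τ i) - S'.card := by
      have h5 : ∀ i ∈ nd β (some l), max (o (τ i) - 1) 0 =
          o (τ i) - if 0 < o (τ i) then 1 else 0 := by
        intro i _
        have := ho0 (τ i)
        split_ifs with h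
        · omega
        · omega
      rw [Finset.sum_congr rfl h5, Finset.sum_sub_distrib, ← Finset.sum_filter,
        Finset.sum_const, nsmul_eq_mul, mul_one]
    set So := ∑ i ∈ nd β (some l), o (τ i) with hSo
    set ml := min r (nd β (some l)).card with hml
    have hSo0 : 0 ≤ So := Finset.sum_nonneg fun i _ => ho0 _
    have h5 : (S'.card : ℤ) ≤ So := by
      have h6 : (0 : ℤ) ≤ ∑ i ∈ nd β (some l), max (o (τ i) - 1) 0 :=
        Finset.sum_nonneg fun i _ => le_max_right _ _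
      omega
    have h6 : (S'.card : ℤ) ≤ ml := by exact_mod_cast hcard
    have h7 : (k l : ℤ) * S'.card ≤ (a * ml : ℕ) * So := by
      rcases Nat.eq_zero_or_pos S'.card with h8 | h8
      · rw [h8, Nat.cast_zero, mul_zero]
        exact mul_nonneg (Nat.cast_nonneg _) hSo0
      · obtain ⟨c, hc⟩ := hdy l
        have h9 : So ≤ ∑ i ∈ nd β (some l), o' (τ i) :=
          Finset.sum_le_sum fun i _ => ho1 _ (hmτ i)
        have h10 : ∑ i ∈ nd β (some l), o' (τ i) ≤ a * So := by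
          rw [hSo, Finset.mul_sum]
          exact Finset.sum_le_sum fun i _ => ho2 _ (hmτ i)
        have h8' : (1 : ℤ) ≤ S'.card := by exact_mod_cast h8
        have hc1 : 1 ≤ c := by
          by_contra hcon
          have h11 : c ≤ 0 := by omega
          have h12 : (k l : ℤ) * c ≤ 0 := mul_nonpos_of_nonneg_of_nonpos hkl h11
          omega
        have h11 : (k l : ℤ) ≤ a * So := by nlinarith
        have h12 : (0 : ℤ) ≤ ml := Nat.cast_nonneg _
        calc (k l : ℤ) * S'.card ≤ k l * ml := mul_le_mul_of_nonneg_left h6 hkl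
          _ ≤ a * So * ml := mul_le_mul_of_nonneg_right h11 h12
          _ = (a * ml : ℕ) * So := by push_cast; ring
    have h8 : (k l : ℤ) * S'.card ≤ ((min (k l) (a * ml) : ℕ) : ℤ) * So := by
      rcases le_total (k l) (a * ml) with h9 | h9
      · rw [min_eq_left h9]
        exact mul_le_mul_of_nonneg_left h5 hkl
      · rw [min_eq_right h9]
        exact h7
    rw [h4, Nat.cast_mul, Nat.cast_sub (min_le_left _ _), hMZl l]
    have h9 := mul_le_mul_of_nonneg_left h8 hμl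
    linarith
  have hfirst : ((μ₀ * (d - min a d) : ℕ) : ℤ) * ∑ j ∈ nz x, o (t j) ≤
      M * ∑ j ∈ nz x, max (o (t j) - 1) 0 := by
    rw [Finset.mul_sum, Finset.mul_sum]
    exact Finset.sum_le_sum he1
  have hsecond : ∑ l, ((μ l * (k l - min (k l) (a * min r (nd β (some l)).card)) : ℕ) : ℤ) *
      ∑ i ∈ nd β (some l), o (τ i) ≤ M * ∑ l, ∑ i ∈ nd β (some l), max (o (τ i) - 1) 0 := by
    rw [Finset.mul_sum]
    exact Finset.sum_le_sum fun l _ => he2 l
  have hM0 : (0 : ℤ) ≤ M := Nat.cast_nonneg _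
  have hmax : ∀ w, max (o w - 1) 0 ≤ o w := by
    intro w
    have := ho0 w
    omega
  rw [sum_nodeSet hinj, sum_nodeSet hinj, sum_blocks β fun i => max (o (τ i) - 1) 0,
    sum_blocks β fun i => o (τ i)]
  constructor
  · intro hB
    have h1 : ∑ i ∈ nd β none, o (τ i) = 0 := Finset.sum_eq_zero fun i hi => hO hB i hi
    have h2 : (0 : ℤ) ≤ ∑ i ∈ nd β none, max (o (τ i) - 1) 0 :=
      Finset.sum_nonneg fun i _ => le_max_right _ _
    rw [h1, mul_zero, add_zero]
    have h3 := mul_nonneg hM0 h2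
    linarith
  · have h1 : M * ∑ j ∈ nz x, max (o (t j) - 1) 0 ≤ M * ∑ j ∈ nz x, o (t j) :=
      mul_le_mul_of_nonneg_left (Finset.sum_le_sum fun j _ => hmax _) hM0
    have h2 : M * ∑ l, ∑ i ∈ nd β (some l), max (o (τ i) - 1) 0 ≤
        M * ∑ l, ∑ i ∈ nd β (some l), o (τ i) :=
      mul_le_mul_of_nonneg_left (Finset.sum_le_sum fun l _ => Finset.sum_le_sum fun i _ =>
        hmax _) hM0
    linarith

end Pool.Agent.H92.GT
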