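import Pool.Agent.H92.GT.ProjPoint
import Pool.Agent.H92.GT.CoverMult

/-!
# Closed subvarieties of the diagonal complete intersections are of general type
-/

open MvPolynomial
open Pool.Agent.H92.GGL
open Pool.Agent.H17GT (coordFun functionField)
open Pool.Agent.H17LG.Variety (FunField)

noncomputable section

namespace Pool.Agent.H92.GT.Proj

variable {N : ℕ}

lemma chiA_empty (r d N a : ℕ) : chiA r d N (fun i : Empty => (i.elim : Option Empty))
    (fun l : Empty => (l.elim : ℕ)) a = (N + 1) * (1 - min 1 ((a : ℝ) / d)) := by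
  unfold chiA
  have h1 : (nd (fun i : Empty => (i.elim : Option Empty)) none).card = 0 := by
    rw [Finset.card_eq_zero, Finset.eq_empty_iff_forall_notMem]
    intro i
    exact i.elim
  rw [h1, Finset.univ_eq_empty, Finset.sum_empty]
  simp

/-- **Closed subvarieties are of general type.** -/
theorem isGeneralType_proj {r d m : ℕ} (hm : 2 ≤ m) (hrN : r ≤ N) (hd : 0 < d)
    {t : Fin (N + 1) → ℂ} (ht : Function.Injective t)
    (hnum : ∀ a : ℕ, 1 ≤ a → a < m →
      2 * ((r : ℝ) + 1 - a) < (N + 1) * (1 - min 1 ((a : ℝ) / d))) {q : ℕ}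
    (hnum' : ∀ a : ℕ, 1 ≤ a → a < m → 2 ≤ q → q + a < r + 1 →
      2 * ((r : ℝ) + 1 - a) + q * ((r + 1 - a) * a) / d < (N + 1) * (1 - min 1 ((a : ℝ) / d)))
    {b : Fin (N + 1) → Fin (r + 1) → ℂ}
    (hb : ∀ (a : Fin (r + 1) → ℂ) k, a k = ∑ j, b j k * evMap r t a j)
    {M : ℕ} {c : Fin M → Fin (N + 1) → ℂ}
    (hc : ∀ w : Fin (N + 1) → ℂ, (∀ l, ∑ j, c l j * w j = 0) ↔ ∃ a, evMap r t a = w)
    (P : Ideal (MvPolynomial (Fin (N + 1)) ℂ)) [P.IsPrime]
    (hA : ∀ l, ∑ j, C (c l j) * X j ^ d ∈ P)
    {b₀ s₀ : ℂ} (hD : multRes m r (C b₀) (C s₀) (genPoly r d b id) ∉ P)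
    (hq : 1 ≤ q) (hz : ∃ z : Fin q → FunField P, IsTranscendenceBasis ℂ z) :
    H17LG.Variety.IsLogGeneralType (K := FunField P) (k := q) (fun _ => False) := by
  classical
  obtain ⟨q, rfl⟩ : ∃ q', q = q' + 1 := ⟨q - 1, by omega⟩
  obtain ⟨z, hz⟩ := hz
  obtain ⟨j₀, hj₀⟩ := exists_coordFun_ne_zero P (k := q) z hz
  obtain ⟨x, hx1, hgen, hker⟩ := proj_point P hj₀
  have hess : Algebra.EssFiniteType ℂ (functionField P) := H17GT.essFiniteType_functionField P
  have halg : Algebra.IsAlgebraic (IntermediateField.adjoin ℂ (Set.range x))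
      (functionField P) := by
    rw [hgen]
    exact ⟨fun f => isAlgebraic_algebraMap (⟨f, IntermediateField.mem_top⟩ :
      (⊤ : IntermediateField ℂ (functionField P)))⟩
  obtain ⟨J, hJ⟩ := exists_index halg (z := z) hz
  set F := polyK r d b x with hF
  have hFx : ∀ j, F.eval (algebraMap ℂ _ (t j)) = x j ^ d := by
    intro j
    refine polyK_eval hb hc (fun l => ?_) j
    have h1 := (hker d (∑ j, C (c l j) * X j ^ d) (by
      refine MvPolynomial.IsHomogeneous.sum _ _ _ fun j _ => ?_
      exact MvPolynomial.isHomogeneous_C_mul_X_pow _ _ _)).mpr (hA l)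
    rw [map_sum] at h1
    rw [← h1]
    refine Finset.sum_congr rfl fun j _ => ?_
    rw [map_mul, map_pow, aeval_C, aeval_X]
  have hres : multRes m r (algebraMap ℂ _ b₀) (algebraMap ℂ _ s₀) F ≠ 0 := by
    intro h0
    apply hD
    rw [← hker _ _ (multRes_isWeightedHomogeneous (w := 1) (fun k =>
        genPoly_coeff (r := r) (d := d) (b := b) (v := id) (w := (1 : Fin (N + 1) → ℕ))
          (fun j => rfl) k) m r b₀ s₀)]
    have h1 := multRes_map (aeval x :
      MvPolynomial (Fin (N + 1)) ℂ →ₐ[ℂ] functionField P).toRingHom m r (C b₀) (C s₀)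
      (genPoly r d b id)
    rw [genPoly_map_aeval] at h1
    have h2 : (polyK r d b fun j => x (id j)) = F := rfl
    have h3 : ∀ c : ℂ, (aeval x :
      MvPolynomial (Fin (N + 1)) ℂ →ₐ[ℂ] functionField P).toRingHom (C c) =
        algebraMap ℂ _ c := fun c => aeval_C _ _
    rw [h2, h3, h3, h0] at h1
    exact h1.symm
  have hmult : ∀ p : Polynomial (functionField P), Irreducible p → ¬ p ^ m ∣ F := by
    intro p hp hpF
    obtain ⟨H', hH'⟩ := hpF
    have hF0 : F ≠ 0 := by
      intro h0
      have h1 := hFx j₀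
      rw [h0, Polynomial.eval_zero, hx1, one_pow] at h1
      exact zero_ne_one h1
    have hH0 : H' ≠ 0 := by
      rintro rfl
      rw [mul_zero] at hH'
      exact hF0 hH'
    apply hres
    refine multRes_eq_zero hm hp.natDegree_pos hp.ne_zero le_rfl ?_ hH' _ _
    have h1 : F.natDegree ≤ r := polyK_natDegree
    rw [hH', Polynomial.natDegree_mul (pow_ne_zero _ hp.ne_zero) hH0,
      Polynomial.natDegree_pow] at h1
    rw [mul_comm p.natDegree m]
    omega
  refine H17LG.isLogGeneralType_translate (K := functionField P) (B := fun _ => False)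
    (fun E => Iff.rfl) ?_
  have hchi : ∀ a, chiA r d N (fun i : Empty => (i.elim : Option Empty))
    (fun l : Empty => (l.elim : ℕ)) a = (N + 1) * (1 - min 1 ((a : ℝ) / d)) := chiA_empty r d N
  refine isLogGeneralType_mult (K := functionField P) (ι := Empty) (T := Empty)
    (τ := fun i => i.elim) (β := fun i => i.elim) (k := fun l => l.elim) (e := fun l => l.elim)
    (y := fun l => l.elim) hx1 halg hJ hd hrN ?_ (fun l => l.elim) (fun l => l.elim)
    (fun a h1 h2 => ?_) (fun a h1 h2 h3 h4 => ?_) polyK_natDegree hmult hFx (fun l => l.elim)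
    (fun l => l.elim) (fun i => i.elim) ?_
  · rintro (i | i) (j | j) h
    · exact congrArg Sum.inl (ht (by simpa using h))
    · exact j.elim
    · exact i.elim
    · exact i.elim
  · rw [hchi]
    exact hnum a h1 h2
  · rw [hchi]
    have h5 := hnum' a h1 h2 (by omega) (by omega)
    push_cast at h5
    exact h5
  · intro E s hs _ _ _
    have h1 : nd (fun i : Empty => (i.elim : Option Empty)) none = ∅ := by
      rw [Finset.eq_empty_iff_forall_notMem]
      intro i
      exact i.elim
    rw [h1, Finset.prod_empty, Finset.card_empty, mul_zero, pow_zero, mul_one, E.ord.map_one]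

end Pool.Agent.H92.GT.Proj
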