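import Pool.Agent.H92.GT.ValRes

/-!
# The valuation of a product of resultants
-/

open Polynomial

noncomputable section

namespace Pool.Agent.H92.GT

variable {K : Type*} [Field K] [Algebra ℂ K] {v : AddValuation K (WithTop ℤ)}

/-- The values of large valuation. -/
lemma finite_large (hv : ∀ c : ℂ, 0 ≤ v (algebraMap ℂ K c)) {P : K[X]} {a : ℤ}
    (ha : ∃ i, v (P.coeff i) = ((a : ℤ) : WithTop ℤ)) :
    {w : ℂ | ((a : ℤ) : WithTop ℤ) < v (P.eval (algebraMap ℂ K w))}.Finite := by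
  by_contra hinf
  obtain ⟨S, hS, hcard⟩ := (show Set.Infinite _ from hinf).exists_subset_card_eq (P.natDegree + 1)
  have h1 := card_large_le hv le_rfl ha S fun w hw => hS hw
  omega

omit [Algebra ℂ K] in
lemma exists_int' {f : K} (h : f ≠ 0) : ∃ k : ℤ, v f = k := by
  have := (v.ne_top_iff).2 h
  exact ⟨(v f).untop this, by simp⟩

lemma sum_min_ge {κ : Type*} (S : Finset κ) (a : κ → ℤ) (ha : ∀ i ∈ S, 0 ≤ a i) {h : ℤ}
    (h0 : 0 ≤ h) (hle : h ≤ ∑ i ∈ S, a i) : h ≤ ∑ i ∈ S, min (a i) h := by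
  by_cases hall : ∀ i ∈ S, a i ≤ h
  · rw [Finset.sum_congr rfl fun i hi => min_eq_left (hall i hi)]
    exact hle
  · push Not at hall
    obtain ⟨i, hi, hi'⟩ := hall
    calc h = min (a i) h := (min_eq_right hi'.le).symm
      _ ≤ _ := Finset.single_le_sum (f := fun i => min (a i) h)
        (fun j hj => le_min (ha j hj) h0) hi

/-- **The local estimate.** -/
theorem theta_loc_ge (hv : ∀ c : ℂ, 0 ≤ v (algebraMap ℂ K c)) {Ps : Finset K[X]}
    (hmon : ∀ p ∈ Ps, p.Monic) {u : K} (hu : u ≠ 0) {F : K[X]} (hF : F = C u * ∏ p ∈ Ps, p)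
    (hc0 : ∀ i, 0 ≤ v (F.coeff i)) (hc1 : ∃ i, v (F.coeff i) = 0) {b : ℤ} {L : K[X] → K[X]}
    (hLd : ∀ p ∈ Ps, (L p).natDegree ≤ F.natDegree)
    (hL : ∀ p ∈ Ps, ∀ i, ((b : ℤ) : WithTop ℤ) ≤ v ((L p).coeff i)) (S : Finset ℂ) (h : ℂ → ℤ)
    (h0 : ∀ w ∈ S, 0 ≤ h w) (hFS : ∀ w ∈ S, F.eval (algebraMap ℂ K w) ≠ 0)
    (hho : ∀ w ∈ S, ((h w : ℤ) : WithTop ℤ) ≤ v (F.eval (algebraMap ℂ K w)))
    (hLh : ∀ p ∈ Ps, ∀ w ∈ S,
      ((b + h w : ℤ) : WithTop ℤ) ≤ v ((L p).eval (algebraMap ℂ K w))) :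
    ((F.natDegree * b + ∑ w ∈ S, h w : ℤ) : WithTop ℤ) ≤
      v (u ^ F.natDegree * ∏ p ∈ Ps, resultant p (L p) p.natDegree F.natDegree) := by
  classical
  set ρ := F.natDegree with hρ
  have hp0 : ∀ p ∈ Ps, p ≠ 0 := fun p hp => (hmon p hp).ne_zero
  -- contents
  have hcont : ∀ p : K[X], ∃ a : ℤ, p ∈ Ps → (∀ i, ((a : ℤ) : WithTop ℤ) ≤ v (p.coeff i)) ∧
      ∃ i, v (p.coeff i) = ((a : ℤ) : WithTop ℤ) := by
    intro p
    by_cases hp : p ∈ Ps
    · obtain ⟨a, ha⟩ := exists_content (v := v) (hp0 p hp)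
      exact ⟨a, fun _ => ha⟩
    · exact ⟨0, fun h => absurd h hp⟩
  choose c hc using hcont
  obtain ⟨μ, hμ⟩ := exists_int' (v := v) hu
  -- values
  have heval : ∀ w : ℂ, F.eval (algebraMap ℂ K w) = u * ∏ p ∈ Ps, p.eval (algebraMap ℂ K w) := by
    intro w
    rw [hF, eval_mul, eval_C, eval_prod]
  have hval : ∀ p : K[X], ∀ w : ℂ, ∃ a : ℤ, p.eval (algebraMap ℂ K w) ≠ 0 →
      v (p.eval (algebraMap ℂ K w)) = a := by
    intro p w
    by_cases hpw : p.eval (algebraMap ℂ K w) = 0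
    · exact ⟨0, fun h => absurd hpw h⟩
    · obtain ⟨a, ha⟩ := exists_int' (v := v) hpw
      exact ⟨a, fun _ => ha⟩
  choose o ho using hval
  have hevalv : ∀ w : ℂ, F.eval (algebraMap ℂ K w) ≠ 0 →
      v (F.eval (algebraMap ℂ K w)) = ((μ + ∑ p ∈ Ps, o p w : ℤ) : WithTop ℤ) := by
    intro w hw
    rw [heval, v.map_mul, val_prod, hμ]
    have h1 : ∀ p ∈ Ps, v (p.eval (algebraMap ℂ K w)) = ((o p w : ℤ) : WithTop ℤ) := by
      intro p hp
      apply ho
      intro hpw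
      apply hw
      rw [heval, Finset.prod_eq_zero hp hpw, mul_zero]
    rw [Finset.sum_congr rfl h1, ← coe_sum]
    rfl
  have hcle : ∀ p ∈ Ps, ∀ w : ℂ, p.eval (algebraMap ℂ K w) ≠ 0 → c p ≤ o p w := by
    intro p hp w hw
    have h1 := val_eval_ge hv (hc p hp).1 w
    rw [ho p w hw] at h1
    exact_mod_cast h1
  -- the generic value
  have hgen : μ + ∑ p ∈ Ps, c p = 0 := by
    have hfin : ({w : ℂ | ((0 : ℤ) : WithTop ℤ) < v (F.eval (algebraMap ℂ K w))} ∪
        ⋃ p ∈ Ps, {w : ℂ | ((c p : ℤ) : WithTop ℤ) < v (p.eval (algebraMap ℂ K w))}).Finite := by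
      refine (finite_large hv (by simpa using hc1)).union ?_
      exact Set.Finite.biUnion Ps.finite_toSet fun p hp => finite_large hv (hc p hp).2
    obtain ⟨w, hw⟩ := hfin.exists_notMem
    rw [Set.mem_union, not_or] at hw
    obtain ⟨hw1, hw2⟩ := hw
    have h1 : v (F.eval (algebraMap ℂ K w)) = 0 := by
      refine le_antisymm ?_ ?_
      · simpa using hw1
      · have := val_eval_ge hv (a := 0) (P := F) (by simpa using hc0) w
        simpa using this
    have hFw : F.eval (algebraMap ℂ K w) ≠ 0 := by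
      intro h2
      rw [h2, v.map_zero] at h1
      exact absurd h1 (by simp)
    have h2 : ∀ p ∈ Ps, o p w = c p := by
      intro p hp
      have hpw : p.eval (algebraMap ℂ K w) ≠ 0 := by
        intro hpw
        apply hFw
        rw [heval, Finset.prod_eq_zero hp hpw, mul_zero]
      refine le_antisymm ?_ (hcle p hp w hpw)
      by_contra hlt
      push Not at hlt
      apply hw2
      simp only [Set.mem_iUnion]
      refine ⟨p, hp, ?_⟩
      change ((c p : ℤ) : WithTop ℤ) < v (p.eval (algebraMap ℂ K w))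
      rw [ho p w hpw]
      exact_mod_cast hlt
    have h3 := hevalv w hFw
    rw [h1, Finset.sum_congr rfl h2] at h3
    exact_mod_cast h3.symm
  -- the resultants
  have hres : ∀ p ∈ Ps, ((ρ * c p + p.natDegree * b + ∑ w ∈ S, min (o p w - c p) (h w) : ℤ) :
      WithTop ℤ) ≤ v (resultant p (L p) p.natDegree ρ) := by
    intro p hp
    have hpS : ∀ w ∈ S, p.eval (algebraMap ℂ K w) ≠ 0 := by
      intro w hw hpw
      apply hFS w hw
      rw [heval, Finset.prod_eq_zero hp hpw, mul_zero]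
    have hnn : ∀ w ∈ S, 0 ≤ min (o p w - c p) (h w) := fun w hw =>
      le_min (by have := hcle p hp w (hpS w hw); omega) (h0 w hw)
    set S' := S.filter fun w => 0 < min (o p w - c p) (h w) with hS'
    have hS'card : S'.card ≤ p.natDegree := by
      refine card_large_le hv le_rfl (hc p hp).2 S' fun w hw => ?_
      obtain ⟨hwS, hw⟩ := Finset.mem_filter.mp hw
      rw [ho p w (hpS w hwS)]
      have h1 : 0 < o p w - c p := lt_of_lt_of_le hw (min_le_left _ _)
      exact_mod_cast (by omega : c p < o p w)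
    have h1 := val_resultant_ge hv (p := p.natDegree) (q := ρ) (P := p) (Q := L p) (a := c p)
      (b := b) le_rfl (hLd p hp) (hc p hp).1 (hL p hp) S' (by omega)
      (fun w => min (o p w - c p) (h w)) (fun w hw => by
        have hwS := (Finset.mem_filter.mp hw).1
        rw [ho p w (hpS w hwS)]
        have : min (o p w - c p) (h w) ≤ o p w - c p := min_le_left _ _
        exact_mod_cast (by omega : c p + min (o p w - c p) (h w) ≤ o p w)) (fun w hw => by
        have hwS := (Finset.mem_filter.mp hw).1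
        refine le_trans ?_ (hLh p hp w hwS)
        have : min (o p w - c p) (h w) ≤ h w := min_le_right _ _
        exact_mod_cast (by omega : b + min (o p w - c p) (h w) ≤ b + h w))
    have h2 : ∑ w ∈ S', min (o p w - c p) (h w) = ∑ w ∈ S, min (o p w - c p) (h w) := by
      refine Finset.sum_subset (Finset.filter_subset _ _) fun w hw hw' => ?_
      have h3 : ¬ 0 < min (o p w - c p) (h w) := fun h => hw' (Finset.mem_filter.mpr ⟨hw, h⟩)
      have h4 := hnn w hw
      omega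
    rw [h2] at h1
    exact h1
  -- degrees
  have hdeg : ρ = ∑ p ∈ Ps, p.natDegree := by
    rw [hρ, hF, natDegree_C_mul hu, natDegree_prod _ _ hp0]
  rw [v.map_mul, v.map_pow, hμ, val_prod]
  have h1 : ((∑ p ∈ Ps, (ρ * c p + p.natDegree * b + ∑ w ∈ S, min (o p w - c p) (h w)) : ℤ) :
      WithTop ℤ) ≤ ∑ p ∈ Ps, v (resultant p (L p) p.natDegree ρ) := by
    rw [coe_sum]
    exact Finset.sum_le_sum hres
  have h2 : ((ρ * μ : ℤ) : WithTop ℤ) = ρ • ((μ : ℤ) : WithTop ℤ) := by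
    rw [← WithTop.coe_nsmul, nsmul_eq_mul]
  rw [← h2]
  have h3 : ρ * b + ∑ w ∈ S, h w ≤
      ρ * μ + ∑ p ∈ Ps, (ρ * c p + p.natDegree * b + ∑ w ∈ S, min (o p w - c p) (h w)) := by
    rw [Finset.sum_add_distrib, Finset.sum_add_distrib, Finset.sum_comm, ← Finset.mul_sum,
      ← Finset.sum_mul]
    have h4 : (∑ p ∈ Ps, (p.natDegree : ℤ)) = ρ := by
      rw [hdeg]
      push_cast
      rfl
    rw [h4]
    have h5 : ∑ w ∈ S, h w ≤ ∑ w ∈ S, ∑ p ∈ Ps, min (o p w - c p) (h w) := by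
      refine Finset.sum_le_sum fun w hw => ?_
      have hpw : ∀ p ∈ Ps, p.eval (algebraMap ℂ K w) ≠ 0 := by
        intro p hp hpw
        apply hFS w hw
        rw [heval, Finset.prod_eq_zero hp hpw, mul_zero]
      refine sum_min_ge Ps _ (fun p hp => ?_) (h0 w hw) ?_
      · have := hcle p hp w (hpw p hp)
        omega
      · have h6 := hho w hw
        rw [hevalv w (hFS w hw)] at h6
        have h7 : h w ≤ μ + ∑ p ∈ Ps, o p w := by exact_mod_cast h6
        rw [Finset.sum_sub_distrib]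
        omega
    have h6 : (ρ : ℤ) * μ + (ρ : ℤ) * ∑ p ∈ Ps, c p = 0 := by
      rw [← mul_add, hgen, mul_zero]
    linarith
  calc ((ρ * b + ∑ w ∈ S, h w : ℤ) : WithTop ℤ) ≤
      ((ρ * μ + ∑ p ∈ Ps, (ρ * c p + p.natDegree * b +
        ∑ w ∈ S, min (o p w - c p) (h w)) : ℤ) : WithTop ℤ) := by exact_mod_cast h3
    _ = ((ρ * μ : ℤ) : WithTop ℤ) + ((∑ p ∈ Ps, (ρ * c p + p.natDegree * b +
        ∑ w ∈ S, min (o p w - c p) (h w)) : ℤ) : WithTop ℤ) := rfl
    _ ≤ _ := add_le_add le_rfl h1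

end Pool.Agent.H92.GT
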