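import Pool.Agent.H92.GT.Wrap
import Pool.Agent.H92.GT.ThetaLoc
import Pool.Agent.H92.GT.LocalDer
import Pool.Agent.H92.GT.MapDer

/-!
# Log general type from the roots of a polynomial
-/

open Polynomial
open Pool.Agent.H23 (RatForm regularForms PrimeDivisorOver dualDer)
open Pool.Agent.H17LG (IsLogGeneralType)
open UniqueFactorizationMonoid (normalizedFactors)

noncomputable section

namespace Pool.Agent.H92.GT

/-- The coefficient of the loss. -/
def lc (k : ℕ) : ℕ := if k = 0 then 0 else k + 1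

lemma loss_eq (k n : ℕ) : loss k n = n * lc k := by
  unfold loss lc
  split_ifs
  · rw [mul_zero]
  · rfl

lemma wt_cancel {X T Y : WithTop ℤ} {q c w tb e : ℤ}
    (h : X + ((q : ℤ) : WithTop ℤ) + ((c : ℤ) : WithTop ℤ) = T + Y + ((w : ℤ) : WithTop ℤ))
    (hT : ((tb : ℤ) : WithTop ℤ) ≤ T) (hY : 0 ≤ Y) (hnum : q + c - e ≤ tb + w) :
    0 ≤ X + ((e : ℤ) : WithTop ℤ) := by
  induction X using WithTop.recTopCoe with
  | top => simp
  | coe a =>
    induction T using WithTop.recTopCoe with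
    | top =>
      exfalso
      rw [WithTop.top_add, WithTop.top_add] at h
      exact WithTop.coe_ne_top (a := a + q + c) (by exact_mod_cast h)
    | coe t =>
      induction Y using WithTop.recTopCoe with
      | top =>
        exfalso
        rw [WithTop.add_top, WithTop.top_add] at h
        exact WithTop.coe_ne_top (a := a + q + c) (by exact_mod_cast h)
      | coe y =>
        have h1 : a + q + c = t + y + w := by exact_mod_cast h
        have h2 : tb ≤ t := by exact_mod_cast hT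
        have h3 : 0 ≤ y := by exact_mod_cast hY
        exact_mod_cast (by omega : 0 ≤ a + e)

section Fact

variable {K : Type} [Field K] [Algebra ℂ K]

/-- The decomposition into the moving part and the constant roots. -/
lemma exists_moving {F : K[X]} (hF0 : F ≠ 0) (hsq : Squarefree F) {A : Finset ℂ}
    (hA : ∀ a, a ∈ A ↔ F.eval (algebraMap ℂ K a) = 0) :
    ∃ (Ps : Finset K[X]) (F' : K[X]),
      (∀ p ∈ Ps, p.Monic ∧ Irreducible p ∧ ¬ ∃ a : ℂ, p = X - C (algebraMap ℂ K a)) ∧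
      F' = C F.leadingCoeff * ∏ p ∈ Ps, p ∧
      F = F' * (∏ a ∈ A, (X - C a)).map (algebraMap ℂ K) := by
  classical
  set all : Finset K[X] := (normalizedFactors F).toFinset with hall
  have hnodup := (UniqueFactorizationMonoid.squarefree_iff_nodup_normalizedFactors hF0).mp hsq
  have hmem : ∀ p, p ∈ all ↔ Irreducible p ∧ p.Monic ∧ p ∣ F := by
    intro p
    rw [hall, Multiset.mem_toFinset]
    exact Polynomial.mem_normalizedFactors_iff hF0
  have hprod : ∏ p ∈ all, p = (normalizedFactors F).prod := by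
    have h1 : all.val = normalizedFactors F := by
      rw [hall, Multiset.toFinset_val, Multiset.dedup_eq_self.mpr hnodup]
    rw [Finset.prod_eq_multiset_prod, Multiset.map_id', h1]
  set Ps := all.filter fun p => ¬ ∃ a : ℂ, p = X - C (algebraMap ℂ K a) with hPs
  set Cf := all.filter fun p => ∃ a : ℂ, p = X - C (algebraMap ℂ K a) with hCf
  have hCfA : Cf = A.image fun a => X - C (algebraMap ℂ K a) := by
    ext p
    rw [hCf, Finset.mem_filter, Finset.mem_image, hmem]
    constructor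
    · rintro ⟨⟨h1, h2, h3⟩, a, rfl⟩
      refine ⟨a, ?_, rfl⟩
      rw [hA]
      exact dvd_iff_isRoot.mp h3
    · rintro ⟨a, ha, rfl⟩
      exact ⟨⟨irreducible_X_sub_C _, monic_X_sub_C _, dvd_iff_isRoot.mpr ((hA a).mp ha)⟩, a, rfl⟩
  have hCfprod : ∏ p ∈ Cf, p = (∏ a ∈ A, (X - C a)).map (algebraMap ℂ K) := by
    rw [hCfA, Finset.prod_image, Polynomial.map_prod]
    · refine Finset.prod_congr rfl fun a _ => ?_
      rw [Polynomial.map_sub, Polynomial.map_X, Polynomial.map_C]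
    · intro a _ a' _ h
      have h1 : algebraMap ℂ K a = algebraMap ℂ K a' := C_injective (sub_right_injective h)
      exact (algebraMap ℂ K).injective h1
  refine ⟨Ps, C F.leadingCoeff * ∏ p ∈ Ps, p, fun p hp => ?_, rfl, ?_⟩
  · obtain ⟨h1, h2⟩ := Finset.mem_filter.mp hp
    obtain ⟨h3, h4, -⟩ := (hmem p).mp h1
    exact ⟨h4, h3, h2⟩
  · rw [← hCfprod, mul_assoc, hPs, hCf, mul_comm (∏ p ∈ all.filter _, p),
      Finset.prod_filter_mul_prod_filter_not, hprod]
    exact (leadingCoeff_mul_prod_normalizedFactors F).symm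

omit [Algebra ℂ K] in
lemma resultant_ne_zero' {p L : K[X]} (hp : p.Monic) (hirr : Irreducible p) (h : ¬ p ∣ L) {n : ℕ}
    (hn : L.natDegree ≤ n) : resultant p L p.natDegree n ≠ 0 := by
  obtain ⟨m, rfl⟩ := Nat.exists_eq_add_of_le hn
  rw [resultant_add_right_deg _ _ _ _ _ le_rfl, hp.coeff_natDegree, one_pow, one_mul]
  intro h0
  rw [resultant_eq_zero_iff] at h0
  exact h0.2 (hirr.coprime_iff_not_dvd.mpr h)

end Fact

variable {K : Type} [Field K] [Algebra ℂ K] {k : ℕ}

/-- **Log general type from the roots.** -/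
theorem isLogGeneralType_of_roots [Algebra.EssFiniteType ℂ K] {N : ℕ} {x : Fin (N + 1) → K}
    {j₀ : Fin (N + 1)} (hj₀ : x j₀ = 1)
    (halg : Algebra.IsAlgebraic (IntermediateField.adjoin ℂ (Set.range x)) K)
    {J : Fin (k + 1) → Fin (N + 1)} (hz : IsTranscendenceBasis ℂ fun i => x (J i))
    {r d : ℕ} (hd : 0 < d) (hrN : r ≤ N) {t : Fin (N + 1) → ℂ} (ht : Function.Injective t)
    {F : K[X]} (hFdeg : F.natDegree = r) (hsq : Squarefree F)
    (hFx : ∀ j, F.eval (algebraMap ℂ K (t j)) = x j ^ d)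
    {A : Finset ℂ} (hA : ∀ a, a ∈ A ↔ F.eval (algebraMap ℂ K a) = 0)
    {Bd : PrimeDivisorOver K (k + 1) → Prop}
    {Q : K} (hQ : Q ≠ 0) {wQ : ℕ} (hwQ : (2 * d + lc k) * (r - A.card) + 1 ≤ wQ)
    (S : Finset ℂ) (hSA : ∀ w ∈ S, w ∉ A)
    (hQE : ∀ (E : PrimeDivisorOver K (k + 1)) (s : K), s ≠ 0 → (∀ j, 0 ≤ E.ord (x j * s)) →
      (∃ j, E.ord (x j * s) = 0) → ∀ o : ℂ → ℤ,
      (∀ w ∈ S, E.ord (F.eval (algebraMap ℂ K w) * s ^ d) = ((o w : ℤ) : WithTop ℤ)) →
      (∀ w ∈ S, 0 ≤ o w) →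
      (∀ S' ⊆ S, (∀ w ∈ S', 0 < o w) → S'.card ≤ r) →
      (¬ Bd E → E.ord (Q * s ^ wQ) ≤ ((∑ w ∈ S, max (o w - 1) 0 : ℤ) : WithTop ℤ)) ∧
      E.ord (Q * s ^ wQ) ≤ ((∑ w ∈ S, o w : ℤ) : WithTop ℤ)) :
    IsLogGeneralType Bd := by
  classical
  obtain ⟨b, hb⟩ := H23.exists_basis_kaehler hz
  have hF0 : F ≠ 0 := by
    rintro rfl
    have h1 := hFx j₀
    rw [eval_zero, hj₀, one_pow] at h1
    exact zero_ne_one h1
  have hu : F.leadingCoeff ≠ 0 := leadingCoeff_ne_zero.mpr hF0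
  set u := F.leadingCoeff with hudef
  obtain ⟨Ps, F', hPs, hF', hFF'⟩ := exists_moving hF0 hsq hA
  rw [← hudef] at hF'
  set D : ℂ[X] := ∏ a ∈ A, (X - C a) with hD
  have hDmon : D.Monic := monic_prod_of_monic _ _ fun a _ => monic_X_sub_C a
  have hDdeg : D.natDegree = A.card := by
    rw [hD, natDegree_prod_of_monic _ _ fun a _ => monic_X_sub_C a]
    simp
  have hF'0 : F' ≠ 0 := by
    rintro h0
    rw [h0, zero_mul] at hFF'
    exact hF0 hFF'
  set ρ := F'.natDegree with hρ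
  have hρA : ρ + A.card = r := by
    rw [← hFdeg, hFF', natDegree_mul hF'0 (hDmon.map _).ne_zero, natDegree_map, hDdeg]
  have hsq' : Squarefree F' := by
    rw [hFF'] at hsq
    exact hsq.of_mul_left
  have hDev : ∀ w, w ∉ A → D.eval w ≠ 0 := by
    intro w hw
    rw [hD, eval_prod, Finset.prod_ne_zero_iff]
    intro a ha
    rw [eval_sub, eval_X, eval_C, sub_ne_zero]
    rintro rfl
    exact hw ha
  have hFev : ∀ w : ℂ, F.eval (algebraMap ℂ K w) =
      F'.eval (algebraMap ℂ K w) * algebraMap ℂ K (D.eval w) := by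
    intro w
    conv_lhs => rw [hFF', eval_mul]
    rw [eval_map, eval₂_at_apply]
  have hPdvd : ∀ p ∈ Ps, p ∣ F' := fun p hp => by
    rw [hF']
    exact Dvd.dvd.mul_left (Finset.dvd_prod_of_mem _ hp) _
  -- the indices
  have hidx : ∀ p : K[X], ∃ a, p ∈ Ps → ¬ p ∣ mc (dualDer b a) F' := by
    intro p
    by_cases hp : p ∈ Ps
    · obtain ⟨h1, h2, h3⟩ := hPs p hp
      obtain ⟨a, ha⟩ := exists_not_dvd b h1 h2 (hPdvd p hp) hsq' h3
      exact ⟨a, fun _ => ha⟩
    · exact ⟨0, fun h => absurd h hp⟩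
  choose a ha using hidx
  set Θ : K := u ^ ρ * ∏ p ∈ Ps, resultant p (mc (dualDer b (a p)) F') p.natDegree ρ with hΘdef
  have hΘ : Θ ≠ 0 := by
    refine mul_ne_zero (pow_ne_zero _ hu) (Finset.prod_ne_zero_iff.mpr fun p hp => ?_)
    obtain ⟨h1, h2, h3⟩ := hPs p hp
    exact resultant_ne_zero' h1 h2 (ha p hp) (mc_natDegree_le _ _)
  have hdegsum : ρ = ∑ p ∈ Ps, p.natDegree := by
    rw [hρ, hF', natDegree_C_mul hu, natDegree_prod _ _ fun p hp => (hPs p hp).1.ne_zero]
  -- there are moving roots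
  have hρ1 : 1 ≤ ρ := by
    by_contra hcon
    have hρ0 : F'.natDegree = 0 := by omega
    obtain ⟨c, hc⟩ : ∃ c, F' = C c := ⟨F'.coeff 0, eq_C_of_natDegree_eq_zero hρ0⟩
    have hxc : ∀ j, x j ^ d = c * algebraMap ℂ K (D.eval (t j)) := by
      intro j
      rw [← hFx, hFev, hc, eval_C]
    have h1 := hxc j₀
    rw [hj₀, one_pow] at h1
    have hD0 : algebraMap ℂ K (D.eval (t j₀)) ≠ 0 := by
      intro h0
      rw [h0, mul_zero] at h1
      exact one_ne_zero h1
    have hD0' : D.eval (t j₀) ≠ 0 := fun h0 => hD0 (by rw [h0, map_zero])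
    have hcc : c = algebraMap ℂ K (D.eval (t j₀))⁻¹ := by
      rw [map_inv₀]
      exact eq_inv_of_mul_eq_one_left h1.symm
    have h2 : IsAlgebraic ℂ (x (J 0)) := by
      have h3 : IsAlgebraic ℂ (x (J 0) ^ d) := by
        rw [hxc, hcc, ← map_mul]
        exact isAlgebraic_algebraMap _
      exact IsAlgebraic.of_pow hd h3
    exact hz.1.transcendental 0 h2
  have hAr : r - A.card = ρ := by omega
  rw [hAr] at hwQ
  refine isLogGeneralType_of_function hz (b := b) hρ1 hj₀ halg (Θ := Θ / Q)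
    (div_ne_zero hΘ hQ) ?_
  intro E g₀ bE hg₀ hreg hlog hlog0 i
  set v := E.ord with hvdef
  have hv : ∀ c : ℂ, 0 ≤ v (algebraMap ℂ K c) := E.ord_const
  set Δ := (bE.toMatrix b).det with hΔ
  -- the minimal order
  obtain ⟨j₁, -, hj₁⟩ := Finset.exists_min_image (Finset.univ : Finset (Fin (N + 1)))
    (fun j => v (x j)) Finset.univ_nonempty
  have hj₁0 : v (x j₁) ≤ 0 := by
    have h1 := hj₁ j₀ (Finset.mem_univ _)
    rwa [hj₀, v.map_one] at h1
  have hxj₁ : x j₁ ≠ 0 := by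
    intro h0
    rw [h0, v.map_zero, top_le_iff] at hj₁0
    exact absurd hj₁0 (by simp)
  obtain ⟨n, hn⟩ : ∃ n : ℕ, v (x j₁) = ((-(n : ℤ) : ℤ) : WithTop ℤ) := by
    obtain ⟨c, hc⟩ := exists_int' (v := v) hxj₁
    rw [hc] at hj₁0
    have h1 : c ≤ 0 := by exact_mod_cast hj₁0
    refine ⟨c.natAbs, ?_⟩
    rw [hc]
    congr 1
    omega
  have hxn : ∀ j, ((-(n : ℤ) : ℤ) : WithTop ℤ) ≤ v (x j) := fun j => by
    rw [← hn]
    exact hj₁ j (Finset.mem_univ _)
  have hg₀0 : g₀ ≠ 0 := by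
    rintro rfl
    rw [v.map_zero] at hg₀
    exact absurd hg₀ (by simp)
  set s := g₀ ^ n with hs
  have hs0 : s ≠ 0 := pow_ne_zero _ hg₀0
  have hvs : ∀ m : ℕ, v (s ^ m) = ((m * n : ℤ) : WithTop ℤ) := by
    intro m
    have h1 : ∀ m : ℕ, v (g₀ ^ m) = ((m : ℤ) : WithTop ℤ) := by
      intro m
      rw [v.map_pow, hg₀]
      simp
    rw [hs, ← pow_mul, h1]
    congr 1
    push_cast
    ring
  have hvs1 : v s = ((n : ℤ) : WithTop ℤ) := by
    have := hvs 1
    simpa using this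
  have hxs : ∀ j, 0 ≤ v (x j * s) := by
    intro j
    rw [v.map_mul, hvs1]
    have h1 := add_le_add (hxn j) (le_refl ((n : ℤ) : WithTop ℤ))
    refine le_trans (le_of_eq ?_) h1
    have : (-(n : ℤ) + n : ℤ) = 0 := by ring
    exact_mod_cast this.symm
  have hxs1 : v (x j₁ * s) = 0 := by
    rw [v.map_mul, hvs1, hn]
    have : (-(n : ℤ) + n : ℤ) = 0 := by ring
    exact_mod_cast this
  -- the local polynomial
  set Fl : K[X] := C (s ^ d) * F' with hFl
  have hsd : s ^ d ≠ 0 := pow_ne_zero _ hs0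
  have hFldeg : Fl.natDegree = ρ := by rw [hFl, natDegree_C_mul hsd]
  have hFlprod : Fl = C (s ^ d * u) * ∏ p ∈ Ps, p := by
    rw [hFl, hF', C_mul, mul_assoc]
  have hFlev : ∀ w, w ∉ A → v (Fl.eval (algebraMap ℂ K w)) =
      v (F.eval (algebraMap ℂ K w) * s ^ d) := by
    intro w hw
    rw [hFl, eval_mul, eval_C, hFev, v.map_mul, v.map_mul, v.map_mul, val_const hv (hDev w hw),
      add_zero, add_comm]
  have hFlt : ∀ j, t j ∉ A → v (Fl.eval (algebraMap ℂ K (t j))) = d • v (x j * s) := by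
    intro j hj
    rw [hFlev _ hj, hFx, ← mul_pow, v.map_pow]
  have hc0 : ∀ i, 0 ≤ v (Fl.coeff i) := by
    have hcard : ρ + 1 ≤ ((Finset.univ.image t).filter fun w => w ∉ A).card := by
      have h1 : ((Finset.univ.image t).filter fun w => w ∈ A).card ≤ A.card :=
        Finset.card_le_card fun w hw => (Finset.mem_filter.mp hw).2
      have h2 := Finset.card_filter_add_card_filter_not (s := Finset.univ.image t)
        (fun w => w ∈ A)
      have h3 : (Finset.univ.image t).card = N + 1 := by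
        rw [Finset.card_image_of_injective _ ht, Finset.card_univ, Fintype.card_fin]
      omega
    obtain ⟨T, hT, hTcard⟩ := Finset.exists_subset_card_eq hcard
    intro i
    have h1 := coeff_ge_of_eval_ge hv (P := Fl) hFldeg.le T hTcard (a := 0) (fun w hw => by
      obtain ⟨h2, h3⟩ := Finset.mem_filter.mp (hT hw)
      obtain ⟨j, -, rfl⟩ := Finset.mem_image.mp h2
      rw [hFlt j h3]
      exact nsmul_nonneg (hxs j) _) i
    simpa using h1
  have htj₁ : t j₁ ∉ A := by
    intro h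
    rw [hA, hFx] at h
    exact pow_ne_zero _ hxj₁ h
  have hc1 : ∃ i, v (Fl.coeff i) = 0 := by
    by_contra hcon
    push Not at hcon
    have h1 : ∀ i, ((1 : ℤ) : WithTop ℤ) ≤ v (Fl.coeff i) := by
      intro i
      exact H23.one_le_of_pos (lt_of_le_of_ne (hc0 i) (Ne.symm (hcon i)))
    have h2 := val_eval_ge hv h1 (t j₁)
    rw [hFlt j₁ htj₁, hxs1, smul_zero] at h2
    exact absurd h2 (by norm_num)
  -- the local derivations
  set δ : K[X] → Derivation ℂ K K := fun p => Δ • dualDer b (a p) with hδ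
  have hδapp : ∀ p f, δ p f = Δ * dualDer b (a p) f := fun p f => rfl
  have hloss := fun p => localDer_loss (v := v) (z := fun i => x (J i)) hg₀ hreg hlog hlog0 hb
    (a p) (n := n) fun j => hxn _
  set L : K[X] → K[X] := fun p => mc (δ p) Fl with hL
  have hLd : ∀ p ∈ Ps, (L p).natDegree ≤ Fl.natDegree := fun p _ => mc_natDegree_le _ _
  have hLc : ∀ p i, ((-(loss k n : ℤ) : ℤ) : WithTop ℤ) ≤ v ((L p).coeff i) := by
    intro p i
    rw [hL, mc_coeff, hδapp]
    exact (hloss p).1 _ (hc0 i)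
  have hLw : ∀ p (w : ℂ) (m : ℤ), ((m : ℤ) : WithTop ℤ) ≤ v (Fl.eval (algebraMap ℂ K w)) →
      ((m - 1 - (loss k n : ℤ) : ℤ) : WithTop ℤ) ≤ v ((L p).eval (algebraMap ℂ K w)) := by
    intro p w m hm
    rw [hL, mc_eval, hδapp]
    exact (hloss p).2 _ m hm
  have hFlnn : ∀ w : ℂ, 0 ≤ v (Fl.eval (algebraMap ℂ K w)) := by
    intro w
    have h1 := val_eval_ge hv (a := 0) (P := Fl) (by simpa using hc0) w
    simpa using h1
  have hLw' : ∀ p (w : ℂ), ((-(loss k n : ℤ) : ℤ) : WithTop ℤ) ≤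
      v ((L p).eval (algebraMap ℂ K w)) := by
    intro p w
    rw [hL, mc_eval, hδapp]
    exact (hloss p).1 _ (hFlnn w)
  -- the relation of the resultants
  have hres : ∀ p ∈ Ps, resultant p (L p) p.natDegree ρ =
      (s ^ d * Δ) ^ p.natDegree *
        resultant p (mc (dualDer b (a p)) F') p.natDegree ρ := by
    intro p hp
    obtain ⟨G, hG⟩ := hPdvd p hp
    have hp0 := (hPs p hp).1.ne_zero
    have hG0 : G ≠ 0 := by
      rintro rfl
      rw [mul_zero] at hG
      exact hF'0 hG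
    have hGdeg : G.natDegree + p.natDegree = ρ := by
      rw [hρ, hG, natDegree_mul hp0 hG0, add_comm]
    have h1 : L p = C (s ^ d * Δ) * mc (dualDer b (a p)) F' + p * (G * C (δ p (s ^ d))) := by
      have h2 : mc (δ p) F' = C Δ * mc (dualDer b (a p)) F' := by
        have := mc_smul_add (Finset.univ : Finset Unit) (fun _ => Δ) (fun _ => dualDer b (a p))
          (δ' := δ p) (fun f => by rw [hδapp]; simp) F'
        simpa using this
      have h3 : p * (G * C (δ p (s ^ d))) = F' * C (δ p (s ^ d)) := by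
        rw [hG]
        ring
      rw [h3, hL]
      simp only
      rw [hFl, mc_mul, mc_C, h2, C_mul]
      ring
    rw [h1, resultant_add_mul_right, resultant_C_mul_right]
    · refine le_trans (Nat.add_le_add_right (natDegree_mul_C_le _ _) _) hGdeg.le
    · exact le_rfl
  have hΘl : (s ^ d * u) ^ ρ * ∏ p ∈ Ps, resultant p (L p) p.natDegree ρ =
      s ^ (2 * d * ρ) * Δ ^ ρ * Θ := by
    rw [Finset.prod_congr rfl hres, Finset.prod_mul_distrib, Finset.prod_pow_eq_pow_sum,
      ← hdegsum, hΘdef]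
    ring
  -- the orders at the nodes
  have hoex : ∀ w : ℂ, ∃ o : ℤ, w ∉ A → v (Fl.eval (algebraMap ℂ K w)) = ((o : ℤ) : WithTop ℤ) := by
    intro w
    by_cases hw : w ∈ A
    · exact ⟨0, fun h => absurd hw h⟩
    · have h1 : Fl.eval (algebraMap ℂ K w) ≠ 0 := by
        intro h0
        have h2 := hFlev w hw
        rw [h0, v.map_zero] at h2
        have h3 : F.eval (algebraMap ℂ K w) * s ^ d = 0 := v.top_iff.mp h2.symm
        have h4 := (mul_eq_zero.mp h3).resolve_right hsd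
        exact hw ((hA w).mpr h4)
      obtain ⟨o, ho⟩ := exists_int' (v := v) h1
      exact ⟨o, fun _ => ho⟩
  choose o ho using hoex
  have hoS : ∀ w ∈ S, v (Fl.eval (algebraMap ℂ K w)) = ((o w : ℤ) : WithTop ℤ) := fun w hw =>
    ho w (hSA w hw)
  have ho0 : ∀ w ∈ S, 0 ≤ o w := by
    intro w hw
    have h1 := hFlnn w
    rw [hoS w hw] at h1
    exact_mod_cast h1
  have hFS : ∀ w ∈ S, Fl.eval (algebraMap ℂ K w) ≠ 0 := by
    intro w hw h0
    have h1 := hoS w hw
    rw [h0, v.map_zero] at h1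
    exact absurd h1 (by simp)
  have hlarge : ∀ S' ⊆ S, (∀ w ∈ S', 0 < o w) → S'.card ≤ r := by
    intro S' hS' hpos
    obtain ⟨i, hi⟩ := hc1
    have h1 := card_large_le hv hFldeg.le (a := 0) ⟨i, by simpa using hi⟩ S' (fun w hw => by
      rw [hoS w (hS' hw)]
      exact_mod_cast hpos w hw)
    omega
  have hQE' := hQE E s hs0 hxs ⟨j₁, hxs1⟩ o (fun w hw => by
    rw [← hoS w hw, hFlev w (hSA w hw)]) ho0 hlarge
  have hu' : s ^ d * u ≠ 0 := mul_ne_zero hsd hu
  have hmon : ∀ p ∈ Ps, p.Monic := fun p hp => (hPs p hp).1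
  have hest := fun (bb : ℤ) (h : ℂ → ℤ) => theta_loc_ge hv hmon hu' hFlprod hc0 hc1 (b := bb) hLd
    (h := h) (S := S)
  rw [hFldeg, hΘl] at hest
  -- the identity of orders
  obtain ⟨q, hq⟩ := exists_int' (v := v) (mul_ne_zero hQ (pow_ne_zero wQ hs0))
  have hid : v (Θ / Q * x i * Δ ^ ρ) + ((q : ℤ) : WithTop ℤ) +
      (((2 * d * ρ + 1) * n : ℤ) : WithTop ℤ) =
      v (s ^ (2 * d * ρ) * Δ ^ ρ * Θ) + v (x i * s) + ((wQ * n : ℤ) : WithTop ℤ) := by
    have h1 : (Θ / Q * x i * Δ ^ ρ) * (Q * s ^ wQ) * s ^ (2 * d * ρ + 1) =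
        (s ^ (2 * d * ρ) * Δ ^ ρ * Θ) * (x i * s) * s ^ wQ := by
      field_simp
      ring
    have h2 := congrArg v h1
    rw [v.map_mul ((Θ / Q * x i * Δ ^ ρ) * (Q * s ^ wQ)) (s ^ (2 * d * ρ + 1)),
      v.map_mul (Θ / Q * x i * Δ ^ ρ) (Q * s ^ wQ),
      v.map_mul ((s ^ (2 * d * ρ) * Δ ^ ρ * Θ) * (x i * s)) (s ^ wQ),
      v.map_mul (s ^ (2 * d * ρ) * Δ ^ ρ * Θ) (x i * s), hq, hvs, hvs] at h2
    refine Eq.trans ?_ h2
    congr 2
  have hlossn : (loss k n : ℤ) = n * lc k := by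
    rw [loss_eq]
    push_cast
    rfl
  have hwQ' : ((2 * d + lc k) * ρ + 1 : ℤ) ≤ wQ := by exact_mod_cast hwQ
  have hn0 : (0 : ℤ) ≤ n := Nat.cast_nonneg _
  constructor
  · intro hE
    have hqS : q ≤ ∑ w ∈ S, max (o w - 1) 0 := by
      have h1 := hQE'.1 hE
      rw [hq] at h1
      exact_mod_cast h1
    have h1 := hest (-(loss k n : ℤ)) (fun w => max (o w - 1) 0) (fun p _ i => hLc p i)
      (fun w _ => le_max_right _ _) hFS (fun w hw => by
        rw [hoS w hw]
        have := ho0 w hw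
        exact_mod_cast (by omega : max (o w - 1) 0 ≤ o w)) (fun p _ w hw => by
        rcases le_total (o w - 1) 0 with h | h
        · rw [max_eq_right h, add_zero]
          exact hLw' p w
        · rw [max_eq_left h]
          refine le_trans (le_of_eq ?_) (hLw p w (o w) (hoS w hw).ge)
          congr 1
          ring)
    have h2 := wt_cancel (e := 0) hid h1 (hxs i) (by
      rw [hlossn]
      nlinarith only [hwQ, hqS])
    simpa using h2
  · have hqS : q ≤ ∑ w ∈ S, o w := by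
      have h1 := hQE'.2
      rw [hq] at h1
      exact_mod_cast h1
    have h1 := hest (-(loss k n : ℤ) - 1) o (fun p _ i => by
        refine le_trans ?_ (hLc p i)
        exact_mod_cast (by omega : -(loss k n : ℤ) - 1 ≤ -(loss k n : ℤ)))
      ho0 hFS (fun w hw => (hoS w hw).ge) (fun p _ w hw => by
        refine le_trans (le_of_eq ?_) (hLw p w (o w) (hoS w hw).ge)
        congr 1
        ring)
    have h2 := wt_cancel (e := ρ) hid h1 (hxs i) (by
      rw [hlossn]
      nlinarith only [hwQ, hqS])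
    refine le_trans h2 (le_of_eq ?_)
    congr 1

end Pool.Agent.H92.GT
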